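import Mathlib

/-!
Polar coordinates around a point.
-/

open MeasureTheory Metric Set Filter Module
open scoped ENNReal

namespace Pool.Agent.Lib.MP_a785f2_an.LY

variable {X : Type*} [NormedAddCommGroup X] [NormedSpace ℝ X] [FiniteDimensional ℝ X]
  [MeasurableSpace X] [BorelSpace X] (μ : Measure X) [μ.IsAddHaarMeasure]

/-- The radial measure `r^(n-1) dr` on the positive half line. -/
noncomputable def rad (n : ℕ) : Measure ℝ :=
  (volume.restrict (Ioi (0 : ℝ))).withDensity fun r => ENNReal.ofReal (r ^ (n - 1))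

instance (n : ℕ) : SFinite (rad n) := by unfold rad; infer_instance

theorem meas_radw (n : ℕ) : Measurable fun r : ℝ => ENNReal.ofReal (r ^ (n - 1)) := by
  fun_prop

theorem mp_val (n : ℕ) :
    MeasurePreserving (Subtype.val : Ioi (0 : ℝ) → ℝ) (Measure.volumeIoiPow (n - 1)) (rad n) := by
  have he : MeasurableEmbedding (Subtype.val : Ioi (0 : ℝ) → ℝ) :=
    MeasurableEmbedding.subtype_coe measurableSet_Ioi
  refine ⟨measurable_subtype_coe, ?_⟩
  ext s hs
  rw [Measure.map_apply measurable_subtype_coe hs, rad, Measure.volumeIoiPow,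
    withDensity_apply _ hs, withDensity_apply _ (measurable_subtype_coe hs),
    ← lintegral_indicator hs, ← lintegral_indicator (measurable_subtype_coe hs),
    ← lintegral_subtype_comap measurableSet_Ioi]
  refine lintegral_congr fun a => ?_
  by_cases h : (a : ℝ) ∈ s
  · rw [indicator_of_mem h, indicator_of_mem (show a ∈ Subtype.val ⁻¹' s from h)]
  · rw [indicator_of_notMem h, indicator_of_notMem (show a ∉ Subtype.val ⁻¹' s from h)]

omit [FiniteDimensional ℝ X] [MeasurableSpace X] [BorelSpace X] in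
theorem cont_polar (x0 : X) :
    Continuous fun p : ℝ × sphere (0 : X) 1 => x0 + p.1 • (p.2 : X) := by fun_prop

/-- Polar coordinates preserve the measure. -/
theorem mp_polar [Nontrivial X] (x0 : X) :
    MeasurePreserving (fun p : ℝ × sphere (0 : X) 1 => x0 + p.1 • (p.2 : X))
      ((rad (finrank ℝ X)).prod μ.toSphere) μ := by
  have h1 := μ.measurePreserving_homeomorphUnitSphereProd.symm
    (homeomorphUnitSphereProd X).toMeasurableEquiv
  have h2 : MeasurePreserving (Subtype.val : ({0}ᶜ : Set X) → X) (μ.comap (↑)) μ := by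
    have := measurePreserving_subtype_coe (μa := μ) (measurableSet_singleton (0 : X)).compl
    rwa [restrict_compl_singleton] at this
  have h3 := (measurePreserving_add_left μ x0).comp (h2.comp (h1.comp
    (Measure.measurePreserving_swap (μ := Measure.volumeIoiPow (finrank ℝ X - 1))
      (ν := μ.toSphere))))
  have h4 := (mp_val (finrank ℝ X)).prod (MeasurePreserving.id μ.toSphere)
  refine ⟨(cont_polar x0).measurable, ?_⟩
  rw [← h4.map_eq, Measure.map_map (cont_polar x0).measurable h4.measurable]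
  exact h3.map_eq

theorem lintegral_rad (n : ℕ) {g : ℝ → ℝ≥0∞} (hg : AEMeasurable g (volume.restrict (Ioi 0))) :
    ∫⁻ r, g r ∂rad n = ∫⁻ r in Ioi (0 : ℝ), ENNReal.ofReal (r ^ (n - 1)) * g r := by
  rw [rad, lintegral_withDensity_eq_lintegral_mul₀ (meas_radw n).aemeasurable hg]
  rfl

theorem integral_rad {F : Type*} [NormedAddCommGroup F] [NormedSpace ℝ F] (n : ℕ) (g : ℝ → F) :
    ∫ r, g r ∂rad n = ∫ r in Ioi (0 : ℝ), r ^ (n - 1) • g r := by
  rw [rad, integral_withDensity_eq_integral_toReal_smul (meas_radw n)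
    (Eventually.of_forall fun _ => ENNReal.ofReal_lt_top)]
  refine setIntegral_congr_fun measurableSet_Ioi fun r hr => ?_
  have : 0 ≤ r ^ (n - 1) := pow_nonneg (le_of_lt hr) _
  simp only [ENNReal.toReal_ofReal this]

theorem integrable_rad {F : Type*} [NormedAddCommGroup F] [NormedSpace ℝ F] (n : ℕ) (g : ℝ → F) :
    Integrable g (rad n) ↔ IntegrableOn (fun r => r ^ (n - 1) • g r) (Ioi 0) := by
  rw [rad, integrable_withDensity_iff_integrable_smul' (meas_radw n)
    (Eventually.of_forall fun _ => ENNReal.ofReal_lt_top)]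
  refine integrableOn_congr_fun (fun r hr => ?_) measurableSet_Ioi
  have : 0 ≤ r ^ (n - 1) := pow_nonneg (le_of_lt hr) _
  simp only [ENNReal.toReal_ofReal this]

theorem ae_rad (n : ℕ) {p : ℝ → Prop} : (∀ᵐ r ∂rad n, p r) ↔ ∀ᵐ r : ℝ, 0 < r → p r := by
  rw [rad, ae_withDensity_iff (meas_radw n), ae_restrict_iff' measurableSet_Ioi]
  refine eventually_congr (Eventually.of_forall fun r => ?_)
  refine ⟨fun h hr => h hr ?_, fun h hr _ => h hr⟩
  exact (ENNReal.ofReal_pos.2 (pow_pos hr _)).ne'

/-- Polar formula for the lower integral. -/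
theorem lintegral_polar [Nontrivial X] (x0 : X) {f : X → ℝ≥0∞} (hf : Measurable f) :
    ∫⁻ x, f x ∂μ = ∫⁻ r in Ioi (0 : ℝ), ENNReal.ofReal (r ^ (finrank ℝ X - 1)) *
      ∫⁻ θ, f (x0 + r • (θ : X)) ∂μ.toSphere := by
  have hm : Measurable fun p : ℝ × sphere (0 : X) 1 => f (x0 + p.1 • (p.2 : X)) :=
    hf.comp (cont_polar x0).measurable
  rw [← (mp_polar μ x0).lintegral_comp hf, lintegral_prod _ hm.aemeasurable,
    lintegral_rad _ hm.lintegral_prod_right'.aemeasurable]

theorem integrable_polar {F : Type*} [NormedAddCommGroup F] [Nontrivial X] (x0 : X) {f : X → F}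
    (hf : Integrable f μ) :
    Integrable (fun p : ℝ × sphere (0 : X) 1 => f (x0 + p.1 • (p.2 : X)))
      ((rad (finrank ℝ X)).prod μ.toSphere) :=
  (mp_polar μ x0).integrable_comp_of_integrable hf

/-- Polar formula for the Bochner integral. -/
theorem integral_polar {F : Type*} [NormedAddCommGroup F] [NormedSpace ℝ F] [Nontrivial X]
    (x0 : X) {f : X → F} (hf : Integrable f μ) :
    ∫ x, f x ∂μ = ∫ r in Ioi (0 : ℝ), r ^ (finrank ℝ X - 1) •
      ∫ θ, f (x0 + r • (θ : X)) ∂μ.toSphere := by
  have h1 := integral_prod _ (integrable_polar μ x0 hf)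
  rw [integral_rad] at h1
  rw [← h1]
  have h2 := mp_polar μ x0
  have h3 := integral_map (μ := (rad (finrank ℝ X)).prod μ.toSphere) h2.measurable.aemeasurable
    (f := f) (by rw [h2.map_eq]; exact hf.1)
  rw [h2.map_eq] at h3
  exact h3

/-- The radial integrand of the polar formula is integrable. -/
theorem integrableOn_polar {F : Type*} [NormedAddCommGroup F] [NormedSpace ℝ F] [Nontrivial X]
    (x0 : X) {f : X → F} (hf : Integrable f μ) :
    IntegrableOn (fun r : ℝ => r ^ (finrank ℝ X - 1) •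
      ∫ θ, f (x0 + r • (θ : X)) ∂μ.toSphere) (Ioi 0) :=
  (integrable_rad _ _).1 (integrable_polar μ x0 hf).integral_prod_left

/-- Almost every slice of an integrable function is integrable. -/
theorem ae_slice_integrable {F : Type*} [NormedAddCommGroup F] [Nontrivial X] (x0 : X) {f : X → F}
    (hf : Integrable f μ) :
    ∀ᵐ r : ℝ, 0 < r → Integrable (fun θ : sphere (0 : X) 1 => f (x0 + r • (θ : X))) μ.toSphere :=
  (ae_rad _).1 (integrable_polar μ x0 hf).prod_right_ae

/-- A property that holds almost everywhere holds almost everywhere on almost every sphere. -/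
theorem ae_slice [Nontrivial X] (x0 : X) {p : X → Prop} (hp : ∀ᵐ x ∂μ, p x) :
    ∀ᵐ r : ℝ, 0 < r → ∀ᵐ θ : sphere (0 : X) 1 ∂μ.toSphere, p (x0 + r • (θ : X)) :=
  (ae_rad _).1 (Measure.ae_ae_of_ae_prod ((mp_polar μ x0).quasiMeasurePreserving.ae hp))

end Pool.Agent.Lib.MP_a785f2_an.LY
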