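import Pool.Agent.Lib.MP_a785f2_an.Defs
import Pool.Agent.Lib.MP_a785f2_an.LY.Polar

/-!
Polar coordinates around a point and the divergence theorem on almost every ball.
-/

open MeasureTheory Metric Set Filter Topology
open scoped ContDiff RealInnerProductSpace ENNReal

namespace Pool.Agent.Lib.MP_a785f2_an.LY

variable {n : ℕ} {W : Type} [NormedAddCommGroup W] [NormedSpace ℝ W]

theorem nontriv (hn : 1 ≤ n) : Nontrivial (E n) := by
  have : Nonempty (Fin n) := ⟨⟨0, hn⟩⟩
  infer_instance

/-- A property that holds almost everywhere holds almost everywhere on almost every sphere. -/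
theorem polar_ae (hn : 1 ≤ n) (c : E n) {p : E n → Prop} (h : ∀ᵐ x, p x) :
    ∀ᵐ r : ℝ, 0 < r → ∀ᵐ θ : sphere (0 : E n) 1 ∂(volume : Measure (E n)).toSphere,
      p (c + r • (θ : E n)) := by
  have := nontriv hn
  exact ae_slice volume c h

omit [NormedSpace ℝ W] in
/-- Slices of an integrable function are integrable. -/
theorem polar_slice (hn : 1 ≤ n) (c : E n) {φ : E n → W} (h : Integrable φ) :
    ∀ᵐ r : ℝ, 0 < r →
      Integrable (fun θ : sphere (0 : E n) 1 => φ (c + r • (θ : E n)))
        (volume : Measure (E n)).toSphere := by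
  have := nontriv hn
  exact ae_slice_integrable volume c h

/-- The radial density of an integrable function is integrable. -/
theorem polar_dens (hn : 1 ≤ n) (c : E n) {φ : E n → W} (h : Integrable φ) :
    IntegrableOn (fun r : ℝ => r ^ (n - 1) •
      ∫ θ, φ (c + r • (θ : E n)) ∂(volume : Measure (E n)).toSphere) (Ioi 0) := by
  have := nontriv hn
  simpa only [finrank_euclideanSpace_fin] using integrableOn_polar volume c h

/-- Integration in polar coordinates. -/
theorem polar_integral (hn : 1 ≤ n) (c : E n) {φ : E n → W} (h : Integrable φ) :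
    ∫ x, φ x = ∫ r in Ioi (0 : ℝ), r ^ (n - 1) •
      ∫ θ, φ (c + r • (θ : E n)) ∂(volume : Measure (E n)).toSphere := by
  have := nontriv hn
  simpa only [finrank_euclideanSpace_fin] using integral_polar volume c h

theorem polar_norm (c : E n) {r : ℝ} (hr : 0 ≤ r) (θ : sphere (0 : E n) 1) :
    ‖c + r • (θ : E n) - c‖ = r := by
  rw [add_sub_cancel_left, norm_smul, norm_eq_of_mem_sphere θ, mul_one, Real.norm_of_nonneg hr]

/-- Integration over a set of radii. -/
theorem polar_set (hn : 1 ≤ n) (c : E n) {φ : E n → W} (h : Integrable φ) {S : Set ℝ}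
    (hS : MeasurableSet S) :
    ∫ x in {x | ‖x - c‖ ∈ S}, φ x = ∫ r in Ioi (0 : ℝ) ∩ S, r ^ (n - 1) •
      ∫ θ, φ (c + r • (θ : E n)) ∂(volume : Measure (E n)).toSphere := by
  have hm : MeasurableSet {x : E n | ‖x - c‖ ∈ S} :=
    (by fun_prop : Measurable fun x : E n => ‖x - c‖) hS
  rw [← integral_indicator hm, polar_integral hn c (h.indicator hm), inter_comm,
    ← Measure.restrict_restrict hS, ← integral_indicator hS]
  refine setIntegral_congr_fun measurableSet_Ioi fun r hr => ?_
  by_cases hr2 : r ∈ S
  · rw [indicator_of_mem hr2]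
    congr 2
    funext θ
    exact indicator_of_mem (by rwa [mem_ofPred_eq, polar_norm c (le_of_lt hr)]) _
  · rw [indicator_of_notMem hr2]
    have : ∀ θ : sphere (0 : E n) 1,
        {x : E n | ‖x - c‖ ∈ S}.indicator φ (c + r • (θ : E n)) = 0 := fun θ =>
      indicator_of_notMem (by rwa [mem_ofPred_eq, polar_norm c (le_of_lt hr)]) _
    simp only [this, integral_zero, smul_zero]

/-- Integration over a ball. -/
theorem polar_ball (hn : 1 ≤ n) (c : E n) {φ : E n → W} (h : Integrable φ) {s : ℝ}
    (hs : 0 ≤ s) :
    ∫ x in ball c s, φ x = ∫ r in (0 : ℝ)..s, r ^ (n - 1) •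
      ∫ θ, φ (c + r • (θ : E n)) ∂(volume : Measure (E n)).toSphere := by
  have e : ball c s = {x | ‖x - c‖ ∈ Iio s} := by
    ext x; simp [dist_eq_norm]
  rw [e, polar_set hn c h measurableSet_Iio, intervalIntegral.integral_of_le hs,
    integral_Ioc_eq_integral_Ioo, Ioi_inter_Iio]

theorem polar_ii (hn : 1 ≤ n) (c : E n) {φ : E n → W} (h : Integrable φ) {a b : ℝ}
    (ha : 0 ≤ a) (hb : 0 ≤ b) :
    IntervalIntegrable (fun r : ℝ => r ^ (n - 1) •
      ∫ θ, φ (c + r • (θ : E n)) ∂(volume : Measure (E n)).toSphere) volume a b :=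
  intervalIntegrable_iff.2 ((polar_dens hn c h).mono_set fun _ hr =>
    lt_of_le_of_lt (le_min ha hb) hr.1)

/-- The integral over the ball is differentiable in the radius almost everywhere. -/
theorem polar_deriv [CompleteSpace W] (hn : 1 ≤ n) (c : E n) {φ : E n → W} (h : Integrable φ) :
    ∀ᵐ s : ℝ, 0 < s → HasDerivAt (fun s => ∫ x in ball c s, φ x) (s ^ (n - 1) •
      ∫ θ, φ (c + s • (θ : E n)) ∂(volume : Measure (E n)).toSphere) s := by
  set ψ : ℝ → W := fun r => r ^ (n - 1) •
    ∫ θ, φ (c + r • (θ : E n)) ∂(volume : Measure (E n)).toSphere with hψ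
  have i1 : Integrable ((Ioi (0 : ℝ)).indicator ψ) :=
    (integrable_indicator_iff measurableSet_Ioi).2 (polar_dens hn c h)
  filter_upwards [_root_.LocallyIntegrable.ae_hasDerivAt_integral i1.locallyIntegrable] with s hs h0
  have h1 := hs 0
  rw [indicator_of_mem (show s ∈ Ioi (0 : ℝ) from h0)] at h1
  refine h1.congr_of_eventuallyEq ?_
  filter_upwards [Ioi_mem_nhds h0] with t ht
  rw [polar_ball hn c h (le_of_lt ht)]
  refine intervalIntegral.integral_congr_ae (ae_of_all _ fun r hr => ?_)
  rw [uIoc_of_le (le_of_lt ht)] at hr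
  exact (indicator_of_mem (show r ∈ Ioi (0 : ℝ) from hr.1) ψ).symm

/-- The integral over the ball is continuous in the radius. -/
theorem polar_cont (hn : 1 ≤ n) (c : E n) {φ : E n → W} (h : Integrable φ) :
    ContinuousOn (fun s => ∫ x in ball c s, φ x) (Ici 0) := by
  set ψ : ℝ → W := fun r => r ^ (n - 1) •
    ∫ θ, φ (c + r • (θ : E n)) ∂(volume : Measure (E n)).toSphere with hψ
  have i1 : Integrable ((Ioi (0 : ℝ)).indicator ψ) :=
    (integrable_indicator_iff measurableSet_Ioi).2 (polar_dens hn c h)
  refine (i1.continuous_primitive 0).continuousOn.congr fun t ht => ?_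
  rw [polar_ball hn c h ht]
  refine intervalIntegral.integral_congr_ae (ae_of_all _ fun r hr => ?_)
  rw [uIoc_of_le ht] at hr
  exact (indicator_of_mem (show r ∈ Ioi (0 : ℝ) from hr.1) ψ).symm

theorem apply_int {A : E n → E n →L[ℝ] W} (hA : Integrable A) {v : E n → E n}
    (hv : AEStronglyMeasurable v volume) {C : ℝ} (hC : ∀ x, ‖v x‖ ≤ C) :
    Integrable fun x => A x (v x) := by
  refine (hA.norm.mul_const C).mono'
    ((isBoundedBilinearMap_apply (𝕜 := ℝ) (E := E n) (F := W)).continuous.comp_aestronglyMeasurable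
      (hA.1.prodMk hv)) (ae_of_all _ fun x => ?_)
  exact ((A x).le_opNorm _).trans (mul_le_mul_of_nonneg_left (hC x) (norm_nonneg _))

/-- The normal component of an integrable field has an integrable radial density. -/
theorem flux_dens (hn : 1 ≤ n) (c : E n) {A : E n → E n →L[ℝ] W} (hA : Integrable A) :
    IntegrableOn (fun r : ℝ => r ^ (n - 1) •
      ∫ θ, A (c + r • (θ : E n)) θ ∂(volume : Measure (E n)).toSphere) (Ioi 0) := by
  have h1 : Integrable fun x => A x (‖x - c‖⁻¹ • (x - c)) := by
    refine apply_int hA (Measurable.aestronglyMeasurable (by fun_prop)) (C := 1) fun x => ?_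
    rw [norm_smul, norm_inv, norm_norm]
    exact inv_mul_le_one_of_le₀ le_rfl (norm_nonneg _)
  refine (polar_dens hn c h1).congr_fun (fun r hr => ?_) measurableSet_Ioi
  beta_reduce
  congr 2
  funext θ
  rw [polar_norm c (le_of_lt hr), add_sub_cancel_left, smul_smul,
    inv_mul_cancel₀ (ne_of_gt hr), one_smul]

/-- The radial test function with a given profile of the derivative. -/
theorem radial_test (c : E n) {R : ℝ} {η : ℝ → ℝ} (h1 : ContDiff ℝ ∞ η)
    (h2 : HasCompactSupport η) (h3 : tsupport η ⊆ Ioo 0 R) :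
    ∃ φ : E n → ℝ, ContDiff ℝ ∞ φ ∧ HasCompactSupport φ ∧ tsupport φ ⊆ ball c R ∧
      (∀ x, φ x = ∫ s in Ioi ‖x - c‖, η s) ∧
      ∀ r : ℝ, 0 < r → ∀ θ : sphere (0 : E n) 1,
        gradient φ (c + r • (θ : E n)) = -η r • (θ : E n) := by
  obtain ⟨δ, δ0, hδ⟩ := h2.isCompact.exists_cthickening_subset_open isOpen_Ioo h3
  have hz : ∀ t, t ≤ δ ∨ R - δ ≤ t → η t = 0 := fun t ht => by
    by_contra hne
    have hm : t ∈ tsupport η := subset_tsupport _ hne
    have a1 := hδ (mem_cthickening_of_dist_le (t - δ) t δ _ hm
      (by rw [Real.dist_eq, sub_sub_cancel_left, abs_neg, abs_of_pos δ0]))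
    have a2 := hδ (mem_cthickening_of_dist_le (t + δ) t δ _ hm
      (by rw [Real.dist_eq, add_sub_cancel_left, abs_of_pos δ0]))
    rcases ht with ht | ht
    · linarith [a1.1]
    · linarith [a2.2]
  have cη := h1.continuous
  set Ψ : ℝ → ℝ := fun s => ∫ t in s..R, η t with hΨ
  have dΨ : ∀ s, HasDerivAt Ψ (-η s) s := fun s =>
    intervalIntegral.integral_hasDerivAt_left (cη.intervalIntegrable _ _)
      (cη.stronglyMeasurableAtFilter _ _) cη.continuousAt
  have sΨ : ContDiff ℝ ∞ Ψ := by
    rw [contDiff_infty_iff_deriv]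
    refine ⟨fun s => (dΨ s).differentiableAt, ?_⟩
    have : deriv Ψ = fun s => -η s := funext fun s => (dΨ s).deriv
    rw [this]
    exact h1.neg
  have z1 : ∀ s, R - δ ≤ s → Ψ s = 0 := fun s hs => by
    rw [hΨ]
    refine (intervalIntegral.integral_congr (g := fun _ => 0) fun t ht => ?_).trans (by simp)
    exact hz t (Or.inr (le_trans (le_min hs (by linarith)) ht.1))
  have z2 : ∀ s, s ≤ δ → Ψ s = Ψ 0 := fun s hs => by
    have e := intervalIntegral.integral_add_adjacent_intervals
      (cη.intervalIntegrable (μ := volume) s 0) (cη.intervalIntegrable 0 R)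
    have e0 : ∫ t in s..0, η t = 0 :=
      (intervalIntegral.integral_congr (g := fun _ => 0) fun t ht =>
        hz t (Or.inl (ht.2.trans (max_le hs δ0.le)))).trans (by simp)
    rw [e0, zero_add] at e
    exact e.symm
  have hs : tsupport (fun x : E n => Ψ ‖x - c‖) ⊆ closedBall c (R - δ) := by
    refine closure_minimal (fun x hx => ?_) isClosed_closedBall
    by_contra hn
    rw [mem_closedBall, dist_eq_norm, not_le] at hn
    exact hx (z1 _ hn.le)
  refine ⟨fun x => Ψ ‖x - c‖, ?_, ?_, hs.trans (closedBall_subset_ball (by linarith)),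
    fun x => ?_, fun r hr θ => ?_⟩
  · rw [contDiff_iff_contDiffAt]
    intro x
    by_cases hx : x = c
    · refine (contDiffAt_const (c := Ψ 0)).congr_of_eventuallyEq ?_
      filter_upwards [ball_mem_nhds x δ0] with y hy
      rw [hx, mem_ball, dist_eq_norm] at hy
      exact z2 _ hy.le
    · exact sΨ.contDiffAt.comp x
        ((contDiffAt_id.sub contDiffAt_const).norm ℝ (sub_ne_zero.2 hx))
  · exact (isCompact_closedBall c (R - δ)).of_isClosed_subset (isClosed_tsupport _) hs
  · rcases le_total ‖x - c‖ R with h | h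
    · rw [hΨ]
      simp only
      rw [intervalIntegral.integral_of_le h]
      refine (setIntegral_eq_of_subset_of_forall_sdiff_eq_zero measurableSet_Ioi
        Ioc_subset_Ioi_self fun t ht => hz t (Or.inr ?_)).symm
      have : ¬ t ≤ R := fun h4 => ht.2 ⟨ht.1, h4⟩
      linarith [not_le.1 this]
    · beta_reduce
      rw [z1 _ (by linarith)]
      refine (setIntegral_eq_zero_of_forall_eq_zero fun t ht => hz t (Or.inr ?_)).symm
      have : ‖x - c‖ < t := ht
      linarith
  · set x := c + r • (θ : E n) with hx
    have hr2 : ‖x - c‖ = r := polar_norm c hr.le θ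
    have hxc : x - c = r • (θ : E n) := add_sub_cancel_left _ _
    have d1 : HasFDerivAt (fun y : E n => ‖y - c‖ ^ 2) _ x :=
      ((hasFDerivAt_id x).sub_const c).norm_sq
    have d2 := d1.sqrt (by rw [hr2]; positivity)
    simp only [Real.sqrt_sq (norm_nonneg _)] at d2
    have d3 := (dΨ ‖x - c‖).comp_hasFDerivAt x d2
    have d4 : HasGradientAt (fun y : E n => Ψ ‖y - c‖) (-η r • (θ : E n)) x := by
      rw [hasGradientAt_iff_hasFDerivAt]
      refine d3.congr_fderiv ?_
      ext v
      simp only [id]
      rw [hr2, hxc]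
      simp only [InnerProductSpace.toDual_apply_apply, inner_smul_left,
        smul_apply, ContinuousLinearMap.comp_apply, innerSL_apply_apply,
        ContinuousLinearMap.id_apply, conj_trivial, smul_eq_mul, nsmul_eq_mul]
      field_simp
      norm_num
    exact d4.gradient

/-- The divergence theorem on almost every ball around a point. -/
theorem div_ball [CompleteSpace W] (hn : 1 ≤ n) (c : E n) {R : ℝ} {A : E n → E n →L[ℝ] W}
    {d : E n → W} (hA : Integrable A) (hd : Integrable d)
    (h : ∀ φ : E n → ℝ, ContDiff ℝ ∞ φ → HasCompactSupport φ → tsupport φ ⊆ ball c R →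
      ∫ x, A x (gradient φ x) = -∫ x, φ x • d x) :
    ∀ᵐ s : ℝ, s ∈ Ioo 0 R → ∫ x in ball c s, d x = s ^ (n - 1) •
      ∫ θ, A (c + s • (θ : E n)) θ ∂(volume : Measure (E n)).toSphere := by
  set D : ℝ → W := fun s => s ^ (n - 1) •
    ∫ θ, A (c + s • (θ : E n)) θ ∂(volume : Measure (E n)).toSphere with hD
  have iD : IntegrableOn D (Ioi 0) := flux_dens hn c hA
  have l1 : LocallyIntegrableOn (fun s => ∫ x in ball c s, d x) (Ioo 0 R) :=
    ((polar_cont hn c hd).mono fun s hs => le_of_lt hs.1).locallyIntegrableOn measurableSet_Ioo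
  have l2 : LocallyIntegrableOn D (Ioo 0 R) :=
    (iD.mono_set Ioo_subset_Ioi_self).locallyIntegrableOn
  have key := isOpen_Ioo.ae_eq_zero_of_integral_contDiff_smul_eq_zero (μ := volume)
    (l1.sub l2) fun η h1 h2 h3 => by
      obtain ⟨φ, p1, p2, p3, p4, p5⟩ := radial_test c h1 h2 h3
      have e := h φ p1 p2 p3
      have cη := h1.continuous
      have iη : Integrable η := cη.integrable_of_hasCompactSupport h2
      obtain ⟨B, hB⟩ := cη.bounded_above_of_compact_support h2
      have hz : ∀ s, s ∉ Ioi (0 : ℝ) → η s = 0 := fun s hs =>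
        image_eq_zero_of_notMem_tsupport fun h4 => hs (h3 h4).1
      have cg : Continuous (gradient φ) :=
        (InnerProductSpace.toDual ℝ (E n)).symm.continuous.comp (p1.continuous_fderiv (by simp))
      have sg : HasCompactSupport (gradient φ) :=
        (p2.fderiv ℝ).comp_left (g := (InnerProductSpace.toDual ℝ (E n)).symm) (map_zero _)
      obtain ⟨C, hC⟩ := cg.bounded_above_of_compact_support sg
      have e1 : ∫ x, A x (gradient φ x) = -∫ s, η s • D s := by
        rw [polar_integral hn c (apply_int hA cg.aestronglyMeasurable hC),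
          ← setIntegral_eq_integral_of_forall_compl_eq_zero (s := Ioi (0 : ℝ))
            (f := fun s => η s • D s) (fun s hs => by rw [hz s hs, zero_smul]), ← integral_neg]
        refine setIntegral_congr_fun measurableSet_Ioi fun r hr => ?_
        simp only [p5 r hr, map_smul, integral_smul, hD]
        rw [smul_comm, neg_smul]
      have hm : MeasurableSet {p : E n × ℝ | ‖p.1 - c‖ < p.2} :=
        measurableSet_lt (by fun_prop) measurable_snd
      have i3 : Integrable ({p : E n × ℝ | ‖p.1 - c‖ < p.2}.indicator fun p => η p.2 • d p.1)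
          ((volume : Measure (E n)).prod volume) := by
        refine Integrable.indicator ?_ hm
        exact (iη.smul_prod hd).swap
      have e2 : ∫ x, φ x • d x = ∫ s, η s • ∫ x in ball c s, d x := by
        have f1 := integral_integral_swap (μ := (volume : Measure (E n))) (ν := volume)
          (f := fun x s => {p : E n × ℝ | ‖p.1 - c‖ < p.2}.indicator
            (fun p => η p.2 • d p.1) (x, s)) i3
        refine Eq.trans ?_ (f1.trans ?_)
        · refine integral_congr_ae (ae_of_all _ fun x => ?_)
          simp only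
          rw [p4, ← integral_smul_const, ← integral_indicator measurableSet_Ioi]
          rfl
        · refine integral_congr_ae (ae_of_all _ fun s => ?_)
          simp only
          rw [← integral_smul, ← integral_indicator measurableSet_ball]
          refine integral_congr_ae (ae_of_all _ fun x => ?_)
          simp only [indicator, mem_ofPred_eq, mem_ball, dist_eq_norm]
      have i4 : Integrable fun s => η s • D s := by
        rw [← integrableOn_iff_integrable_of_support_subset (s := Ioi (0 : ℝ))
          fun s hs => by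
            by_contra h4
            exact hs (by simp only [hz s h4, zero_smul])]
        exact iD.bdd_smul B cη.aestronglyMeasurable (ae_of_all _ hB)
      have i5 : Integrable fun s => η s • ∫ x in ball c s, d x := by
        refine i3.integral_prod_right.congr (ae_of_all _ fun s => ?_)
        simp only
        rw [← integral_smul, ← integral_indicator measurableSet_ball]
        refine integral_congr_ae (ae_of_all _ fun x => ?_)
        simp only [indicator, mem_ofPred_eq, mem_ball, dist_eq_norm]
      simp only [Pi.sub_apply, smul_sub]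
      rw [integral_sub i5 i4, ← e2, sub_eq_zero]
      rw [e1] at e
      exact (neg_injective e).symm
  filter_upwards [key] with s hs h0
  exact sub_eq_zero.1 (hs h0)

end Pool.Agent.Lib.MP_a785f2_an.LY
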