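import Pool.Agent.Lib.MP_a785f2_an.LY.SphP

/-!
The Poincare inequality on almost every sphere for limits of maps of class one.
-/

open MeasureTheory Metric Set Filter Module Topology
open scoped ENNReal RealInnerProductSpace

namespace Pool.Agent.Lib.MP_a785f2_an.LY

theorem enn_sq_add (a b : ℝ≥0∞) : (a + b) ^ 2 ≤ 2 * a ^ 2 + 2 * b ^ 2 := by
  have h := ENNReal.rpow_add_le_mul_rpow_add_rpow a b (p := 2) one_le_two
  have e : (2 : ℝ≥0∞) ^ ((2 : ℝ) - 1) = 2 := by norm_num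
  rw [e, ENNReal.rpow_two, ENNReal.rpow_two, ENNReal.rpow_two, mul_add] at h
  exact h

theorem lint_sq_prob {Y : Type*} [MeasurableSpace Y] (ν : Measure Y) [IsProbabilityMeasure ν]
    {h : Y → ℝ≥0∞} (hh : AEMeasurable h ν) : (∫⁻ t, h t ∂ν) ^ 2 ≤ ∫⁻ t, h t ^ 2 ∂ν := by
  have h1 := ENNReal.lintegral_mul_le_Lp_mul_Lq ν
    Real.HolderConjugate.two_two hh (g := fun _ => 1) aemeasurable_const
  simp only [Pi.mul_apply, mul_one, ENNReal.one_rpow, lintegral_const, measure_univ,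
    ENNReal.rpow_two, one_pow] at h1
  refine (pow_le_pow_left' h1 2).trans (le_of_eq ?_)
  rw [← ENNReal.rpow_two, ← ENNReal.rpow_mul]; simp

/-- The variance is bounded by the two point integral. -/
theorem var_le_two {Y F : Type*} [MeasurableSpace Y] [NormedAddCommGroup F] [NormedSpace ℝ F]
    [CompleteSpace F] (ν : Measure Y) [IsProbabilityMeasure ν] {U : Y → F} (hU : Integrable U ν) :
    ∫⁻ x, ‖U x - ∫ y, U y ∂ν‖ₑ ^ 2 ∂ν ≤ ∫⁻ x, ∫⁻ y, ‖U y - U x‖ₑ ^ 2 ∂ν ∂ν := by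
  refine lintegral_mono fun x => ?_
  have e : U x - ∫ y, U y ∂ν = -∫ y, (U y - U x) ∂ν := by
    rw [integral_sub hU (integrable_const _)]; simp
  rw [e, enorm_neg]
  exact (pow_le_pow_left' (enorm_integral_le_lintegral_enorm _) 2).trans
    (lint_sq_prob ν (hU.1.sub aestronglyMeasurable_const).enorm)

variable {X : Type*} [NormedAddCommGroup X] [InnerProductSpace ℝ X]
  {F : Type*} [NormedAddCommGroup F] [NormedSpace ℝ F]
  [FiniteDimensional ℝ X] [MeasurableSpace X] [BorelSpace X] (μ : Measure X) [μ.IsAddHaarMeasure]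

/-- If the integrals over a ball tend to zero, then on almost every sphere the slice integrals
are arbitrarily small. -/
theorem ae_slice_small [Nontrivial X] (x0 : X) (R : ℝ) {e : ℕ → X → ℝ≥0∞}
    (me : ∀ k, Measurable (e k))
    (he : Tendsto (fun k => ∫⁻ x in ball x0 R, e k x ∂μ) atTop (𝓝 0)) :
    ∀ᵐ s : ℝ, s ∈ Ioo 0 R → ∀ ε : ℝ≥0∞, 0 < ε →
      ∃ k, ∫⁻ θ : sphere (0 : X) 1, e k (x0 + s • (θ : X)) ∂μ.toSphere < ε := by
  obtain ⟨E, hE⟩ : ∃ E : ℕ → ℝ → ℝ≥0∞, E = fun k s => ∫⁻ θ : sphere (0 : X) 1,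
      (ball x0 R).indicator (e k) (x0 + s • (θ : X)) ∂μ.toSphere := ⟨_, rfl⟩
  have m1 : ∀ k, Measurable fun p : ℝ × sphere (0 : X) 1 =>
      (ball x0 R).indicator (e k) (x0 + p.1 • (p.2 : X)) := fun k =>
    ((me k).indicator measurableSet_ball).comp (cont_polar x0).measurable
  have mE : ∀ k, Measurable (E k) := fun k => by rw [hE]; exact (m1 k).lintegral_prod_right'
  have e1 : ∀ k, ∫⁻ s, E k s ∂rad (finrank ℝ X) = ∫⁻ x in ball x0 R, e k x ∂μ := fun k => by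
    rw [← lintegral_indicator measurableSet_ball,
      ← (mp_polar μ x0).lintegral_comp ((me k).indicator measurableSet_ball),
      lintegral_prod _ (m1 k).aemeasurable, hE]
  have h1 := lintegral_liminf_le (μ := rad (finrank ℝ X)) (u := atTop) mE
  simp only [e1] at h1
  rw [he.liminf_eq, nonpos_iff_eq_zero, lintegral_eq_zero_iff (Measurable.liminf mE)] at h1
  filter_upwards [(ae_rad _).1 h1] with s hs hm ε ε0
  have h2 : liminf (fun k => E k s) atTop < ε := by rw [hs hm.1]; exact ε0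
  obtain ⟨k, hk⟩ := (frequently_lt_of_liminf_lt (h := h2)).exists
  refine ⟨k, lt_of_eq_of_lt ?_ hk⟩
  rw [hE]
  refine lintegral_congr fun θ => (indicator_of_mem ?_ _).symm
  rw [mem_ball_iff_norm, add_sub_cancel_left, norm_smul, norm_eq_of_mem_sphere,
    Real.norm_of_nonneg hm.1.le, mul_one]
  exact hm.2

/-- One approximation step on one sphere. -/
theorem sphere_step (hn : 3 ≤ finrank ℝ X) : ∃ C : ℝ≥0∞, C ≠ ∞ ∧ ∀ (w : X → F)
    (U : sphere (0 : X) 1 → F) (A : sphere (0 : X) 1 → X →L[ℝ] F) (D : sphere (0 : X) 1 → ℝ),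
    ContDiff ℝ 1 w → (Measurable fun θ : sphere (0 : X) 1 => ‖w θ - U θ‖ₑ ^ 2) →
    (Measurable fun θ : sphere (0 : X) 1 => ‖fderiv ℝ w θ - A θ‖ₑ ^ 2) → (∀ θ, 0 ≤ D θ) →
    (∀ (θ : sphere (0 : X) 1) (v : X), ⟪(θ : X), v⟫ = 0 → ‖A θ v‖ ≤ D θ * ‖v‖) →
    ∫⁻ θ, ∫⁻ θ', ‖U θ' - U θ‖ₑ ^ 2 ∂μ.toSphere ∂μ.toSphere ≤
      C * ∫⁻ θ, ENNReal.ofReal (D θ) ^ 2 ∂μ.toSphere +
        C * (∫⁻ θ : sphere (0 : X) 1, ‖w θ - U θ‖ₑ ^ 2 ∂μ.toSphere +
          ∫⁻ θ : sphere (0 : X) 1, ‖fderiv ℝ w θ - A θ‖ₑ ^ 2 ∂μ.toSphere) := by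
  obtain ⟨C, hC, H⟩ := sphere_two (F := F) μ hn
  have hs : μ.toSphere univ ≠ ∞ := measure_ne_top _ _
  refine ⟨8 * C + 8 * μ.toSphere univ, by finiteness, fun w U A D hw m1 m2 D0 hD => ?_⟩
  obtain ⟨T, hT⟩ : ∃ T : X → X →L[ℝ] X, T = fun θ =>
      ContinuousLinearMap.id ℝ X - (innerSL ℝ θ).smulRight θ := ⟨_, rfl⟩
  have Ta : ∀ θ v, T θ v = v - ⟪θ, v⟫ • θ := fun θ v => by rw [hT]; rfl
  have cT : Continuous T := by
    rw [hT]
    exact continuous_const.sub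
      ((ContinuousLinearMap.smulRightL ℝ X X).continuous₂.comp₂ (innerSL ℝ).continuous
        continuous_id)
  have cD : Continuous fun θ => ‖(fderiv ℝ w θ).comp (T θ)‖ :=
    ((hw.continuous_fderiv one_ne_zero).clm_comp cT).norm
  have h1 := H w _ hw cD.measurable (fun _ => norm_nonneg _) fun θ v _ hv => by
    have := ((fderiv ℝ w θ).comp (T θ)).le_opNorm v
    rwa [ContinuousLinearMap.comp_apply, Ta, hv, zero_smul, sub_zero] at this
  have h2 : ∀ θ : sphere (0 : X) 1, ENNReal.ofReal ‖(fderiv ℝ w θ).comp (T θ)‖ ^ 2 ≤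
      2 * ENNReal.ofReal (D θ) ^ 2 + 2 * ‖fderiv ℝ w θ - A θ‖ₑ ^ 2 := fun θ => by
    refine le_trans (pow_le_pow_left' ?_ 2) (enn_sq_add _ _)
    rw [← ofReal_norm, ← ENNReal.ofReal_add (D0 θ) (norm_nonneg _)]
    refine ENNReal.ofReal_le_ofReal (ContinuousLinearMap.opNorm_le_bound _
      (add_nonneg (D0 θ) (norm_nonneg _)) fun v => ?_)
    have hu : ‖(θ : X)‖ = 1 := norm_eq_of_mem_sphere θ
    have ho : ⟪(θ : X), T θ v⟫ = 0 := by
      rw [Ta, inner_sub_right, inner_smul_right, real_inner_self_eq_norm_sq, hu]; ring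
    have ht : ‖T θ v‖ ≤ ‖v‖ := by rw [Ta]; exact norm_tang_le hu v
    have e : (fderiv ℝ w θ).comp (T θ) v = A θ (T θ v) + (fderiv ℝ w θ - A θ) (T θ v) := by simp
    rw [e]
    refine (norm_add_le_of_le (hD θ _ ho) (ContinuousLinearMap.le_opNorm _ _)).trans ?_
    rw [← add_mul]
    exact mul_le_mul_of_nonneg_left ht (add_nonneg (D0 θ) (norm_nonneg _))
  have h3 := lintegral_mono (μ := μ.toSphere) h2
  rw [lintegral_add_right _ (m2.const_mul 2), lintegral_const_mul' _ _ ENNReal.ofNat_ne_top,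
    lintegral_const_mul _ m2] at h3
  have cw := hw.continuous
  have m3 : Measurable fun p : sphere (0 : X) 1 × sphere (0 : X) 1 => ‖w p.2 - w p.1‖ₑ ^ 2 :=
    (Continuous.measurable (by fun_prop)).pow_const 2
  have h4 : ∀ θ θ' : sphere (0 : X) 1, ‖U θ' - U θ‖ₑ ^ 2 ≤
      4 * ‖w θ' - w θ‖ₑ ^ 2 + 4 * ‖w θ' - U θ'‖ₑ ^ 2 + 2 * ‖w θ - U θ‖ₑ ^ 2 := fun θ θ' => by
    have e : U θ' - U θ = (w θ' - w θ) - (w θ' - U θ') + (w θ - U θ) := by abel
    have a1 : ‖U θ' - U θ‖ₑ ≤ ‖w θ' - w θ‖ₑ + ‖w θ' - U θ'‖ₑ + ‖w θ - U θ‖ₑ := by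
      rw [e]; exact (enorm_add_le _ _).trans (add_le_add_left enorm_sub_le _)
    refine ((pow_le_pow_left' a1 2).trans (enn_sq_add _ _)).trans (add_le_add_left ?_ _)
    exact (mul_le_mul_right (enn_sq_add _ _) 2).trans (le_of_eq (by ring))
  have h5 : ∀ θ : sphere (0 : X) 1, ∫⁻ θ', ‖U θ' - U θ‖ₑ ^ 2 ∂μ.toSphere ≤
      4 * ∫⁻ θ' : sphere (0 : X) 1, ‖w θ' - w θ‖ₑ ^ 2 ∂μ.toSphere +
        4 * ∫⁻ θ' : sphere (0 : X) 1, ‖w θ' - U θ'‖ₑ ^ 2 ∂μ.toSphere +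
          2 * ‖w θ - U θ‖ₑ ^ 2 * μ.toSphere univ := fun θ => by
    refine (lintegral_mono (h4 θ)).trans (le_of_eq ?_)
    rw [lintegral_add_right _ measurable_const, lintegral_add_right _ (m1.const_mul 4),
      lintegral_const, lintegral_const_mul _ m1, lintegral_const_mul' _ _ ENNReal.ofNat_ne_top]
  refine (lintegral_mono h5).trans ?_
  rw [lintegral_add_right _ ((m1.const_mul 2).mul_const _), lintegral_add_right _ measurable_const,
    lintegral_const, lintegral_const_mul' _ _ ENNReal.ofNat_ne_top,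
    lintegral_mul_const _ (m1.const_mul 2), lintegral_const_mul _ m1]
  have h6 := mul_le_mul_right (h1.trans (mul_le_mul_right h3 C)) 4
  refine (add_le_add_left (add_le_add_left h6 _) _).trans ?_
  generalize ∫⁻ θ, ENNReal.ofReal (D θ) ^ 2 ∂μ.toSphere = a
  generalize ∫⁻ θ : sphere (0 : X) 1, ‖w θ - U θ‖ₑ ^ 2 ∂μ.toSphere = b
  generalize ∫⁻ θ : sphere (0 : X) 1, ‖fderiv ℝ w θ - A θ‖ₑ ^ 2 ∂μ.toSphere = c
  generalize μ.toSphere univ = σ
  refine (le_self_add (b := 8 * σ * a + 8 * C * b + 2 * σ * b + 8 * σ * c)).trans (le_of_eq ?_)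
  ring

/-- Two point Poincare inequality on almost every sphere. -/
theorem slice_two (hn : 3 ≤ finrank ℝ X) : ∃ C : ℝ≥0∞, C ≠ ∞ ∧ ∀ (x0 : X) (R : ℝ) (u : X → F)
    (G : X → X →L[ℝ] F) (w : ℕ → X → F), StronglyMeasurable u → StronglyMeasurable G →
    (∀ k, ContDiff ℝ 1 (w k)) →
    Tendsto (fun k => ∫⁻ x in ball x0 R, ‖w k x - u x‖ₑ ^ 2 ∂μ) atTop (𝓝 0) →
    Tendsto (fun k => ∫⁻ x in ball x0 R, ‖fderiv ℝ (w k) x - G x‖ₑ ^ 2 ∂μ) atTop (𝓝 0) →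
    ∀ᵐ s : ℝ, s ∈ Ioo 0 R → ∀ D : sphere (0 : X) 1 → ℝ, (∀ θ, 0 ≤ D θ) →
      (∀ (θ : sphere (0 : X) 1) (v : X), ⟪(θ : X), v⟫ = 0 →
        ‖s • G (x0 + s • (θ : X)) v‖ ≤ D θ * ‖v‖) →
      ∫⁻ θ : sphere (0 : X) 1, ∫⁻ θ' : sphere (0 : X) 1,
        ‖u (x0 + s • (θ' : X)) - u (x0 + s • (θ : X))‖ₑ ^ 2 ∂μ.toSphere ∂μ.toSphere ≤
        C * ∫⁻ θ, ENNReal.ofReal (D θ) ^ 2 ∂μ.toSphere := by
  have : Nontrivial X := Module.nontrivial_of_finrank_pos (R := ℝ) (by omega)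
  obtain ⟨C, hC, H⟩ := sphere_step (F := F) μ hn
  refine ⟨C, hC, fun x0 R u G w mu mG hw t1 t2 => ?_⟩
  have m1 : ∀ k, Measurable fun x => ‖w k x - u x‖ₑ ^ 2 := fun k =>
    ((hw k).continuous.stronglyMeasurable.sub mu).enorm.pow_const 2
  have m2 : ∀ k, Measurable fun x => ‖fderiv ℝ (w k) x - G x‖ₑ ^ 2 := fun k =>
    (((hw k).continuous_fderiv one_ne_zero).stronglyMeasurable.sub mG).enorm.pow_const 2
  have t3 : Tendsto (fun k => ∫⁻ x in ball x0 R,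
      (‖w k x - u x‖ₑ ^ 2 + ‖fderiv ℝ (w k) x - G x‖ₑ ^ 2) ∂μ) atTop (𝓝 0) := by
    simp only [lintegral_add_left (m1 _)]
    simpa using t1.add t2
  filter_upwards [ae_slice_small μ x0 R (fun k => (m1 k).add (m2 k)) t3] with s hs hm D D0 hD
  have s0 := hm.1
  have cs : Continuous fun θ : sphere (0 : X) 1 => x0 + s • (θ : X) := by fun_prop
  obtain ⟨K, hK⟩ : ∃ K : ℝ≥0∞, K = C * (1 + ‖s‖ₑ ^ 2) + 1 := ⟨_, rfl⟩
  have K0 : K ≠ 0 := by rw [hK]; simp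
  have K1 : K ≠ ∞ := by rw [hK]; finiteness
  refine ENNReal.le_of_forall_pos_le_add fun ε ε0 _ => ?_
  obtain ⟨k, hk⟩ := hs hm (ε / K) (ENNReal.div_pos (by simpa using ε0.ne') K1)
  have n1 : Measurable fun θ : sphere (0 : X) 1 =>
      ‖w k (x0 + s • (θ : X)) - u (x0 + s • (θ : X))‖ₑ ^ 2 := (m1 k).comp cs.measurable
  have n2 : Measurable fun θ : sphere (0 : X) 1 =>
      ‖fderiv ℝ (w k) (x0 + s • (θ : X)) - G (x0 + s • (θ : X))‖ₑ ^ 2 := (m2 k).comp cs.measurable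
  simp only [Pi.add_apply] at hk
  rw [lintegral_add_left n1] at hk
  have hd : ∀ z : X, fderiv ℝ (fun z => w k (x0 + s • z)) z = s • fderiv ℝ (w k) (x0 + s • z) :=
    fun z => by
      have h1 : HasFDerivAt (fun z : X => x0 + s • z) (s • ContinuousLinearMap.id ℝ X) z :=
        ((hasFDerivAt_id z).const_smul s).const_add x0
      have h2 := (((hw k).differentiable one_ne_zero _).hasFDerivAt.comp z h1).fderiv
      refine Eq.trans h2 ?_
      ext v; simp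
  have e2 : ∀ θ : sphere (0 : X) 1,
      ‖fderiv ℝ (fun z => w k (x0 + s • z)) θ - s • G (x0 + s • (θ : X))‖ₑ ^ 2 =
      ‖s‖ₑ ^ 2 * ‖fderiv ℝ (w k) (x0 + s • (θ : X)) - G (x0 + s • (θ : X))‖ₑ ^ 2 := fun θ => by
    rw [hd, ← smul_sub, enorm_smul, mul_pow]
  have h1 := H (fun z => w k (x0 + s • z)) (fun θ => u (x0 + s • (θ : X)))
    (fun θ => s • G (x0 + s • (θ : X))) D ((hw k).comp (by fun_prop)) n1
    (by simp only [e2]; exact n2.const_mul _) D0 hD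
  refine h1.trans (add_le_add_right ?_ _)
  simp only [e2]
  rw [lintegral_const_mul _ n2]
  refine le_trans ?_ ((mul_le_mul_right hk.le K).trans (ENNReal.mul_div_le))
  rw [hK]
  generalize ∫⁻ θ : sphere (0 : X) 1,
    ‖w k (x0 + s • (θ : X)) - u (x0 + s • (θ : X))‖ₑ ^ 2 ∂μ.toSphere = a
  generalize ∫⁻ θ : sphere (0 : X) 1,
    ‖fderiv ℝ (w k) (x0 + s • (θ : X)) - G (x0 + s • (θ : X))‖ₑ ^ 2 ∂μ.toSphere = b
  refine (le_self_add (b := C * b + C * ‖s‖ₑ ^ 2 * a + a + b)).trans (le_of_eq ?_)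
  ring

/-- Poincare inequality on almost every sphere, for the normalised measure. -/
theorem slice_poincare [CompleteSpace F] (hn : 3 ≤ finrank ℝ X) (ν : Measure (sphere (0 : X) 1))
    [IsProbabilityMeasure ν] {c : ℝ≥0∞} (hc : ν = c • μ.toSphere) :
    ∃ C : ℝ, 1 ≤ C ∧ ∀ (x0 : X) (R : ℝ) (u : X → F)
    (G : X → X →L[ℝ] F) (w : ℕ → X → F), StronglyMeasurable u → StronglyMeasurable G →
    (∀ k, ContDiff ℝ 1 (w k)) →
    Tendsto (fun k => ∫⁻ x in ball x0 R, ‖w k x - u x‖ₑ ^ 2 ∂μ) atTop (𝓝 0) →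
    Tendsto (fun k => ∫⁻ x in ball x0 R, ‖fderiv ℝ (w k) x - G x‖ₑ ^ 2 ∂μ) atTop (𝓝 0) →
    ∀ᵐ s : ℝ, s ∈ Ioo 0 R → Integrable (fun θ : sphere (0 : X) 1 => u (x0 + s • (θ : X))) ν →
      ∀ D : sphere (0 : X) 1 → ℝ, (∀ θ, 0 ≤ D θ) → Integrable (fun θ => D θ ^ 2) ν →
      (∀ (θ : sphere (0 : X) 1) (v : X), ⟪(θ : X), v⟫ = 0 →
        ‖s • G (x0 + s • (θ : X)) v‖ ≤ D θ * ‖v‖) →
      ∫ θ : sphere (0 : X) 1, ‖u (x0 + s • (θ : X)) -
        ∫ θ' : sphere (0 : X) 1, u (x0 + s • (θ' : X)) ∂ν‖ ^ 2 ∂ν ≤ C * ∫ θ, D θ ^ 2 ∂ν := by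
  have : Nontrivial X := Module.nontrivial_of_finrank_pos (R := ℝ) (by omega)
  obtain ⟨C, hC, H⟩ := slice_two (F := F) μ hn
  have c1 : c ≠ ∞ := fun h => by
    have h1 : ν univ = 1 := measure_univ
    have h2 : μ.toSphere univ ≠ 0 := by
      rw [ne_eq, Measure.measure_univ_eq_zero]; exact Measure.toSphere_ne_zero μ
    rw [hc, h, Measure.smul_apply, smul_eq_mul, ENNReal.top_mul h2] at h1
    exact ENNReal.top_ne_one h1
  refine ⟨(c * C).toReal + 1, le_add_of_nonneg_left ENNReal.toReal_nonneg,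
    fun x0 R u G w mu mG hw t1 t2 => ?_⟩
  filter_upwards [H x0 R u G w mu mG hw t1 t2] with s hs hm iu D D0 iD hD
  have h1 := hs hm D D0 hD
  have h2 := var_le_two ν iu
  have e1 : ∫⁻ θ, ENNReal.ofReal (D θ) ^ 2 ∂ν = ENNReal.ofReal (∫ θ, D θ ^ 2 ∂ν) := by
    rw [ofReal_integral_eq_lintegral_ofReal iD (Eventually.of_forall fun _ => sq_nonneg _)]
    exact lintegral_congr fun θ => (ENNReal.ofReal_pow (D0 θ) 2).symm
  have h3 : ∫⁻ θ : sphere (0 : X) 1, ∫⁻ θ' : sphere (0 : X) 1,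
      ‖u (x0 + s • (θ' : X)) - u (x0 + s • (θ : X))‖ₑ ^ 2 ∂ν ∂ν ≤
      c * C * ∫⁻ θ, ENNReal.ofReal (D θ) ^ 2 ∂ν := by
    rw [hc]
    simp only [lintegral_smul_measure, smul_eq_mul]
    rw [lintegral_const_mul' _ _ c1]
    exact (mul_le_mul_right (mul_le_mul_right h1 c) c).trans (le_of_eq (by ring))
  have h4 := h2.trans h3
  rw [e1] at h4
  have i0 : 0 ≤ ∫ θ, D θ ^ 2 ∂ν := integral_nonneg fun _ => sq_nonneg _
  have ma : AEStronglyMeasurable (fun θ : sphere (0 : X) 1 => ‖u (x0 + s • (θ : X)) -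
      ∫ θ' : sphere (0 : X) 1, u (x0 + s • (θ' : X)) ∂ν‖ ^ 2) ν :=
    (iu.1.sub aestronglyMeasurable_const).norm.pow 2
  rw [integral_eq_lintegral_of_nonneg_ae (Eventually.of_forall fun _ => sq_nonneg _) ma]
  have h5 := ENNReal.toReal_mono (by finiteness) h4
  rw [ENNReal.toReal_mul, ENNReal.toReal_ofReal i0] at h5
  refine le_trans (le_of_eq ?_) (h5.trans (by nlinarith))
  refine congrArg _ (lintegral_congr fun θ => ?_)
  rw [ENNReal.ofReal_pow (norm_nonneg _), ofReal_norm]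

end Pool.Agent.Lib.MP_a785f2_an.LY
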