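import Mathlib

/-!
Tools for absolutely continuous curves.
-/

open MeasureTheory Set Filter Topology
open scoped RealInnerProductSpace

namespace Pool.Agent.Lib.MP_a785f2_an.LY

theorem ac_of_le {X Y Z : Type} [PseudoMetricSpace X] [PseudoMetricSpace Y] [PseudoMetricSpace Z]
    {f : ℝ → X} {g : ℝ → Y} {h : ℝ → Z} {a b C : ℝ}
    (hf : AbsolutelyContinuousOnInterval f a b) (hg : AbsolutelyContinuousOnInterval g a b)
    (H : ∀ s ∈ uIcc a b, ∀ t ∈ uIcc a b,
      dist (h s) (h t) ≤ C * (dist (f s) (f t) + dist (g s) (g t))) :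
    AbsolutelyContinuousOnInterval h a b := by
  unfold AbsolutelyContinuousOnInterval at hf hg ⊢
  have h1 := (hf.add hg).const_mul C
  rw [add_zero, mul_zero] at h1
  refine squeeze_zero' (Eventually.of_forall fun _ => Finset.sum_nonneg fun _ _ => dist_nonneg)
    ?_ h1
  rw [eventually_inf_principal]
  refine Eventually.of_forall fun E hE => ?_
  rw [← Finset.sum_add_distrib, Finset.mul_sum]
  exact Finset.sum_le_sum fun i hi => H _ (hE.1 i hi).1 _ (hE.1 i hi).2

theorem ac_of_le' {X Z : Type} [PseudoMetricSpace X] [PseudoMetricSpace Z]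
    {f : ℝ → X} {h : ℝ → Z} {a b C : ℝ} (hC : 0 ≤ C)
    (hf : AbsolutelyContinuousOnInterval f a b)
    (H : ∀ s ∈ uIcc a b, ∀ t ∈ uIcc a b, dist (h s) (h t) ≤ C * dist (f s) (f t)) :
    AbsolutelyContinuousOnInterval h a b :=
  ac_of_le (C := C) hf hf fun s hs t ht => (H s hs t ht).trans
    (mul_le_mul_of_nonneg_left (le_add_of_nonneg_right dist_nonneg) hC)

theorem ac_const {X : Type} [PseudoMetricSpace X] (c : X) (a b : ℝ) :
    AbsolutelyContinuousOnInterval (fun _ => c) a b := by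
  unfold AbsolutelyContinuousOnInterval
  simp only [dist_self, Finset.sum_const_zero]
  exact tendsto_const_nhds

variable {X Y Z : Type} [NormedAddCommGroup X] [NormedSpace ℝ X] [NormedAddCommGroup Y]
  [NormedSpace ℝ Y] [NormedAddCommGroup Z] [NormedSpace ℝ Z]

theorem ac_clm (L : X →L[ℝ] Y) {f : ℝ → X} {a b : ℝ}
    (hf : AbsolutelyContinuousOnInterval f a b) :
    AbsolutelyContinuousOnInterval (fun s => L (f s)) a b :=
  ac_of_le' (norm_nonneg L) hf fun _ _ _ _ => L.dist_le_opNorm _ _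

theorem ac_bilin (B : X →L[ℝ] Y →L[ℝ] Z) {f : ℝ → X} {g : ℝ → Y} {a b : ℝ}
    (hf : AbsolutelyContinuousOnInterval f a b) (hg : AbsolutelyContinuousOnInterval g a b) :
    AbsolutelyContinuousOnInterval (fun s => B (f s) (g s)) a b := by
  obtain ⟨C, hC⟩ := hf.exists_bound
  obtain ⟨D, hD⟩ := hg.exists_bound
  refine ac_of_le (C := ‖B‖ * (|C| + |D|)) hf hg fun s hs t ht => ?_
  simp only [dist_eq_norm]
  have e : B (f s) (g s) - B (f t) (g t) = B (f s - f t) (g s) + B (f t) (g s - g t) := by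
    simp only [map_sub, sub_apply]; abel
  have h1 := B.le_opNorm₂ (f s - f t) (g s)
  have h2 := B.le_opNorm₂ (f t) (g s - g t)
  have h3 := (hD s hs).trans (le_abs_self D)
  have h4 := (hC t ht).trans (le_abs_self C)
  have h5 : ‖B‖ * ‖f s - f t‖ * ‖g s‖ ≤ ‖B‖ * ‖f s - f t‖ * (|C| + |D|) :=
    mul_le_mul_of_nonneg_left (by linarith [abs_nonneg C]) (by positivity)
  have h6 : ‖B‖ * ‖f t‖ * ‖g s - g t‖ ≤ ‖B‖ * (|C| + |D|) * ‖g s - g t‖ :=
    mul_le_mul_of_nonneg_right
      (mul_le_mul_of_nonneg_left (by linarith [abs_nonneg D]) B.opNorm_nonneg) (norm_nonneg _)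
  rw [e]
  linarith [norm_add_le (B (f s - f t) (g s)) (B (f t) (g s - g t))]

theorem ac_apply {f : ℝ → X →L[ℝ] Y} {g : ℝ → X} {a b : ℝ}
    (hf : AbsolutelyContinuousOnInterval f a b) (hg : AbsolutelyContinuousOnInterval g a b) :
    AbsolutelyContinuousOnInterval (fun s => f s (g s)) a b :=
  ac_bilin (ContinuousLinearMap.id ℝ (X →L[ℝ] Y)) hf hg

theorem ac_comp {f : ℝ → Y →L[ℝ] Z} {g : ℝ → X →L[ℝ] Y} {a b : ℝ}
    (hf : AbsolutelyContinuousOnInterval f a b) (hg : AbsolutelyContinuousOnInterval g a b) :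
    AbsolutelyContinuousOnInterval (fun s => (f s).comp (g s)) a b :=
  ac_bilin (ContinuousLinearMap.compL ℝ X Y Z) hf hg

theorem ac_inner {W : Type} [NormedAddCommGroup W] [InnerProductSpace ℝ W] {f g : ℝ → W} {a b : ℝ}
    (hf : AbsolutelyContinuousOnInterval f a b) (hg : AbsolutelyContinuousOnInterval g a b) :
    AbsolutelyContinuousOnInterval (fun s => ⟪f s, g s⟫) a b :=
  ac_bilin (innerSL ℝ) hf hg

theorem ac_sqrt {f : ℝ → ℝ} {a b c : ℝ} (hc : 0 < c) (hf : AbsolutelyContinuousOnInterval f a b)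
    (h : ∀ s ∈ uIcc a b, c ^ 2 ≤ f s) : AbsolutelyContinuousOnInterval (fun s => √(f s)) a b := by
  refine ac_of_le' (C := 1 / c) (by positivity) hf fun s hs t ht => ?_
  have h1 : c ≤ √(f s) := Real.le_sqrt_of_sq_le (h s hs)
  have h2 : c ≤ √(f t) := Real.le_sqrt_of_sq_le (h t ht)
  have h3 : √(f s) ^ 2 = f s := Real.sq_sqrt ((sq_nonneg c).trans (h s hs))
  have h4 : √(f t) ^ 2 = f t := Real.sq_sqrt ((sq_nonneg c).trans (h t ht))
  have h5 : f s - f t = (√(f s) - √(f t)) * (√(f s) + √(f t)) := by nlinarith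
  rw [Real.dist_eq, Real.dist_eq, h5, abs_mul, abs_of_nonneg (a := √(f s) + √(f t)) (by linarith),
    one_div, inv_mul_eq_div, le_div_iff₀ hc]
  exact mul_le_mul_of_nonneg_left (by linarith) (abs_nonneg _)

/-- Primitives of integrable vector valued functions. -/
theorem ac_prim {f : ℝ → X} {a b c : ℝ} (h : IntervalIntegrable f volume a b)
    (hc : c ∈ uIcc a b) : AbsolutelyContinuousOnInterval (fun x => ∫ v in c..x, f v) a b := by
  have key : ∀ s ∈ uIcc a b, ∀ t ∈ uIcc a b, IntervalIntegrable f volume s t := fun s hs t ht =>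
    h.mono_set (uIcc_subset_uIcc hs ht)
  refine ac_of_le' zero_le_one (h.norm.absolutelyContinuousOnInterval_intervalIntegral hc)
    fun s hs t ht => ?_
  rw [one_mul, dist_eq_norm, Real.dist_eq,
    intervalIntegral.integral_interval_sub_left (key c hc s hs) (key c hc t ht),
    intervalIntegral.integral_interval_sub_left (key c hc s hs).norm (key c hc t ht).norm]
  exact intervalIntegral.norm_integral_le_abs_integral_norm

/-- A lower bound for the derivative integrates. -/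
theorem ac_le_sub {f r : ℝ → ℝ} {a b : ℝ} (hab : a ≤ b)
    (hf : AbsolutelyContinuousOnInterval f a b) (hr : IntervalIntegrable r volume a b)
    (h : ∀ᵐ s, s ∈ Ioo a b → ∃ d, HasDerivAt f d s ∧ r s ≤ d) : ∫ s in a..b, r s ≤ f b - f a := by
  rw [← hf.integral_deriv_eq_sub, intervalIntegral.integral_of_le hab,
    intervalIntegral.integral_of_le hab, integral_Ioc_eq_integral_Ioo,
    integral_Ioc_eq_integral_Ioo]
  refine setIntegral_mono_on_ae ?_ ?_ measurableSet_Ioo ?_
  · exact ((intervalIntegrable_iff_integrableOn_Ioo_of_le hab).1 hr)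
  · exact ((intervalIntegrable_iff_integrableOn_Ioo_of_le hab).1 hf.intervalIntegrable_deriv)
  · filter_upwards [h] with s hs hm
    obtain ⟨d, h1, h2⟩ := hs hm
    rwa [h1.deriv]

/-- The increment of an absolutely continuous curve. -/
theorem ac_norm_sub_le {f f' : ℝ → X} {r : ℝ → ℝ} {a b : ℝ} (hab : a ≤ b)
    (hf : AbsolutelyContinuousOnInterval f a b) (hr : IntervalIntegrable r volume a b)
    (h : ∀ᵐ s, s ∈ Ioo a b → HasDerivAt f (f' s) s ∧ ‖f' s‖ ≤ r s) :
    ‖f b - f a‖ ≤ ∫ s in a..b, r s := by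
  obtain ⟨L, hL, hv⟩ := exists_dual_vector'' ℝ (f b - f a)
  have h1 := ac_le_sub (r := fun s => -r s) hab (ac_clm (-L) hf) hr.neg (by
    filter_upwards [h] with s hs hm
    refine ⟨(-L) (f' s), (-L).hasFDerivAt.comp_hasDerivAt s (hs hm).1, ?_⟩
    have h2 : ‖L (f' s)‖ ≤ r s := (L.le_of_opNorm_le hL _).trans (by rw [one_mul]; exact (hs hm).2)
    have h3 := le_abs_self (L (f' s))
    rw [Real.norm_eq_abs] at h2
    simp only [neg_apply]
    linarith)
  rw [intervalIntegral.integral_neg] at h1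
  simp only [neg_apply] at h1
  have h4 : L (f b - f a) = ‖f b - f a‖ := hv
  rw [map_sub] at h4
  linarith

/-- A closed condition that holds almost everywhere along a continuous curve holds everywhere. -/
theorem mem_of_ae {T : Type} [TopologicalSpace T] {f : ℝ → T} {a b : ℝ} (hab : a < b)
    (hf : ContinuousOn f (Icc a b)) {S : Set T} (hS : IsClosed S)
    (h : ∀ᵐ s, s ∈ Ioo a b → f s ∈ S) : ∀ s ∈ Icc a b, f s ∈ S := by
  have h1 : IsClosed (Icc a b ∩ f ⁻¹' S) := hf.preimage_isClosed_of_isClosed isClosed_Icc hS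
  have h2 : Ioo a b ⊆ closure (Ioo a b ∩ {s | s ∈ Ioo a b → f s ∈ S}) :=
    (Measure.dense_of_ae h).open_subset_closure_inter isOpen_Ioo
  have h3 : closure (Ioo a b ∩ {s | s ∈ Ioo a b → f s ∈ S}) ⊆ Icc a b ∩ f ⁻¹' S :=
    closure_minimal (fun s hs => ⟨Ioo_subset_Icc_self hs.1, hs.2 hs.1⟩) h1
  intro s hs
  rw [← closure_Ioo hab.ne] at hs
  exact (closure_minimal (h2.trans h3) h1 hs).2

/-- An almost everywhere valid property holds at some point outside a small set. -/
theorem exists_valid {a b : ℝ} {O : Set ℝ} {p : ℝ → Prop}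
    (hO : volume (O ∩ Ioo a b) < ENNReal.ofReal (b - a))
    (h : ∀ᵐ s, s ∈ Ioo a b → s ∉ O → p s) : ∃ s ∈ Ioo a b, s ∉ O ∧ p s := by
  by_contra hc
  push Not at hc
  have h1 : Ioo a b ≤ᵐ[volume] (O ∩ Ioo a b : Set ℝ) := by
    filter_upwards [h] with s hs hm
    by_cases ho : s ∈ O
    · exact ⟨ho, hm⟩
    · exact absurd (hs hm ho) (hc s hm ho)
  have h2 := measure_mono_ae h1
  rw [Real.volume_Ioo] at h2
  exact absurd hO (not_lt.2 h2)

end Pool.Agent.Lib.MP_a785f2_an.LY
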