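import Pool.Agent.Lib.MP_a785f2_an.LY.Polar
import Pool.Agent.Lib.MP_a785f2_an.LY.AC

/-!
Maps with approximants of class one; their means over concentric spheres.
-/

open MeasureTheory Metric Set Filter Module Topology
open scoped ENNReal

namespace Pool.Agent.Lib.MP_a785f2_an.LY

/-- Convergence of the integrals gives a subsequence that converges almost everywhere. -/
theorem exists_subseq_ae {α : Type*} [MeasurableSpace α] {ν : Measure α} {e : ℕ → α → ℝ≥0∞}
    (hm : ∀ j, AEMeasurable (e j) ν) (h : Tendsto (fun j => ∫⁻ a, e j a ∂ν) atTop (𝓝 0)) :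
    ∃ φ : ℕ → ℕ, StrictMono φ ∧ ∀ᵐ a ∂ν, Tendsto (fun i => e (φ i) a) atTop (𝓝 0) := by
  have h1 : ∀ i : ℕ, ∀ᶠ j in atTop, ∫⁻ a, e j a ∂ν ≤ (2⁻¹ : ℝ≥0∞) ^ i := fun i =>
    h.eventually (ge_mem_nhds (ENNReal.pow_pos (by simp) i))
  obtain ⟨φ, hφ, h2⟩ := extraction_forall_of_eventually h1
  refine ⟨φ, hφ, ?_⟩
  have h3 : ∫⁻ a, ∑' i, e (φ i) a ∂ν ≠ ⊤ := by
    rw [lintegral_tsum fun i => hm _]
    refine ne_top_of_le_ne_top ?_ (ENNReal.tsum_le_tsum h2)
    rw [ENNReal.tsum_geometric]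
    simp
  filter_upwards [ae_lt_top' (AEMeasurable.tsum fun i => hm _) h3] with a ha
  exact ENNReal.tendsto_atTop_zero_of_tsum_ne_top ha.ne

/-- On a finite measure space convergence with a higher exponent is stronger. -/
theorem tendsto_pow_mono {α : Type*} [MeasurableSpace α] {ν : Measure α} [IsFiniteMeasure ν]
    {e : ℕ → α → ℝ≥0∞} {p q : ℕ} (hp : 1 ≤ p) (hpq : p ≤ q)
    (h : Tendsto (fun j => ∫⁻ a, e j a ^ q ∂ν) atTop (𝓝 0)) :
    Tendsto (fun j => ∫⁻ a, e j a ^ p ∂ν) atTop (𝓝 0) := by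
  rw [ENNReal.tendsto_nhds_zero]
  intro ε hε
  obtain ⟨δ, hδ0, hδ1, hδ⟩ : ∃ δ : ℝ≥0∞, δ ≠ 0 ∧ δ ≤ 1 ∧ δ * ν univ ≤ ε / 2 := by
    obtain ⟨δ, h0, h1⟩ := ENNReal.exists_nnreal_pos_mul_lt (measure_ne_top ν univ)
      (ENNReal.half_pos hε.ne').ne'
    refine ⟨min δ 1, (lt_min (by exact_mod_cast h0) one_pos).ne', min_le_right _ _, ?_⟩
    exact (mul_le_mul_left (min_le_left _ _) _).trans h1.le
  have hδt : δ ≠ ⊤ := ne_top_of_le_ne_top ENNReal.one_ne_top hδ1
  have key : ∀ t : ℝ≥0∞, t ^ p ≤ δ + (δ ^ (q - p))⁻¹ * t ^ q := fun t => by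
    rcases le_total t δ with h1 | h1
    · refine le_add_right ((pow_le_pow_left' h1 p).trans ?_)
      exact pow_le_of_le_one zero_le hδ1 (by omega)
    · refine le_add_left ?_
      have h2 : t ^ q = t ^ (q - p) * t ^ p := by rw [← pow_add]; congr 1; omega
      rw [h2, ← mul_assoc]
      refine le_mul_of_one_le_left' ?_
      calc (1 : ℝ≥0∞) = (δ ^ (q - p))⁻¹ * δ ^ (q - p) :=
            (ENNReal.inv_mul_cancel (pow_ne_zero _ hδ0) (ENNReal.pow_ne_top hδt)).symm
        _ ≤ _ := mul_le_mul_right (pow_le_pow_left' h1 _) _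
  have hc : (δ ^ (q - p))⁻¹ ≠ ⊤ := ENNReal.inv_ne_top.2 (pow_ne_zero _ hδ0)
  have h2 := ENNReal.Tendsto.const_mul (a := (δ ^ (q - p))⁻¹) h (Or.inr hc)
  rw [mul_zero] at h2
  filter_upwards [h2.eventually (ge_mem_nhds (ENNReal.half_pos hε.ne'))] with j hj
  calc ∫⁻ a, e j a ^ p ∂ν ≤ ∫⁻ a, δ + (δ ^ (q - p))⁻¹ * e j a ^ q ∂ν :=
        lintegral_mono fun a => key _
    _ = δ * ν univ + (δ ^ (q - p))⁻¹ * ∫⁻ a, e j a ^ q ∂ν := by
        rw [lintegral_add_left measurable_const, lintegral_const, lintegral_const_mul' _ _ hc]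
    _ ≤ ε / 2 + ε / 2 := add_le_add hδ hj
    _ = ε := ENNReal.add_halves ε

theorem enorm_le_mul {Z Z' : Type*} [NormedAddCommGroup Z] [NormedAddCommGroup Z'] {a : Z}
    {b : Z'} {L : ℝ} (L0 : 0 ≤ L) (h : ‖a‖ ≤ L * ‖b‖) : ‖a‖ₑ ≤ ENNReal.ofReal L * ‖b‖ₑ := by
  rw [← ofReal_norm, ← ofReal_norm, ← ENNReal.ofReal_mul L0]
  exact ENNReal.ofReal_le_ofReal h

variable {X F Y : Type} [NormedAddCommGroup X] [NormedSpace ℝ X] [FiniteDimensional ℝ X]
  [MeasurableSpace X] [BorelSpace X] [NormedAddCommGroup F] [NormedSpace ℝ F]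
  [NormedAddCommGroup Y] [NormedSpace ℝ Y]

/-- `(v, D)` is a limit of maps of class one and their derivatives, with exponent `q`. -/
structure Apq (ν : Measure X) (q : ℕ) (v : X → F) (D : X → X →L[ℝ] F) : Prop where
  iv : Integrable v ν
  iD : Integrable D ν
  ex : ∃ w : ℕ → X → F, (∀ j, ContDiff ℝ 1 (w j)) ∧
    Tendsto (fun j => ∫⁻ x, ‖w j x - v x‖ₑ ^ q ∂ν) atTop (𝓝 0) ∧
    Tendsto (fun j => ∫⁻ x, ‖fderiv ℝ (w j) x - D x‖ₑ ^ q ∂ν) atTop (𝓝 0)

theorem aesm_of_cont {Z : Type*} [NormedAddCommGroup Z] {ν : Measure X} {g : X → Z}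
    (hg : Continuous g) : AEStronglyMeasurable g ν := hg.stronglyMeasurable.aestronglyMeasurable

variable {ν : Measure X} {q : ℕ} {v : X → F} {D : X → X →L[ℝ] F}

omit [FiniteDimensional ℝ X] [BorelSpace X] in
theorem Apq.mono [IsFiniteMeasure ν] (h : Apq ν q v D) {p : ℕ} (hp : 1 ≤ p) (hpq : p ≤ q) :
    Apq ν p v D := by
  obtain ⟨w, h1, h2, h3⟩ := h.ex
  exact ⟨h.iv, h.iD, w, h1, tendsto_pow_mono hp hpq h2, tendsto_pow_mono hp hpq h3⟩

omit [FiniteDimensional ℝ X] [BorelSpace X] in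
theorem Apq.le (h : Apq ν q v D) {ν' : Measure X} (hν : ν' ≤ ν) : Apq ν' q v D := by
  obtain ⟨w, h1, h2, h3⟩ := h.ex
  exact ⟨h.iv.mono_measure hν, h.iD.mono_measure hν, w, h1,
    tendsto_of_tendsto_of_tendsto_of_le_of_le tendsto_const_nhds h2 (fun _ => zero_le)
      fun _ => lintegral_mono' hν le_rfl,
    tendsto_of_tendsto_of_tendsto_of_le_of_le tendsto_const_nhds h3 (fun _ => zero_le)
      fun _ => lintegral_mono' hν le_rfl⟩

/-- Chain rule. -/
theorem Apq.chain [IsFiniteMeasure ν] (h : Apq ν 1 v D) {Φ : F → Y} (hΦ : ContDiff ℝ 1 Φ) {L : ℝ}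
    (hL : ∀ y, ‖fderiv ℝ Φ y‖ ≤ L) :
    Apq ν 1 (fun x => Φ (v x)) (fun x => (fderiv ℝ Φ (v x)).comp (D x)) := by
  obtain ⟨w, h1, h2, h3⟩ := h.ex
  simp only [pow_one] at h2 h3
  have L0 : 0 ≤ L := (norm_nonneg _).trans (hL 0)
  have hd : Differentiable ℝ Φ := hΦ.differentiable one_ne_zero
  have cD : Continuous (fderiv ℝ Φ) := hΦ.continuous_fderiv one_ne_zero
  have lip : ∀ a b, ‖Φ a - Φ b‖ ≤ L * ‖a - b‖ := fun a b =>
    convex_univ.norm_image_sub_le_of_norm_fderiv_le (fun x _ => hd x) (fun x _ => hL x)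
      (mem_univ b) (mem_univ a)
  have m1 : AEStronglyMeasurable (fun x => fderiv ℝ Φ (v x)) ν := cD.comp_aestronglyMeasurable h.iv.1
  have mc : ∀ {A : X → F →L[ℝ] Y}, AEStronglyMeasurable A ν →
      AEStronglyMeasurable (fun x => (A x).comp (D x)) ν := fun hA =>
    (ContinuousLinearMap.compL ℝ X F Y).aestronglyMeasurable_comp₂ hA h.iD.1
  obtain ⟨φ, hφ, hae⟩ := exists_subseq_ae
    (fun j => ((aesm_of_cont (h1 j).continuous).sub h.iv.1).enorm) h2
  have t2 := ENNReal.Tendsto.const_mul (a := ENNReal.ofReal L) (h2.comp hφ.tendsto_atTop)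
    (Or.inr ENNReal.ofReal_ne_top)
  have t3 := ENNReal.Tendsto.const_mul (a := ENNReal.ofReal L) (h3.comp hφ.tendsto_atTop)
    (Or.inr ENNReal.ofReal_ne_top)
  rw [mul_zero] at t2 t3
  have m4 : ∀ i, AEMeasurable
      (fun x => ‖(fderiv ℝ Φ (w (φ i) x) - fderiv ℝ Φ (v x)).comp (D x)‖ₑ) ν := fun i =>
    (mc ((aesm_of_cont (cD.comp (h1 _).continuous)).sub m1)).enorm
  have t4 : Tendsto (fun i => ∫⁻ x,
      ‖(fderiv ℝ Φ (w (φ i) x) - fderiv ℝ Φ (v x)).comp (D x)‖ₑ ∂ν) atTop (𝓝 0) := by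
    have := tendsto_lintegral_of_dominated_convergence' (μ := ν)
      (F := fun i x => ‖(fderiv ℝ Φ (w (φ i) x) - fderiv ℝ Φ (v x)).comp (D x)‖ₑ)
      (f := fun _ => 0) (fun x => ‖(2 * L) • D x‖ₑ) m4
      (fun i => Eventually.of_forall fun x => by
        refine enorm_le_iff_norm_le.2 ((ContinuousLinearMap.opNorm_comp_le _ _).trans ?_)
        rw [norm_smul, Real.norm_of_nonneg (by positivity)]
        refine mul_le_mul_of_nonneg_right ((norm_sub_le _ _).trans ?_) (norm_nonneg _)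
        linarith [hL (w (φ i) x), hL (v x)])
      (h.iD.smul (2 * L)).2.ne (by
        filter_upwards [hae] with x hx
        have a1 : Tendsto (fun i => w (φ i) x) atTop (𝓝 (v x)) :=
          tendsto_iff_edist_tendsto_0.2 (by simpa only [edist_eq_enorm_sub, Pi.sub_apply] using hx)
        have a2 : Continuous fun y => ‖(fderiv ℝ Φ y - fderiv ℝ Φ (v x)).comp (D x)‖ₑ :=
          ((cD.sub continuous_const).clm_comp continuous_const).enorm
        have a3 := (a2.tendsto (v x)).comp a1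
        rwa [sub_self, ContinuousLinearMap.zero_comp, ← ofReal_norm, norm_zero,
          ENNReal.ofReal_zero] at a3)
    simpa using this
  refine ⟨?_, ?_, fun i x => Φ (w (φ i) x), fun i => hΦ.comp (h1 _), ?_, ?_⟩
  · refine ((integrable_const ‖Φ 0‖).add (h.iv.norm.const_mul L)).mono'
      (hΦ.continuous.comp_aestronglyMeasurable h.iv.1) (Eventually.of_forall fun x => ?_)
    have := lip (v x) 0
    rw [sub_zero] at this
    have h5 := norm_sub_norm_le (Φ (v x)) (Φ 0)
    simp only [Pi.add_apply]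
    linarith
  · exact (h.iD.norm.const_mul L).mono' (mc m1) (Eventually.of_forall fun x =>
      (ContinuousLinearMap.opNorm_comp_le _ _).trans
        (mul_le_mul_of_nonneg_right (hL _) (norm_nonneg _)))
  · refine tendsto_of_tendsto_of_tendsto_of_le_of_le tendsto_const_nhds t2 (fun _ => zero_le)
      fun i => ?_
    simp only [pow_one, Function.comp]
    rw [← lintegral_const_mul' _ _ ENNReal.ofReal_ne_top]
    exact lintegral_mono fun x => enorm_le_mul L0 (lip _ _)
  · have t5 := t3.add t4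
    rw [add_zero] at t5
    refine tendsto_of_tendsto_of_tendsto_of_le_of_le tendsto_const_nhds t5 (fun _ => zero_le)
      fun i => ?_
    simp only [pow_one, Function.comp]
    rw [← lintegral_const_mul' _ _ ENNReal.ofReal_ne_top, ← lintegral_add_right' _ (m4 i)]
    refine lintegral_mono fun x => ?_
    have e : fderiv ℝ (fun x => Φ (w (φ i) x)) x - (fderiv ℝ Φ (v x)).comp (D x) =
        (fderiv ℝ Φ (w (φ i) x)).comp (fderiv ℝ (w (φ i)) x - D x) +
          (fderiv ℝ Φ (w (φ i) x) - fderiv ℝ Φ (v x)).comp (D x) := by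
      rw [fderiv_fun_comp x (hd _) ((h1 _).differentiable one_ne_zero x),
        ContinuousLinearMap.comp_sub, ContinuousLinearMap.sub_comp]
      abel
    rw [e]
    have e2 := enorm_le_mul L0 ((ContinuousLinearMap.opNorm_comp_le (fderiv ℝ Φ (w (φ i) x))
      (fderiv ℝ (w (φ i)) x - D x)).trans (mul_le_mul_of_nonneg_right (hL _) (norm_nonneg _)))
    exact (enorm_add_le _ _).trans (add_le_add e2 le_rfl)

/-- The radial measure of a ball of radius `R`. -/
noncomputable def radR (n : ℕ) (R : ℝ) : Measure ℝ := (rad n).restrict (Ioo (-R) R)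

instance (n : ℕ) (R : ℝ) : SFinite (radR n R) := by unfold radR; infer_instance

theorem ae_radR (n : ℕ) (R : ℝ) {p : ℝ → Prop} :
    (∀ᵐ r ∂radR n R, p r) ↔ ∀ᵐ r : ℝ, r ∈ Ioo 0 R → p r := by
  rw [radR, ae_restrict_iff' measurableSet_Ioo, ae_rad]
  refine eventually_congr (Eventually.of_forall fun r => ?_)
  exact ⟨fun h hr => h hr.1 ⟨by linarith [hr.1, hr.2], hr.2⟩, fun h h1 h2 => h ⟨h1, h2.2⟩⟩

theorem vol_le_radR (n : ℕ) (R : ℝ) {s : ℝ} (hs : 0 < s) :
    ENNReal.ofReal (s ^ (n - 1)) • volume.restrict (Ioo s R) ≤ radR n R := by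
  refine Measure.le_iff.2 fun A hA => ?_
  have hB : MeasurableSet (A ∩ Ioo s R) := hA.inter measurableSet_Ioo
  have h1 : A ∩ Ioo s R ⊆ A ∩ Ioo (-R) R := fun r hr =>
    ⟨hr.1, by linarith [hr.2.1, hr.2.2], hr.2.2⟩
  rw [radR, Measure.restrict_apply hA, Measure.smul_apply, Measure.restrict_apply hA]
  refine le_trans ?_ (measure_mono h1)
  have h2 : A ∩ Ioo s R ∩ Ioi 0 = A ∩ Ioo s R :=
    inter_eq_left.2 fun r hr => hs.trans hr.2.1
  rw [rad, withDensity_apply _ hB, Measure.restrict_restrict hB, h2, smul_eq_mul,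
    ← setLIntegral_const]
  exact setLIntegral_mono' hB fun r hr =>
    ENNReal.ofReal_le_ofReal (pow_le_pow_left₀ hs.le hr.2.1.le _)

omit [NormedSpace ℝ F] in
theorem intInt_of_radR {n : ℕ} {R : ℝ} {g : ℝ → F} (hg : Integrable g (radR n R)) {s t : ℝ}
    (hs : 0 < s) (ht : 0 < t) (hsR : s ≤ R) (htR : t ≤ R) : IntervalIntegrable g volume s t := by
  wlog hst : s ≤ t generalizing s t
  · exact (this ht hs htR hsR (le_of_not_ge hst)).symm
  have h1 := (integrable_smul_measure (ENNReal.ofReal_pos.2 (pow_pos hs _)).ne'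
    ENNReal.ofReal_ne_top).1 (hg.mono_measure (vol_le_radR n R hs))
  exact (intervalIntegrable_iff_integrableOn_Ioo_of_le hst).2
    (IntegrableOn.mono_set h1 (Ioo_subset_Ioo_right htR))

variable (μ : Measure X) [μ.IsAddHaarMeasure] [Nontrivial X]

/-- Polar coordinates on a ball. -/
theorem mp_ball (c : X) (R : ℝ) :
    MeasurePreserving (fun p : ℝ × sphere (0 : X) 1 => c + p.1 • (p.2 : X))
      ((radR (finrank ℝ X) R).prod μ.toSphere) (μ.restrict (ball c R)) := by
  have h := (mp_polar μ c).restrict_preimage (measurableSet_ball (x := c) (ε := R))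
  have e : (fun p : ℝ × sphere (0 : X) 1 => c + p.1 • (p.2 : X)) ⁻¹' ball c R =
      Ioo (-R) R ×ˢ univ := by
    ext p
    simp [dist_eq_norm, norm_smul, abs_lt]
  rwa [e, ← Measure.restrict_prod_eq_prod_univ] at h

omit [Nontrivial X] in
/-- The radial derivative of the mean over spheres, for maps of class one. -/
theorem mean_ftc [CompleteSpace F] {w : X → F} (hw : ContDiff ℝ 1 w) (c : X) (s t : ℝ) :
    ∫ θ, w (c + t • (θ : X)) ∂μ.toSphere - ∫ θ, w (c + s • (θ : X)) ∂μ.toSphere =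
      ∫ r in s..t, ∫ θ, fderiv ℝ w (c + r • (θ : X)) θ ∂μ.toSphere := by
  have c1 : Continuous fun p : ℝ × sphere (0 : X) 1 => fderiv ℝ w (c + p.1 • (p.2 : X)) p.2 :=
    ((hw.continuous_fderiv one_ne_zero).comp (cont_polar c)).clm_apply (by fun_prop)
  have i1 : ∀ r : ℝ, Integrable (fun θ : sphere (0 : X) 1 => w (c + r • (θ : X))) μ.toSphere :=
    fun r => (hw.continuous.comp (by fun_prop)).integrable_of_hasCompactSupport
      (HasCompactSupport.of_compactSpace _)
  rw [← integral_sub (i1 t) (i1 s), intervalIntegral_integral_swap]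
  · refine integral_congr_ae (Eventually.of_forall fun θ => ?_)
    refine (intervalIntegral.integral_eq_sub_of_hasDerivAt
      (f := fun r : ℝ => w (c + r • (θ : X))) (fun r _ => ?_)
      ((c1.comp (Continuous.prodMk_left θ)).intervalIntegrable _ _)).symm
    have h1 : HasDerivAt (fun r : ℝ => c + r • (θ : X)) (θ : X) r := by
      simpa using ((hasDerivAt_id r).smul_const (θ : X)).const_add c
    exact (hw.differentiable one_ne_zero _).hasFDerivAt.comp_hasDerivAt r h1
  · rw [Measure.restrict_prod_eq_prod_univ]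
    exact (c1.continuousOn.integrableOn_compact (isCompact_uIcc.prod isCompact_univ)).mono_set
      (prod_mono uIoc_subset_uIcc Subset.rfl)

omit [FiniteDimensional ℝ X] [MeasurableSpace X] [BorelSpace X] [Nontrivial X] in
theorem enorm_ray (A : X →L[ℝ] F) (θ : sphere (0 : X) 1) : ‖A θ‖ ≤ ‖A‖ := by
  simpa using A.le_opNorm θ

theorem integrable_ray {c : X} {R : ℝ} (hD : Integrable D (μ.restrict (ball c R))) :
    Integrable (fun p : ℝ × sphere (0 : X) 1 => D (c + p.1 • (p.2 : X)) p.2)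
      ((radR (finrank ℝ X) R).prod μ.toSphere) := by
  have h1 := (mp_ball μ c R).integrable_comp_of_integrable hD
  refine h1.mono ((ContinuousLinearMap.id ℝ (X →L[ℝ] F)).aestronglyMeasurable_comp₂ h1.1
    (continuous_subtype_val.comp continuous_snd).aestronglyMeasurable)
    (Eventually.of_forall fun p => enorm_ray _ _)

/-- The means over concentric spheres have an absolutely continuous version. -/
theorem Apq.curve [CompleteSpace F] {c : X} {R : ℝ} (h : Apq (μ.restrict (ball c R)) 1 v D)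
    (hR : 0 < R) : ∃ y : ℝ → F,
      (∀ s t, 0 < s → 0 < t → s ≤ R → t ≤ R → AbsolutelyContinuousOnInterval y s t) ∧
      ∀ᵐ s : ℝ, s ∈ Ioo 0 R → y s = ∫ θ, v (c + s • (θ : X)) ∂μ.toSphere ∧
        HasDerivAt y (∫ θ, D (c + s • (θ : X)) θ ∂μ.toSphere) s := by
  obtain ⟨w, h1, h2, h3⟩ := h.ex
  simp only [pow_one] at h2 h3
  have mp := mp_ball μ c R
  set ρ := radR (finrank ℝ X) R with hρ
  have cw : ∀ j, Continuous (fderiv ℝ (w j)) := fun j => (h1 j).continuous_fderiv one_ne_zero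
  have m2 : ∀ j, AEMeasurable (fun x => ‖w j x - v x‖ₑ) (μ.restrict (ball c R)) := fun j =>
    ((aesm_of_cont (h1 j).continuous).sub h.iv.1).enorm
  have m3 : ∀ j, AEMeasurable (fun x => ‖fderiv ℝ (w j) x - D x‖ₑ) (μ.restrict (ball c R)) :=
    fun j => ((aesm_of_cont (cw j)).sub h.iD.1).enorm
  have pol : ∀ {e : X → ℝ≥0∞}, AEMeasurable e (μ.restrict (ball c R)) →
      AEMeasurable (fun r : ℝ => ∫⁻ θ, e (c + r • (θ : X)) ∂μ.toSphere) ρ ∧
      ∫⁻ r, ∫⁻ θ, e (c + r • (θ : X)) ∂μ.toSphere ∂ρ = ∫⁻ x in ball c R, e x ∂μ := fun {e} he => by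
    have a1 := he.comp_quasiMeasurePreserving mp.quasiMeasurePreserving
    refine ⟨a1.lintegral_prod_right', ?_⟩
    rw [← mp.map_eq, lintegral_map' (by rwa [mp.map_eq]) mp.measurable.aemeasurable]
    exact (lintegral_prod _ a1).symm
  obtain ⟨φ, hφ, hae⟩ := exists_subseq_ae (fun j => (pol (m2 j)).1)
    (by simpa only [fun j => (pol (m2 j)).2] using h2)
  have ic : ∀ {Z : Type _} [NormedAddCommGroup Z] {g : sphere (0 : X) 1 → Z}, Continuous g →
      Integrable g μ.toSphere := fun hg =>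
    hg.integrable_of_hasCompactSupport (HasCompactSupport.of_compactSpace _)
  set d : ℝ → F := fun r => ∫ θ, D (c + r • (θ : X)) θ ∂μ.toSphere with hd
  have iD := integrable_ray μ h.iD
  have di : ∀ {s t}, 0 < s → 0 < t → s ≤ R → t ≤ R → IntervalIntegrable d volume s t :=
    intInt_of_radR iD.integral_prod_left
  have T : ∀ᵐ r : ℝ, r ∈ Ioo 0 R → Tendsto (fun i => ∫ θ, w (φ i) (c + r • (θ : X)) ∂μ.toSphere)
      atTop (𝓝 (∫ θ, v (c + r • (θ : X)) ∂μ.toSphere)) := by
    rw [← ae_radR (finrank ℝ X)]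
    filter_upwards [hae, (mp.integrable_comp_of_integrable h.iv).prod_right_ae] with r a1 a2
    refine tendsto_iff_edist_tendsto_0.2 (tendsto_of_tendsto_of_tendsto_of_le_of_le
      tendsto_const_nhds a1 (fun _ => zero_le) fun i => ?_)
    simp only [edist_eq_enorm_sub]
    have c1 : Continuous fun θ : sphere (0 : X) 1 => w (φ i) (c + r • (θ : X)) :=
      (h1 _).continuous.comp (by fun_prop)
    have a3 : Integrable (fun θ : sphere (0 : X) 1 => v (c + r • (θ : X))) μ.toSphere := a2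
    rw [← integral_sub (ic c1) a3]
    exact enorm_integral_le_lintegral_enorm _
  have U : ∀ s t, 0 < s → s ≤ t → t ≤ R → Tendsto
      (fun j => ∫ r in s..t, ∫ θ, fderiv ℝ (w j) (c + r • (θ : X)) θ ∂μ.toSphere) atTop
      (𝓝 (∫ r in s..t, d r)) := fun s t hs hst htR => by
    have c0 : ENNReal.ofReal (s ^ (finrank ℝ X - 1)) ≠ 0 := (ENNReal.ofReal_pos.2 (pow_pos hs _)).ne'
    have t1 := ENNReal.Tendsto.const_mul (a := (ENNReal.ofReal (s ^ (finrank ℝ X - 1)))⁻¹) h3
      (Or.inr (ENNReal.inv_ne_top.2 c0))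
    rw [mul_zero] at t1
    refine tendsto_iff_edist_tendsto_0.2 (tendsto_of_tendsto_of_tendsto_of_le_of_le
      tendsto_const_nhds t1 (fun _ => zero_le) fun j => ?_)
    have c1 : Continuous fun p : ℝ × sphere (0 : X) 1 =>
        fderiv ℝ (w j) (c + p.1 • (p.2 : X)) p.2 :=
      ((cw j).comp (cont_polar c)).clm_apply (by fun_prop)
    have c2 : Continuous fun r : ℝ => ∫ θ, fderiv ℝ (w j) (c + r • (θ : X)) θ ∂μ.toSphere := by
      simpa only [Measure.restrict_univ] using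
        continuous_parametric_integral_of_continuous (μ := μ.toSphere)
          (f := fun (r : ℝ) (θ : sphere (0 : X) 1) => fderiv ℝ (w j) (c + r • (θ : X)) θ) c1
          isCompact_univ
    simp only [edist_eq_enorm_sub]
    rw [← intervalIntegral.integral_sub (c2.intervalIntegrable _ _)
      (di hs (hs.trans_le hst) (hst.trans htR) htR), intervalIntegral.integral_of_le hst,
      integral_Ioc_eq_integral_Ioo, ← (pol (m3 j)).2]
    refine (enorm_integral_le_lintegral_enorm _).trans ((lintegral_mono_set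
      (Ioo_subset_Ioo_right htR)).trans ?_)
    rw [← ENNReal.mul_le_iff_le_inv c0 ENNReal.ofReal_ne_top, ← smul_eq_mul,
      ← lintegral_smul_measure]
    refine (lintegral_mono' (vol_le_radR _ R hs) le_rfl).trans (lintegral_mono_ae ?_)
    filter_upwards [iD.prod_right_ae] with r a2
    have c3 : Continuous fun θ : sphere (0 : X) 1 => fderiv ℝ (w j) (c + r • (θ : X)) θ :=
      c1.comp (Continuous.prodMk_right r)
    rw [hd, ← integral_sub (ic c3) a2]
    refine (enorm_integral_le_lintegral_enorm _).trans (lintegral_mono fun θ => ?_)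
    exact enorm_le_iff_norm_le.2 (enorm_ray (fderiv ℝ (w j) (c + r • (θ : X)) - D _) θ)
  obtain ⟨s0, hs0, -, a0⟩ := exists_valid (O := ∅) (by simpa using hR)
    (T.mono fun s hs h1 _ => hs h1)
  refine ⟨fun s => ∫ θ, v (c + s0 • (θ : X)) ∂μ.toSphere + ∫ r in s0..s, d r,
    fun s t hs ht hsR htR => ?_, ?_⟩
  · have b1 : min s (min t s0) ≤ R := (min_le_left _ _).trans hsR
    have b2 : s0 ∈ uIcc (min s (min t s0)) R := by
      rw [uIcc_of_le b1]
      exact ⟨(min_le_right _ _).trans (min_le_right _ _), hs0.2.le⟩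
    have b3 : uIcc s t ⊆ uIcc (min s (min t s0)) R := by
      rw [uIcc_of_le b1]
      exact uIcc_subset_Icc ⟨min_le_left _ _, hsR⟩
        ⟨(min_le_right _ _).trans (min_le_left _ _), htR⟩
    have b4 := (ac_prim (di (lt_min hs (lt_min ht hs0.1)) hR b1 le_rfl) b2).mono b3
    exact ac_of_le' zero_le_one b4 fun _ _ _ _ => by rw [dist_add_left, one_mul]
  · have hk : ∀ k : ℕ, s0 / (k + 1) ≤ s0 := fun k =>
      div_le_self hs0.1.le (le_add_of_nonneg_left k.cast_nonneg)
    have a1 := ae_all_iff.2 fun k : ℕ => (di (div_pos hs0.1 (Nat.cast_add_one_pos k)) hR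
      ((hk k).trans hs0.2.le) le_rfl).ae_hasDerivAt_integral
    filter_upwards [T, a1] with s a2 a3 hs
    refine ⟨?_, ?_⟩
    · have a4 := (a2 hs).sub a0
      simp only [fun i => mean_ftc μ (h1 (φ i)) c s0 s] at a4
      rw [add_comm, ← eq_sub_iff_add_eq]
      rcases le_total s0 s with k | k
      · exact tendsto_nhds_unique ((U _ _ hs0.1 k hs.2.le).comp hφ.tendsto_atTop) a4
      · have a5 := ((U _ _ hs.1 k hs0.2.le).comp hφ.tendsto_atTop).neg
        simp only [Function.comp, ← intervalIntegral.integral_symm] at a5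
        exact tendsto_nhds_unique a5 a4
    · obtain ⟨k, hk1⟩ := exists_nat_gt (s0 / s)
      have a4 : s0 / (k + 1) ≤ s := by
        rw [div_le_iff₀ (Nat.cast_add_one_pos k)]
        rw [div_lt_iff₀ hs.1] at hk1
        nlinarith [hs.1]
      have a5 := a3 k
      rw [uIcc_of_le ((hk k).trans hs0.2.le)] at a5
      exact (a5 ⟨a4, hs.2.le⟩ s0 ⟨hk k, hs0.2.le⟩).const_add _

end Pool.Agent.Lib.MP_a785f2_an.LY
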