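import Mathlib

/-!
Merging of a summable family of balls into disjoint balls, and a weighted Vitali selection.
-/

open MeasureTheory Metric Set Filter
open scoped ENNReal Topology

namespace Pool.Agent.Lib.MP_a785f2_an.LY

section Merge

variable {E : Type*} [NormedAddCommGroup E] [NormedSpace ℝ E] [ProperSpace E] {ι : Type*}

/-- A block of balls fits in one ball whose radius is the sum of the radii. -/
def Fits (x : ι → E) (r : ι → ℝ) (β : Set ι) : Prop :=
  ∃ c : E, ∀ i ∈ β, dist (x i) c + r i ≤ ∑' j, β.indicator r j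

theorem blk_summable {r : ι → ℝ} (hs : Summable r) (β : Set ι) : Summable (β.indicator r) :=
  hs.indicator β

theorem blk_mono {r : ι → ℝ} (hr : ∀ i, 0 < r i) (hs : Summable r) {β γ : Set ι} (h : β ⊆ γ) :
    ∑' j, β.indicator r j ≤ ∑' j, γ.indicator r j :=
  (blk_summable hs β).tsum_le_tsum
    (fun j => indicator_le_indicator_of_subset h (fun i => (hr i).le) j) (blk_summable hs γ)

theorem blk_nonneg {r : ι → ℝ} (hr : ∀ i, 0 < r i) (β : Set ι) : 0 ≤ ∑' j, β.indicator r j :=
  tsum_nonneg fun j => indicator_nonneg (fun i _ => (hr i).le) j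

theorem blk_union {r : ι → ℝ} (hs : Summable r) {β γ : Set ι} (h : Disjoint β γ) :
    ∑' j, (β ∪ γ).indicator r j = ∑' j, β.indicator r j + ∑' j, γ.indicator r j := by
  rw [← (blk_summable hs β).tsum_add (blk_summable hs γ)]
  exact tsum_congr fun j => indicator_union_of_disjoint h r ▸ rfl

omit [NormedSpace ℝ E] [ProperSpace E] in
theorem fits_single (x : ι → E) (r : ι → ℝ) (i : ι) : Fits x r {i} := by
  refine ⟨x i, fun j hj => ?_⟩
  obtain rfl : j = i := hj
  rw [tsum_eq_single j (fun k hk => indicator_of_notMem (by simpa using hk) r),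
    indicator_of_mem (mem_singleton j)]
  simp

omit [NormedSpace ℝ E] in
theorem fits_chain (x : ι → E) {r : ι → ℝ} (hr : ∀ i, 0 < r i) (hs : Summable r) {κ : Type*}
    [Nonempty κ] (β : κ → Set ι) (hd : Directed (· ⊆ ·) β) (i0 : ι) (h0 : ∀ k, i0 ∈ β k)
    (hf : ∀ k, Fits x r (β k)) : Fits x r (⋃ k, β k) := by
  set R := ∑' j, (⋃ k, β k).indicator r j with hR
  let K : κ → Set E := fun k => {c | ∀ i ∈ β k, dist (x i) c + r i ≤ R}
  have hcl : ∀ k, IsClosed (K k) := fun k => by
    have : K k = ⋂ i ∈ β k, {c | dist (x i) c + r i ≤ R} := by ext c; simp [K]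
    rw [this]
    exact isClosed_biInter fun i _ => isClosed_le (by fun_prop) continuous_const
  have hne : ∀ k, (K k).Nonempty := fun k => by
    obtain ⟨c, hc⟩ := hf k
    exact ⟨c, fun i hi => (hc i hi).trans (blk_mono hr hs (subset_iUnion β k))⟩
  have hc : ∀ k, IsCompact (K k) := fun k => by
    refine (isCompact_closedBall (x i0) R).of_isClosed_subset (hcl k) fun c hc => ?_
    have := hc i0 (h0 k)
    rw [mem_closedBall']
    linarith [hr i0]
  have hdir : Directed (· ⊇ ·) K := fun a b => by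
    obtain ⟨k, ha, hb⟩ := hd a b
    exact ⟨k, fun c hc i hi => hc i (ha hi), fun c hc i hi => hc i (hb hi)⟩
  obtain ⟨c, hc⟩ := IsCompact.nonempty_iInter_of_directed_nonempty_isCompact_isClosed K hdir hne
    hc hcl
  refine ⟨c, fun i hi => ?_⟩
  obtain ⟨k, hk⟩ := mem_iUnion.1 hi
  exact mem_iInter.1 hc k i hk

/-- Merging: every ball of a summable family is put in a bigger ball `φ i`, the bigger balls are
equal or disjoint, and the radius of a bigger ball is the sum of the radii of its block. -/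
theorem mergeB (x : ι → E) (r : ι → ℝ) (hr : ∀ i, 0 < r i) (hs : Summable r) :
    ∃ φ : ι → E × ℝ, (∀ i, dist (x i) (φ i).1 + r i ≤ (φ i).2) ∧
      (∀ i, (φ i).2 = ∑' j, {j | φ j = φ i}.indicator r j) ∧
      ∀ i j, φ i ≠ φ j → Disjoint (ball (φ i).1 (φ i).2) (ball (φ j).1 (φ j).2) := by
  classical
  let S : Set (Set (ι × ι)) := {M | (∀ i, (i, i) ∈ M) ∧ (∀ i j, (i, j) ∈ M → (j, i) ∈ M) ∧
    (∀ i j k, (i, j) ∈ M → (j, k) ∈ M → (i, k) ∈ M) ∧ ∀ i, Fits x r {j | (i, j) ∈ M}}
  have hbase : {p : ι × ι | p.1 = p.2} ∈ S := by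
    refine ⟨fun i => rfl, fun i j h => Eq.symm h, fun i j k h1 h2 => Eq.trans h1 h2, fun i => ?_⟩
    have : {j | (i, j) ∈ {p : ι × ι | p.1 = p.2}} = {i} := by
      ext j; simp [eq_comm]
    rw [this]
    exact fits_single x r i
  obtain ⟨M, -, hM⟩ := zorn_subset_nonempty S (fun c hcS hc hne => by
    refine ⟨⋃₀ c, ⟨fun i => ?_, fun i j h => ?_, fun i j k h1 h2 => ?_, fun i => ?_⟩,
      fun s hs => subset_sUnion_of_mem hs⟩
    · obtain ⟨m, hm⟩ := hne
      exact ⟨m, hm, (hcS hm).1 i⟩
    · obtain ⟨m, hm, h⟩ := h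
      exact ⟨m, hm, (hcS hm).2.1 i j h⟩
    · obtain ⟨m, hm, h1⟩ := h1
      obtain ⟨m', hm', h2⟩ := h2
      rcases hc.total hm hm' with h | h
      · exact ⟨m', hm', (hcS hm').2.2.1 i j k (h h1) h2⟩
      · exact ⟨m, hm, (hcS hm).2.2.1 i j k h1 (h h2)⟩
    · have : Nonempty c := hne.to_subtype
      have : {j | (i, j) ∈ ⋃₀ c} = ⋃ m : c, {j | (i, j) ∈ (m : Set (ι × ι))} := by
        ext j; simp
      rw [this]
      refine fits_chain x hr hs _ (fun a b => ?_) i (fun m => (hcS m.2).1 i)
        fun m => (hcS m.2).2.2.2 i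
      rcases hc.total a.2 b.2 with h | h
      · exact ⟨b, fun j hj => h hj, Subset.rfl⟩
      · exact ⟨a, Subset.rfl, fun j hj => h hj⟩) _ hbase
  obtain ⟨hrf, hsy, htr, hfit⟩ := hM.prop
  let cl : ι → Set ι := fun i => {j | (i, j) ∈ M}
  let cen : Set ι → ι → E := fun β i => if h : Fits x r β then h.choose else x i
  have hcen : ∀ i, ∀ j ∈ cl i, dist (x j) (cen (cl i) i) + r j ≤ ∑' k, (cl i).indicator r k := by
    intro i j hj
    have h : Fits x r (cl i) := hfit i
    simp only [cen, dif_pos h]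
    exact h.choose_spec j hj
  have hcl : ∀ i j, (i, j) ∈ M → cl i = cl j := fun i j h => by
    ext k
    exact ⟨fun hk => htr j i k (hsy i j h) hk, fun hk => htr i j k h hk⟩
  let φ : ι → E × ℝ := fun i => (cen (cl i) i, ∑' k, (cl i).indicator r k)
  have hφ : ∀ i j, (i, j) ∈ M → φ i = φ j := fun i j h => by
    have h1 : Fits x r (cl j) := hfit j
    simp only [φ, cen, hcl i j h, dif_pos h1]
  have key : ∀ i j, ¬ Disjoint (ball (φ i).1 (φ i).2) (ball (φ j).1 (φ j).2) → (i, j) ∈ M := by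
    intro i j hnd
    by_contra hij
    obtain ⟨p, hp1, hp2⟩ := not_disjoint_iff.1 hnd
    have hdj : Disjoint (cl i) (cl j) := by
      rw [disjoint_left]
      intro k hk1 hk2
      exact hij (htr i k j hk1 (hsy j k hk2))
    have hd : dist (φ i).1 (φ j).1 ≤ (φ i).2 + (φ j).2 := by
      have := dist_triangle_left (φ i).1 (φ j).1 p
      rw [mem_ball] at hp1 hp2
      linarith
    obtain ⟨c, hc1, hc2⟩ := exists_dist_le_le (blk_nonneg hr (cl j)) (blk_nonneg hr (cl i)) hd
    have hU : Fits x r (cl i ∪ cl j) := by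
      refine ⟨c, fun k hk => ?_⟩
      rw [blk_union hs hdj]
      rcases hk with hk | hk
      · have h1 := hcen i k hk
        have h2 := dist_triangle (x k) (cen (cl i) i) c
        simp only [φ] at hc1
        linarith
      · have h1 := hcen j k hk
        have h2 := dist_triangle (x k) (cen (cl j) j) c
        simp only [φ] at hc2
        rw [dist_comm] at hc2
        linarith
    have hsat : ∀ a b, (a, b) ∈ M → a ∈ cl i ∪ cl j → b ∈ cl i ∪ cl j := fun a b h ha =>
      ha.elim (fun ha => Or.inl (htr i a b ha h)) fun ha => Or.inr (htr j a b ha h)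
    have hM' : M ∪ (cl i ∪ cl j) ×ˢ (cl i ∪ cl j) ∈ S := by
      refine ⟨fun a => Or.inl (hrf a), fun a b h => ?_, fun a b d h1 h2 => ?_, fun a => ?_⟩
      · exact h.elim (fun h => Or.inl (hsy a b h)) fun h => Or.inr ⟨h.2, h.1⟩
      · rcases h1 with h1 | h1 <;> rcases h2 with h2 | h2
        · exact Or.inl (htr a b d h1 h2)
        · exact Or.inr ⟨hsat b a (hsy a b h1) h2.1, h2.2⟩
        · exact Or.inr ⟨h1.1, hsat b d h2 h1.2⟩
        · exact Or.inr ⟨h1.1, h2.2⟩
      · by_cases ha : a ∈ cl i ∪ cl j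
        · have : {b | (a, b) ∈ M ∪ (cl i ∪ cl j) ×ˢ (cl i ∪ cl j)} = cl i ∪ cl j := by
            ext b
            exact ⟨fun h => h.elim (fun h => hsat a b h ha) fun h => h.2, fun h => Or.inr ⟨ha, h⟩⟩
          rw [this]
          exact hU
        · have : {b | (a, b) ∈ M ∪ (cl i ∪ cl j) ×ˢ (cl i ∪ cl j)} = cl a := by
            ext b
            exact ⟨fun h => h.elim id fun h => (ha h.1).elim, fun h => Or.inl h⟩
          rw [this]
          exact hfit a
    exact hij (hM.le_of_ge hM' subset_union_left (Or.inr ⟨Or.inl (hrf i), Or.inr (hrf j)⟩))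
  refine ⟨φ, fun i => hcen i i (hrf i), fun i => ?_, fun i j h => ?_⟩
  · have : {j | φ j = φ i} = cl i := by
      ext j
      refine ⟨fun h => key i j ?_, fun h => (hφ i j h).symm⟩
      rw [show φ j = φ i from h, disjoint_self]
      have h1 := hcen i i (hrf i)
      have h2 : 0 < (φ i).2 := by
        have := dist_nonneg (x := x i) (y := cen (cl i) i)
        simp only [φ]
        linarith [hr i]
      exact (nonempty_ball.2 h2).ne_empty
    rw [this]
  · by_contra hnd
    exact h (hφ i j (key i j hnd))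

/-- Sums over the merged balls are bounded by sums over the original family. -/
theorem mergeB_sum {α : Type*} {r : ι → ℝ} (hs : Summable r) (φ : ι → α)
    (w : α → ℝ) (g : ι → ℝ) (hg : ∀ i, r i * w (φ i) ≤ g i) (hg0 : ∀ i, 0 ≤ g i) {C : ℝ}
    (hC : ∀ s : Finset ι, ∑ i ∈ s, g i ≤ C) (s : Finset α) :
    ∑ h ∈ s, (∑' j, {j | φ j = h}.indicator r j) * w h ≤ C := by
  classical
  have hgs : Summable g := summable_of_sum_le hg0 hC
  have h1 : ∀ h ∈ s, (∑' j, {j | φ j = h}.indicator r j) * w h ≤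
      ∑' j, {j | φ j = h}.indicator g j := by
    intro h _
    rw [← tsum_mul_right]
    refine ((blk_summable hs _).mul_right _).tsum_le_tsum (fun j => ?_) (hgs.indicator _)
    by_cases hj : j ∈ {j | φ j = h}
    · rw [indicator_of_mem hj, indicator_of_mem hj, ← show φ j = h from hj]
      exact hg j
    · rw [indicator_of_notMem hj, indicator_of_notMem hj, zero_mul]
  refine (Finset.sum_le_sum h1).trans ?_
  rw [← Summable.tsum_finsetSum fun h _ => hgs.indicator _]
  refine le_trans ((summable_sum fun h _ => hgs.indicator _).tsum_le_tsum (fun j => ?_) hgs)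
    (hgs.tsum_le_of_sum_le hC)
  have : ∀ h ∈ s, {j | φ j = h}.indicator g j = if φ j = h then g j else 0 := fun h _ => by
    simp [indicator_apply]
  rw [Finset.sum_congr rfl this, Finset.sum_ite_eq]
  split_ifs
  · exact le_rfl
  · exact hg0 j

end Merge

section Vit

variable {E : Type*} [MetricSpace E] [SecondCountableTopology E] [MeasurableSpace E] [BorelSpace E]

omit [SecondCountableTopology E] in
theorem sum_ball_le (μ : Measure E) [IsFiniteMeasure μ] {ι : Type*} (s : Finset ι) (x : ι → E)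
    (t : ι → ℝ) (hd : (s : Set ι).PairwiseDisjoint fun i => ball (x i) (t i)) {A : Set E}
    (hA : ∀ i ∈ s, ball (x i) (t i) ⊆ A) : ∑ i ∈ s, μ.real (ball (x i) (t i)) ≤ μ.real A := by
  rw [← measureReal_biUnion_finset hd (fun i _ => measurableSet_ball)]
  exact measureReal_mono (iUnion₂_subset hA)

omit [MeasurableSpace E] [BorelSpace E] in
/-- Vitali selection among balls centred at the points of `S`. -/
theorem vit (S : Set E) (τ : E → ℝ) (R : ℝ) (hτ : ∀ x ∈ S, 0 < τ x ∧ τ x ≤ R) :
    ∃ u ⊆ S, u.Countable ∧ (u.PairwiseDisjoint fun x => ball x (τ x)) ∧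
      ∀ x ∈ S, ∃ b ∈ u, x ∈ ball b (4 * τ b) := by
  obtain ⟨u, huS, hd, hc⟩ := Vitali.exists_disjoint_subfamily_covering_enlargement_ball S id τ R
    (fun x hx => (hτ x hx).2) 4 (by norm_num)
  refine ⟨u, huS, hd.countable_of_isOpen (fun x _ => isOpen_ball)
    fun x hx => nonempty_ball.2 (hτ x (huS hx)).1, hd, fun x hx => ?_⟩
  obtain ⟨b, hb, h⟩ := hc x hx
  exact ⟨b, hb, h (mem_ball_self (hτ x hx).1)⟩

end Vit

end Pool.Agent.Lib.MP_a785f2_an.LY
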