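import Pool.Agent.Lib.MP_a785f2_an.LY.Val

/-!
Decay of the energy gives a continuous representative.
-/

open MeasureTheory Metric Set Filter Module Topology
open scoped ENNReal

namespace Pool.Agent.Lib.MP_a785f2_an.LY

variable {X F : Type*} [NormedAddCommGroup X] [NormedSpace ℝ X] [FiniteDimensional ℝ X]
  [MeasurableSpace X] [BorelSpace X] [NormedAddCommGroup F] [NormedSpace ℝ F] [CompleteSpace F]
  {ν μ : Measure X} [ν.IsAddHaarMeasure] {Ω : Set X} {u : X → F} {C : ℝ}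

omit [FiniteDimensional ℝ X] [NormedSpace ℝ F] [CompleteSpace F] [NormedSpace ℝ X]
  [BorelSpace X] in
theorem rep_close {x x' z : X} {r r' γ γ' : ℝ} {c c' : F} (hz : z ∈ ball x r)
    (hz' : z ∈ ball x' r') (h : ∀ᵐ y ∂ν, y ∈ ball x r → ‖u y - c‖ ≤ γ)
    (h' : ∀ᵐ y ∂ν, y ∈ ball x' r' → ‖u y - c'‖ ≤ γ') : ‖c - c'‖ ≤ γ + γ' := by
  have ho : IsOpen (ball x r ∩ ball x' r') := isOpen_ball.inter isOpen_ball
  obtain ⟨y, hy, k1, k2⟩ := Measure.exists_mem_of_measure_ne_zero_of_ae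
    (ho.measure_pos ν ⟨z, hz, hz'⟩).ne' (ae_restrict_of_ae (h.and h'))
  calc ‖c - c'‖ = ‖(u y - c') - (u y - c)‖ := by congr 1; abel
    _ ≤ ‖u y - c'‖ + ‖u y - c‖ := norm_sub_le _ _
    _ ≤ γ + γ' := by linarith [k1 hy.1, k2 hy.2]

omit [NormedSpace ℝ F] in
/-- Small essential oscillation at every point gives a continuous representative. -/
theorem rep_osc (h : ∀ x0 ∈ Ω, ∀ γ : ℝ, 0 < γ → ∃ r : ℝ, 0 < r ∧ ∃ c : F,
      ∀ᵐ x ∂ν, x ∈ ball x0 r → ‖u x - c‖ ≤ γ) :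
    ∃ v : X → F, ContinuousOn v Ω ∧ ∀ᵐ x ∂ν, x ∈ Ω → u x = v x := by
  have h1 : ∀ x0 ∈ Ω, ∀ j : ℕ, ∃ r : ℝ, 0 < r ∧ ∃ c : F,
      ∀ᵐ x ∂ν, x ∈ ball x0 r → ‖u x - c‖ ≤ 1 / ((j : ℝ) + 1) :=
    fun x0 hx j => h x0 hx _ (by positivity)
  choose! r hr c hc using h1
  have lim0 : Tendsto (fun j : ℕ => 1 / ((j : ℝ) + 1)) atTop (𝓝 0) :=
    tendsto_one_div_add_atTop_nhds_zero_nat
  have hcau : ∀ x ∈ Ω, ∃ y, Tendsto (c x) atTop (𝓝 y) := fun x hx => by
    refine cauchySeq_tendsto_of_complete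
      (cauchySeq_of_le_tendsto_0 (fun N : ℕ => 1 / ((N : ℝ) + 1) + 1 / ((N : ℝ) + 1)) ?_ ?_)
    · intro i j N hi hj
      have h2 := rep_close (mem_ball_self (hr x hx i)) (mem_ball_self (hr x hx j))
        (hc x hx i) (hc x hx j)
      have h3 : 1 / ((i : ℝ) + 1) ≤ 1 / ((N : ℝ) + 1) := Nat.one_div_le_one_div hi
      have h4 : 1 / ((j : ℝ) + 1) ≤ 1 / ((N : ℝ) + 1) := Nat.one_div_le_one_div hj
      rw [dist_eq_norm]; linarith
    · simpa using lim0.add lim0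
  choose! v hv using hcau
  have key : ∀ x0 ∈ Ω, ∀ j : ℕ, ∀ x ∈ Ω, x ∈ ball x0 (r x0 j) →
      ‖v x - c x0 j‖ ≤ 1 / ((j : ℝ) + 1) := fun x0 hx0 j x hx hb => by
    have t1 : Tendsto (fun i => ‖c x i - c x0 j‖) atTop (𝓝 ‖v x - c x0 j‖) :=
      ((hv x hx).sub_const _).norm
    have t2 : Tendsto (fun i : ℕ => 1 / ((i : ℝ) + 1) + 1 / ((j : ℝ) + 1)) atTop
        (𝓝 (0 + 1 / ((j : ℝ) + 1))) := lim0.add_const _
    rw [zero_add] at t2
    exact le_of_tendsto_of_tendsto' t1 t2 fun i =>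
      rep_close (mem_ball_self (hr x hx i)) hb (hc x hx i) (hc x0 hx0 j)
  refine ⟨v, Metric.continuousOn_iff.2 fun b hb ε hε => ?_, ?_⟩
  · obtain ⟨j, hj⟩ := exists_nat_one_div_lt (half_pos hε)
    refine ⟨r b j, hr b hb j, fun a ha hab => ?_⟩
    have k1 := key b hb j a ha hab
    have k2 := key b hb j b hb (mem_ball_self (hr b hb j))
    calc dist (v a) (v b) = ‖(v a - c b j) - (v b - c b j)‖ := by rw [dist_eq_norm]; congr 1; abel
      _ ≤ ‖v a - c b j‖ + ‖v b - c b j‖ := norm_sub_le _ _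
      _ < ε := by linarith
  · have h5 : ∀ j : ℕ, ∀ᵐ x ∂ν, x ∈ Ω →
        ‖u x - v x‖ ≤ 1 / ((j : ℝ) + 1) + 1 / ((j : ℝ) + 1) := fun j => by
      rw [ae_iff]
      refine measure_null_of_locally_null _ fun x hx => ?_
      have hxΩ : x ∈ Ω := by
        by_contra hn; exact hx fun h => absurd h hn
      refine ⟨_ ∩ ball x (r x j), inter_mem_nhdsWithin _ (ball_mem_nhds x (hr x hxΩ j)), ?_⟩
      have h6 := hc x hxΩ j
      rw [ae_iff] at h6
      refine measure_mono_null (fun y hy => ?_) h6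
      intro h7
      refine hy.1 fun hyΩ => ?_
      have k1 := key x hxΩ j y hyΩ hy.2
      have k2 := h7 hy.2
      calc ‖u y - v y‖ = ‖(u y - c x j) - (v y - c x j)‖ := by congr 1; abel
        _ ≤ ‖u y - c x j‖ + ‖v y - c x j‖ := norm_sub_le _ _
        _ ≤ _ := by linarith
    filter_upwards [ae_all_iff.2 h5] with x hx hxΩ
    have t : Tendsto (fun j : ℕ => 1 / ((j : ℝ) + 1) + 1 / ((j : ℝ) + 1)) atTop (𝓝 0) := by
      simpa using lim0.add lim0
    exact sub_eq_zero.1 (norm_le_zero_iff.1 (ge_of_tendsto' t fun j => hx j hxΩ))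

omit [NormedSpace ℝ X] [FiniteDimensional ℝ X] in
/-- Small balls have small mass. -/
theorem mass_small [IsFiniteMeasure μ] [NullSingletonClass μ] (x : X) {ε : ℝ} (hε : 0 < ε) :
    ∀ᶠ r in 𝓝[>] (0 : ℝ), μ.real (ball x r) ≤ ε := by
  have h := tendsto_measure_cthickening_of_isClosed (μ := μ) (s := {x})
    ⟨1, one_pos, measure_ne_top μ _⟩ isClosed_singleton
  rw [measure_singleton] at h
  have h2 := (ENNReal.tendsto_nhds_zero.1 h _ (ENNReal.ofReal_pos.2 hε)).filter_mono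
    (nhdsWithin_le_nhds (s := Ioi 0))
  filter_upwards [h2, self_mem_nhdsWithin] with r h3 h4
  rw [cthickening_singleton x (le_of_lt h4)] at h3
  exact ENNReal.toReal_le_of_le_ofReal hε.le ((measure_mono ball_subset_closedBall).trans h3)

/-- Decay of the energy on small balls gives a continuous representative. -/
theorem Poin.rep' [Nontrivial X] [IsFiniteMeasure μ] [NullSingletonClass μ] (hP : Poin ν μ Ω u C)
    (hC : 0 ≤ C) (hu : LocallyIntegrable u ν) (hΩ : IsOpen Ω) {ε0 ϑ : ℝ} (hε : 0 < ε0)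
    (hϑ : ϑ < 1)
    (dec : ∀ x r, 0 < r → closedBall x (4 * r) ⊆ Ω → μ.real (ball x (4 * r)) ≤ ε0 →
      μ.real (ball x r) ≤ ϑ * μ.real (ball x (4 * r))) :
    ∃ v : X → F, ContinuousOn v Ω ∧ ∀ᵐ x ∂ν, x ∈ Ω → u x = v x := by
  set n := finrank ℝ X with hn
  set θ := max ϑ 0 with hθ
  have θ0 : 0 ≤ θ := le_max_right _ _
  obtain ⟨N, hN⟩ := exists_pow_lt_of_lt_one (x := ((1 / 2 : ℝ)) ^ n) (y := θ) (by positivity)
    (max_lt hϑ one_pos)
  have hN' : θ ^ (N + 1) ≤ (1 / 2) ^ n := by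
    rw [pow_succ]
    exact (mul_le_of_le_one_right (by positivity) (max_lt hϑ one_pos).le).trans hN.le
  have q1 : (1 : ℝ) < 4 ^ (N + 1) := one_lt_pow₀ (by norm_num) (by omega)
  set A := (2 * (4 ^ (N + 1)) ^ n + 2 ^ n) * C + 1 with hA
  have A0 : 0 < A := by positivity
  refine rep_osc fun x0 hx γ hγ => ?_
  have l0 : 0 < γ / A := by positivity
  obtain ⟨ρ, ρ0, hρ⟩ := Metric.isOpen_iff.1 hΩ x0 hx
  obtain ⟨R, ⟨m1, m2⟩, R0, R1⟩ := (((mass_small (μ := μ) x0 hε).and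
    (mass_small (μ := μ) x0 (pow_pos l0 n))).and (Ioo_mem_nhdsGT ρ0)).exists
  have sub : ∀ x t, dist x x0 + t ≤ R → closedBall x t ⊆ Ω ∧
      μ.real (ball x t) ≤ μ.real (ball x0 R) := fun x t h =>
    ⟨(closedBall_subset_ball' (by linarith)).trans hρ,
      measureReal_mono (ball_subset_ball' (by linarith)) (measure_ne_top μ _)⟩
  refine ⟨R / 2, by linarith, ⨍ y in ball x0 R, u y ∂ν, ?_⟩
  filter_upwards [hP.pt hC hu] with x hpt hx1
  have d1 : dist x x0 < R / 2 := mem_ball.1 hx1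
  have it : ∀ j : ℕ, μ.real (ball x (R / 2 / 4 ^ j)) ≤ θ ^ j * (γ / A) ^ n := fun j => by
    induction j with
    | zero => simpa using (sub x (R / 2) (by linarith)).2.trans m2
    | succ j ih =>
      have e : 4 * (R / 2 / 4 ^ (j + 1)) = R / 2 / 4 ^ j := by rw [pow_succ]; field_simp
      have hle : R / 2 / 4 ^ j ≤ R / 2 := div_le_self (by linarith) (one_le_pow₀ (by norm_num))
      have k := dec x (R / 2 / 4 ^ (j + 1)) (by positivity)
        (by rw [e]; exact (sub x _ (by linarith)).1)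
        (by rw [e]; exact (sub x _ (by linarith)).2.trans m1)
      rw [e] at k
      calc _ ≤ θ * μ.real (ball x (R / 2 / 4 ^ j)) :=
            k.trans (mul_le_mul_of_nonneg_right (le_max_left _ _) measureReal_nonneg)
        _ ≤ θ * (θ ^ j * (γ / A) ^ n) := mul_le_mul_of_nonneg_left ih θ0
        _ = _ := by ring
  have k1 := hpt (R / 2) (γ / A) _ (by linarith) l0.le q1 (sub x _ (by linarith)).1 fun i => by
    rw [← pow_mul]
    refine (it _).trans ?_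
    have e1 : (γ / A / 2 ^ i) ^ n = ((1 / 2) ^ n) ^ i * (γ / A) ^ n := by
      rw [← pow_mul, mul_comm n i, pow_mul, ← mul_pow, one_div_pow]
      congr 1; ring
    rw [e1, pow_mul]
    exact mul_le_mul_of_nonneg_right (pow_le_pow_left₀ (by positivity) hN' i) (by positivity)
  have k2 := hP.nest hC hu (x := x0) (x' := x) (t := R) (t' := R / 2) (Λ := 2) (by linarith) l0.le
    (by linarith) (by linarith) (sub x0 R (by simp)).1 m2
  have k3 : A * (γ / A) = γ := mul_div_cancel₀ _ A0.ne'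
  have k4 : A * (γ / A) = 2 * ((4 ^ (N + 1)) ^ n * (C * (γ / A))) + 2 ^ n * (C * (γ / A)) +
      γ / A := by
    generalize γ / A = w
    rw [hA]; ring
  linarith [norm_sub_le_norm_sub_add_norm_sub (u x) (⨍ y in ball x (R / 2), u y ∂ν)
    (⨍ y in ball x0 R, u y ∂ν)]

theorem Poin.rep [Nontrivial X] [IsFiniteMeasure μ] [NullSingletonClass μ] (hP : Poin ν μ Ω u C)
    (hC : 0 ≤ C) (hu : LocallyIntegrable u ν) (hΩ : IsOpen Ω) {ε0 ϑ : ℝ} (hε : 0 < ε0)
    (hϑ : ϑ < 1)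
    (dec : ∀ x r, 0 < r → ball x (4 * r) ⊆ Ω → μ.real (ball x (4 * r)) ≤ ε0 →
      μ.real (ball x r) ≤ ϑ * μ.real (ball x (4 * r))) :
    ∃ v : X → F, ContinuousOn v Ω ∧ ∀ᵐ x ∂ν, x ∈ Ω → u x = v x :=
  hP.rep' hC hu hΩ hε hϑ fun x r h1 h2 => dec x r h1 (ball_subset_closedBall.trans h2)

end Pool.Agent.Lib.MP_a785f2_an.LY
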