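import Mathlib

/-!
Hole filling and iteration: real-variable lemmas for the end of the proof.
-/

namespace Pool.Agent.Lib.MP_a785f2_an.LY

/-- Hole filling, with `a`, `b`, `c` the energies of the balls of radius `r`, `2 r`, `4 r`. -/
theorem hole_fill {n : ℕ} (hn : 2 ≤ n) (C : ℝ) : ∃ ϑ : ℝ, 1 / 2 ≤ ϑ ∧ ϑ < 1 ∧
    ∀ a b c : ℝ, 0 ≤ a → a ≤ b → b ≤ c → a ^ n ≤ C * c * (b - a) ^ (n - 1) → a ≤ ϑ * c := by
  obtain ⟨k, rfl⟩ : ∃ k, n = k + 2 := ⟨n - 2, by omega⟩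
  have hC : 0 < |C| + 1 := by positivity
  have h1 : 1 ≤ |C| + 1 := by linarith [abs_nonneg C]
  set η : ℝ := (1 / 2) ^ (k + 2) / (|C| + 1) with hη
  have η0 : 0 < η := by positivity
  have η1 : η ≤ 1 / 2 := by
    refine (div_le_self (by positivity) h1).trans ?_
    calc (1 / 2 : ℝ) ^ (k + 2) ≤ (1 / 2) ^ 1 :=
          pow_le_pow_of_le_one (by norm_num) (by norm_num) (by omega)
      _ = 1 / 2 := pow_one _
  refine ⟨1 - η, by linarith, by linarith, fun a b c ha hab hbc h => ?_⟩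
  by_contra hlt
  rw [not_le] at hlt
  have c0 : 0 < c := by
    rcases (ha.trans (hab.trans hbc)).eq_or_lt with h0 | h0
    · rw [← h0] at hlt hbc; linarith
    · exact h0
  have e1 : b - a ≤ η * c := by linarith
  have e2 : (b - a) ^ (k + 1) ≤ η * c ^ (k + 1) := by
    refine (pow_le_pow_left₀ (by linarith) e1 _).trans ?_
    rw [mul_pow, pow_succ]
    exact mul_le_mul_of_nonneg_right
      (mul_le_of_le_one_left η0.le (pow_le_one₀ η0.le (by linarith))) (by positivity)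
  have e3 : (1 / 2 * c) ^ (k + 2) < a ^ (k + 2) :=
    pow_lt_pow_left₀ (lt_of_le_of_lt (by nlinarith) hlt) (by positivity) (by omega)
  have e4 : C * c * (b - a) ^ (k + 1) ≤ (|C| + 1) * c * (η * c ^ (k + 1)) :=
    mul_le_mul (mul_le_mul_of_nonneg_right ((le_abs_self C).trans (by linarith)) c0.le) e2
      (pow_nonneg (by linarith) _) (by positivity)
  have e5 : (|C| + 1) * c * (η * c ^ (k + 1)) = (1 / 2 * c) ^ (k + 2) := by
    rw [hη, mul_pow]; field_simp; ring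
  have e6 : a ^ (k + 2) ≤ C * c * (b - a) ^ (k + 1) := h
  linarith

/-- The same with the level `l` and the boundary quantity `D` kept apart. -/
theorem hole_fill' {n : ℕ} (hn : 2 ≤ n) (C : ℝ) : ∃ ϑ : ℝ, 1 / 2 ≤ ϑ ∧ ϑ < 1 ∧
    ∀ a b c l D : ℝ, 0 ≤ a → a ≤ b → b ≤ c → 0 ≤ l → 0 ≤ D → l ^ n ≤ C * c →
      D ^ n ≤ C * (b - a) ^ (n - 1) → a ≤ C * l * D → a ≤ ϑ * c := by
  obtain ⟨ϑ, h1, h2, h⟩ := hole_fill hn (|C| ^ n * |C| * |C|)
  refine ⟨ϑ, h1, h2, fun a b c l D ha hab hbc hl hD e1 e2 e3 => h a b c ha hab hbc ?_⟩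
  have c0 : 0 ≤ c := ha.trans (hab.trans hbc)
  have d0 : 0 ≤ (b - a) ^ (n - 1) := pow_nonneg (by linarith) _
  have f1 := e1.trans (mul_le_mul_of_nonneg_right (le_abs_self C) c0)
  have f2 := e2.trans (mul_le_mul_of_nonneg_right (le_abs_self C) d0)
  have f3 : a ≤ |C| * l * D := e3.trans (by gcongr; exact le_abs_self C)
  calc a ^ n ≤ (|C| * l * D) ^ n := pow_le_pow_left₀ ha f3 n
    _ = |C| ^ n * l ^ n * D ^ n := by rw [mul_pow, mul_pow]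
    _ ≤ |C| ^ n * (|C| * c) * (|C| * (b - a) ^ (n - 1)) := by gcongr
    _ = _ := by ring

theorem decay_iter {E : ℝ → ℝ} {ϑ R : ℝ} (hϑ : 0 ≤ ϑ) (hR : 0 < R)
    (h : ∀ r, 0 < r → 4 * r ≤ R → E r ≤ ϑ * E (4 * r)) (j : ℕ) :
    E (R / 4 ^ j) ≤ ϑ ^ j * E R := by
  induction j with
  | zero => simp
  | succ j ih =>
    have e : 4 * (R / 4 ^ (j + 1)) = R / 4 ^ j := by rw [pow_succ]; field_simp
    have h1 := h (R / 4 ^ (j + 1)) (by positivity)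
      (by rw [e]; exact div_le_self hR.le (one_le_pow₀ (by norm_num)))
    rw [e] at h1
    calc _ ≤ ϑ * (ϑ ^ j * E R) := h1.trans (mul_le_mul_of_nonneg_left ih hϑ)
      _ = _ := by ring

/-- Geometric decay on dyadic radii, in the form of an `n`-th power. -/
theorem decay_dyadic {n : ℕ} (hn : 1 ≤ n) {ϑ : ℝ} (h1 : 1 / 2 ≤ ϑ) (h2 : ϑ < 1) :
    ∃ β : ℝ, 0 < β ∧ β < 1 ∧ ∀ (E : ℝ → ℝ) (R : ℝ), 0 < R → 0 ≤ E R →
      (∀ r s, 0 < r → r ≤ s → s ≤ R → E r ≤ E s) →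
      (∀ r, 0 < r → 4 * r ≤ R → E r ≤ ϑ * E (4 * r)) →
      ∀ i : ℕ, E (R / 2 ^ i) ≤ 2 * (β ^ i) ^ n * E R := by
  have ϑ0 : 0 < ϑ := by linarith
  have n0 : (2 * n : ℕ) ≠ 0 := by omega
  have hb : (ϑ ^ ((2 * n : ℕ) : ℝ)⁻¹) ^ (2 * n) = ϑ := Real.rpow_inv_natCast_pow ϑ0.le n0
  set β := ϑ ^ ((2 * n : ℕ) : ℝ)⁻¹ with hβ
  have β0 : 0 < β := Real.rpow_pos_of_pos ϑ0 _
  have β1 : β < 1 := by
    by_contra hc
    have := one_le_pow₀ (not_lt.1 hc) (n := 2 * n)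
    linarith
  refine ⟨β, β0, β1, fun E R hR E0 mono h i => ?_⟩
  have d := decay_iter ϑ0.le hR h (i / 2)
  have e1 : (4 : ℝ) ^ (i / 2) ≤ 2 ^ i := by
    rw [show (4 : ℝ) = 2 ^ 2 by norm_num, ← pow_mul]
    exact pow_le_pow_right₀ one_le_two (by omega)
  have e2 := mono (R / 2 ^ i) (R / 4 ^ (i / 2)) (by positivity)
    (div_le_div_of_nonneg_left hR.le (by positivity) e1)
    (div_le_self hR.le (one_le_pow₀ (by norm_num)))
  refine e2.trans (d.trans (mul_le_mul_of_nonneg_right ?_ E0))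
  have e3 : ϑ ^ (i / 2) * ϑ ≤ (β ^ i) ^ n := by
    rw [← pow_succ, ← hb, ← pow_mul, ← pow_mul]
    refine pow_le_pow_of_le_one β0.le β1.le ?_
    calc i * n ≤ (2 * (i / 2 + 1)) * n := Nat.mul_le_mul_right _ (by omega)
      _ = _ := by ring
  nlinarith [pow_pos ϑ0 (i / 2)]

end Pool.Agent.Lib.MP_a785f2_an.LY
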