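import Mathlib

/-!
The exhaustion argument: a step that passes a property from the holes to the ball gives the
property with an exceptional set of arbitrarily small measure.
-/

open MeasureTheory Set Filter Topology
open scoped ENNReal

namespace Pool.Agent.Lib.MP_a785f2_an.LY

/-- One generation of holes. -/
def StepAt {X N : Type} [MeasurableSpace X] (vol : Measure X) (B : N → Set X) (Good : N → Prop)
    (P : N → Set X → Prop) (v : N) : Prop :=
  ∃ (ι : Type) (_ : Countable ι) (c : ι → N), (∀ j, Good (c j)) ∧ (∀ j, B (c j) ⊆ B v) ∧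
    (Pairwise fun i j => Disjoint (B (c i)) (B (c j))) ∧ vol (⋃ j, B (c j)) ≤ vol (B v) / 2 ∧
    ∀ A : ι → Set X, (∀ j, MeasurableSet (A j)) → (∀ j, A j ⊆ B (c j)) →
      (∀ j, P (c j) (A j)) → P v (⋃ j, A j)

theorem claim_gen {X N : Type} [MeasurableSpace X] {vol : Measure X} {B : N → Set X}
    {Good : N → Prop} {P : N → Set X → Prop} (mB : ∀ v, MeasurableSet (B v))
    (base : ∀ v, Good v → P v (B v)) (step : ∀ v, Good v → StepAt vol B Good P v) (J : ℕ) :
    ∀ v, Good v → ∃ A, MeasurableSet A ∧ A ⊆ B v ∧ vol A ≤ 2⁻¹ ^ J * vol (B v) ∧ P v A := by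
  induction J with
  | zero => exact fun v hv => ⟨B v, mB v, Subset.rfl, by simp, base v hv⟩
  | succ J ih =>
    intro v hv
    obtain ⟨ι, _, c, hg, hs, hd, hv2, hP⟩ := step v hv
    choose A mA sA vA pA using fun j => ih (c j) (hg j)
    refine ⟨⋃ j, A j, MeasurableSet.iUnion mA, iUnion_subset fun j => (sA j).trans (hs j), ?_,
      hP A mA sA pA⟩
    calc vol (⋃ j, A j) ≤ ∑' j, vol (A j) := measure_iUnion_le _
      _ ≤ ∑' j, 2⁻¹ ^ J * vol (B (c j)) := ENNReal.tsum_le_tsum vA
      _ = 2⁻¹ ^ J * vol (⋃ j, B (c j)) := by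
          rw [ENNReal.tsum_mul_left, measure_iUnion hd fun j => mB _]
      _ ≤ 2⁻¹ ^ J * (vol (B v) / 2) := by gcongr
      _ = 2⁻¹ ^ (J + 1) * vol (B v) := by
          rw [pow_succ, mul_assoc, ENNReal.div_eq_inv_mul]

theorem claim_seq {X N : Type} [MeasurableSpace X] {vol : Measure X} {B : N → Set X}
    {Good : N → Prop} {P : N → Set X → Prop} (mB : ∀ v, MeasurableSet (B v))
    (base : ∀ v, Good v → P v (B v)) (step : ∀ v, Good v → StepAt vol B Good P v)
    {v : N} (hv : Good v) (h1 : vol (B v) ≠ ∞) :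
    ∃ A : ℕ → Set X, (∀ J, MeasurableSet (A J) ∧ A J ⊆ B v ∧ P v (A J)) ∧
      Tendsto (fun J => vol (A J)) atTop (𝓝 0) := by
  have lim : Tendsto (fun J : ℕ => (2⁻¹ : ℝ≥0∞) ^ J * vol (B v)) atTop (𝓝 0) := by
    have := ENNReal.Tendsto.mul_const
      (ENNReal.tendsto_pow_atTop_nhds_zero_of_lt_one (r := 2⁻¹) (by norm_num)) (Or.inr h1)
    simpa using this
  choose A mA sA vA pA using fun J => claim_gen mB base step J v hv
  exact ⟨A, fun J => ⟨mA J, sA J, pA J⟩,
    tendsto_of_tendsto_of_tendsto_of_le_of_le tendsto_const_nhds lim (fun _ => zero_le) vA⟩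

/-- The property holds with an exceptional set on which the integral of `g` is small. -/
theorem claim {X N : Type} [MeasurableSpace X] {vol : Measure X} {B : N → Set X}
    {Good : N → Prop} {P : N → Set X → Prop} (mB : ∀ v, MeasurableSet (B v))
    (base : ∀ v, Good v → P v (B v)) (step : ∀ v, Good v → StepAt vol B Good P v)
    {v : N} (hv : Good v) (h1 : vol (B v) ≠ ∞) {g : X → ℝ} (hg : IntegrableOn g (B v) vol)
    {ε : ℝ} (hε : 0 < ε) :
    ∃ A, MeasurableSet A ∧ A ⊆ B v ∧ ∫ x in A, g x ∂vol ≤ ε ∧ P v A := by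
  obtain ⟨A, hA, lim⟩ := claim_seq mB base step hv h1
  have e : ∀ J, (vol.restrict (B v)).restrict (A J) = vol.restrict (A J) := fun J =>
    Measure.restrict_restrict_of_subset (hA J).2.1
  have l2 : Tendsto ((vol.restrict (B v)) ∘ A) atTop (𝓝 0) :=
    tendsto_of_tendsto_of_tendsto_of_le_of_le tendsto_const_nhds lim (fun _ => zero_le)
      fun J => Measure.restrict_apply_le _ _
  have l3 := Integrable.tendsto_setIntegral_nhds_zero hg l2
  simp only [e] at l3
  obtain ⟨J, hJ⟩ := (l3.eventually (gt_mem_nhds hε)).exists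
  exact ⟨A J, (hA J).1, (hA J).2.1, hJ.le, (hA J).2.2⟩

/-- The same for a measure with a density. -/
theorem claim_dens {X N : Type} [MeasurableSpace X] {vol : Measure X} {B : N → Set X}
    {Good : N → Prop} {P : N → Set X → Prop} (mB : ∀ v, MeasurableSet (B v))
    (base : ∀ v, Good v → P v (B v)) (step : ∀ v, Good v → StepAt vol B Good P v)
    {v : N} (hv : Good v) (h1 : vol (B v) ≠ ∞) {w : X → ℝ≥0∞}
    (h2 : vol.withDensity w (B v) ≠ ∞) {ε : ℝ} (hε : 0 < ε) :
    ∃ A, MeasurableSet A ∧ A ⊆ B v ∧ (vol.withDensity w).real A ≤ ε ∧ P v A := by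
  obtain ⟨A, hA, lim⟩ := claim_seq mB base step hv h1
  have e : ∀ J, (vol.restrict (B v)).restrict (A J) = vol.restrict (A J) := fun J =>
    Measure.restrict_restrict_of_subset (hA J).2.1
  have l2 : Tendsto ((vol.restrict (B v)) ∘ A) atTop (𝓝 0) :=
    tendsto_of_tendsto_of_tendsto_of_le_of_le tendsto_const_nhds lim (fun _ => zero_le)
      fun J => Measure.restrict_apply_le _ _
  rw [withDensity_apply _ (mB v)] at h2
  have l3 := tendsto_setLIntegral_zero h2 l2
  simp only [e] at l3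
  obtain ⟨J, hJ⟩ := (l3.eventually (gt_mem_nhds (ENNReal.ofReal_pos.2 hε))).exists
  refine ⟨A J, (hA J).1, (hA J).2.1, ?_, (hA J).2.2⟩
  rw [Measure.real, withDensity_apply _ (hA J).1]
  exact ENNReal.toReal_le_of_le_ofReal hε.le hJ.le

end Pool.Agent.Lib.MP_a785f2_an.LY
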