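import Pool.Agent.Lib.MP_a785f2_an.LY.Vit

/-!
Centre, holes and radial intervals for a finite measure without atoms.
-/

open MeasureTheory Metric Set Filter
open scoped ENNReal Topology

namespace Pool.Agent.Lib.MP_a785f2_an.LY

variable {E : Type*} [NormedAddCommGroup E] [NormedSpace ℝ E] [ProperSpace E]
  [MeasurableSpace E] [BorelSpace E]

/-- Good ball of centre `z`, radius `r`, at mass level `L`. -/
def GoodM (μ : Measure E) (z : E) (r L : ℝ) : Prop :=
  μ.real (ball z (2 * r)) ≤ L / 20 ∧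
    ∀ x ∈ sphere z r, ∀ t : ℝ, 0 < t → t ≤ r / 100 → μ.real (ball x t) ≤ L * t / r

/-- The scale attached to a point. -/
noncomputable def sg (xs : E) (r : ℝ) (x : E) : ℝ := min (dist x xs) (r / 2)

/-- Centre `xs` and holes `H` (pairs centre, radius) of the ball `ball z r` at level `L`. -/
structure Holes (μ : Measure E) (z : E) (r L : ℝ) (xs : E) (H : Set (E × ℝ)) : Prop where
  mass : μ.real (ball z (2 * r)) ≤ L / 20
  cnt : H.Countable
  ctr : dist xs z + r / 200 ≤ r
  pos : ∀ h ∈ H, 0 < h.2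
  sub : ∀ h ∈ H, dist h.1 z + h.2 < r
  sml : ∀ h ∈ H, 400 * h.2 ≤ sg xs r h.1
  good : ∀ h ∈ H, GoodM μ h.1 h.2 (2 / 3 * L)
  disj : H.PairwiseDisjoint fun h => ball h.1 h.2
  sum : ∀ s : Finset (E × ℝ), (s : Set (E × ℝ)) ⊆ H → ∑ h ∈ s, h.2 / sg xs r h.1 ≤ 1 / 400
  off : ∀ x ∈ ball z r, (∀ h ∈ H, x ∉ ball h.1 h.2) → ∀ t : ℝ, 0 < t → t ≤ sg xs r x / 100 →
    μ.real (ball x t) ≤ 100 * L * t / sg xs r x

/-- Radial intervals `J` (pairs of end points) and the good radius `s1`. -/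
structure Shells (r : ℝ) (xs : E) (H : Set (E × ℝ)) (J : Set (ℝ × ℝ)) (s1 : ℝ) : Prop where
  cnt : J.Countable
  pos : ∀ j ∈ J, 0 < j.1
  lt : ∀ j ∈ J, j.1 < j.2
  le2 : ∀ j ∈ J, j.2 ≤ 2 * j.1
  disj : J.PairwiseDisjoint fun j => Ioo j.1 j.2
  sum : ∀ s : Finset (ℝ × ℝ), (s : Set (ℝ × ℝ)) ⊆ J →
    ∑ j ∈ s, (Real.log j.2 - Real.log j.1) ≤ 1 / 100
  hole : ∀ h ∈ H, ∃ j ∈ J, ∀ x ∈ ball h.1 h.2, dist x xs ∈ Ioo j.1 j.2
  s1_mem : s1 ∈ Icc (r / 800) (r / 400)
  s1_off : ∀ j ∈ J, s1 ∉ Ioo j.1 j.2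

omit [NormedSpace ℝ E] [ProperSpace E] [MeasurableSpace E] [BorelSpace E] in
theorem sg_lip (xs : E) (r : ℝ) (x y : E) : sg xs r x ≤ sg xs r y + dist x y := by
  have h1 := dist_triangle x y xs
  have h2 := dist_nonneg (x := x) (y := y)
  unfold sg
  rcases le_total (dist y xs) (r / 2) with h | h
  · rw [min_eq_left h]
    exact (min_le_left _ _).trans (by linarith)
  · rw [min_eq_right h]
    exact (min_le_right _ _).trans (by linarith)

omit [NormedSpace ℝ E] [ProperSpace E] [MeasurableSpace E] [BorelSpace E] in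
theorem sg_le_dist (xs : E) (r : ℝ) (x : E) : sg xs r x ≤ dist x xs := min_le_left _ _

omit [NormedSpace ℝ E] [ProperSpace E] [MeasurableSpace E] [BorelSpace E] in
theorem sg_le_half (xs : E) (r : ℝ) (x : E) : sg xs r x ≤ r / 2 := min_le_right _ _

theorem tsum_ofReal_le {α : Type*} (T : Set α) (f : α → ℝ) (hf : ∀ p ∈ T, 0 ≤ f p) {C : ℝ}
    (h : ∀ s : Finset α, (s : Set α) ⊆ T → ∑ p ∈ s, f p ≤ C) :
    ∑' p : T, ENNReal.ofReal (f p) ≤ ENNReal.ofReal C := by
  classical
  rw [ENNReal.tsum_eq_iSup_sum]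
  refine iSup_le fun s => ?_
  rw [← ENNReal.ofReal_sum_of_nonneg (f := fun p : T => f p) fun p _ => hf p p.2]
  refine ENNReal.ofReal_le_ofReal ?_
  have := h (s.map (Function.Embedding.subtype _)) (fun p hp => by
    obtain ⟨q, -, rfl⟩ := Finset.mem_map.1 (Finset.mem_coe.1 hp)
    exact q.2)
  rwa [Finset.sum_map] at this

theorem vol_Ioo_union {α : Type*} {T : Set α} (hT : T.Countable) (a b : α → ℝ)
    (hab : ∀ p ∈ T, a p ≤ b p) {C : ℝ}
    (h : ∀ s : Finset α, (s : Set α) ⊆ T → ∑ p ∈ s, (b p - a p) ≤ C) :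
    volume (⋃ p ∈ T, Ioo (a p) (b p)) ≤ ENNReal.ofReal C := by
  refine (measure_biUnion_le volume hT _).trans ?_
  simp only [Real.volume_Ioo]
  exact tsum_ofReal_le T (fun p => b p - a p) (fun p hp => sub_nonneg.2 (hab p hp)) h

omit [ProperSpace E] [MeasurableSpace E] [BorelSpace E] in
theorem near_sphere {x z : E} {r : ℝ} (hr : 0 ≤ r) (hx : 0 < dist x z) :
    ∃ w ∈ sphere z r, dist x w = |dist x z - r| := by
  rw [dist_eq_norm] at hx
  refine ⟨z + (r / ‖x - z‖) • (x - z), ?_, ?_⟩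
  · rw [mem_sphere, dist_eq_norm, add_sub_cancel_left, norm_smul, Real.norm_eq_abs,
      abs_of_nonneg (by positivity), div_mul_cancel₀ _ hx.ne']
  · have : x - (z + (r / ‖x - z‖) • (x - z)) = (1 - r / ‖x - z‖) • (x - z) := by
      rw [sub_smul, one_smul]; abel
    rw [dist_eq_norm, this, norm_smul, Real.norm_eq_abs, dist_eq_norm]
    calc |1 - r / ‖x - z‖| * ‖x - z‖ = |1 - r / ‖x - z‖| * |‖x - z‖| := by rw [abs_norm]
      _ = |(1 - r / ‖x - z‖) * ‖x - z‖| := (abs_mul _ _).symm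
      _ = |‖x - z‖ - r| := by rw [sub_mul, one_mul, div_mul_cancel₀ _ hx.ne']

omit [NormedSpace ℝ E] [ProperSpace E] in
theorem small_balls (μ : Measure E) [IsFiniteMeasure μ] [NullSingletonClass μ] {K : Set E}
    (hK : IsCompact K) {ε : ℝ} (hε : 0 < ε) : ∃ δ > 0, ∀ x ∈ K, μ.real (ball x δ) ≤ ε := by
  have h : ∀ x : E, ∃ U, {x} ⊆ U ∧ IsOpen U ∧ μ U < ENNReal.ofReal ε := fun x =>
    Set.exists_isOpen_lt_of_lt {x} _ (by rw [measure_singleton]; exact ENNReal.ofReal_pos.2 hε)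
  choose U hU1 hU2 hU3 using h
  obtain ⟨δ, hδ, h⟩ := lebesgue_number_lemma_of_metric hK hU2
    (fun x _ => mem_iUnion.2 ⟨x, hU1 x rfl⟩)
  refine ⟨δ, hδ, fun x hx => ?_⟩
  obtain ⟨y, hy⟩ := h x hx
  exact ENNReal.toReal_le_of_le_ofReal hε.le ((measure_mono hy).trans (hU3 y).le)

/-- The centre: all small heavy balls are close to it. -/
theorem centre (μ : Measure E) [IsFiniteMeasure μ] [NullSingletonClass μ] {z : E} {r L : ℝ}
    (hr : 0 < r) (hL : 0 < L) (hg : GoodM μ z r L) :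
    ∃ xs : E, dist xs z + r / 200 ≤ r ∧ ∀ x ∈ ball z r, ∀ t : ℝ, 0 < t → t ≤ r / 200 →
      L / 30 < μ.real (ball x t) → dist x xs < 3 * t := by
  let T : Set ℝ := {t | ∃ x ∈ ball z r, 0 < t ∧ t ≤ r / 200 ∧ L / 30 < μ.real (ball x t)}
  by_cases hT : T.Nonempty
  swap
  · refine ⟨z, by rw [dist_self]; linarith, fun x hx t h1 h2 h3 => ?_⟩
    exact (hT ⟨t, x, hx, h1, h2, h3⟩).elim
  obtain ⟨δ, hδ, hsm⟩ := small_balls μ (isCompact_closedBall z r) (show 0 < L / 30 by positivity)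
  have hlow : ∀ t ∈ T, δ ≤ t := by
    rintro t ⟨x, hx, -, -, h3⟩
    by_contra hlt
    have := measureReal_mono (μ := μ) (ball_subset_ball (x := x) (not_le.1 hlt).le)
    linarith [hsm x (ball_subset_closedBall hx)]
  have hm : δ ≤ sInf T := le_csInf hT hlow
  obtain ⟨t0, ⟨xs, hxs, h1, h2, h3⟩, ht0⟩ := exists_lt_of_csInf_lt hT
    (show sInf T < 2 * sInf T by linarith)
  rw [mem_ball] at hxs
  refine ⟨xs, ?_, fun x hx t ht1 ht2 ht3 => ?_⟩
  · by_contra hlt
    rw [not_le] at hlt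
    obtain ⟨w, hw, hd⟩ := near_sphere (x := xs) (z := z) hr.le (by linarith)
    rw [abs_of_nonpos (by linarith)] at hd
    have h4 := hg.2 w hw (r / 100) (by positivity) le_rfl
    have h5 : μ.real (ball xs t0) ≤ μ.real (ball w (r / 100)) :=
      measureReal_mono (ball_subset_ball' (by linarith))
    have h6 : L * (r / 100) / r = L / 100 := by field_simp
    linarith
  · by_contra hge
    rw [not_lt] at hge
    have h4 : sInf T ≤ t := csInf_le ⟨δ, hlow⟩ ⟨x, hx, ht1, ht2, ht3⟩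
    have hd : Disjoint (ball x t) (ball xs t0) := ball_disjoint_ball (by linarith)
    rw [mem_ball] at hx
    have h5 : μ.real (ball x t ∪ ball xs t0) ≤ μ.real (ball z (2 * r)) :=
      measureReal_mono (union_subset (ball_subset_ball' (by linarith))
        (ball_subset_ball' (by linarith)))
    rw [measureReal_union hd measurableSet_ball] at h5
    linarith [hg.1]

theorem holes (μ : Measure E) [IsFiniteMeasure μ] [NullSingletonClass μ] {z : E} {r L : ℝ} (hr : 0 < r)
    (hL : 0 < L) (hg : GoodM μ z r L) : ∃ (xs : E) (H : Set (E × ℝ)), Holes μ z r L xs H := by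
  classical
  obtain ⟨xs, hxs, hheavy⟩ := centre μ hr hL hg
  let S : Set E := {x | x ∈ ball z r ∧ ∃ t : ℝ, 0 < t ∧ t ≤ sg xs r x / 100 ∧
    100 * L * t / sg xs r x < μ.real (ball x t)}
  have hch : ∀ x : E, ∃ t : ℝ, x ∈ S → 0 < t ∧ t ≤ sg xs r x / 100 ∧
      100 * L * t / sg xs r x < μ.real (ball x t) := fun x => by
    by_cases hx : x ∈ S
    · obtain ⟨t, ht⟩ := hx.2
      exact ⟨t, fun _ => ht⟩
    · exact ⟨0, fun h => (hx h).elim⟩
  choose τ hτ using hch
  obtain ⟨u, huS, huc, hud, hcov⟩ := vit S τ r fun x hx =>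
    ⟨(hτ x hx).1, by linarith [(hτ x hx).2.1, sg_le_half xs r x]⟩
  have : Countable u := huc.to_subtype
  have hτ0 : ∀ i : u, 0 < τ i := fun i => (hτ i (huS i.2)).1
  have hsg0 : ∀ i : u, 0 < sg xs r i := fun i => by linarith [hτ0 i, (hτ i (huS i.2)).2.1]
  have hdis : ∀ s : Finset u, (s : Set u).PairwiseDisjoint fun i : u => ball (i : E) (τ i) :=
    fun s i _ j _ hij => hud i.2 j.2 fun h => hij (Subtype.ext h)
  have hg0 : ∀ i : u, 0 ≤ 4 * τ i / sg xs r i := fun i => by
    have := hτ0 i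
    have := hsg0 i
    positivity
  have hsum : ∀ s : Finset u, ∑ i ∈ s, 4 * τ i / sg xs r i ≤ 1 / 500 := fun s => by
    have h1 := sum_ball_le μ s (fun i : u => (i : E)) (fun i => τ i) (hdis s)
      (A := ball z (2 * r)) fun i _ => ball_subset_ball' (by
        have h1 := mem_ball.1 (huS i.2).1
        linarith [(hτ i (huS i.2)).2.1, sg_le_half xs r i])
    have h2 : ∑ i ∈ s, 25 * L * (4 * τ i / sg xs r i) ≤ ∑ i ∈ s, μ.real (ball (i : E) (τ i)) :=
      Finset.sum_le_sum fun i _ => le_of_eq_of_le (by ring) (hτ i (huS i.2)).2.2.le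
    rw [← Finset.mul_sum] at h2
    have h3 := hg.1
    refine le_of_mul_le_mul_left ?_ (show 0 < 25 * L by positivity)
    linarith
  have hrs : Summable fun i : u => 4 * τ i := by
    refine Summable.of_nonneg_of_le (fun i => by linarith [hτ0 i]) (fun i => ?_)
      ((summable_of_sum_le hg0 hsum).mul_left r)
    have h1 := hsg0 i
    have h2 := sg_le_half xs r i
    calc 4 * τ i = sg xs r i * (4 * τ i / sg xs r i) := by field_simp
      _ ≤ r * (4 * τ i / sg xs r i) := mul_le_mul_of_nonneg_right (by linarith) (hg0 i)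
  obtain ⟨φ, hφ1, hφ2, hφ3⟩ := mergeB (fun i : u => (i : E)) (fun i => 4 * τ i)
    (fun i => by linarith [hτ0 i]) hrs
  have hpos : ∀ i, 0 < (φ i).2 := fun i => by
    linarith [hφ1 i, hτ0 i, dist_nonneg (x := (i : E)) (y := (φ i).1)]
  have hsgle : ∀ i : u, sg xs r i ≤ sg xs r (φ i).1 + (φ i).2 := fun i => by
    linarith [hφ1 i, hτ0 i, sg_lip xs r i (φ i).1]
  have hS1 : ∀ s : Finset (E × ℝ), (s : Set (E × ℝ)) ⊆ range φ →
      ∑ h ∈ s, h.2 / (sg xs r h.1 + h.2) ≤ 1 / 500 := fun s hs => by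
    refine le_of_eq_of_le (Finset.sum_congr rfl fun h hh => ?_)
      (mergeB_sum hrs φ (fun h => (sg xs r h.1 + h.2)⁻¹) (fun i => 4 * τ i / sg xs r i)
        (fun i => ?_) hg0 hsum s)
    · obtain ⟨i, rfl⟩ := hs hh
      rw [← hφ2 i, div_eq_mul_inv]
    · rw [← div_eq_mul_inv]
      exact div_le_div_of_nonneg_left (by linarith [hτ0 i]) (hsg0 i) (hsgle i)
  have hsml : ∀ i, 499 * (φ i).2 ≤ sg xs r (φ i).1 := fun i => by
    have h1 := hS1 {φ i} (by simp)
    rw [Finset.sum_singleton, div_le_iff₀ (by linarith [hsg0 i, hsgle i])] at h1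
    linarith
  have hoff : ∀ x ∈ ball z r, (∀ h ∈ range φ, x ∉ ball h.1 h.2) → ∀ t : ℝ, 0 < t →
      t ≤ sg xs r x / 100 → μ.real (ball x t) ≤ 100 * L * t / sg xs r x := by
    intro x hx hn t h1 h2
    by_contra hlt
    obtain ⟨b, hb, hxb⟩ := hcov x ⟨hx, t, h1, h2, not_le.1 hlt⟩
    exact hn _ ⟨⟨b, hb⟩, rfl⟩ (ball_subset_ball' (by linarith [hφ1 ⟨b, hb⟩]) hxb)
  have hdisj : (range φ).PairwiseDisjoint fun h => ball h.1 h.2 := by
    rintro _ ⟨i, rfl⟩ _ ⟨j, rfl⟩ h
    exact hφ3 i j h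
  have hsub : ∀ i, dist (φ i).1 z + (φ i).2 < r := fun i => by
    by_contra hge
    rw [not_lt] at hge
    have h1 := hsml i
    have h2 := sg_le_half xs r (φ i).1
    have h3 := hpos i
    obtain ⟨w, hw, hd⟩ := near_sphere (x := (φ i).1) (z := z) hr.le (by linarith)
    have h4 : dist (φ i).1 w ≤ (φ i).2 := by
      rw [hd, abs_le]
      have h5 := mem_ball.1 (huS i.2).1
      have h6 := dist_triangle_left (φ i).1 z i
      constructor <;> linarith [hφ1 i, hτ0 i]
    have h5 := hg.2 w hw (2 * (φ i).2) (by linarith) (by linarith)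
    have h6 : μ.real (ball (φ i).1 (φ i).2) ≤ μ.real (ball w (2 * (φ i).2)) :=
      measureReal_mono (ball_subset_ball' (by linarith))
    have h7 : ∑' j, {j | φ j = φ i}.indicator (fun j : u => 4 * τ j) j ≤ (φ i).2 / 25 := by
      refine (blk_summable hrs _).tsum_le_of_sum_le fun s => ?_
      have h8 := sum_ball_le μ (s.filter fun j => φ j = φ i) (fun i : u => (i : E))
        (fun i => τ i) (hdis _) (A := ball (φ i).1 (φ i).2) fun j hj => by
          rw [← (Finset.mem_filter.1 hj).2]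
          exact ball_subset_ball' (by linarith [hφ1 j, hτ0 j])
      have h9 : ∑ j ∈ s.filter fun j => φ j = φ i, 50 * L / r * (4 * τ j) ≤
          ∑ j ∈ s.filter fun j => φ j = φ i, μ.real (ball (j : E) (τ j)) := by
        refine Finset.sum_le_sum fun j _ => le_trans ?_ (hτ j (huS j.2)).2.2.le
        have := hτ0 j
        calc 50 * L / r * (4 * τ j) = 100 * L * τ j / (r / 2) := by field_simp; ring
          _ ≤ _ := div_le_div_of_nonneg_left (by positivity) (hsg0 j) (sg_le_half xs r j)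
      have h10 : ∑ j ∈ s, {j | φ j = φ i}.indicator (fun j : u => 4 * τ j) j =
          ∑ j ∈ s.filter fun j => φ j = φ i, 4 * τ j := by
        rw [Finset.sum_filter]
        exact Finset.sum_congr rfl fun j _ => by simp [indicator_apply]
      rw [← Finset.mul_sum] at h9
      rw [h10]
      refine le_of_mul_le_mul_left ?_ (show 0 < 50 * L / r by positivity)
      have h11 : 50 * L / r * ((φ i).2 / 25) = L * (2 * (φ i).2) / r := by field_simp; ring
      linarith
    rw [← hφ2 i] at h7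
    linarith
  refine ⟨xs, range φ, hg.1, countable_range φ, hxs, ?_, ?_, ?_, ?_, hdisj, fun s hs => ?_, hoff⟩
  · rintro _ ⟨i, rfl⟩
    exact hpos i
  · rintro _ ⟨i, rfl⟩
    exact hsub i
  · rintro _ ⟨i, rfl⟩
    linarith [hsml i, hpos i]
  · rintro _ ⟨i, rfl⟩
    have h1 := hsml i
    have h2 := sg_le_half xs r (φ i).1
    have h3 := hpos i
    have h4 := hsub i
    refine ⟨?_, fun w hw t ht1 ht2 => ?_⟩
    · by_contra hlt
      rw [not_le] at hlt
      have := hheavy (φ i).1 (mem_ball.2 (by linarith)) (2 * (φ i).2) (by linarith) (by linarith)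
        (by linarith)
      linarith [sg_le_dist xs r (φ i).1]
    · have hw' := mem_sphere.1 hw
      have h5 : 498 * (φ i).2 ≤ sg xs r w := by
        have := sg_lip xs r (φ i).1 w
        rw [dist_comm] at this
        linarith
      have h6 := hoff w (mem_ball.2 (by linarith [dist_triangle w (φ i).1 z])) (fun h hh hwh => ?_)
        t ht1 (by linarith)
      · refine h6.trans ?_
        calc 100 * L * t / sg xs r w ≤ 100 * L * t / (150 * (φ i).2) :=
            div_le_div_of_nonneg_left (by positivity) (by positivity) (by linarith)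
          _ = _ := by field_simp; ring
      · by_cases he : φ i = h
        · rw [← he, mem_ball] at hwh
          linarith
        · have hd := (hdisj ⟨i, rfl⟩ hh he).closure_left isOpen_ball
          simp only at hd
          rw [closure_ball _ h3.ne'] at hd
          exact disjoint_left.1 hd (sphere_subset_closedBall hw) hwh
  · have h1 := hS1 s hs
    have h2 : ∑ h ∈ s, h.2 / sg xs r h.1 ≤ ∑ h ∈ s, 5 / 4 * (h.2 / (sg xs r h.1 + h.2)) := by
      refine Finset.sum_le_sum fun h hh => ?_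
      obtain ⟨i, rfl⟩ := hs hh
      have h3 := hsml i
      have h4 := hpos i
      rw [← mul_div_assoc, div_le_div_iff₀ (by linarith) (by linarith)]
      nlinarith
    rw [← Finset.mul_sum] at h2
    linarith

omit [NormedSpace ℝ E] [ProperSpace E] [BorelSpace E] in
theorem Holes.shells {μ : Measure E} {z xs : E} {r L : ℝ} {H : Set (E × ℝ)} (hr : 0 < r)
    (hH : Holes μ z r L xs H) : ∃ (J : Set (ℝ × ℝ)) (s1 : ℝ), Shells r xs H J s1 := by
  classical
  have : Countable H := hH.cnt.to_subtype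
  have hsg0 : ∀ i : H, 0 < sg xs r i.1.1 := fun i => by linarith [hH.pos i i.2, hH.sml i i.2]
  let q : H → ℝ := fun i => 2 * (i.1.2 / sg xs r i.1.1)
  have hq : ∀ i, 0 < q i := fun i => by
    have := hsg0 i
    have := hH.pos i i.2
    positivity
  have hsum : ∀ s : Finset H, ∑ i ∈ s, q i ≤ 1 / 200 := fun s => by
    have := hH.sum (s.map (Function.Embedding.subtype _)) (fun p hp => by
      obtain ⟨q, -, rfl⟩ := Finset.mem_map.1 (Finset.mem_coe.1 hp)
      exact q.2)
    rw [Finset.sum_map] at this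
    simp only [q, ← Finset.mul_sum]
    simp only [Function.Embedding.coe_subtype] at this
    linarith
  have hqs : Summable q := summable_of_sum_le (fun i => (hq i).le) hsum
  obtain ⟨φ, hφ1, hφ2, hφ3⟩ := mergeB (fun i : H => Real.log (dist i.1.1 xs)) q hq hqs
  have hpos : ∀ i, 0 < (φ i).2 := fun i => by
    linarith [hφ1 i, hq i, dist_nonneg (x := Real.log (dist i.1.1 xs)) (y := (φ i).1)]
  let ψ : H → ℝ × ℝ := fun i => (Real.exp ((φ i).1 - (φ i).2), Real.exp ((φ i).1 + (φ i).2))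
  have hinj : ∀ i j, ψ i = ψ j ↔ φ i = φ j := fun i j => by
    refine ⟨fun h => ?_, fun h => by simp only [ψ, h]⟩
    have h1 := Real.exp_injective (congrArg Prod.fst h)
    have h2 := Real.exp_injective (congrArg Prod.snd h)
    exact Prod.ext (by linarith) (by linarith)
  have hmem : ∀ i (s : ℝ), s ∈ Ioo (ψ i).1 (ψ i).2 ↔
      0 < s ∧ Real.log s ∈ ball (φ i).1 (φ i).2 := fun i s => by
    rw [Real.ball_eq_Ioo]
    constructor
    · intro h
      have h0 : 0 < s := (Real.exp_pos _).trans h.1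
      exact ⟨h0, (Real.lt_log_iff_exp_lt h0).2 h.1, (Real.log_lt_iff_lt_exp h0).2 h.2⟩
    · rintro ⟨h0, h1, h2⟩
      exact ⟨(Real.lt_log_iff_exp_lt h0).1 h1, (Real.log_lt_iff_lt_exp h0).1 h2⟩
  have hS : ∀ s : Finset (ℝ × ℝ), (s : Set (ℝ × ℝ)) ⊆ range ψ →
      ∑ j ∈ s, (Real.log j.2 - Real.log j.1) ≤ 1 / 100 := fun s hs => by
    refine le_of_eq_of_le (Finset.sum_congr rfl fun h hh => ?_)
      (mergeB_sum hqs ψ (fun _ => 2) (fun i => q i * 2) (fun i => le_rfl)
        (fun i => by linarith [hq i]) (fun s => by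
          rw [← Finset.sum_mul]
          linarith [hsum s]) s)
    obtain ⟨i, rfl⟩ := hs hh
    simp only [hinj]
    rw [← hφ2 i]
    simp only [ψ, Real.log_exp]
    ring
  have hlt : ∀ j ∈ range ψ, j.1 < j.2 := by
    rintro _ ⟨i, rfl⟩
    exact Real.exp_lt_exp.2 (by linarith [hpos i])
  have hp : ∀ j ∈ range ψ, 0 < j.1 := by
    rintro _ ⟨i, rfl⟩
    exact Real.exp_pos _
  have hvol := vol_Ioo_union (countable_range ψ) (fun j => Real.log j.1) (fun j => Real.log j.2)
    (fun j hj => Real.log_le_log (hp j hj) (hlt j hj).le) hS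
  have hl2 : Real.log (r / 400) - Real.log (r / 800) = Real.log 2 := by
    rw [← Real.log_div (by positivity) (by positivity)]
    congr 1
    field_simp
    norm_num
  obtain ⟨σ, hσ1, hσ2⟩ : ∃ σ ∈ Icc (Real.log (r / 800)) (Real.log (r / 400)),
      σ ∉ ⋃ j ∈ range ψ, Ioo (Real.log j.1) (Real.log j.2) := by
    by_contra hn
    push Not at hn
    have h1 := (measure_mono (show Icc (Real.log (r / 800)) (Real.log (r / 400)) ⊆ _ from hn)).trans
      hvol
    rw [Real.volume_Icc, hl2, ENNReal.ofReal_le_ofReal_iff (by norm_num)] at h1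
    linarith [Real.log_two_gt_d9]
  refine ⟨range ψ, Real.exp σ, countable_range ψ, hp, hlt, fun j hj => ?_, ?_, hS,
    fun h hh => ⟨ψ ⟨h, hh⟩, mem_range_self _, fun x hx => ?_⟩, ⟨?_, ?_⟩, fun j hj hm => ?_⟩
  · have h1 := hS {j} (by simpa using hj)
    rw [Finset.sum_singleton] at h1
    have h2 := hp j hj
    rw [← Real.log_le_log_iff (h2.trans (hlt j hj)) (by positivity),
      Real.log_mul (by norm_num) h2.ne']
    linarith [Real.log_two_gt_d9]
  · rintro _ ⟨i, rfl⟩ _ ⟨j, rfl⟩ h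
    have hd := hφ3 i j fun h' => h ((hinj i j).2 h')
    refine disjoint_left.2 fun s h1 h2 => ?_
    exact disjoint_left.1 hd ((hmem i s).1 h1).2 ((hmem j s).1 h2).2
  · have h1 := hH.pos h hh
    have h2 := hH.sml h hh
    have h3 := sg_le_dist xs r h.1
    have h4 := mem_ball.1 hx
    have h5 := dist_triangle x h.1 xs
    have h6 := dist_triangle_left h.1 xs x
    have h7 : 0 < dist x xs := by linarith
    have h8 : 0 < dist h.1 xs := by linarith
    have h9 : 0 < sg xs r h.1 := by linarith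
    refine (hmem _ _).2 ⟨h7, ball_subset_ball' (x := Real.log (dist h.1 xs)) (ε₁ := q ⟨h, hh⟩)
      (by linarith [hφ1 ⟨h, hh⟩]) ?_⟩
    rw [mem_ball, Real.dist_eq, abs_lt]
    have h10 := Real.log_le_sub_one_of_pos (div_pos h7 h8)
    have h11 := Real.log_le_sub_one_of_pos (div_pos h8 h7)
    rw [Real.log_div h7.ne' h8.ne'] at h10
    rw [Real.log_div h8.ne' h7.ne'] at h11
    have h12 : dist x xs / dist h.1 xs - 1 < 2 * (h.2 / sg xs r h.1) := by
      rw [div_sub_one h8.ne', ← mul_div_assoc, div_lt_div_iff₀ h8 h9]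
      nlinarith
    have h13 : dist h.1 xs / dist x xs - 1 < 2 * (h.2 / sg xs r h.1) := by
      rw [div_sub_one h7.ne', ← mul_div_assoc, div_lt_div_iff₀ h7 h9]
      nlinarith
    simp only [q]
    constructor <;> linarith
  · exact (Real.log_le_iff_le_exp (by positivity)).1 hσ1.1
  · exact (Real.le_log_iff_exp_le (by positivity)).1 hσ1.2
  · refine hσ2 (mem_iUnion₂.2 ⟨j, hj, ?_, ?_⟩)
    · exact (Real.log_lt_iff_lt_exp (hp j hj)).2 hm.1
    · exact (Real.lt_log_iff_exp_lt ((hp j hj).trans (hlt j hj))).2 hm.2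

/-- Logarithmic length of the radial intervals. -/
theorem Shells.vol_log {X : Type*} [NormedAddCommGroup X] {r s1 : ℝ} {xs : X} {H : Set (X × ℝ)}
    {J : Set (ℝ × ℝ)} (hJ : Shells r xs H J s1) :
    volume (⋃ j ∈ J, Ioo (Real.log j.1) (Real.log j.2)) ≤ ENNReal.ofReal (1 / 100) :=
  vol_Ioo_union hJ.cnt (fun j => Real.log j.1) (fun j => Real.log j.2)
    (fun j hj => Real.log_le_log (hJ.pos j hj) (hJ.lt j hj).le) hJ.sum

omit [NormedSpace ℝ E] [ProperSpace E] [BorelSpace E] in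
/-- A radius outside the radial intervals gives a good ball at level `100 L`. -/
theorem Holes.good_time {μ : Measure E} [IsFiniteMeasure μ] {z xs : E} {r L : ℝ}
    {H : Set (E × ℝ)} {J : Set (ℝ × ℝ)} {s1 s : ℝ} (hL : 0 < L) (hH : Holes μ z r L xs H)
    (hJ : Shells r xs H J s1) (hs : 0 < s) (hsr : s ≤ r / 400) (hoff : ∀ j ∈ J, s ∉ Ioo j.1 j.2) :
    GoodM μ xs s (100 * L) := by
  have h1 := hH.ctr
  refine ⟨?_, fun x hx t ht1 ht2 => ?_⟩
  · have : μ.real (ball xs (2 * s)) ≤ μ.real (ball z (2 * r)) :=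
      measureReal_mono (ball_subset_ball' (by linarith))
    linarith [hH.mass]
  · have hx' := mem_sphere.1 hx
    have h2 : sg xs r x = s := by
      rw [sg, hx', min_eq_left (by linarith)]
    have := hH.off x (mem_ball.2 (by linarith [dist_triangle x xs z])) (fun h hh hxh => ?_) t ht1
      (by rw [h2]; exact ht2)
    · rwa [h2] at this
    · obtain ⟨j, hj, h3⟩ := hJ.hole h hh
      exact hoff j hj (hx' ▸ h3 x hxh)

omit [ProperSpace E] in
/-- The holes fill at most half of the volume. -/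
theorem Holes.vol [Nontrivial E] [FiniteDimensional ℝ E] (ν : Measure E) [ν.IsAddHaarMeasure]
    {μ : Measure E} {z xs : E} {r L : ℝ} {H : Set (E × ℝ)} (hr : 0 < r)
    (hH : Holes μ z r L xs H) : ∑' h : H, ν (ball h.1.1 h.1.2) ≤ ν (ball z r) / 2 := by
  obtain ⟨n, hn⟩ : ∃ n, Module.finrank ℝ E = n + 1 :=
    Nat.exists_eq_succ_of_ne_zero Module.finrank_pos.ne'
  have h1 : ∀ h : H, ν (ball h.1.1 h.1.2) =
      ENNReal.ofReal (h.1.2 ^ (n + 1)) * ν (ball (0 : E) 1) := fun h => by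
    rw [Measure.addHaar_ball_of_pos ν _ (hH.pos h h.2), hn]
  simp only [h1]
  rw [ENNReal.tsum_mul_right, Measure.addHaar_ball_of_pos ν z hr, hn]
  have h2 := tsum_ofReal_le H (fun h => h.2 ^ (n + 1)) (fun h hh => (pow_pos (hH.pos h hh) _).le)
    (C := r ^ (n + 1) / 2) fun s hs => by
      have h3 : ∑ h ∈ s, h.2 ^ (n + 1) ≤ ∑ h ∈ s, r ^ (n + 1) * (h.2 / sg xs r h.1) := by
        refine Finset.sum_le_sum fun h hh => ?_
        have h4 := hH.pos h (hs hh)
        have h5 := hH.sml h (hs hh)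
        have h6 := sg_le_half xs r h.1
        have h7 : 0 < sg xs r h.1 := by linarith
        have h8 : h.2 ^ n ≤ r ^ n := pow_le_pow_left₀ h4.le (by linarith) n
        have h9 : h.2 ≤ r * (h.2 / sg xs r h.1) := by
          rw [← mul_div_assoc, le_div_iff₀ h7]
          nlinarith
        rw [pow_succ, pow_succ, mul_assoc]
        exact mul_le_mul h8 h9 h4.le (pow_pos hr n).le
      rw [← Finset.mul_sum] at h3
      have h4 := mul_le_mul_of_nonneg_left (hH.sum s hs) (pow_pos hr (n + 1)).le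
      linarith [pow_pos hr (n + 1)]
  refine (mul_le_mul_left h2 _).trans (le_of_eq ?_)
  rw [ENNReal.ofReal_div_of_pos (by norm_num), ENNReal.ofReal_ofNat, ENNReal.mul_div_right_comm]

omit [NormedSpace ℝ E] in
/-- Most radii between `r` and `2 r` are good. -/
theorem good_radii (μ : Measure E) [IsFiniteMeasure μ] {z : E} {r L : ℝ} (hr : 0 < r)
    (hL : 0 < L) (h : μ.real (ball z (4 * r)) ≤ L / 20) :
    ∃ U : Set ℝ, IsOpen U ∧ volume U ≤ ENNReal.ofReal (r / 2) ∧
      ∀ s ∈ Icc r (2 * r), s ∉ U → GoodM μ z s (100 * L) := by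
  let S : Set E := {x | dist x z ∈ Icc r (2 * r) ∧ ∃ t : ℝ, 0 < t ∧ t ≤ dist x z / 100 ∧
    100 * L * t / dist x z < μ.real (ball x t)}
  have hch : ∀ x : E, ∃ t : ℝ, x ∈ S → 0 < t ∧ t ≤ dist x z / 100 ∧
      100 * L * t / dist x z < μ.real (ball x t) := fun x => by
    by_cases hx : x ∈ S
    · obtain ⟨t, ht⟩ := hx.2
      exact ⟨t, fun _ => ht⟩
    · exact ⟨0, fun h => (hx h).elim⟩
  choose τ hτ using hch
  obtain ⟨u, huS, huc, hud, hcov⟩ := vit S τ r fun x hx =>
    ⟨(hτ x hx).1, by linarith [(hτ x hx).2.1, hx.1.2]⟩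
  refine ⟨⋃ b ∈ u, Ioo (dist b z - 4 * τ b) (dist b z + 4 * τ b),
    isOpen_biUnion fun _ _ => isOpen_Ioo, ?_, fun s hs hU => ⟨?_, fun x hx t ht1 ht2 => ?_⟩⟩
  · refine vol_Ioo_union huc _ _ (fun b hb => by linarith [(hτ b (huS hb)).1]) fun s hs => ?_
    have h1 := sum_ball_le μ s id τ (hud.subset hs) (A := ball z (4 * r)) fun b hb =>
      ball_subset_ball' (by
        simp only [id]
        linarith [(hτ b (huS (hs hb))).2.1, (huS (hs hb)).1.2])
    have h2 : ∑ b ∈ s, 25 * L / (4 * r) * (dist b z + 4 * τ b - (dist b z - 4 * τ b)) ≤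
        ∑ b ∈ s, μ.real (ball (id b) (τ b)) := by
      refine Finset.sum_le_sum fun b hb => le_trans ?_ (hτ b (huS (hs hb))).2.2.le
      have h3 := (hτ b (huS (hs hb))).1
      have h4 := (huS (hs hb)).1
      calc _ = 100 * L * τ b / (2 * r) := by field_simp; ring
        _ ≤ _ := div_le_div_of_nonneg_left (by positivity) (by linarith [h4.1]) h4.2
    rw [← Finset.mul_sum] at h2
    refine le_of_mul_le_mul_left ?_ (show 0 < 25 * L / (4 * r) by positivity)
    have h5 : 25 * L / (4 * r) * (r / 2) = 25 * L / 8 := by field_simp; ring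
    linarith
  · have : μ.real (ball z (2 * s)) ≤ μ.real (ball z (4 * r)) :=
      measureReal_mono (ball_subset_ball (by linarith [hs.2]))
    linarith
  · have hx' := mem_sphere.1 hx
    by_contra hlt
    obtain ⟨b, hb, hxb⟩ := hcov x ⟨hx' ▸ hs, t, ht1, hx' ▸ ht2, hx' ▸ not_le.1 hlt⟩
    refine hU (mem_iUnion₂.2 ⟨b, hb, ?_, ?_⟩)
    · linarith [mem_ball.1 hxb, dist_triangle_left b z x]
    · linarith [mem_ball.1 hxb, dist_triangle x b z]

end Pool.Agent.Lib.MP_a785f2_an.LY
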