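import Pool.Agent.Lib.MP_a785f2_an.LY.Poin
import Pool.Agent.Lib.MP_a785f2_an.LY.Holes

/-!
Values and means: comparison of means over balls, telescoping, values off the holes.
-/

open MeasureTheory Metric Set Filter Module Topology
open scoped ENNReal

namespace Pool.Agent.Lib.MP_a785f2_an.LY

variable {X F : Type*} [NormedAddCommGroup X] [NormedSpace ℝ X] [FiniteDimensional ℝ X]
  [MeasurableSpace X] [BorelSpace X] [NormedAddCommGroup F] [NormedSpace ℝ F] [CompleteSpace F]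
  {ν μ : Measure X} [ν.IsAddHaarMeasure] {Ω : Set X} {u : X → F} {C : ℝ}

/-- Means over nested balls of comparable size. -/
theorem Poin.nest' (hP : Poin ν μ Ω u C) (hC : 0 ≤ C) (hu : LocallyIntegrable u ν)
    {x x' : X} {t t' l Λ : ℝ} (ht' : 0 < t') (hl : 0 ≤ l) (hsub : ball x' t' ⊆ ball x t)
    (hΛ : t ≤ Λ * t') (hΩ : closedBall x t ⊆ Ω) (hm : μ.real (ball x t) ≤ l ^ finrank ℝ X) :
    ‖⨍ y in ball x' t', u y ∂ν - ⨍ y in ball x t, u y ∂ν‖ ≤ Λ ^ finrank ℝ X * (C * l) := by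
  have ht : 0 < t := pos_of_mem_ball (hsub (mem_ball_self ht'))
  have hi : IntegrableOn u (ball x t) ν :=
    (hu.integrableOn_isCompact (isCompact_closedBall x t)).mono_set ball_subset_closedBall
  set c := ⨍ y in ball x t, u y ∂ν
  have hc : IntegrableOn (fun y => u y - c) (ball x t) ν :=
    hi.sub (integrableOn_const measure_ball_lt_top.ne)
  have hv : ∀ (y : X) (s : ℝ), 0 < s →
      ν.real (ball y s) = s ^ finrank ℝ X * ν.real (ball 0 1) := fun y s hs => by
    rw [measureReal_def, Measure.addHaar_ball_of_pos ν y hs, ENNReal.toReal_mul,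
      ENNReal.toReal_ofReal (by positivity), measureReal_def]
  have ω0 : 0 < ν.real (ball (0 : X) 1) :=
    ENNReal.toReal_pos (measure_ball_pos ν _ one_pos).ne' measure_ball_lt_top.ne
  have p1 : 0 < ν.real (ball x' t') := by rw [hv _ _ ht']; positivity
  have p2 : 0 < ν.real (ball x t) := by rw [hv _ _ ht]; positivity
  have e1 := hP x t l ht hl hΩ hm
  rw [setAverage_eq, smul_eq_mul, inv_mul_le_iff₀ p2] at e1
  have e2 : ⨍ y in ball x' t', u y ∂ν - c =
      (ν.real (ball x' t'))⁻¹ • ∫ y in ball x' t', (u y - c) ∂ν := by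
    rw [integral_sub (hi.mono_set hsub) (integrableOn_const measure_ball_lt_top.ne),
      setIntegral_const, smul_sub, smul_smul, inv_mul_cancel₀ p1.ne', one_smul, setAverage_eq]
  have e3 : ‖∫ y in ball x' t', (u y - c) ∂ν‖ ≤ ∫ y in ball x t, ‖u y - c‖ ∂ν :=
    (norm_integral_le_integral_norm _).trans
      (setIntegral_mono_set hc.norm (ae_of_all _ fun _ => norm_nonneg _) hsub.eventuallyLE)
  have e4 : ν.real (ball x t) ≤ ν.real (ball x' t') * Λ ^ finrank ℝ X := by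
    rw [hv _ _ ht, hv _ _ ht', mul_right_comm, ← mul_pow, mul_comm t']
    exact mul_le_mul_of_nonneg_right (pow_le_pow_left₀ ht.le hΛ _) ω0.le
  rw [e2, norm_smul, Real.norm_of_nonneg (inv_nonneg.2 p1.le), inv_mul_le_iff₀ p1, ← mul_assoc]
  exact e3.trans (e1.trans (mul_le_mul_of_nonneg_right e4 (mul_nonneg hC hl)))

theorem Poin.nest (hP : Poin ν μ Ω u C) (hC : 0 ≤ C) (hu : LocallyIntegrable u ν)
    {x x' : X} {t t' l Λ : ℝ} (ht' : 0 < t') (hl : 0 ≤ l) (hs : dist x' x + t' ≤ t)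
    (hΛ : t ≤ Λ * t') (hΩ : closedBall x t ⊆ Ω) (hm : μ.real (ball x t) ≤ l ^ finrank ℝ X) :
    ‖⨍ y in ball x' t', u y ∂ν - ⨍ y in ball x t, u y ∂ν‖ ≤ Λ ^ finrank ℝ X * (C * l) :=
  hP.nest' hC hu ht' hl (ball_subset_ball' (by linarith)) hΛ hΩ hm

/-- Telescoping along concentric balls whose energy decays. -/
theorem Poin.tele (hP : Poin ν μ Ω u C) (hC : 0 ≤ C) (hu : LocallyIntegrable u ν)
    {x : X} {t l q : ℝ} (ht : 0 < t) (hl : 0 ≤ l) (hq : 1 < q) (hΩ : closedBall x t ⊆ Ω)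
    (hm : ∀ i : ℕ, μ.real (ball x (t / q ^ i)) ≤ (l / 2 ^ i) ^ finrank ℝ X) {s : ℝ} (hs : 0 < s)
    (hst : s ≤ t) :
    ‖⨍ y in ball x s, u y ∂ν - ⨍ y in ball x t, u y ∂ν‖ ≤ 2 * (q ^ finrank ℝ X * (C * l)) := by
  have q0 : 0 < q := by linarith
  set D := q ^ finrank ℝ X * (C * l) with hD
  have D0 : 0 ≤ D := by positivity
  have key : ∀ i : ℕ, ∀ s, t / q ^ i ≤ s → s ≤ t →
      ‖⨍ y in ball x s, u y ∂ν - ⨍ y in ball x t, u y ∂ν‖ ≤ 2 * D - 2 * (D / 2 ^ i) := by
    intro i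
    induction i with
    | zero =>
      intro s h1 h2
      have : s = t := le_antisymm h2 (by simpa using h1)
      simp [this]
    | succ i ih =>
      intro s h1 h2
      have e : D / 2 ^ (i + 1) = D / 2 ^ i / 2 := by rw [pow_succ, div_div]
      have d0 : 0 ≤ D / 2 ^ i := by positivity
      have hle : t / q ^ i ≤ t := div_le_self ht.le (one_le_pow₀ hq.le)
      rcases le_total (t / q ^ i) s with h | h
      · linarith [ih s h h2]
      · have s0 : 0 < s := lt_of_lt_of_le (by positivity) h1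
        have a1 := hP.nest hC hu (x := x) (x' := x) (t := t / q ^ i) (Λ := q) s0
          (l := l / 2 ^ i) (by positivity) (by simpa using h)
          (by rw [pow_succ, ← div_div, div_le_iff₀ q0] at h1; linarith)
          ((closedBall_subset_closedBall hle).trans hΩ) (hm i)
        have a2 := ih _ le_rfl hle
        have a3 : q ^ finrank ℝ X * (C * (l / 2 ^ i)) = D / 2 ^ i := by rw [hD]; ring
        have a4 := norm_sub_le_norm_sub_add_norm_sub (⨍ y in ball x s, u y ∂ν)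
          (⨍ y in ball x (t / q ^ i), u y ∂ν) (⨍ y in ball x t, u y ∂ν)
        linarith
  obtain ⟨i, hi⟩ := pow_unbounded_of_one_lt (t / s) hq
  have h1 : t / q ^ i ≤ s := by
    rw [div_le_iff₀ (by positivity)]
    rw [div_lt_iff₀ hs] at hi
    linarith
  have d0 : 0 ≤ D / 2 ^ i := by positivity
  linarith [key i s h1 hst]

omit [FiniteDimensional ℝ X] [BorelSpace X] in
theorem lin_decay {x : X} {t l : ℝ} (ht : 0 < t)
    (hm : ∀ s, 0 < s → s ≤ t → μ.real (ball x s) ≤ l ^ finrank ℝ X * s / t) (i : ℕ) :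
    μ.real (ball x (t / (2 ^ finrank ℝ X) ^ i)) ≤ (l / 2 ^ i) ^ finrank ℝ X := by
  have q1 : (1 : ℝ) ≤ 2 ^ finrank ℝ X := one_le_pow₀ one_le_two
  refine (hm _ (by positivity) (div_le_self ht.le (one_le_pow₀ q1))).trans (le_of_eq ?_)
  rw [div_pow, ← pow_mul, ← pow_mul, mul_comm i]
  field_simp

/-- Lebesgue points, with open balls. -/
theorem ae_mean_tendsto (ν : Measure X) [ν.IsAddHaarMeasure] [Nontrivial X]
    (hu : LocallyIntegrable u ν) :
    ∀ᵐ x ∂ν, Tendsto (fun s => ⨍ y in ball x s, u y ∂ν) (𝓝[>] 0) (𝓝 (u x)) := by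
  filter_upwards [IsUnifLocDoublingMeasure.ae_tendsto_average ν hu 1] with x hx
  have h := hx (l := 𝓝[>] (0 : ℝ)) (fun _ => x) (fun s => s) tendsto_id
    (by filter_upwards [self_mem_nhdsWithin] with s hs
        exact mem_closedBall_self (by rw [one_mul]; exact le_of_lt hs))
  refine h.congr fun s => setAverage_congr ?_
  rw [← ball_union_sphere]
  exact union_ae_eq_left_of_ae_eq_empty (ae_eq_empty.2 (Measure.addHaar_sphere ν x s))

/-- Values at almost every point whose small balls have decaying energy. -/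
theorem Poin.pt [Nontrivial X] (hP : Poin ν μ Ω u C) (hC : 0 ≤ C) (hu : LocallyIntegrable u ν) :
    ∀ᵐ x ∂ν, ∀ t l q : ℝ, 0 < t → 0 ≤ l → 1 < q → closedBall x t ⊆ Ω →
      (∀ i : ℕ, μ.real (ball x (t / q ^ i)) ≤ (l / 2 ^ i) ^ finrank ℝ X) →
      ‖u x - ⨍ y in ball x t, u y ∂ν‖ ≤ 2 * (q ^ finrank ℝ X * (C * l)) := by
  filter_upwards [ae_mean_tendsto ν hu] with x hx t l q ht hl hq hΩ hm
  refine le_of_tendsto (hx.sub_const _).norm ?_
  filter_upwards [Ioc_mem_nhdsGT ht] with s hs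
  exact hP.tele hC hu ht hl hq hΩ hm hs.1 hs.2

/-- The constant of the value lemmas. -/
noncomputable def vc (n : ℕ) : ℝ := 2 * (2 ^ n) ^ n + 3 * 1000000 ^ n

theorem one_le_vc (n : ℕ) : 1 ≤ vc n := by
  have h1 : (1 : ℝ) ≤ 1000000 ^ n := one_le_pow₀ (by norm_num)
  have h2 : (0 : ℝ) ≤ (2 ^ n) ^ n := by positivity
  unfold vc; linarith

/-- All values and means that the argument compares, up to the error `b`. -/
structure Vals (ν : Measure X) (u : X → F) (z : X) (r : ℝ) (xs : X) (H : Set (X × ℝ)) (b : ℝ) :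
    Prop where
  pt_in : ∀ᵐ x ∂ν, (∀ h ∈ H, x ∉ ball h.1 h.2) → ∀ s, 0 < s → s ≤ r / 400 →
    s / 4 ≤ dist x xs → dist x xs ≤ s → ‖u x - ⨍ y in ball xs (2 * s), u y ∂ν‖ ≤ b
  pt_out : ∀ᵐ x ∂ν, x ∈ ball z r → (∀ h ∈ H, x ∉ ball h.1 h.2) → r / 1600 ≤ dist x xs →
    ‖u x - ⨍ y in ball z r, u y ∂ν‖ ≤ b
  hole_in : ∀ h ∈ H, ∀ s, s ≤ r / 400 → s / 4 ≤ dist h.1 xs → dist h.1 xs ≤ s →
    ‖⨍ y in ball h.1 h.2, u y ∂ν - ⨍ y in ball xs (2 * s), u y ∂ν‖ ≤ b
  hole_out : ∀ h ∈ H, r / 1600 ≤ dist h.1 xs →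
    ‖⨍ y in ball h.1 h.2, u y ∂ν - ⨍ y in ball z r, u y ∂ν‖ ≤ b
  mm : ∀ s s', 0 < s → s ≤ s' → s' ≤ 4 * s → s' ≤ r / 400 →
    ‖⨍ y in ball xs (2 * s), u y ∂ν - ⨍ y in ball xs (2 * s'), u y ∂ν‖ ≤ b
  mtop : ∀ s, r / 1600 ≤ s → s ≤ r / 400 →
    ‖⨍ y in ball xs (2 * s), u y ∂ν - ⨍ y in ball z r, u y ∂ν‖ ≤ b
  osc : ∀ s, 0 < s → s ≤ r / 400 →
    ⨍ x in ball xs (2 * s), ‖u x - ⨍ y in ball xs (2 * s), u y ∂ν‖ ∂ν ≤ b

theorem Holes.vals [Nontrivial X] [IsFiniteMeasure μ] (hP : Poin ν μ Ω u C) (hC : 0 ≤ C)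
    (hu : LocallyIntegrable u ν) {z xs : X} {r l : ℝ} {H : Set (X × ℝ)} (hr : 0 < r) (hl : 0 ≤ l)
    (hΩ : ball z (2 * r) ⊆ Ω) (hH : Holes μ z r (l ^ finrank ℝ X) xs H) :
    Vals ν u z r xs H (vc (finrank ℝ X) * (C * l)) := by
  have hn : 1 ≤ finrank ℝ X := finrank_pos
  set n := finrank ℝ X with hn'
  have L0 : 0 ≤ l ^ n := by positivity
  have D0 : 0 ≤ C * l := by positivity
  have q1 : (1 : ℝ) < 2 ^ n := one_lt_pow₀ one_lt_two (by omega)
  have a0 : 0 ≤ (2 ^ n) ^ n * (C * l) := by positivity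
  have b0 : 0 ≤ 1000000 ^ n * (C * l) := by positivity
  have b1 : C * l ≤ 1000000 ^ n * (C * l) :=
    le_mul_of_one_le_left D0 (one_le_pow₀ (by norm_num))
  have hv : vc n * (C * l) = 2 * ((2 ^ n) ^ n * (C * l)) + 3 * (1000000 ^ n * (C * l)) := by
    unfold vc; ring
  have ctr := hH.ctr
  have sub : ∀ (x : X) (t : ℝ), dist x z + t < 2 * r →
      closedBall x t ⊆ Ω ∧ μ.real (ball x t) ≤ l ^ n := fun x t h =>
    ⟨(closedBall_subset_ball' (by linarith)).trans hΩ,
      (measureReal_mono (ball_subset_ball' (by linarith)) (measure_ne_top μ _)).trans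
        (hH.mass.trans (by linarith))⟩
  have nst : ∀ (x x' : X) (t t' : ℝ), 0 < t' → dist x' x + t' ≤ t → t ≤ 1000000 * t' →
      dist x z + t < 2 * r → ‖⨍ y in ball x' t', u y ∂ν - ⨍ y in ball x t, u y ∂ν‖ ≤
        1000000 ^ n * (C * l) := fun x x' t t' h1 h2 h3 h4 =>
    hP.nest hC hu h1 hl h2 h3 (sub x t h4).1 (sub x t h4).2
  have top : ∀ (x : X) (t : ℝ), dist x z + t ≤ 3 * r / 2 → r / 200000 ≤ t →
      ‖⨍ y in ball x t, u y ∂ν - ⨍ y in ball z r, u y ∂ν‖ ≤ 2 * (1000000 ^ n * (C * l)) := by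
    intro x t h1 h2
    have k1 := nst z x (3 * r / 2) t (by linarith) h1 (by linarith) (by rw [dist_self]; linarith)
    have k2 := nst z z (3 * r / 2) r hr (by rw [dist_self]; linarith) (by linarith)
      (by rw [dist_self]; linarith)
    have k3 := norm_sub_le_norm_sub_add_norm_sub (⨍ y in ball x t, u y ∂ν)
      (⨍ y in ball z (3 * r / 2), u y ∂ν) (⨍ y in ball z r, u y ∂ν)
    rw [norm_sub_rev] at k2
    linarith
  have sgl : ∀ x, sg xs r x ≤ r / 2 := fun x => min_le_right _ _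
  have sgd : ∀ x, sg xs r x ≤ dist x xs := fun x => min_le_left _ _
  have sge : ∀ x c, c ≤ dist x xs → c ≤ r / 2 → c ≤ sg xs r x := fun x c h1 h2 => le_min h1 h2
  have dec : ∀ x ∈ ball z r, (∀ h ∈ H, x ∉ ball h.1 h.2) → 0 < sg xs r x → ∀ i : ℕ,
      μ.real (ball x (sg xs r x / 100 / (2 ^ n) ^ i)) ≤ (l / 2 ^ i) ^ n := fun x hx ho h0 =>
    lin_decay (by positivity) fun s h1 h2 => (hH.off x hx ho s h1 h2).trans (le_of_eq (by
      rw [div_div_eq_mul_div]; ring))
  have pt : ∀ᵐ x ∂ν, x ∈ ball z r → (∀ h ∈ H, x ∉ ball h.1 h.2) → 0 < sg xs r x →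
      ‖u x - ⨍ y in ball x (sg xs r x / 100), u y ∂ν‖ ≤ 2 * ((2 ^ n) ^ n * (C * l)) := by
    filter_upwards [hP.pt hC hu] with x hx h1 h2 h3
    exact hx _ l _ (by positivity) hl q1
      (sub x _ (by linarith [mem_ball.1 h1, sgl x])).1 (dec x h1 h2 h3)
  have hole : ∀ h ∈ H, ∃ x, dist x h.1 = h.2 ∧ x ∈ ball z r ∧ 399 * h.2 ≤ sg xs r x ∧
      ‖⨍ y in ball h.1 h.2, u y ∂ν - ⨍ y in ball x (sg xs r x / 100), u y ∂ν‖ ≤
        1000000 ^ n * (C * l) + 2 * ((2 ^ n) ^ n * (C * l)) := fun h hh => by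
    have ρ0 := hH.pos h hh
    obtain ⟨x, hx⟩ := (NormedSpace.sphere_nonempty (x := h.1) (r := h.2)).2 ρ0.le
    have d1 : dist x h.1 = h.2 := mem_sphere.1 hx
    have x1 : dist x z < r := by linarith [dist_triangle x h.1 z, hH.sub h hh]
    have s1 : 399 * h.2 ≤ sg xs r x := by
      have := hH.sml h hh
      refine sge x _ ?_ (by linarith [sgl h.1])
      linarith [sgd h.1, dist_triangle_left h.1 xs x]
    have ho : ∀ h' ∈ H, x ∉ ball h'.1 h'.2 := fun h' hh' hm => by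
      by_cases e : h' = h
      · rw [e] at hm; linarith [mem_ball.1 hm]
      · have k := (hH.disj hh hh' (Ne.symm e)).closure_left isOpen_ball
        rw [closure_ball _ ρ0.ne'] at k
        exact Set.disjoint_left.1 k (sphere_subset_closedBall hx) hm
    refine ⟨x, d1, x1, s1, ?_⟩
    have k1 := nst x h.1 (2 * h.2) h.2 ρ0 (by rw [dist_comm, d1]; linarith) (by linarith)
      (by linarith [sgl x])
    have k2 := hP.tele hC hu (x := x) (t := sg xs r x / 100) (by linarith) hl q1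
      (sub x _ (by linarith [sgl x])).1 (dec x x1 ho (by linarith)) (s := 2 * h.2) (by linarith)
      (by linarith)
    linarith [norm_sub_le_norm_sub_add_norm_sub (⨍ y in ball h.1 h.2, u y ∂ν)
      (⨍ y in ball x (2 * h.2), u y ∂ν) (⨍ y in ball x (sg xs r x / 100), u y ∂ν)]
  refine ⟨?_, ?_, fun h hh s h1 h2 h3 => ?_, fun h hh h1 => ?_, fun s s' h1 h2 h3 h4 => ?_,
    fun s h1 h2 => ?_, fun s h1 h2 => ?_⟩
  · filter_upwards [pt] with x hx ho s h1 h2 h3 h4
    have x1 : dist x z < r := by linarith [dist_triangle x xs z]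
    have s1 := sge x (s / 4) h3 (by linarith)
    have k1 := hx x1 ho (by linarith)
    have k2 := nst xs x (2 * s) (sg xs r x / 100) (by linarith) (by linarith [sgd x])
      (by linarith) (by linarith)
    linarith [norm_sub_le_norm_sub_add_norm_sub (u x) (⨍ y in ball x (sg xs r x / 100), u y ∂ν)
      (⨍ y in ball xs (2 * s), u y ∂ν)]
  · filter_upwards [pt] with x hx x1 ho h1
    have s1 := sge x (r / 1600) h1 (by linarith)
    have k1 := hx x1 ho (by linarith)
    have k2 := top x (sg xs r x / 100) (by linarith [mem_ball.1 x1, sgl x]) (by linarith)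
    linarith [norm_sub_le_norm_sub_add_norm_sub (u x) (⨍ y in ball x (sg xs r x / 100), u y ∂ν)
      (⨍ y in ball z r, u y ∂ν)]
  · obtain ⟨x, d1, x1, s1, k1⟩ := hole h hh
    have ρ0 := hH.pos h hh
    have e1 := hH.sml h hh
    have e2 := sgd h.1
    have e3 := dist_triangle x h.1 xs
    have e4 := dist_triangle_left h.1 xs x
    have s2 := sge x (s / 5) (by linarith) (by linarith)
    have k2 := nst xs x (2 * s) (sg xs r x / 100) (by linarith) (by linarith [sgd x])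
      (by linarith) (by linarith)
    linarith [norm_sub_le_norm_sub_add_norm_sub (⨍ y in ball h.1 h.2, u y ∂ν)
      (⨍ y in ball x (sg xs r x / 100), u y ∂ν) (⨍ y in ball xs (2 * s), u y ∂ν)]
  · obtain ⟨x, d1, x1, s1, k1⟩ := hole h hh
    have ρ0 := hH.pos h hh
    have e1 := hH.sml h hh
    have e2 := sgl h.1
    have e2' := sgd h.1
    have e4 := dist_triangle_left h.1 xs x
    have s2 := sge x (r / 2000) (by linarith) (by linarith)
    have k2 := top x (sg xs r x / 100) (by linarith [mem_ball.1 x1, sgl x]) (by linarith)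
    linarith [norm_sub_le_norm_sub_add_norm_sub (⨍ y in ball h.1 h.2, u y ∂ν)
      (⨍ y in ball x (sg xs r x / 100), u y ∂ν) (⨍ y in ball z r, u y ∂ν)]
  · have k := nst xs xs (2 * s') (2 * s) (by linarith) (by rw [dist_self]; linarith) (by linarith)
      (by linarith)
    linarith
  · have k := top xs (2 * s) (by linarith) (by linarith)
    linarith
  · have k := hP xs (2 * s) l (by linarith) hl (sub xs _ (by linarith)).1
      (sub xs _ (by linarith)).2
    linarith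

/-- Values on the boundary of a good ball, for all good balls at once. -/
theorem Poin.sphere [Nontrivial X] [IsFiniteMeasure μ] (hP : Poin ν μ Ω u C) (hC : 0 ≤ C)
    (hu : LocallyIntegrable u ν) :
    ∀ᵐ x ∂ν, ∀ (z : X) (s l : ℝ), 0 < s → 0 ≤ l → ball z (2 * s) ⊆ Ω →
      GoodM μ z s (l ^ finrank ℝ X) → dist x z = s →
      ‖u x - ⨍ y in ball z s, u y ∂ν‖ ≤ vc (finrank ℝ X) * (C * l) := by
  have hn : 1 ≤ finrank ℝ X := finrank_pos
  set n := finrank ℝ X with hn'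
  have q1 : (1 : ℝ) < 2 ^ n := one_lt_pow₀ one_lt_two (by omega)
  filter_upwards [hP.pt hC hu] with x hx z s l hs hl hΩ hg hd
  have L0 : 0 ≤ l ^ n := by positivity
  have b0 : 0 ≤ 1000000 ^ n * (C * l) := by positivity
  have hv : vc n * (C * l) = 2 * ((2 ^ n) ^ n * (C * l)) + 3 * (1000000 ^ n * (C * l)) := by
    unfold vc; ring
  have c1 : closedBall z (3 * s / 2) ⊆ Ω := (closedBall_subset_ball (by linarith)).trans hΩ
  have c2 : μ.real (ball z (3 * s / 2)) ≤ l ^ n :=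
    (measureReal_mono (ball_subset_ball (by linarith)) (measure_ne_top μ _)).trans
      (hg.1.trans (by linarith))
  have k1 := hx (s / 100) l _ (by linarith) hl q1
    ((closedBall_subset_ball' (by linarith)).trans hΩ)
    (lin_decay (by linarith) fun t h1 h2 => (hg.2 x (mem_sphere.2 hd) t h1 h2).trans
      (div_le_div_of_nonneg_left (by positivity) (by linarith) (by linarith)))
  have k2 := hP.nest hC hu (x := z) (x' := x) (t := 3 * s / 2) (t' := s / 100) (Λ := 1000000)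
    (by linarith) hl (by linarith) (by linarith) c1 c2
  have k3 := hP.nest hC hu (x := z) (x' := z) (t := 3 * s / 2) (t' := s) (Λ := 1000000)
    hs hl (by rw [dist_self]; linarith) (by linarith) c1 c2
  rw [norm_sub_rev] at k3
  linarith [norm_sub_le_norm_sub_add_norm_sub (u x) (⨍ y in ball x (s / 100), u y ∂ν)
      (⨍ y in ball z (3 * s / 2), u y ∂ν),
    norm_sub_le_norm_sub_add_norm_sub (u x) (⨍ y in ball z (3 * s / 2), u y ∂ν)
      (⨍ y in ball z s, u y ∂ν)]

end Pool.Agent.Lib.MP_a785f2_an.LY
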