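import Mathlib

/-!
The Poincare inequality on balls for maps with approximants of class one.
-/

open MeasureTheory Metric Set Filter Module Topology
open scoped ENNReal

namespace Pool.Agent.Lib.MP_a785f2_an.LY

variable {X F : Type*} [NormedAddCommGroup X] [NormedSpace ℝ X] [FiniteDimensional ℝ X]
  [MeasurableSpace X] [BorelSpace X] [NormedAddCommGroup F] [NormedSpace ℝ F]

/-- Mean oscillation on a ball is at most `C l` when the ball has energy at most `l ^ n`. -/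
def Poin (ν μ : Measure X) (Ω : Set X) (u : X → F) (C : ℝ) : Prop :=
  ∀ x t l, 0 < t → 0 ≤ l → closedBall x t ⊆ Ω → μ.real (ball x t) ≤ l ^ finrank ℝ X →
    ⨍ y in ball x t, ‖u y - ⨍ z in ball x t, u z ∂ν‖ ∂ν ≤ C * l

omit [FiniteDimensional ℝ X] [MeasurableSpace X] [BorelSpace X] in
theorem poin_seg [CompleteSpace F] {w : X → F} (hw : ContDiff ℝ 1 w) (x v : X) :
    ‖w (x + v) - w x‖ₑ ≤ ∫⁻ s in Icc (0 : ℝ) 1, ‖fderiv ℝ w (x + s • v)‖ₑ * ‖v‖ₑ := by
  have h1 : ContDiff ℝ 1 fun s : ℝ => w (x + s • v) := hw.comp (by fun_prop)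
  have h2 := enorm_sub_le_lintegral_deriv_of_contDiffOn_Icc (a := 0) (b := 1) h1.contDiffOn
    zero_le_one
  simp only [one_smul, zero_smul, add_zero] at h2
  refine h2.trans (lintegral_mono fun s => ?_)
  have h3 : HasDerivAt (fun s : ℝ => x + s • v) v s := by
    simpa using ((hasDerivAt_id s).smul_const v).const_add x
  have h4 : HasDerivAt (fun s : ℝ => w (x + s • v)) (fderiv ℝ w (x + s • v) v) s :=
    (hw.differentiable one_ne_zero _).hasFDerivAt.comp_hasDerivAt s h3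
  rw [h4.deriv]
  exact ContinuousLinearMap.le_opENorm _ _

/-- Change of variables along a contraction of a convex set. -/
theorem poin_scale (ν : Measure X) [ν.IsAddHaarMeasure] {g : X → ℝ≥0∞} (hg : Measurable g)
    {B : Set X} (hB : MeasurableSet B) (hc : Convex ℝ B) {y : X} (hy : y ∈ B) {c : ℝ}
    (h1 : 1 / 2 ≤ c) (h2 : c ≤ 1) :
    ∫⁻ x in B, g (c • x + (1 - c) • y) ∂ν ≤ 2 ^ finrank ℝ X * ∫⁻ x in B, g x ∂ν := by
  have c0 : 0 < c := by linarith
  have hm : Measurable (B.indicator g) := hg.indicator hB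
  have e1 : ∫⁻ x in B, g (c • x + (1 - c) • y) ∂ν ≤
      ∫⁻ x, B.indicator g (c • x + (1 - c) • y) ∂ν := by
    rw [← lintegral_indicator hB]
    refine lintegral_mono fun x => ?_
    by_cases hx : x ∈ B
    · rw [indicator_of_mem hx, indicator_of_mem (hc hx hy c0.le (by linarith) (by ring))]
    · rw [indicator_of_notMem hx]; exact zero_le
  have e2 : ∫⁻ x, B.indicator g (c • x + (1 - c) • y) ∂ν =
      ∫⁻ x, B.indicator g (x + (1 - c) • y) ∂(ν.map fun x => c • x) :=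
    (lintegral_map (f := fun x => B.indicator g (x + (1 - c) • y))
      (hm.comp (measurable_add_const _)) (measurable_const_smul c)).symm
  rw [e2, Measure.map_addHaar_smul ν c0.ne', lintegral_smul_measure,
    lintegral_add_right_eq_self (B.indicator g), lintegral_indicator hB, smul_eq_mul] at e1
  refine e1.trans (mul_le_mul_left ?_ _)
  have e3 : |(c ^ finrank ℝ X)⁻¹| ≤ 2 ^ finrank ℝ X := by
    rw [abs_of_pos (by positivity), ← inv_pow]
    refine pow_le_pow_left₀ (by positivity) ?_ _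
    rw [inv_le_comm₀ c0 two_pos]; linarith
  calc ENNReal.ofReal |(c ^ finrank ℝ X)⁻¹| ≤ ENNReal.ofReal (2 ^ finrank ℝ X) :=
        ENNReal.ofReal_le_ofReal e3
    _ = _ := by rw [ENNReal.ofReal_pow zero_le_two]; simp

/-- Half of the segment. -/
theorem poin_half [CompleteSpace F] (ν : Measure X) [ν.IsAddHaarMeasure] {w : X → F}
    (hw : ContDiff ℝ 1 w) (z : X) (t : ℝ) {y : X} (hy : y ∈ ball z t) :
    ∫⁻ x in ball z t, ‖w ((1 / 2 : ℝ) • (x + y)) - w x‖ₑ ∂ν ≤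
      ENNReal.ofReal t * (2 ^ finrank ℝ X * ∫⁻ x in ball z t, ‖fderiv ℝ w x‖ₑ ∂ν) := by
  have hc : Continuous (fderiv ℝ w) := hw.continuous_fderiv one_ne_zero
  have hg : Measurable fun x => ‖fderiv ℝ w x‖ₑ := hc.enorm.measurable
  have e1 : ∀ x ∈ ball z t, ‖w ((1 / 2 : ℝ) • (x + y)) - w x‖ₑ ≤ ENNReal.ofReal t *
      ∫⁻ s in Icc (0 : ℝ) 1, ‖fderiv ℝ w ((1 - s / 2) • x + (1 - (1 - s / 2)) • y)‖ₑ := by
    intro x hx
    have h1 := poin_seg hw x ((1 / 2 : ℝ) • (y - x))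
    have h2 : x + (1 / 2 : ℝ) • (y - x) = (1 / 2 : ℝ) • (x + y) := by module
    have h3 : ‖(1 / 2 : ℝ) • (y - x)‖ₑ ≤ ENNReal.ofReal t := by
      rw [← ofReal_norm]
      refine ENNReal.ofReal_le_ofReal ?_
      rw [norm_smul, ← dist_eq_norm, Real.norm_of_nonneg (by norm_num)]
      linarith [dist_triangle_right y x z, mem_ball.1 hx, mem_ball.1 hy]
    rw [h2] at h1
    rw [← lintegral_const_mul' _ _ ENNReal.ofReal_ne_top]
    refine h1.trans (lintegral_mono fun s => ?_)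
    have h4 : x + s • (1 / 2 : ℝ) • (y - x) = (1 - s / 2) • x + (1 - (1 - s / 2)) • y := by module
    rw [h4, mul_comm]
    exact mul_le_mul_left h3 _
  have e2 : Measurable fun p : X × ℝ =>
      ‖fderiv ℝ w ((1 - p.2 / 2) • p.1 + (1 - (1 - p.2 / 2)) • y)‖ₑ :=
    (hc.comp (by fun_prop)).enorm.measurable
  calc ∫⁻ x in ball z t, ‖w ((1 / 2 : ℝ) • (x + y)) - w x‖ₑ ∂ν
      ≤ ∫⁻ x in ball z t, ENNReal.ofReal t * ∫⁻ s in Icc (0 : ℝ) 1,
          ‖fderiv ℝ w ((1 - s / 2) • x + (1 - (1 - s / 2)) • y)‖ₑ ∂volume ∂ν :=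
        setLIntegral_mono' measurableSet_ball e1
    _ = ENNReal.ofReal t * ∫⁻ s in Icc (0 : ℝ) 1, ∫⁻ x in ball z t,
          ‖fderiv ℝ w ((1 - s / 2) • x + (1 - (1 - s / 2)) • y)‖ₑ ∂ν := by
        rw [lintegral_const_mul' _ _ ENNReal.ofReal_ne_top,
          lintegral_lintegral_swap e2.aemeasurable]
    _ ≤ ENNReal.ofReal t * ∫⁻ _s in Icc (0 : ℝ) 1,
          2 ^ finrank ℝ X * ∫⁻ x in ball z t, ‖fderiv ℝ w x‖ₑ ∂ν := by
        refine mul_le_mul_right (setLIntegral_mono' measurableSet_Icc fun s hs => ?_) _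
        exact poin_scale ν hg measurableSet_ball (convex_ball z t) hy (by linarith [hs.2])
          (by linarith [hs.1])
    _ = _ := by simp

/-- The double integral inequality for maps of class one. -/
theorem poin_smooth [CompleteSpace F] (ν : Measure X) [ν.IsAddHaarMeasure] {w : X → F}
    (hw : ContDiff ℝ 1 w) (z : X) (t : ℝ) :
    ∫⁻ y in ball z t, ∫⁻ x in ball z t, ‖w x - w y‖ₑ ∂ν ∂ν ≤ 2 * (ν (ball z t) *
      (ENNReal.ofReal t * (2 ^ finrank ℝ X * ∫⁻ x in ball z t, ‖fderiv ℝ w x‖ₑ ∂ν))) := by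
  have hc := hw.continuous
  set M := ENNReal.ofReal t * (2 ^ finrank ℝ X * ∫⁻ x in ball z t, ‖fderiv ℝ w x‖ₑ ∂ν)
  have m1 : Measurable fun p : X × X => ‖w ((1 / 2 : ℝ) • (p.2 + p.1)) - w p.2‖ₑ :=
    Continuous.measurable (by fun_prop)
  have m2 : Measurable fun p : X × X => ‖w ((1 / 2 : ℝ) • (p.1 + p.2)) - w p.1‖ₑ :=
    Continuous.measurable (by fun_prop)
  have e1 : ∫⁻ y in ball z t, ∫⁻ x in ball z t, ‖w ((1 / 2 : ℝ) • (x + y)) - w x‖ₑ ∂ν ∂ν ≤
      ν (ball z t) * M := by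
    refine (setLIntegral_mono' measurableSet_ball fun y hy => poin_half ν hw z t hy).trans ?_
    rw [setLIntegral_const, mul_comm]
  have e2 : ∫⁻ y in ball z t, ∫⁻ x in ball z t, ‖w ((1 / 2 : ℝ) • (y + x)) - w y‖ₑ ∂ν ∂ν ≤
      ν (ball z t) * M := by
    rw [lintegral_lintegral_swap m2.aemeasurable]
    exact e1
  calc ∫⁻ y in ball z t, ∫⁻ x in ball z t, ‖w x - w y‖ₑ ∂ν ∂ν
      ≤ ∫⁻ y in ball z t, (∫⁻ x in ball z t, ‖w ((1 / 2 : ℝ) • (x + y)) - w x‖ₑ ∂ν +
          ∫⁻ x in ball z t, ‖w ((1 / 2 : ℝ) • (y + x)) - w y‖ₑ ∂ν) ∂ν := by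
        refine lintegral_mono fun y => ?_
        rw [← lintegral_add_left (Continuous.measurable (by fun_prop))]
        refine lintegral_mono fun x => ?_
        rw [add_comm y x, enorm_sub_rev (w ((1 / 2 : ℝ) • (x + y))) (w x)]
        have h : w x - w y = (w x - w ((1 / 2 : ℝ) • (x + y))) +
            (w ((1 / 2 : ℝ) • (x + y)) - w y) := by abel
        rw [h]
        exact enorm_add_le _ _
    _ = _ := lintegral_add_left m1.lintegral_prod_right' _
    _ ≤ ν (ball z t) * M + ν (ball z t) * M := add_le_add e1 e2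
    _ = _ := (two_mul _).symm

theorem poin_young {n : ℕ} (hn : 1 ≤ n) {a c : ℝ} (ha : 0 ≤ a) (hc : 0 < c) :
    a ≤ (c ^ (n - 1))⁻¹ * a ^ n + c := by
  have h0 : 0 < c ^ (n - 1) := pow_pos hc _
  rcases le_total a c with h | h
  · exact h.trans (le_add_of_nonneg_left (by positivity))
  · have h1 : c ^ (n - 1) ≤ a ^ (n - 1) := pow_le_pow_left₀ hc.le h _
    have h2 : a ^ n = a ^ (n - 1) * a := by rw [← pow_succ]; congr 1; omega
    have h3 : a ≤ (c ^ (n - 1))⁻¹ * a ^ n := by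
      rw [le_inv_mul_iff₀ h0, h2]
      exact mul_le_mul_of_nonneg_right h1 ha
    linarith

theorem poin_lyoung {α W : Type*} [MeasurableSpace α] [NormedAddCommGroup W] (ν : Measure α)
    {n : ℕ} (hn : 1 ≤ n) (h : α → W) {c : ℝ} (hc : 0 < c) :
    ∫⁻ x, ‖h x‖ₑ ∂ν ≤ ENNReal.ofReal (c ^ (n - 1))⁻¹ * ∫⁻ x, ‖h x‖ₑ ^ n ∂ν +
      ENNReal.ofReal c * ν univ := by
  rw [← lintegral_const_mul' _ _ ENNReal.ofReal_ne_top, ← lintegral_const,
    ← lintegral_add_right _ measurable_const]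
  refine lintegral_mono fun x => ?_
  rw [← ofReal_norm, ← ENNReal.ofReal_pow (norm_nonneg _),
    ← ENNReal.ofReal_mul (by positivity), ← ENNReal.ofReal_add (by positivity) hc.le]
  exact ENNReal.ofReal_le_ofReal (poin_young hn (norm_nonneg _) hc)

/-- Convergence in the mean of order `n` gives convergence in the mean. -/
theorem poin_l1 {α W : Type*} [MeasurableSpace α] [NormedAddCommGroup W] (ν : Measure α)
    [IsFiniteMeasure ν] {n : ℕ} (hn : 1 ≤ n) {h : ℕ → α → W}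
    (H : Tendsto (fun k => ∫⁻ x, ‖h k x‖ₑ ^ n ∂ν) atTop (𝓝 0)) :
    Tendsto (fun k => ∫⁻ x, ‖h k x‖ₑ ∂ν) atTop (𝓝 0) := by
  refine ENNReal.tendsto_nhds_zero.2 fun ε hε => ?_
  have h1 : Tendsto (fun c : ℝ => ENNReal.ofReal c * ν univ) (𝓝[>] 0) (𝓝 0) := by
    have h2 : Tendsto (fun c : ℝ => ENNReal.ofReal c) (𝓝[>] 0) (𝓝 0) := by
      simpa using (ENNReal.continuous_ofReal.tendsto 0).mono_left nhdsWithin_le_nhds
    simpa using ENNReal.Tendsto.mul_const h2 (Or.inr (measure_ne_top ν univ))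
  have hε2 : 0 < ε / 2 := ENNReal.half_pos hε.ne'
  obtain ⟨c, hc1, hc⟩ := ((ENNReal.tendsto_nhds_zero.1 h1 _ hε2).and self_mem_nhdsWithin).exists
  have h3 := ENNReal.Tendsto.const_mul (a := ENNReal.ofReal (c ^ (n - 1))⁻¹) H
    (Or.inr ENNReal.ofReal_ne_top)
  rw [mul_zero] at h3
  filter_upwards [ENNReal.tendsto_nhds_zero.1 h3 _ hε2] with k hk
  calc ∫⁻ x, ‖h k x‖ₑ ∂ν ≤ _ := poin_lyoung ν hn (h k) hc
    _ ≤ ε / 2 + ε / 2 := add_le_add hk hc1
    _ = ε := ENNReal.add_halves ε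

theorem poin_tri {W : Type*} [NormedAddCommGroup W] (a b : W) : ‖a‖ₑ ≤ ‖b‖ₑ + ‖a - b‖ₑ := by
  have h : a = b + (a - b) := by abel
  conv_lhs => rw [h]
  exact enorm_add_le _ _

/-- The double integral inequality in the limit. -/
theorem poin_lim [CompleteSpace F] (ν : Measure X) [ν.IsAddHaarMeasure] {n : ℕ} (hn : 1 ≤ n)
    {u : X → F} {G : X → X →L[ℝ] F} {z : X} {t : ℝ}
    (hu : AEStronglyMeasurable u (ν.restrict (ball z t))) {w : ℕ → X → F}
    (hw : ∀ k, ContDiff ℝ 1 (w k))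
    (h1 : Tendsto (fun k => ∫⁻ y in ball z t, ‖w k y - u y‖ₑ ^ n ∂ν) atTop (𝓝 0))
    (h2 : Tendsto (fun k => ∫⁻ y in ball z t, ‖fderiv ℝ (w k) y - G y‖ₑ ^ n ∂ν) atTop (𝓝 0))
    (hG : AEStronglyMeasurable G (ν.restrict (ball z t))) :
    ∫⁻ y in ball z t, ∫⁻ x in ball z t, ‖u x - u y‖ₑ ∂ν ∂ν ≤ 2 * (ν (ball z t) *
      (ENNReal.ofReal t * (2 ^ finrank ℝ X * ∫⁻ x in ball z t, ‖G x‖ₑ ∂ν))) := by
  have hB : ν (ball z t) ≠ ⊤ := measure_ball_lt_top.ne
  have : IsFiniteMeasure (ν.restrict (ball z t)) := ⟨by simpa using measure_ball_lt_top⟩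
  have a1 := poin_l1 _ hn h1
  have a2 := poin_l1 _ hn h2
  set I := ∫⁻ x in ball z t, ‖G x‖ₑ ∂ν
  set A := fun k => ∫⁻ y in ball z t, ‖w k y - u y‖ₑ ∂ν with hA
  set B := fun k => ∫⁻ y in ball z t, ‖fderiv ℝ (w k) y - G y‖ₑ ∂ν with hB'
  set c : ℝ≥0∞ := 2 * (ν (ball z t) * (ENNReal.ofReal t * 2 ^ finrank ℝ X)) with hc
  have cT : c ≠ ⊤ := by
    refine ENNReal.mul_ne_top ENNReal.ofNat_ne_top (ENNReal.mul_ne_top hB ?_)
    exact ENNReal.mul_ne_top ENNReal.ofReal_ne_top (ENNReal.pow_ne_top ENNReal.ofNat_ne_top)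
  have key : ∀ k, ∫⁻ y in ball z t, ∫⁻ x in ball z t, ‖u x - u y‖ₑ ∂ν ∂ν ≤
      c * I + (c * B k + (ν (ball z t) * A k + ν (ball z t) * A k)) := fun k => by
    have wc := (hw k).continuous
    have mA : AEMeasurable (fun y => ‖w k y - u y‖ₑ) (ν.restrict (ball z t)) :=
      (wc.aestronglyMeasurable.sub hu).enorm
    have m1 : Measurable fun p : X × X => ‖w k p.2 - w k p.1‖ₑ :=
      Continuous.measurable (by fun_prop)
    have e1 : ∀ y, ∫⁻ x in ball z t, ‖u x - u y‖ₑ ∂ν ≤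
        ∫⁻ x in ball z t, ‖w k x - w k y‖ₑ ∂ν + (A k + ν (ball z t) * ‖w k y - u y‖ₑ) := by
      intro y
      rw [mul_comm, ← setLIntegral_const, hA, ← lintegral_add_right _ measurable_const,
        ← lintegral_add_left (Continuous.measurable (by fun_prop))]
      refine lintegral_mono fun x => ?_
      have h : u x - u y = (w k x - w k y) + (-(w k x - u x) + (w k y - u y)) := by abel
      rw [h]
      refine (enorm_add_le _ _).trans (add_le_add_right ((enorm_add_le _ _).trans ?_) _)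
      rw [enorm_neg]
    have e2 : ∫⁻ x in ball z t, ‖fderiv ℝ (w k) x‖ₑ ∂ν ≤ I + B k := by
      rw [hB', ← lintegral_add_left' hG.enorm]
      refine lintegral_mono fun x => ?_
      exact poin_tri _ _
    have e3 := poin_smooth ν (hw k) z t
    calc ∫⁻ y in ball z t, ∫⁻ x in ball z t, ‖u x - u y‖ₑ ∂ν ∂ν
        ≤ ∫⁻ y in ball z t, (∫⁻ x in ball z t, ‖w k x - w k y‖ₑ ∂ν +
            (A k + ν (ball z t) * ‖w k y - u y‖ₑ)) ∂ν := lintegral_mono e1
      _ = ∫⁻ y in ball z t, ∫⁻ x in ball z t, ‖w k x - w k y‖ₑ ∂ν ∂ν +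
            (ν (ball z t) * A k + ν (ball z t) * A k) := by
          rw [lintegral_add_left m1.lintegral_prod_right', lintegral_add_left measurable_const,
            lintegral_const_mul' _ _ hB, setLIntegral_const, mul_comm (A k)]
      _ ≤ c * (I + B k) + (ν (ball z t) * A k + ν (ball z t) * A k) := by
          refine add_le_add_left (e3.trans ?_) _
          calc 2 * (ν (ball z t) * (ENNReal.ofReal t *
                (2 ^ finrank ℝ X * ∫⁻ x in ball z t, ‖fderiv ℝ (w k) x‖ₑ ∂ν)))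
              = c * ∫⁻ x in ball z t, ‖fderiv ℝ (w k) x‖ₑ ∂ν := by rw [hc]; ring
            _ ≤ _ := mul_le_mul_right e2 _
      _ = _ := by ring
  have l1 := ENNReal.Tendsto.const_mul (a := c) a2 (Or.inr cT)
  have l2 := ENNReal.Tendsto.const_mul (a := ν (ball z t)) a1 (Or.inr hB)
  have l3 := (tendsto_const_nhds (x := c * I)).add (l1.add (l2.add l2))
  simp only [mul_zero, add_zero] at l3
  refine (ge_of_tendsto' l3 key).trans (le_of_eq ?_)
  rw [hc]; ring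

/-- From the double integral to the mean oscillation. -/
theorem poin_mean [CompleteSpace F] {α : Type*} [MeasurableSpace α] (ν : Measure α)
    [IsFiniteMeasure ν] (h0 : ν univ ≠ 0) {u : α → F} (hu : Integrable u ν) {M : ℝ} (hM : 0 ≤ M)
    (h : ∫⁻ y, ∫⁻ x, ‖u x - u y‖ₑ ∂ν ∂ν ≤ ν univ * (ν univ * ENNReal.ofReal M)) :
    ⨍ y, ‖u y - ⨍ z, u z ∂ν‖ ∂ν ≤ M := by
  have hT := measure_ne_top ν univ
  have p0 : 0 < ν.real univ := ENNReal.toReal_pos h0 hT
  have e1 : ∀ y, ν univ * ‖u y - ⨍ z, u z ∂ν‖ₑ ≤ ∫⁻ x, ‖u x - u y‖ₑ ∂ν := fun y => by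
    refine le_trans (le_of_eq ?_) (enorm_integral_le_lintegral_enorm _)
    rw [integral_sub hu (integrable_const _), integral_const, ← measure_smul_average, ← smul_sub,
      enorm_smul, enorm_sub_rev, Real.enorm_eq_ofReal p0.le, ofReal_measureReal hT]
  have e2 : ν univ * ∫⁻ y, ‖u y - ⨍ z, u z ∂ν‖ₑ ∂ν ≤ ν univ * (ν univ * ENNReal.ofReal M) := by
    rw [← lintegral_const_mul' _ _ hT]
    exact (lintegral_mono e1).trans h
  have e3 := (ENNReal.mul_le_mul_iff_right h0 hT).1 e2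
  have hi : Integrable (fun y => u y - ⨍ z, u z ∂ν) ν := hu.sub (integrable_const _)
  rw [average_eq, smul_eq_mul, inv_mul_le_iff₀ p0, integral_norm_eq_lintegral_enorm hi.1]
  have e4 := ENNReal.toReal_mono (ENNReal.mul_ne_top hT ENNReal.ofReal_ne_top) e3
  rwa [ENNReal.toReal_mul, ENNReal.toReal_ofReal hM] at e4

/-- The Poincare inequality. The constant depends on `ν` and `K` only. -/
theorem exists_poin [CompleteSpace F] (ν : Measure X) [ν.IsAddHaarMeasure]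
    (hn : 1 ≤ finrank ℝ X) {K : ℝ} (hK : 0 ≤ K) :
    ∃ C : ℝ, 1 ≤ C ∧ ∀ (μ : Measure X) [IsFiniteMeasure μ] (Ω : Set X) (u : X → F)
      (G : X → X →L[ℝ] F), LocallyIntegrable u ν → AEStronglyMeasurable G ν →
      (∀ x t, ∫⁻ y in ball x t, ‖G y‖ₑ ^ finrank ℝ X ∂ν ≤ ENNReal.ofReal K * μ (ball x t)) →
      (∀ x t, 0 < t → closedBall x t ⊆ Ω → ∃ w : ℕ → X → F, (∀ k, ContDiff ℝ 1 (w k)) ∧
        Tendsto (fun k => ∫⁻ y in ball x t, ‖w k y - u y‖ₑ ^ finrank ℝ X ∂ν) atTop (𝓝 0) ∧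
        Tendsto (fun k => ∫⁻ y in ball x t, ‖fderiv ℝ (w k) y - G y‖ₑ ^ finrank ℝ X ∂ν)
          atTop (𝓝 0)) →
      Poin ν μ Ω u C := by
  set n := finrank ℝ X with hn'
  set ω := ν.real (ball 0 1) with hω
  have ω0 : 0 < ω :=
    ENNReal.toReal_pos (measure_ball_pos ν _ one_pos).ne' measure_ball_lt_top.ne
  have q1 : (1 : ℝ) ≤ 2 ^ n := one_le_pow₀ one_le_two
  have C0 : 0 ≤ K / ω := by positivity
  refine ⟨2 * 2 ^ n * (K / ω + 1), by nlinarith, fun μ _ Ω u G hu hG hμ hw => ?_⟩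
  have main : ∀ x t l, 0 < t → 0 < l → closedBall x t ⊆ Ω →
      μ (ball x t) ≤ ENNReal.ofReal (l ^ n) →
      ⨍ y in ball x t, ‖u y - ⨍ z in ball x t, u z ∂ν‖ ∂ν ≤ 2 * 2 ^ n * (K / ω + 1) * l := by
    intro x t l ht hl hΩ hm
    obtain ⟨w, w1, w2, w3⟩ := hw x t ht hΩ
    have : IsFiniteMeasure (ν.restrict (ball x t)) := ⟨by simpa using measure_ball_lt_top⟩
    have hi : IntegrableOn u (ball x t) ν :=
      (hu.integrableOn_isCompact (isCompact_closedBall x t)).mono_set ball_subset_closedBall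
    have hB : ν (ball x t) = ENNReal.ofReal (t ^ n * ω) := by
      rw [Measure.addHaar_ball_of_pos ν x ht, ENNReal.ofReal_mul (by positivity), hω,
        ofReal_measureReal measure_ball_lt_top.ne]
    have e1 := poin_lim ν hn hi.1 w1 w2 w3 hG.restrict
    have e2 := poin_lyoung (ν.restrict (ball x t)) hn G (c := l / t) (by positivity)
    rw [Measure.restrict_apply_univ] at e2
    have e3 : ∫⁻ y in ball x t, ‖G y‖ₑ ∂ν ≤
        ENNReal.ofReal (((l / t) ^ (n - 1))⁻¹ * (K * l ^ n) + l / t * (t ^ n * ω)) := by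
      refine e2.trans ?_
      rw [ENNReal.ofReal_add (by positivity) (by positivity), ENNReal.ofReal_mul (by positivity),
        ENNReal.ofReal_mul hK, ENNReal.ofReal_mul (p := l / t) (by positivity), hB]
      exact add_le_add_left (mul_le_mul_right ((hμ x t).trans (mul_le_mul_right hm _)) _) _
    refine poin_mean _ ?_ hi (by positivity) (e1.trans ?_)
    · rw [Measure.restrict_apply_univ]; exact (measure_ball_pos ν x ht).ne'
    rw [Measure.restrict_apply_univ]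
    have e4 : (2 : ℝ≥0∞) * (ENNReal.ofReal t * (2 ^ n * ∫⁻ y in ball x t, ‖G y‖ₑ ∂ν)) ≤
        ν (ball x t) * ENNReal.ofReal (2 * 2 ^ n * (K / ω + 1) * l) := by
      have e5 : (2 : ℝ≥0∞) ^ n = ENNReal.ofReal (2 ^ n) := by
        rw [ENNReal.ofReal_pow zero_le_two]; simp
      have e6 : ∀ a : ℝ, (2 : ℝ≥0∞) * ENNReal.ofReal a = ENNReal.ofReal (2 * a) := fun a => by
        rw [ENNReal.ofReal_mul zero_le_two]; simp
      refine (mul_le_mul_right (mul_le_mul_right (mul_le_mul_right e3 _) _) _).trans (le_of_eq ?_)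
      rw [e5, hB, ← ENNReal.ofReal_mul (by positivity), ← ENNReal.ofReal_mul ht.le, e6,
        ← ENNReal.ofReal_mul (by positivity)]
      congr 1
      obtain ⟨k, hk⟩ := Nat.exists_eq_add_of_le' hn
      rw [hk, Nat.add_sub_cancel, div_pow]
      field_simp
      ring
    calc 2 * (ν (ball x t) * (ENNReal.ofReal t * (2 ^ n * ∫⁻ y in ball x t, ‖G y‖ₑ ∂ν)))
        = ν (ball x t) * (2 * (ENNReal.ofReal t * (2 ^ n * ∫⁻ y in ball x t, ‖G y‖ₑ ∂ν))) := by
          ring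
      _ ≤ _ := mul_le_mul_right e4 _
  intro x t l ht hl hΩ hm
  have C1 : 0 < 2 * 2 ^ n * (K / ω + 1) := by positivity
  refine le_of_forall_pos_le_add fun ε hε => ?_
  have h := main x t (l + ε / (2 * 2 ^ n * (K / ω + 1))) ht (by positivity) hΩ
    ((ofReal_measureReal (measure_ne_top μ _)).symm.trans_le (ENNReal.ofReal_le_ofReal
      (hm.trans (pow_le_pow_left₀ hl (le_add_of_nonneg_right (by positivity)) _))))
  rwa [mul_add, mul_div_cancel₀ _ C1.ne'] at h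

end Pool.Agent.Lib.MP_a785f2_an.LY
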