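import Pool.Agent.Lib.MP_a785f2_an.LY.SphDefs

open MeasureTheory
open scoped RealInnerProductSpace

namespace Pool.Agent.Lib.MP_a785f2_an.LY

variable {W : Type} [NormedAddCommGroup W] [InnerProductSpace ℝ W]

theorem norm_Ap (k : ℕ) (q : W) : ‖Ap k q‖ = ‖q‖ ^ (k + 1) := by
  rw [Ap, norm_smul, Real.norm_of_nonneg (by positivity), pow_succ]

theorem inner_Ap (k : ℕ) (q : W) : ⟪Ap k q, q⟫ = ‖q‖ ^ (k + 2) := by
  rw [Ap, real_inner_smul_left, real_inner_self_eq_norm_sq]; ring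

theorem continuous_Ap (k : ℕ) : Continuous (Ap k : W → W) := by
  unfold Ap; fun_prop

/-- Monotonicity. -/
theorem Ap_mono (k : ℕ) (p q : W) :
    (‖p‖ ^ k + ‖q‖ ^ k) * ‖p - q‖ ^ 2 ≤ 2 * ⟪Ap k p - Ap k q, p - q⟫ := by
  have h1 : ‖p - q‖ ^ 2 = ‖p‖ ^ 2 - 2 * ⟪p, q⟫ + ‖q‖ ^ 2 := norm_sub_sq_real p q
  have h2 : ⟪Ap k p - Ap k q, p - q⟫ =
      ‖p‖ ^ k * (‖p‖ ^ 2 - ⟪p, q⟫) - ‖q‖ ^ k * (⟪p, q⟫ - ‖q‖ ^ 2) := by
    simp only [Ap, inner_sub_left, inner_sub_right, real_inner_smul_left,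
      real_inner_self_eq_norm_sq, real_inner_comm p q]
    ring
  have h3 : 0 ≤ (‖p‖ ^ k - ‖q‖ ^ k) * (‖p‖ ^ 2 - ‖q‖ ^ 2) := by
    rcases le_total ‖p‖ ‖q‖ with h | h
    · exact mul_nonneg_of_nonpos_of_nonpos (sub_nonpos.2 (pow_le_pow_left₀ (norm_nonneg _) h k))
        (sub_nonpos.2 (pow_le_pow_left₀ (norm_nonneg _) h 2))
    · exact mul_nonneg (sub_nonneg.2 (pow_le_pow_left₀ (norm_nonneg _) h k))
        (sub_nonneg.2 (pow_le_pow_left₀ (norm_nonneg _) h 2))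
  rw [h1, h2]; nlinarith

theorem Ap_mono_nonneg (k : ℕ) (p q : W) : 0 ≤ ⟪Ap k p - Ap k q, p - q⟫ := by
  have := Ap_mono k p q
  have h : 0 ≤ (‖p‖ ^ k + ‖q‖ ^ k) * ‖p - q‖ ^ 2 := by positivity
  linarith

theorem Ap_mono2 (k : ℕ) (p q : W) :
    ‖q‖ ^ k * ‖p - q‖ ^ 2 ≤ 2 * ⟪Ap k p - Ap k q, p - q⟫ := by
  have := Ap_mono k p q
  have h : 0 ≤ ‖p‖ ^ k * ‖p - q‖ ^ 2 := by positivity
  nlinarith

theorem Ap_monon (k : ℕ) (p q : W) :
    ‖p - q‖ ^ (k + 2) ≤ 2 ^ (k + 1) * ⟪Ap k p - Ap k q, p - q⟫ := by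
  have h1 := Ap_mono k p q
  have h2 : ‖p - q‖ ^ k ≤ 2 ^ k * (‖p‖ ^ k + ‖q‖ ^ k) := by
    have h3 : ‖p - q‖ ≤ ‖p‖ + ‖q‖ := norm_sub_le p q
    rcases le_total ‖p‖ ‖q‖ with h | h
    · calc ‖p - q‖ ^ k ≤ (2 * ‖q‖) ^ k := pow_le_pow_left₀ (norm_nonneg _) (by linarith) k
        _ = 2 ^ k * ‖q‖ ^ k := mul_pow _ _ _
        _ ≤ _ := by gcongr; exact le_add_of_nonneg_left (by positivity)
    · calc ‖p - q‖ ^ k ≤ (2 * ‖p‖) ^ k := pow_le_pow_left₀ (norm_nonneg _) (by linarith) k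
        _ = 2 ^ k * ‖p‖ ^ k := mul_pow _ _ _
        _ ≤ _ := by gcongr; exact le_add_of_nonneg_right (by positivity)
  calc ‖p - q‖ ^ (k + 2) = ‖p - q‖ ^ k * ‖p - q‖ ^ 2 := pow_add _ _ _
    _ ≤ 2 ^ k * (‖p‖ ^ k + ‖q‖ ^ k) * ‖p - q‖ ^ 2 := by gcongr
    _ = 2 ^ k * ((‖p‖ ^ k + ‖q‖ ^ k) * ‖p - q‖ ^ 2) := by ring
    _ ≤ 2 ^ k * (2 * ⟪Ap k p - Ap k q, p - q⟫) := by gcongr
    _ = _ := by ring

theorem abs_pow_sub_pow_le' (k : ℕ) {a b M : ℝ} (ha : 0 ≤ a) (hb : 0 ≤ b) (haM : a ≤ M)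
    (hbM : b ≤ M) : |a ^ k - b ^ k| * M ≤ k * M ^ k * |a - b| := by
  have hM : 0 ≤ M := ha.trans haM
  induction k with
  | zero => simp
  | succ k ih =>
    have e : a ^ (k + 1) - b ^ (k + 1) = a * (a ^ k - b ^ k) + b ^ k * (a - b) := by ring
    have h1 : |a ^ (k + 1) - b ^ (k + 1)| ≤ M * |a ^ k - b ^ k| + M ^ k * |a - b| := by
      rw [e]
      refine (abs_add_le _ _).trans (add_le_add ?_ ?_)
      · rw [abs_mul, abs_of_nonneg ha]; gcongr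
      · rw [abs_mul, abs_of_nonneg (pow_nonneg hb k)]; gcongr
    calc |a ^ (k + 1) - b ^ (k + 1)| * M ≤ (M * |a ^ k - b ^ k| + M ^ k * |a - b|) * M := by gcongr
      _ = M * (|a ^ k - b ^ k| * M) + M ^ (k + 1) * |a - b| := by ring
      _ ≤ M * (k * M ^ k * |a - b|) + M ^ (k + 1) * |a - b| := by gcongr
      _ = _ := by push_cast; ring

/-- Local Lipschitz bound. -/
theorem Ap_lip (k : ℕ) (p q : W) :
    ‖Ap k p - Ap k q‖ ≤ (k + 1) * (‖q‖ + ‖p - q‖) ^ k * ‖p - q‖ := by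
  set M := ‖q‖ + ‖p - q‖ with hM
  have hp : ‖p‖ ≤ M := by
    calc ‖p‖ = ‖q + (p - q)‖ := by congr 1; abel
      _ ≤ M := norm_add_le _ _
  have hq : ‖q‖ ≤ M := le_add_of_nonneg_right (norm_nonneg _)
  have e : Ap k p - Ap k q = ‖p‖ ^ k • (p - q) + (‖p‖ ^ k - ‖q‖ ^ k) • q := by
    simp only [Ap, smul_sub, sub_smul]; abel
  have h1 := abs_pow_sub_pow_le' k (norm_nonneg p) (norm_nonneg q) hp hq
  have h2 : |‖p‖ - ‖q‖| ≤ ‖p - q‖ := abs_norm_sub_norm_le p q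
  have M0 : 0 ≤ M := (norm_nonneg _).trans hq
  rw [e]
  calc ‖‖p‖ ^ k • (p - q) + (‖p‖ ^ k - ‖q‖ ^ k) • q‖
      ≤ ‖p‖ ^ k * ‖p - q‖ + |‖p‖ ^ k - ‖q‖ ^ k| * ‖q‖ := by
        refine (norm_add_le _ _).trans (add_le_add ?_ ?_)
        · rw [norm_smul, Real.norm_of_nonneg (by positivity)]
        · rw [norm_smul, Real.norm_eq_abs]
    _ ≤ M ^ k * ‖p - q‖ + |‖p‖ ^ k - ‖q‖ ^ k| * M := by gcongr
    _ ≤ M ^ k * ‖p - q‖ + k * M ^ k * ‖p - q‖ := by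
        refine add_le_add le_rfl (h1.trans ?_)
        exact mul_le_mul_of_nonneg_left h2 (by positivity)
    _ = _ := by ring

theorem add_pow_le_two (j : ℕ) {a b : ℝ} (ha : 0 ≤ a) (hb : 0 ≤ b) :
    (a + b) ^ j ≤ 2 ^ j * (a ^ j + b ^ j) := by
  rcases le_total a b with h | h
  · calc (a + b) ^ j ≤ (2 * b) ^ j := pow_le_pow_left₀ (by positivity) (by linarith) j
      _ = 2 ^ j * b ^ j := mul_pow _ _ _
      _ ≤ _ := by gcongr; exact le_add_of_nonneg_left (by positivity)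
  · calc (a + b) ^ j ≤ (2 * a) ^ j := pow_le_pow_left₀ (by positivity) (by linarith) j
      _ = 2 ^ j * a ^ j := mul_pow _ _ _
      _ ≤ _ := by gcongr; exact le_add_of_nonneg_right (by positivity)

/-- `a (a + D)^k D ≤ 2^k (a^(k+1) D + D^(k+2))`-type splitting. -/
theorem split_pow (j : ℕ) {a D : ℝ} (ha : 0 ≤ a) (hD : 0 ≤ D) :
    a * ((a + D) ^ j * D) ≤ 2 ^ j * (a ^ (j + 1) * D + D ^ (j + 2)) := by
  rcases le_total D a with h | h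
  · calc a * ((a + D) ^ j * D) ≤ a * ((2 * a) ^ j * D) := by gcongr; linarith
      _ = 2 ^ j * (a ^ (j + 1) * D) := by rw [mul_pow]; ring
      _ ≤ _ := by gcongr; exact le_add_of_nonneg_right (by positivity)
  · calc a * ((a + D) ^ j * D) ≤ D * ((2 * D) ^ j * D) := by gcongr; linarith
      _ = 2 ^ j * D ^ (j + 2) := by rw [mul_pow]; ring
      _ ≤ _ := by gcongr; exact le_add_of_nonneg_left (by positivity)

theorem split_pow' (j : ℕ) {a D : ℝ} (ha : 0 ≤ a) (hD : 0 ≤ D) :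
    (a + D) ^ (j + 1) * D ≤ 2 ^ (j + 1) * (a ^ (j + 1) * D + D ^ (j + 2)) := by
  calc (a + D) ^ (j + 1) * D ≤ 2 ^ (j + 1) * (a ^ (j + 1) + D ^ (j + 1)) * D := by
        gcongr; exact add_pow_le_two _ ha hD
    _ = _ := by ring

theorem young_one (j : ℕ) {a b : ℝ} (ha : 0 ≤ a) (hb : 0 ≤ b) :
    a * b ^ j ≤ a ^ (j + 1) + b ^ (j + 1) := by
  rcases le_total a b with h | h
  · calc a * b ^ j ≤ b * b ^ j := by gcongr
      _ = b ^ (j + 1) := by ring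
      _ ≤ _ := le_add_of_nonneg_left (by positivity)
  · calc a * b ^ j ≤ a * a ^ j := by gcongr
      _ = a ^ (j + 1) := by ring
      _ ≤ _ := le_add_of_nonneg_right (by positivity)

section Jensen

variable {X : Type} [MeasurableSpace X] {σ : Measure X} [IsProbabilityMeasure σ]

theorem integrable_pow_le {f : X → ℝ} (hm : AEStronglyMeasurable f σ) (h0 : ∀ x, 0 ≤ f x)
    {i j : ℕ} (hij : i ≤ j) (hj : Integrable (fun x => f x ^ j) σ) :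
    Integrable (fun x => f x ^ i) σ := by
  refine ((integrable_const (1 : ℝ)).add hj).mono' (hm.pow i) (Filter.Eventually.of_forall fun x => ?_)
  rw [Real.norm_of_nonneg (pow_nonneg (h0 x) i)]
  rcases le_total (f x) 1 with h | h
  · exact (pow_le_one₀ (h0 x) h).trans (le_add_of_nonneg_right (pow_nonneg (h0 x) j))
  · exact (pow_le_pow_right₀ h hij).trans (le_add_of_nonneg_left zero_le_one)

theorem jensen_pow {f : X → ℝ} (hm : AEStronglyMeasurable f σ) (h0 : ∀ x, 0 ≤ f x) (j : ℕ)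
    (hj : Integrable (fun x => f x ^ (j + 1)) σ) :
    (∫ x, f x ∂σ) ^ (j + 1) ≤ ∫ x, f x ^ (j + 1) ∂σ := by
  have h1 : Integrable f σ := by
    simpa using integrable_pow_le hm h0 (Nat.le_add_left 1 j) hj
  exact (convexOn_pow (j + 1)).map_integral_le (continuous_pow _).continuousOn isClosed_Ici
    (Filter.Eventually.of_forall h0) h1 hj

end Jensen

end Pool.Agent.Lib.MP_a785f2_an.LY
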