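import Pool.Agent.Lib.MP_a785f2_an.LY.SphA

/-! Crude bounds on one sphere. -/

open MeasureTheory
open scoped RealInnerProductSpace

namespace Pool.Agent.Lib.MP_a785f2_an.LY

namespace Sph

variable {X V W : Type} [MeasurableSpace X] [NormedAddCommGroup V] [InnerProductSpace ℝ V]
  [NormedAddCommGroup W] [InnerProductSpace ℝ W] {S : Sph X V W} {L : ℝ}

theorem Ok.c_ra (h : S.Ok L) (x : X) (q : W) : ‖S.ra x q‖ ≤ ‖q‖ := by
  have h1 := h.adj x q (S.ra x q)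
  rw [real_inner_self_eq_norm_sq] at h1
  have h2 := real_inner_le_norm q (S.io x (S.ra x q))
  rw [h.iso] at h2
  rcases (norm_nonneg (S.ra x q)).eq_or_lt with h0 | h0
  · rw [← h0]; exact norm_nonneg q
  · exact le_of_mul_le_mul_right (by nlinarith) h0

theorem Ok.c_pow (h : S.Ok L) {i : ℕ} (hi : i ≤ S.k + 2) :
    Integrable (fun x => ‖S.p x‖ ^ i) S.σ :=
  haveI := h.prob
  integrable_pow_le h.mp.norm (fun _ => norm_nonneg _) hi h.lp

theorem Ok.c_one (h : S.Ok L) : Integrable (fun x => ‖S.p x‖) S.σ := by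
  simpa using h.c_pow (i := 1) (by omega)

theorem Ok.c_al (h : S.Ok L) : ∀ᵐ x ∂S.σ, ‖S.al x‖ ≤ 3 * L * ‖S.p x‖ ^ (S.k + 2) := by
  obtain ⟨T, hT, h1, -⟩ := h.good
  have L0 : 0 ≤ L := zero_le_one.trans h.L1
  filter_upwards [hT] with x hx
  have h2 := (h1 x hx).2.2 0
  rw [map_zero, sub_zero, norm_zero] at h2
  have h3 : (0 : ℝ) ^ S.k * ‖S.p x‖ ^ 2 ≤ ‖S.p x‖ ^ (S.k + 2) := by
    rcases Nat.eq_zero_or_pos S.k with h0 | h0
    · rw [h0]; simp
    · rw [zero_pow h0.ne', zero_mul]; positivity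
  have h4 := h.bbe x (S.p x) (Ap S.k (S.p x))
  rw [norm_Ap] at h4
  have h5 := mul_le_mul_of_nonneg_left h3 L0
  have h6 : L * ‖S.p x‖ * ‖S.p x‖ ^ (S.k + 1) = L * ‖S.p x‖ ^ (S.k + 2) := by ring
  have h7 : ‖S.al x‖ ≤ ‖S.be x (S.p x) (Ap S.k (S.p x))‖ + ‖S.h2 x‖ := norm_add_le _ _
  linarith

theorem Ok.c_iP (h : S.Ok L) : Integrable S.Pu S.σ :=
  haveI := h.prob
  (integrable_const L).mono' h.mP (ae_of_all _ h.bP)

theorem Ok.c_P2 (h : S.Ok L) (x : X) : ‖(S.Pu x).comp (S.Pu x)‖ ≤ L ^ 2 :=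
  ((S.Pu x).opNorm_comp_le _).trans (by
    rw [sq]; exact mul_le_mul (h.bP x) (h.bP x) (norm_nonneg _) (zero_le_one.trans h.L1))

theorem Ok.c_iP2 (h : S.Ok L) : Integrable (fun x => (S.Pu x).comp (S.Pu x)) S.σ := by
  have := h.prob
  have c : Continuous fun A : V →L[ℝ] V => A.comp A := continuous_id.clm_comp continuous_id
  have m := c.comp_aestronglyMeasurable h.mP
  exact (integrable_const (L ^ 2)).mono' m (ae_of_all _ h.c_P2)

theorem Ok.c_Pb (h : S.Ok L) : ‖S.Pb‖ ≤ L := by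
  have := h.prob
  have := norm_integral_le_of_norm_le (integrable_const (μ := S.σ) L) (ae_of_all _ h.bP)
  simpa [Pb] using this

theorem Ok.c_nP2 (h : S.Ok L) : ‖S.P2‖ ≤ L ^ 2 := by
  have := h.prob
  have := norm_integral_le_of_norm_le (integrable_const (μ := S.σ) (L ^ 2)) (ae_of_all _ h.c_P2)
  simpa [P2] using this

theorem Ok.c_B (h : S.Ok L) (x : X) : ‖S.B x (S.ra x (S.p x))‖ ≤ L * ‖S.p x‖ :=
  (h.bB x _).trans (mul_le_mul_of_nonneg_left (h.c_ra x _) (zero_le_one.trans h.L1))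

theorem Ok.c_gp (h : S.Ok L) : ‖S.gp‖ ≤ 4 * L ^ 2 * S.m1 := by
  have L0 : 0 ≤ L := zero_le_one.trans h.L1
  have m0 : 0 ≤ S.m1 := integral_nonneg fun _ => norm_nonneg _
  have h1 : ‖S.Pbp‖ ≤ L * S.m1 := by
    have := norm_integral_le_of_norm_le (h.c_one.const_mul L) (ae_of_all _ h.c_B)
    rwa [integral_const_mul] at this
  have h2 : ‖S.P2p‖ ≤ 2 * L ^ 2 * S.m1 := by
    have := norm_integral_le_of_norm_le (h.c_one.const_mul (2 * L ^ 2))
      (f := fun x => (S.B x (S.ra x (S.p x))).comp (S.Pu x) +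
        (S.Pu x).comp (S.B x (S.ra x (S.p x)))) (ae_of_all _ fun x => by
      have a1 := ((S.B x (S.ra x (S.p x))).opNorm_comp_le (S.Pu x)).trans
        (mul_le_mul (h.c_B x) (h.bP x) (norm_nonneg _) (by positivity))
      have a2 := ((S.Pu x).opNorm_comp_le (S.B x (S.ra x (S.p x)))).trans
        (mul_le_mul (h.bP x) (h.c_B x) (norm_nonneg _) L0)
      exact (norm_add_le _ _).trans (by linarith))
    rwa [integral_const_mul] at this
  have h3 := (S.Pbp.opNorm_comp_le S.Pb).trans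
    (mul_le_mul h1 h.c_Pb (norm_nonneg _) (by positivity))
  have h4 := (S.Pb.opNorm_comp_le S.Pbp).trans (mul_le_mul h.c_Pb h1 (norm_nonneg _) L0)
  have h5 := norm_add_le (S.Pbp.comp S.Pb) (S.Pb.comp S.Pbp)
  exact (norm_sub_le _ _).trans (by linarith)

theorem Ok.c_g (h : S.Ok L) : ‖S.g‖ ≤ 3 * L ^ 2 := by
  have L0 : 0 ≤ L := zero_le_one.trans h.L1
  have h1 := (S.Pb.opNorm_comp_le S.Pb).trans (mul_le_mul h.c_Pb h.c_Pb (norm_nonneg _) L0)
  have h2 := norm_add_le (ContinuousLinearMap.id ℝ V) S.P2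
  have h3 : ‖ContinuousLinearMap.id ℝ V‖ ≤ 1 := ContinuousLinearMap.norm_id_le
  have h4 := h.c_nP2
  have h5 : 1 ≤ L ^ 2 := one_le_pow₀ h.L1
  exact (norm_sub_le _ _).trans (by nlinarith)

variable [CompleteSpace V]

theorem c_inner {μ : Measure X} {A : X → V →L[ℝ] V} (hA : Integrable A μ) (v w : V) :
    ⟪w, (∫ x, A x ∂μ) v⟫ = ∫ x, ⟪w, A x v⟫ ∂μ := by
  rw [ContinuousLinearMap.integral_apply hA, integral_inner (hA.apply_continuousLinearMap v)]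

theorem Ok.c_sPb (h : S.Ok L) (v w : V) : ⟪S.Pb v, w⟫ = ⟪v, S.Pb w⟫ := by
  rw [real_inner_comm, Pb, c_inner h.c_iP, c_inner h.c_iP]
  refine integral_congr_ae (ae_of_all _ fun x => ?_)
  show ⟪w, S.Pu x v⟫ = ⟪v, S.Pu x w⟫
  rw [real_inner_comm, h.sP]

theorem Ok.c_P2in (h : S.Ok L) (v w : V) :
    ⟪v, S.P2 w⟫ = ∫ x, ⟪S.Pu x v, S.Pu x w⟫ ∂S.σ := by
  rw [P2, c_inner h.c_iP2]
  refine integral_congr_ae (ae_of_all _ fun x => ?_)
  show ⟪v, S.Pu x (S.Pu x w)⟫ = ⟪S.Pu x v, S.Pu x w⟫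
  rw [h.sP]

theorem Ok.c_gin (h : S.Ok L) (v w : V) : ⟪v, S.g w⟫ =
    ⟪v, w⟫ + ∫ x, ⟪S.Pu x v, S.Pu x w⟫ ∂S.σ - ⟪S.Pb v, S.Pb w⟫ := by
  have e : S.g w = w + S.P2 w - S.Pb (S.Pb w) := rfl
  rw [e, inner_sub_right, inner_add_right, h.c_P2in, h.c_sPb]

theorem Ok.c_sg (h : S.Ok L) (v w : V) : ⟪S.g v, w⟫ = ⟪v, S.g w⟫ := by
  rw [real_inner_comm, h.c_gin, h.c_gin, real_inner_comm v w, real_inner_comm (S.Pb v)]
  simp only [real_inner_comm (S.Pu _ v)]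

theorem Ok.c_pos (h : S.Ok L) (v : V) : ‖v‖ ^ 2 ≤ ⟪S.g v, v⟫ := by
  have := h.prob
  rw [h.c_sg, h.c_gin]
  simp only [real_inner_self_eq_norm_sq]
  have i1 := h.c_iP.apply_continuousLinearMap v
  have i2 : Integrable (fun x => ‖S.Pu x v‖ ^ (1 + 1)) S.σ := by
    refine (integrable_const ((L * ‖v‖) ^ 2)).mono' (i1.aestronglyMeasurable.norm.pow _)
      (ae_of_all _ fun x => ?_)
    rw [Real.norm_of_nonneg (by positivity)]
    exact pow_le_pow_left₀ (norm_nonneg _) ((S.Pu x).le_of_opNorm_le (h.bP x) v) 2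
  have h1 := jensen_pow i1.aestronglyMeasurable.norm (fun _ => norm_nonneg _) 1 i2
  have h2 : ‖S.Pb v‖ ≤ ∫ x, ‖S.Pu x v‖ ∂S.σ := by
    rw [Pb, ContinuousLinearMap.integral_apply h.c_iP]
    exact norm_integral_le_integral_norm _
  have h3 := pow_le_pow_left₀ (norm_nonneg _) h2 2
  have h4 : (∫ x, ‖S.Pu x v‖ ∂S.σ) ^ 2 ≤ ∫ x, ‖S.Pu x v‖ ^ 2 ∂S.σ := h1
  linarith

theorem Ok.c_osc (h : S.Ok L) {l : ℝ} (hl : ∀ᵐ x ∂S.σ, ‖S.u x - S.y‖ ≤ l) :
    ∀ᵐ x ∂S.σ, ‖S.Pu x - S.Pb‖ ≤ 2 * L * l := by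
  have := h.prob
  have L0 : 0 ≤ L := zero_le_one.trans h.L1
  filter_upwards [hl] with x hx
  have e : S.Pu x - S.Pb = ∫ x', (S.Pu x - S.Pu x') ∂S.σ := by
    rw [integral_sub (integrable_const _) h.c_iP]
    simp [Pb]
  have := norm_integral_le_of_norm_le (integrable_const (μ := S.σ) (2 * L * l))
    (f := fun x' => S.Pu x - S.Pu x') (by
      filter_upwards [hl] with x' hx'
      have a1 : ‖S.u x - S.u x'‖ ≤ ‖S.u x - S.y‖ + ‖S.u x' - S.y‖ := by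
        simpa using norm_sub_le (S.u x - S.y) (S.u x' - S.y)
      have a2 := mul_le_mul_of_nonneg_left (a1.trans (add_le_add hx hx')) L0
      exact (h.lP x x').trans (by linarith))
  rw [e]
  simpa using this

theorem Ok.c_var (h : S.Ok L) : S.g - ContinuousLinearMap.id ℝ V =
    ∫ x, (S.Pu x - S.Pb).comp (S.Pu x - S.Pb) ∂S.σ := by
  have := h.prob
  have i1 := (ContinuousLinearMap.compL ℝ V V V S.Pb).integrable_comp h.c_iP
  have i2 := ((ContinuousLinearMap.compL ℝ V V V).flip S.Pb).integrable_comp h.c_iP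
  have e1 := (ContinuousLinearMap.compL ℝ V V V S.Pb).integral_comp_comm h.c_iP
  have e2 := ((ContinuousLinearMap.compL ℝ V V V).flip S.Pb).integral_comp_comm h.c_iP
  simp only [ContinuousLinearMap.flip_apply, ContinuousLinearMap.compL_apply] at i1 i2 e1 e2
  have e : ∀ x, (S.Pu x - S.Pb).comp (S.Pu x - S.Pb) =
      (S.Pu x).comp (S.Pu x) - (S.Pu x).comp S.Pb - (S.Pb.comp (S.Pu x) - S.Pb.comp S.Pb) :=
    fun x => by
      rw [ContinuousLinearMap.sub_comp, ContinuousLinearMap.comp_sub, ContinuousLinearMap.comp_sub]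
  simp only [e]
  have j1 : Integrable (fun x => (S.Pu x).comp (S.Pu x) - (S.Pu x).comp S.Pb) S.σ :=
    h.c_iP2.sub i2
  have j2 : Integrable (fun x => S.Pb.comp (S.Pu x) - S.Pb.comp S.Pb) S.σ :=
    i1.sub (integrable_const _)
  rw [integral_sub j1 j2, integral_sub h.c_iP2 i2, integral_sub i1 (integrable_const _), e1, e2]
  simp only [integral_const, probReal_univ, one_smul]
  show S.g - _ = S.P2 - S.Pb.comp S.Pb - (S.Pb.comp S.Pb - S.Pb.comp S.Pb)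
  rw [g]
  abel

end Sph

/-- Bounds valid on every sphere. -/
theorem crudeC (k : ℕ) {L : ℝ} (hL : 1 ≤ L) : ∃ C : ℝ, 1 ≤ C ∧
    ∀ {X V W : Type} [MeasurableSpace X] [NormedAddCommGroup V] [InnerProductSpace ℝ V]
      [CompleteSpace V] [NormedAddCommGroup W] [InnerProductSpace ℝ W] (S : Sph X V W),
      S.k = k → S.Ok L →
      |S.NN| ≤ C * S.e * ‖S.F‖ ∧ ‖S.a‖ ≤ S.m1 ∧ ‖S.gp‖ ≤ C * S.m1 ∧ ‖S.F‖ ≤ S.mk1 ∧
      ‖S.Fp‖ ≤ C * S.e ∧ S.m1 * S.mk1 ≤ 2 * S.e ∧ S.m1 ^ (k + 2) ≤ S.e ∧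
      (∀ v w, ⟪S.g v, w⟫ = ⟪v, S.g w⟫) ∧ (∀ v, ‖v‖ ^ 2 ≤ ⟪S.g v, v⟫) ∧
      ∀ l : ℝ, 0 ≤ l → (∀ᵐ x ∂S.σ, ‖S.u x - S.y‖ ≤ l) →
        ‖S.g - ContinuousLinearMap.id ℝ V‖ ≤ C * l ^ 2 ∧ |S.hh| ≤ C * l * S.e := by
  have L0 : 0 ≤ L := zero_le_one.trans hL
  have L2 : L ≤ L ^ 2 := by nlinarith
  have L3 : L ^ 2 ≤ L ^ 3 := by nlinarith
  refine ⟨13 * L ^ 3, by linarith, ?_⟩
  intro X V W _ _ _ _ _ _ S hk h
  subst hk
  have := h.prob
  have e0 : 0 ≤ S.e := integral_nonneg fun _ => by positivity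
  have m0 : 0 ≤ S.m1 := integral_nonneg fun _ => norm_nonneg _
  have F0 := norm_nonneg S.F
  have ha : ‖S.a‖ ≤ S.m1 :=
    norm_integral_le_of_norm_le h.c_one (ae_of_all _ fun x => h.c_ra x _)
  have hF : ‖S.F‖ ≤ S.mk1 :=
    norm_integral_le_of_norm_le (h.c_pow (by omega))
      (ae_of_all _ fun x => (h.c_ra x _).trans (norm_Ap _ _).le)
  have hFp : ‖S.Fp‖ ≤ 3 * L * S.e := by
    have := norm_integral_le_of_norm_le (h.lp.const_mul (3 * L)) h.c_al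
    rwa [integral_const_mul] at this
  have hj : S.m1 ^ (S.k + 2) ≤ S.e :=
    jensen_pow h.mp.norm (fun _ => norm_nonneg _) (S.k + 1) h.lp
  have hm : S.m1 * S.mk1 ≤ 2 * S.e := by
    have := integral_mono ((h.c_pow (i := S.k + 1) (by omega)).const_mul S.m1)
      ((integrable_const (S.m1 ^ (S.k + 2))).add h.lp)
      fun x => young_one (S.k + 1) m0 (norm_nonneg (S.p x))
    rw [integral_const_mul, integral_add' (integrable_const _) h.lp] at this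
    simp only [integral_const, probReal_univ, one_smul] at this
    have h2 : S.m1 * S.mk1 ≤ S.m1 ^ (S.k + 2) + S.e := this
    linarith
  have hgp := h.c_gp
  refine ⟨?_, ha, hgp.trans (by nlinarith), hF, hFp.trans (by nlinarith), hm, hj, h.c_sg, h.c_pos,
    fun l l0 hl => ⟨?_, ?_⟩⟩
  · have a1 : |⟪S.g S.F, S.Fp⟫| ≤ 3 * L ^ 2 * ‖S.F‖ * (3 * L * S.e) :=
      (abs_real_inner_le_norm _ _).trans
        (mul_le_mul (S.g.le_of_opNorm_le h.c_g _) hFp (norm_nonneg _) (by positivity))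
    have a2 : |⟪S.gp S.F, S.F⟫| ≤ 4 * L ^ 2 * S.m1 * S.mk1 * ‖S.F‖ :=
      (abs_real_inner_le_norm _ _).trans (mul_le_mul_of_nonneg_right
        ((S.gp.le_of_opNorm_le hgp _).trans (mul_le_mul_of_nonneg_left hF (by positivity))) F0)
    have a3 : 4 * L ^ 2 * ‖S.F‖ * (S.m1 * S.mk1) ≤ 4 * L ^ 3 * ‖S.F‖ * (2 * S.e) :=
      mul_le_mul (by gcongr) hm (mul_nonneg m0 (F0.trans hF)) (by positivity)
    have a4 := abs_add_le ⟪S.g S.F, S.Fp⟫ (⟪S.gp S.F, S.F⟫ / 2)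
    rw [abs_div, abs_two] at a4
    rw [Sph.NN]
    linarith
  · rw [h.c_var]
    have := norm_integral_le_of_norm_le (integrable_const (μ := S.σ) ((2 * L * l) ^ 2))
      (f := fun x => (S.Pu x - S.Pb).comp (S.Pu x - S.Pb)) (by
        filter_upwards [h.c_osc hl] with x hx
        refine ((S.Pu x - S.Pb).opNorm_comp_le _).trans ?_
        rw [sq]
        exact mul_le_mul hx hx (norm_nonneg _) (by positivity))
    simp only [integral_const, probReal_univ, one_smul] at this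
    refine this.trans ?_
    have : 4 * L ^ 2 * l ^ 2 ≤ 13 * L ^ 3 * l ^ 2 := by gcongr ?_ * _; nlinarith
    nlinarith
  · have := norm_integral_le_of_norm_le (h.lp.const_mul (3 * L * l))
      (f := fun x => ⟪S.al x, S.u x - S.y⟫) (by
        filter_upwards [h.c_al, hl] with x h1 h2
        refine (abs_real_inner_le_norm _ _).trans ?_
        refine (mul_le_mul h1 h2 (norm_nonneg _) (by positivity)).trans (le_of_eq (by ring)))
    rw [integral_const_mul] at this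
    refine le_trans this ?_
    have h3 : 3 * L * (l * S.e) ≤ 13 * L ^ 3 * (l * S.e) := by gcongr ?_ * _; nlinarith
    have h4 : ∫ x, ‖S.p x‖ ^ (S.k + 2) ∂S.σ = S.e := rfl
    rw [h4]
    linarith

end Pool.Agent.Lib.MP_a785f2_an.LY
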