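import Pool.Agent.Lib.MP_a785f2_an.NH.ManA

/-! Chords of a compact `C^2` submanifold are tangent up to second order. -/

open MeasureTheory Metric Set Filter Topology
open scoped ContDiff RealInnerProductSpace ENNReal

namespace Pool.Agent.Lib.MP_a785f2_an.LY

open HS NH

variable {m : ℕ}

theorem chord_loc {N : Set (V m)} (hN : IsC2Submanifold N) {p : V m} (hp : p ∈ N) :
    ∃ r > 0, ∃ C : ℝ, ∀ q ∈ ball p r, ∀ q' ∈ ball p r, q ∈ N → q' ∈ N → ∀ ν : V m,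
      (∀ τ ∈ tangentConeAt ℝ N q, ⟪ν, τ⟫ = 0) → |⟪ν, q' - q⟫| ≤ C * ‖ν‖ * ‖q' - q‖ ^ 2 := by
  obtain ⟨k, U, Φ, hU, hpU, hΦ, hs, hz⟩ := hN p hp
  have hat : ContDiffAt ℝ 2 Φ p := hΦ.contDiffAt (hU.mem_nhds hpU)
  have hd : ContDiffAt ℝ 1 (fderiv ℝ Φ) p := hat.fderiv_right (by norm_num)
  obtain ⟨K, t, ht, hK⟩ := hd.exists_lipschitzOnWith
  have c1 : ContinuousAt (fun B : V m →L[ℝ] V k =>
      (ContinuousLinearMap.adjoint B).comp (Ring.inverse (gram B))) (fderiv ℝ Φ p) := by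
    have h1 : ContDiff ℝ 1 (fun B : V m →L[ℝ] V k => gram B) := contDiff_id.clm_comp contDiff_adj
    obtain ⟨w, hw⟩ := gram_isUnit (hs p hpU)
    have h2 : ContDiffAt ℝ 1 (Ring.inverse : (V k →L[ℝ] V k) → (V k →L[ℝ] V k))
        (gram (fderiv ℝ Φ p)) := by
      rw [← hw]
      exact contDiffAt_ringInverse ℝ w
    exact (contDiff_adj.contDiffAt.clm_comp (h2.comp _ h1.contDiffAt)).continuousAt
  have c2 := c1.comp hd.continuousAt
  set M : V m → V k →L[ℝ] V m := fun q =>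
    (ContinuousLinearMap.adjoint (fderiv ℝ Φ q)).comp (Ring.inverse (gram (fderiv ℝ Φ q)))
    with hM
  have c3 : ∀ᶠ q in 𝓝 p, ‖M q‖ < ‖M p‖ + 1 :=
    c2.norm.eventually (gt_mem_nhds (lt_add_one _))
  obtain ⟨r, hr, hb⟩ := Metric.mem_nhds_iff.1 (inter_mem (inter_mem ht (hU.mem_nhds hpU)) c3)
  refine ⟨r, hr, (‖M p‖ + 1) * K, fun q hq q' hq' hqN hqN' ν hν => ?_⟩
  have hqU : q ∈ U := (hb hq).1.2
  set A := fderiv ℝ Φ q with hA
  have e1 : ‖A (q' - q)‖ ≤ K * ‖q' - q‖ * ‖q' - q‖ := by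
    have hseg : segment ℝ q q' ⊆ ball p r := (convex_ball p r).segment_subset hq hq'
    have h1 := Convex.norm_image_sub_le_of_norm_hasFDerivWithin_le' (𝕜 := ℝ) (f := Φ)
      (f' := fderiv ℝ Φ) (φ := A) (s := segment ℝ q q') (C := K * ‖q' - q‖) (x := q) (y := q')
      (fun x hx => ((hΦ.contDiffAt (hU.mem_nhds (hb (hseg hx)).1.2)).differentiableAt
        (by norm_num)).hasFDerivAt.hasFDerivWithinAt)
      (fun x hx => by
        have h2 := hK.norm_sub_le (hb (hseg hx)).1.1 (hb hq).1.1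
        refine h2.trans (mul_le_mul_of_nonneg_left ?_ K.coe_nonneg)
        have h3 := dist_add_dist_of_mem_segment hx
        rw [← dist_eq_norm, ← dist_eq_norm, dist_comm x q, dist_comm q' q]
        linarith [dist_nonneg (x := x) (y := q')])
      (convex_segment q q') (left_mem_segment ℝ q q') (right_mem_segment ℝ q q')
    rw [(hz q hqU).1 hqN, (hz q' (hb hq').1.2).1 hqN', sub_zero, zero_sub, norm_neg] at h1
    exact h1
  have e2 : ⟪ν, q' - q⟫ = ⟪ν, M q (A (q' - q))⟫ := by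
    have h1 := hν _ ((cone_eq hU hΦ hs hz hqU hqN _).2 (kproj_ker (hs q hqU) (q' - q)))
    rw [kproj_apply, inner_sub_right, sub_eq_zero] at h1
    exact h1
  have e3 : ‖M q‖ ≤ ‖M p‖ + 1 := (hb hq).2.le
  rw [e2]
  calc |⟪ν, M q (A (q' - q))⟫| ≤ ‖ν‖ * ‖M q (A (q' - q))‖ := abs_real_inner_le_norm _ _
    _ ≤ ‖ν‖ * ((‖M p‖ + 1) * (K * ‖q' - q‖ * ‖q' - q‖)) := by
        refine mul_le_mul_of_nonneg_left (((M q).le_of_opNorm_le e3 _).trans ?_) (norm_nonneg _)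
        exact mul_le_mul_of_nonneg_left e1 (by positivity)
    _ = _ := by ring

/-- A normal vector at `q` sees a chord from `q` only at second order. -/
theorem chord {N : Set (V m)} (hc : IsCompact N) (hN : IsC2Submanifold N) :
    ∃ C : ℝ, 0 ≤ C ∧ ∀ q ∈ N, ∀ q' ∈ N, ∀ ν : V m,
      (∀ τ ∈ tangentConeAt ℝ N q, ⟪ν, τ⟫ = 0) → |⟪ν, q' - q⟫| ≤ C * ‖ν‖ * ‖q' - q‖ ^ 2 := by
  set R : ℝ → V m × V m → Prop := fun C z => z.1 ∈ N → z.2 ∈ N → ∀ ν : V m,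
    (∀ τ ∈ tangentConeAt ℝ N z.1, ⟪ν, τ⟫ = 0) →
      |⟪ν, z.2 - z.1⟫| ≤ C * ‖ν‖ * ‖z.2 - z.1‖ ^ 2 with hR
  have mono : ∀ {C C' : ℝ} {z}, C ≤ C' → R C z → R C' z := fun h h1 a b ν hν =>
    (h1 a b ν hν).trans (by gcongr)
  have key : ∃ C : ℝ, ∀ z ∈ N ×ˢ N, R C z := by
    refine (hc.prod hc).induction_on (p := fun s => ∃ C : ℝ, ∀ z ∈ s, R C z)
      ⟨0, fun z hz => hz.elim⟩ (fun s t hst ⟨C, hC⟩ => ⟨C, fun z hz => hC z (hst hz)⟩)
      (fun s t ⟨C, hC⟩ ⟨C', hC'⟩ => ⟨max C C', fun z hz => hz.elim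
        (fun h => mono (le_max_left _ _) (hC z h)) fun h => mono (le_max_right _ _) (hC' z h)⟩)
      fun z hz => ?_
    by_cases h : z.1 = z.2
    · obtain ⟨r, hr, C, hC⟩ := chord_loc hN hz.1
      refine ⟨ball z.1 r ×ˢ ball z.1 r, mem_nhdsWithin_of_mem_nhds
        (prod_mem_nhds (ball_mem_nhds _ hr) (h ▸ ball_mem_nhds _ hr)), C, fun y hy a b => ?_⟩
      exact hC _ hy.1 _ hy.2 a b
    · have h0 : 0 < ‖z.2 - z.1‖ := norm_pos_iff.2 (sub_ne_zero.2 (Ne.symm h))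
      have c1 : Continuous fun y : V m × V m => ‖y.2 - y.1‖ :=
        (continuous_snd.sub continuous_fst).norm
      refine ⟨{y | ‖z.2 - z.1‖ / 2 < ‖y.2 - y.1‖}, mem_nhdsWithin_of_mem_nhds
        ((isOpen_lt continuous_const c1).mem_nhds (half_lt_self h0)), (‖z.2 - z.1‖ / 2)⁻¹,
        fun y hy _ _ ν _ => (abs_real_inner_le_norm _ _).trans ?_⟩
      have h1 : 1 ≤ (‖z.2 - z.1‖ / 2)⁻¹ * ‖y.2 - y.1‖ := by
        rw [← div_eq_inv_mul]
        exact (one_le_div (half_pos h0)).2 (le_of_lt hy)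
      calc ‖ν‖ * ‖y.2 - y.1‖ = ‖ν‖ * ‖y.2 - y.1‖ * 1 := (mul_one _).symm
        _ ≤ ‖ν‖ * ‖y.2 - y.1‖ * ((‖z.2 - z.1‖ / 2)⁻¹ * ‖y.2 - y.1‖) := by gcongr
        _ = _ := by ring
  obtain ⟨C, hC⟩ := key
  exact ⟨max C 0, le_max_right _ _, fun q hq q' hq' =>
    mono (le_max_left _ _) (hC (q, q') ⟨hq, hq'⟩) hq hq'⟩

end Pool.Agent.Lib.MP_a785f2_an.LY
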