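import Mathlib

/-!
Top minors of a matrix that is close to a matrix of rank one.
-/

open Finset

namespace Pool.Agent.Lib.MP_a785f2_an.LY

/-- Bound of a determinant by row bounds. -/
theorem abs_det_le_rows {n : ℕ} (B : Matrix (Fin n) (Fin n) ℝ) (b : Fin n → ℝ)
    (hb : ∀ i j, |B i j| ≤ b i) : |B.det| ≤ n.factorial * ∏ i, b i := by
  rw [Matrix.det_apply']
  calc |∑ σ : Equiv.Perm (Fin n), ((Equiv.Perm.sign σ : ℤ) : ℝ) * ∏ i, B (σ i) i|
      ≤ ∑ σ : Equiv.Perm (Fin n), |((Equiv.Perm.sign σ : ℤ) : ℝ) * ∏ i, B (σ i) i| :=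
        Finset.abs_sum_le_sum_abs _ _
    _ ≤ ∑ _σ : Equiv.Perm (Fin n), ∏ i, b i := Finset.sum_le_sum fun σ _ => by
        have h1 : |((Equiv.Perm.sign σ : ℤ) : ℝ)| = 1 := by
          rcases Int.units_eq_one_or (Equiv.Perm.sign σ) with h | h <;> simp [h]
        rw [abs_mul, h1, one_mul, Finset.abs_prod, ← Equiv.prod_comp σ b]
        exact Finset.prod_le_prod (fun _ _ => abs_nonneg _) fun i _ => hb _ _
    _ = _ := by simp [Fintype.card_perm]

/-- A determinant sees a rank one part only once. -/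
theorem abs_det_le_rank_one {n : ℕ} (hn : 1 ≤ n) (M : Matrix (Fin n) (Fin n) ℝ)
    (α θ : Fin n → ℝ) (s d : ℝ) (hα : ∀ i, |α i| ≤ s) (hθ : ∀ j, |θ j| ≤ 1)
    (hd : ∀ i j, |M i j - α i * θ j| ≤ d) :
    |M.det| ≤ n.factorial * ((s + d) * (2 * d) ^ (n - 1)) := by
  have : Nonempty (Fin n) := ⟨⟨0, hn⟩⟩
  obtain ⟨k, -, hk⟩ := Finset.exists_max_image Finset.univ (fun i => |α i|) Finset.univ_nonempty
  set c : Fin n → ℝ := fun i => if i = k then 0 else α i / α k with hc
  have hc1 : ∀ i, |c i| ≤ 1 := fun i => by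
    by_cases h : i = k
    · simp [hc, h]
    · simp only [hc, h, if_false, abs_div]
      exact div_le_one_of_le₀ (hk i (Finset.mem_univ i)) (abs_nonneg _)
  have hc2 : ∀ i, i ≠ k → c i * α k = α i := fun i h => by
    simp only [hc, h, if_false]
    by_cases h0 : α k = 0
    · have := hk i (Finset.mem_univ i)
      rw [h0, abs_zero] at this
      rw [h0, mul_zero, abs_nonpos_iff.1 this]
    · exact div_mul_cancel₀ _ h0
  set B : Matrix (Fin n) (Fin n) ℝ := Matrix.of fun i j => M i j - c i * M k j with hB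
  have hck : c k = 0 := by simp [hc]
  have hdet : M.det = B.det := by
    refine Matrix.det_eq_of_forall_row_eq_smul_add_const c k hck fun i j => ?_
    simp [hB, hck]
  have hrow : ∀ i j, |B i j| ≤ (fun i => if i = k then s + d else 2 * d) i := fun i j => by
    by_cases h : i = k
    · subst h
      simp only [hB, Matrix.of_apply, hck, zero_mul, sub_zero, if_true]
      have h1 : |α i * θ j| ≤ s := by
        rw [abs_mul]
        exact (mul_le_of_le_one_right (abs_nonneg _) (hθ j)).trans (hα i)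
      calc |M i j| = |α i * θ j + (M i j - α i * θ j)| := by ring_nf
        _ ≤ _ := (abs_add_le _ _).trans (add_le_add h1 (hd i j))
    · simp only [hB, Matrix.of_apply, h, if_false]
      have h1 : M i j - c i * M k j = (M i j - α i * θ j) - c i * (M k j - α k * θ j) := by
        rw [← hc2 i h]; ring
      have h2 : |c i * (M k j - α k * θ j)| ≤ d := by
        rw [abs_mul]
        exact (mul_le_of_le_one_left (abs_nonneg _) (hc1 i)).trans (hd k j)
      rw [h1]
      exact (abs_sub _ _).trans (by linarith [hd i j])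
  have h := abs_det_le_rows B _ hrow
  have hp : ∏ i : Fin n, (fun i => if i = k then s + d else 2 * d) i =
      (s + d) * (2 * d) ^ (n - 1) := by
    rw [← Finset.mul_prod_erase Finset.univ _ (Finset.mem_univ k)]
    simp only [if_true]
    congr 1
    rw [Finset.prod_congr rfl (g := fun _ => 2 * d) fun i hi => by
      simp [Finset.ne_of_mem_erase hi]]
    simp
  rw [hdet, ← hp]
  exact h

/-- Interpolation between the two ends. -/
theorem mix_le {n : ℕ} (hn : 3 ≤ n) {s d : ℝ} (hs : 0 ≤ s) (hd : 0 ≤ d) :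
    (s + d) * d ^ (n - 1) ≤ 2 * (s ^ (n - 2) * d ^ 2 + d ^ n) := by
  obtain ⟨k, rfl⟩ := Nat.exists_eq_add_of_le' hn
  have e1 : k + 3 - 1 = k + 2 := by omega
  have e2 : k + 3 - 2 = k + 1 := by omega
  rw [e1, e2]
  have h0 : 0 ≤ s ^ (k + 1) * d ^ 2 := by positivity
  have h1 : 0 ≤ d ^ (k + 3) := by positivity
  have h2 : s * d ^ (k + 2) ≤ s ^ (k + 1) * d ^ 2 + d ^ (k + 3) := by
    rcases le_total d s with h | h
    · have : d ^ k ≤ s ^ k := pow_le_pow_left₀ hd h k
      calc s * d ^ (k + 2) = d ^ k * (s * d ^ 2) := by ring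
        _ ≤ s ^ k * (s * d ^ 2) := mul_le_mul_of_nonneg_right this (by positivity)
        _ = s ^ (k + 1) * d ^ 2 := by ring
        _ ≤ _ := le_add_of_nonneg_right h1
    · calc s * d ^ (k + 2) ≤ d * d ^ (k + 2) := mul_le_mul_of_nonneg_right h (by positivity)
        _ = d ^ (k + 3) := by ring
        _ ≤ _ := le_add_of_nonneg_left h0
  calc (s + d) * d ^ (k + 2) = s * d ^ (k + 2) + d ^ (k + 3) := by ring
    _ ≤ _ := by linarith

/-- For `n ≥ 3` a determinant is bounded by the excess over any matrix of rank one. -/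
theorem abs_det_le_excess {n : ℕ} (hn : 3 ≤ n) (M : Matrix (Fin n) (Fin n) ℝ)
    (α θ : Fin n → ℝ) (s d : ℝ) (hα : ∀ i, |α i| ≤ s) (hθ : ∀ j, |θ j| ≤ 1)
    (hd : ∀ i j, |M i j - α i * θ j| ≤ d) :
    |M.det| ≤ n.factorial * 2 ^ n * (s ^ (n - 2) * d ^ 2 + d ^ n) := by
  have i0 : Fin n := ⟨0, by omega⟩
  have hs : 0 ≤ s := (abs_nonneg _).trans (hα i0)
  have hd0 : 0 ≤ d := (abs_nonneg _).trans (hd i0 i0)
  have h1 := abs_det_le_rank_one (by omega) M α θ s d hα hθ hd
  have h2 := mix_le hn hs hd0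
  have h3 : (2 : ℝ) ^ n = 2 ^ (n - 1) * 2 := by
    rw [← pow_succ]; congr 1; omega
  have h4 : (s + d) * (2 * d) ^ (n - 1) ≤ 2 ^ n * (s ^ (n - 2) * d ^ 2 + d ^ n) := by
    calc (s + d) * (2 * d) ^ (n - 1) = 2 ^ (n - 1) * ((s + d) * d ^ (n - 1)) := by
          rw [mul_pow]; ring
      _ ≤ 2 ^ (n - 1) * (2 * (s ^ (n - 2) * d ^ 2 + d ^ n)) :=
          mul_le_mul_of_nonneg_left h2 (by positivity)
      _ = _ := by rw [h3]; ring
  calc |M.det| ≤ n.factorial * ((s + d) * (2 * d) ^ (n - 1)) := h1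
    _ ≤ n.factorial * (2 ^ n * (s ^ (n - 2) * d ^ 2 + d ^ n)) :=
        mul_le_mul_of_nonneg_left h4 (by positivity)
    _ = _ := by ring

/-- The sum of all top minors of an `m × n` array `g i j` is bounded by the excess over the
rank one array `a i * θ j`. -/
theorem minors_le_excess {n m : ℕ} (hn : 3 ≤ n) (g : Fin m → Fin n → ℝ) (a : Fin m → ℝ)
    (θ : Fin n → ℝ) (s d : ℝ) (ha : ∀ i, |a i| ≤ s) (hθ : ∀ j, |θ j| ≤ 1)
    (hd : ∀ i j, |g i j - a i * θ j| ≤ d) :
    ∑ I : Fin n → Fin m, |(Matrix.of fun b j => g (I b) j).det| ≤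
      (m : ℝ) ^ n * n.factorial * 2 ^ n * (s ^ (n - 2) * d ^ 2 + d ^ n) := by
  calc ∑ I : Fin n → Fin m, |(Matrix.of fun b j => g (I b) j).det|
      ≤ ∑ _I : Fin n → Fin m, (n.factorial : ℝ) * 2 ^ n * (s ^ (n - 2) * d ^ 2 + d ^ n) :=
        Finset.sum_le_sum fun I _ =>
          abs_det_le_excess hn _ (fun b => a (I b)) θ s d (fun b => ha _) hθ fun b j => hd _ _
    _ = _ := by simp [mul_assoc]

end Pool.Agent.Lib.MP_a785f2_an.LY
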