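import Mathlib

/-! A summable family of balls can be merged into disjoint balls with the same total radius. -/

open Metric Set

namespace Pool.Agent.Lib.MP_a785f2_an.LY

variable {X : Type*} [NormedAddCommGroup X] [NormedSpace ℝ X] {ι : Type*}

theorem merge_mid {z z' : X} {p q : ℝ} (hp : 0 ≤ p) (hq : 0 ≤ q) (h : dist z z' < p + q) :
    ∃ w, dist z w ≤ q ∧ dist z' w ≤ p := by
  obtain ⟨w, h1, h2⟩ := exists_dist_le_le hq hp h.le
  exact ⟨w, h1, by rwa [dist_comm]⟩

theorem merge_setoid [ProperSpace X] (x : ι → X) (r : ι → ℝ) (r0 : ∀ i, 0 ≤ r i)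
    (hr : Summable r) : ∃ s : Setoid ι,
      (∀ i, ∃ z, ∀ j, s i j → dist (x j) z + r j ≤ ∑' k, {k | s i k}.indicator r k) ∧
      ∀ i i' z z', (∀ j, s i j → dist (x j) z + r j ≤ ∑' k, {k | s i k}.indicator r k) →
        (∀ j, s i' j → dist (x j) z' + r j ≤ ∑' k, {k | s i' k}.indicator r k) → ¬ s i i' →
        ∑' k, {k | s i k}.indicator r k + ∑' k, {k | s i' k}.indicator r k ≤ dist z z' := by
  set R : Set ι → ℝ := fun C => ∑' k, C.indicator r k with hR
  have mono : ∀ {C C' : Set ι}, C ⊆ C' → R C ≤ R C' := fun h =>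
    (hr.indicator _).tsum_le_tsum (fun k => indicator_le_indicator_of_subset h r0 k)
      (hr.indicator _)
  have R0 : ∀ C, 0 ≤ R C := fun C => tsum_nonneg (indicator_nonneg fun k _ => r0 k)
  obtain ⟨s, hs⟩ := zorn_le₀ {s : Setoid ι | ∀ i, ∃ z, ∀ j, s i j →
      dist (x j) z + r j ≤ R {k | s i k}} fun c hc hch => by
    rcases c.eq_empty_or_nonempty with rfl | hne
    · refine ⟨⊥, fun i => ⟨x i, fun j hj => ?_⟩, fun _ h => h.elim⟩
      obtain rfl : i = j := hj
      have := (hr.indicator {k | (⊥ : Setoid ι) i k}).le_tsum i fun k _ =>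
        indicator_nonneg (fun k _ => r0 k) k
      rw [indicator_of_mem (show i ∈ {k | (⊥ : Setoid ι) i k} from rfl)] at this
      rw [dist_self, zero_add]
      exact this
    · have := hne.to_subtype
      let t : Setoid ι := ⟨fun i j => ∃ s ∈ c, s i j,
        fun i => let ⟨s, h⟩ := hne; ⟨s, h, s.refl' i⟩,
        fun ⟨s, h, h1⟩ => ⟨s, h, s.symm' h1⟩,
        fun ⟨s, h, h1⟩ ⟨s', h', h2⟩ => by
          rcases hch.total h h' with k | k
          · exact ⟨s', h', s'.trans' (k h1) h2⟩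
          · exact ⟨s, h, s.trans' h1 (k h2)⟩⟩
      refine ⟨t, fun i => ?_, fun s h i j hij => ⟨s, h, hij⟩⟩
      let K : c → Set X := fun s => ⋂ j ∈ {j | s.1 i j}, closedBall (x j) (R {k | t i k} - r j)
      have cl : ∀ s, IsClosed (K s) := fun s => isClosed_biInter fun _ _ => isClosed_closedBall
      obtain ⟨z, hz⟩ := IsCompact.nonempty_iInter_of_directed_nonempty_isCompact_isClosed K
        (fun s s' => by
          rcases hch.total s.2 s'.2 with k | k
          · exact ⟨s', biInter_subset_biInter_left fun j hj => k hj, Subset.rfl⟩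
          · exact ⟨s, Subset.rfl, biInter_subset_biInter_left fun j hj => k hj⟩)
        (fun s => by
          obtain ⟨z, hz⟩ := hc s.2 i
          refine ⟨z, mem_biInter fun j hj => ?_⟩
          have := (hz j hj).trans (mono (C' := {k | t i k}) fun k hk => ⟨s, s.2, hk⟩)
          rw [mem_closedBall']
          linarith)
        (fun s => (isCompact_closedBall _ _).of_isClosed_subset (cl s)
          (biInter_subset_of_mem (s.1.refl' i))) cl
      refine ⟨z, fun j ⟨s, h, hj⟩ => ?_⟩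
      have := mem_closedBall'.1 (mem_iInter₂.1 (mem_iInter.1 hz ⟨s, h⟩) j hj)
      linarith
  refine ⟨s, hs.1, fun i i' z z' hz hz' hn => not_lt.1 fun hlt => hn ?_⟩
  obtain ⟨w, w1, w2⟩ := merge_mid (R0 _) (R0 _) hlt
  let t : Setoid ι := ⟨fun a b => s a b ∨ ((s i a ∨ s i' a) ∧ (s i b ∨ s i' b)),
    fun a => Or.inl (s.refl' a), fun h => h.imp s.symm' And.symm, by
      rintro a b d (h | h) (h' | h')
      · exact Or.inl (s.trans' h h')
      · exact Or.inr ⟨h'.1.imp (s.trans' · (s.symm' h)) (s.trans' · (s.symm' h)), h'.2⟩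
      · exact Or.inr ⟨h.1, h.2.imp (s.trans' · h') (s.trans' · h')⟩
      · exact Or.inr ⟨h.1, h'.2⟩⟩
  refine hs.2 (y := t) (fun a => ?_) (fun a b h => Or.inl h)
    (Or.inr ⟨Or.inl (s.refl' i), Or.inr (s.refl' i')⟩)
  by_cases ha : s i a ∨ s i' a
  · refine ⟨w, fun j hj => le_trans ?_ (mono (C := {k | s i k} ∪ {k | s i' k})
      fun k hk => Or.inr ⟨ha, hk⟩)⟩
    have e : R ({k | s i k} ∪ {k | s i' k}) = R {k | s i k} + R {k | s i' k} := by
      simp only [hR]
      have d : Disjoint {k | s i k} {k | s i' k} :=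
        disjoint_left.2 fun k h h' => hn (s.trans' h (s.symm' h'))
      rw [indicator_union_of_disjoint d, (hr.indicator _).tsum_add (hr.indicator _)]
    have hj' : s i j ∨ s i' j := hj.elim (fun h => ha.imp (s.trans' · h) (s.trans' · h)) And.right
    rw [e]
    rcases hj' with h | h
    · linarith [hz j h, dist_triangle (x j) z w]
    · linarith [hz' j h, dist_triangle (x j) z' w]
  · obtain ⟨v, hv⟩ := hs.1 a
    exact ⟨v, fun j hj => (hv j (hj.resolve_right fun h => ha h.1)).trans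
      (mono fun k hk => Or.inl hk)⟩

/-- `b i` is the block of `i`; the blocks are the fixed points of `b`, block `k` gets the ball
of centre `z k` and radius `ρ k`, the sum of the radii in the block (zero if `b k ≠ k`). -/
theorem merge [ProperSpace X] (x : ι → X) (r : ι → ℝ) (r0 : ∀ i, 0 ≤ r i) (hr : Summable r) :
    ∃ (b : ι → ι) (z : ι → X) (ρ : ι → ℝ), (∀ i, b (b i) = b i) ∧
      (∀ k, ρ k = ∑' j : b ⁻¹' {k}, r j) ∧ HasSum ρ (∑' i, r i) ∧ (∀ k, 0 ≤ ρ k) ∧
      (∀ i, dist (x i) (z (b i)) + r i ≤ ρ (b i)) ∧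
      ∀ k l, b k = k → b l = l → k ≠ l → ρ k + ρ l ≤ dist (z k) (z l) := by
  obtain ⟨s, h1, h2⟩ := merge_setoid x r r0 hr
  choose z hz using h1
  let b : ι → ι := fun i => (Quotient.mk s i).out
  have b1 : ∀ i, s (b i) i := fun i => Quotient.mk_out i
  have b2 : ∀ i j, s i j → b i = b j := fun i j h => congrArg Quotient.out (Quotient.sound h)
  have b3 : ∀ k, b k = k → ∑' j : b ⁻¹' {k}, r j = ∑' j, {j | s k j}.indicator r j :=
    fun k hk => by
      have e : b ⁻¹' {k} = {j | s k j} := Set.ext fun j =>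
        ⟨fun h => (show b j = k from h) ▸ b1 j, fun h => (b2 k j h).symm.trans hk⟩
      rw [tsum_subtype, e]
  refine ⟨b, z, _, fun i => b2 _ _ (b1 i), fun k => rfl, hr.hasSum.tsum_fiberwise b,
    fun k => tsum_nonneg fun j => r0 j, fun i => ?_, fun k l hk hl hkl => ?_⟩
  · rw [b3 _ (b2 _ _ (b1 i))]
    exact hz _ i (b1 i)
  · rw [b3 k hk, b3 l hl]
    exact h2 k l _ _ (hz k) (hz l) fun h => hkl (hk.symm.trans ((b2 k l h).trans hl))

omit [NormedSpace ℝ X] in
theorem merge_sub {x z : X} {r ρ : ℝ} (h : dist x z + r ≤ ρ) : ball x r ⊆ ball z ρ :=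
  ball_subset_ball' (by linarith)

end Pool.Agent.Lib.MP_a785f2_an.LY
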