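import Pool.Agent.Lib.MP_a785f2_an.NH.Tr
import Pool.Agent.Lib.MP_a785f2_an.LY.ManH
import Pool.Agent.Lib.MP_a785f2_an.LY.H3

/-! Reduction of the statement on submanifolds to the data of the internal theorem. -/

open MeasureTheory Metric Set Filter Topology
open scoped ContDiff RealInnerProductSpace ENNReal

namespace Pool.Agent.Lib.MP_a785f2_an.LY

open HS NH

variable {n m : ℕ}

/-- The data on the target: a bounded set `N`, a symmetric `C^1` field `P`, and the second order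
bound for chords. -/
structure Geo (N : Set (V m)) (P : V m → V m →L[ℝ] V m) (L : ℝ) : Prop where
  L1 : 1 ≤ L
  c1 : ContDiff ℝ 1 P
  sym : ∀ q a b, ⟪P q a, b⟫ = ⟪a, P q b⟫
  bP : ∀ q, ‖P q‖ ≤ L
  bD : ∀ q, ‖fderiv ℝ P q‖ ≤ L
  bN : ∀ q ∈ N, ‖q‖ ≤ L
  ch : ∀ q ∈ N, ∀ q' ∈ N, ∀ ν, P q ν = 0 → |⟪ν, q' - q⟫| ≤ L * ‖ν‖ * ‖q' - q‖ ^ 2

/-- The second fundamental form term. -/
noncomputable def sec (P : V m → V m →L[ℝ] V m) (y : V m) (A : D n →L[ℝ] V m) : V m :=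
  -(fro A ^ (n - 2) • ∑ α, fderiv ℝ P y (col A α) (col A α))

/-- The pointwise structure of the equation. -/
def Pt (N : Set (V m)) (P : V m → V m →L[ℝ] V m) (L : ℝ) (y : V m) (A : D n →L[ℝ] V m)
    (f : V m) : Prop :=
  y ∈ N ∧ (∀ v, P y (A v) = A v) ∧ P y (sec P y A) = 0 ∧ ‖f - sec P y A‖ ≤ L * jac A

/-- The internal continuity theorem in dimension `n`, as a property. -/
def CoreD (n : ℕ) : Prop :=
  ∀ (m : ℕ) (N : Set (V m)) (P : V m → V m →L[ℝ] V m) (L : ℝ) (Ω : Set (D n)) (u : D n → V m)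
    (G : D n → D n →L[ℝ] V m) (F : D n → V m), Geo N P L → GSol Ω u G F →
    (∀ᵐ x, x ∈ Ω → Pt N P L (u x) (G x) (F x)) → Rep Ω u

theorem red_int (hn : 2 ≤ n) (hC : CoreD n) {N : Set (V m)} (hc : IsCompact N)
    (hN : IsC2Submanifold N) (Λ : ℝ) (Ω : Set (D n)) (u : D n → V m)
    (G : D n → D n →L[ℝ] V m) (F : D n → V m) (S : GSol Ω u G F)
    (h : ∀ᵐ x, x ∈ Ω → u x ∈ N ∧
      ∀ τ ∈ tangentConeAt ℝ N (u x), |⟪F x, τ⟫| ≤ Λ * jac (G x) * ‖τ‖) : Rep Ω u := by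
  obtain ⟨P, h1, h2, hs, hP⟩ := exists_proj hc hN
  obtain ⟨ι, _, k, Φ, hΦ, hT⟩ := exists_eqs hc hN
  obtain ⟨L1, L10, hL1⟩ := tr_bdd h1.continuous h2
  obtain ⟨L2, L20, hL2⟩ := bdd_fderiv h1 h2
  obtain ⟨L3, hL3⟩ := hc.isBounded.exists_norm_le
  obtain ⟨L4, L40, hL4⟩ := chord hc hN
  have hG : ∀ᵐ x, x ∈ Ω → ∀ v, P (u x) (G x v) = G x v := by
    have h3 := ae_all_iff.2 fun i => S.chain hn (hΦ i).1 (hΦ i).2.1
      (h.mono fun x hx hxΩ => (hΦ i).2.2 _ (hx hxΩ).1)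
    filter_upwards [h, h3] with x k1 k2 hx v
    exact (hP _ (k1 hx).1).2 _ (hT _ (k1 hx).1 _ fun i => k2 i hx v)
  have a3 := le_abs_self L3
  have a4 := le_abs_self Λ
  have a5 := abs_nonneg L3
  have a6 := abs_nonneg Λ
  refine hC m N P (1 + L1 + L2 + |L3| + L4 + |Λ|) Ω u G F
    ⟨by linarith, h1, hs, fun q => by linarith [hL1 q], fun q => by linarith [hL2 q],
      fun q hq => by linarith [hL3 q hq], fun q hq q' hq' ν hν => ?_⟩ S ?_
  · refine (hL4 q hq q' hq' ν fun τ hτ => ?_).trans ?_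
    · rw [← (hP q hq).2 τ hτ, ← hs, hν, inner_zero_left]
    · gcongr
      linarith
  filter_upwards [normal_part hn S h1 h2 hs hG, hG, h] with x k1 k2 k3 hx
  have e1 : sec P (u x) (G x) = F x - P (u x) (F x) := (k1 hx).symm
  have e2 : P (u x) (P (u x) (F x)) = P (u x) (F x) :=
    (hP _ (k3 hx).1).2 _ ((hP _ (k3 hx).1).1 _)
  refine ⟨(k3 hx).1, k2 hx, by rw [e1, map_sub, e2, sub_self], ?_⟩
  rw [e1, sub_sub_cancel]
  have e3 := (k3 hx).2 _ ((hP _ (k3 hx).1).1 (F x))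
  have e4 : ⟪F x, P (u x) (F x)⟫ = ‖P (u x) (F x)‖ ^ 2 := by
    rw [← real_inner_self_eq_norm_sq, hs, e2]
  have j0 : 0 ≤ jac (G x) := Finset.sum_nonneg fun _ _ => abs_nonneg _
  rw [e4, abs_of_nonneg (sq_nonneg _)] at e3
  rcases (norm_nonneg (P (u x) (F x))).eq_or_lt with h0 | h0
  · rw [← h0]
    positivity
  · have e5 : ‖P (u x) (F x)‖ ≤ Λ * jac (G x) := by
      refine le_of_mul_le_mul_right ?_ h0
      rw [← sq]
      exact e3
    exact e5.trans (mul_le_mul_of_nonneg_right (by linarith) j0)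

/-- The statement in coordinates follows from the internal theorem. -/
theorem red (hn : 2 ≤ n) (hC : CoreD n) (N : Set (E m)) (hc : IsCompact N)
    (hN : IsC2Submanifold N) (u : Fin m → E n → ℝ) (G : Fin m → Fin n → E n → ℝ)
    (F : Fin m → E n → ℝ) (Λ : ℝ) (hu : IsW1n u G) (h1 : ∀ᵐ x ∂(ballMeasure n), pt u x ∈ N)
    (h2 : ∀ i, Integrable (F i) (ballMeasure n))
    (h3 : ∀ᵐ x ∂(ballMeasure n), ∀ τ ∈ tangentConeAt ℝ N (pt u x), |∑ i, F i x * τ i| ≤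
      Λ * (∑ I : Fin n → Fin m, |(Matrix.of fun a α => G (I a) α x).det|) * ‖τ‖)
    (h4 : ∀ i φ, IsTest φ →
      ∫ x, ∑ α, gradNorm G x ^ (n - 2) * G i α x * pd α φ x ∂(ballMeasure n) =
        ∫ x, F i x * φ x ∂(ballMeasure n)) : HasContinuousRep u := by
  refine transfer2 hn
    (fun y A f => y ∈ N ∧ ∀ τ ∈ tangentConeAt ℝ N y, |⟪f, τ⟫| ≤ Λ * jac A * ‖τ‖)
    (red_int hn hC hc hN Λ) u G F hu h2 ?_ h4
  filter_upwards [h1, h3] with x k1 k2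
  refine ⟨k1, fun τ hτ => ?_⟩
  have e : ⟪(WithLp.toLp 2 fun i => F i x : V m), τ⟫ = ∑ i, F i x * τ i := by
    rw [PiLp.inner_apply]
    exact Finset.sum_congr rfl fun i _ => by simp [mul_comm]
  rw [e, trM_jac]
  exact k2 τ hτ

end Pool.Agent.Lib.MP_a785f2_an.LY
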