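import Pool.Agent.Lib.MP_a785f2_an.LY.SphE

open MeasureTheory
open scoped RealInnerProductSpace

namespace Pool.Agent.Lib.MP_a785f2_an.LY

/-- Bounds valid on every sphere. -/
theorem crude (k : ℕ) {L : ℝ} (hL : 1 ≤ L) : ∃ C : ℝ, 1 ≤ C ∧
    ∀ {X V W : Type} [MeasurableSpace X] [NormedAddCommGroup V] [InnerProductSpace ℝ V]
      [CompleteSpace V] [NormedAddCommGroup W] [InnerProductSpace ℝ W] (S : Sph X V W),
      S.k = k → S.Ok L →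
      |S.NN| ≤ C * S.e * ‖S.F‖ ∧ ‖S.a‖ ≤ S.m1 ∧ ‖S.gp‖ ≤ C * S.m1 ∧ ‖S.F‖ ≤ S.mk1 ∧
      ‖S.Fp‖ ≤ C * S.e ∧ S.m1 * S.mk1 ≤ 2 * S.e ∧ S.m1 ^ (k + 2) ≤ S.e ∧
      (∀ v w, ⟪S.g v, w⟫ = ⟪v, S.g w⟫) ∧ (∀ v, ‖v‖ ^ 2 ≤ ⟪S.g v, v⟫) ∧
      ∀ l : ℝ, 0 ≤ l → (∀ᵐ x ∂S.σ, ‖S.u x - S.y‖ ≤ l) →
        ‖S.g - ContinuousLinearMap.id ℝ V‖ ≤ C * l ^ 2 ∧ |S.hh| ≤ C * l * S.e := by
  have h0 : 0 ≤ L := zero_le_one.trans hL
  have hL2 : 1 ≤ L ^ 2 := one_le_pow₀ hL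
  have hL3 : 0 ≤ L * L ^ 2 := by positivity
  refine ⟨3 * L * (1 + 4 * L ^ 2) + 4 * L ^ 2, by nlinarith, ?_⟩
  intro X V W _ _ _ _ _ _ S hk h
  subst hk
  have e0 := h.e0
  have m0 := h.m10
  refine ⟨h.NN_crude, h.na, h.ngp.trans (mul_le_mul_of_nonneg_right (by nlinarith) m0), h.nFF,
    h.nFp.trans (mul_le_mul_of_nonneg_right (by nlinarith) e0), h.m1_mk1, h.m1_pow,
    fun v w => ?_, fun v => ?_, fun l hl hz => ⟨(h.g_sub hz).trans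
      (mul_le_mul_of_nonneg_right (by nlinarith) (sq_nonneg l)), (h.hh_crude hl hz).trans
      (mul_le_mul_of_nonneg_right (mul_le_mul_of_nonneg_right (by nlinarith) hl) e0)⟩⟩
  · rw [real_inner_comm (S.g w) v, h.g_eq, h.g_eq, real_inner_comm v w]
    congr 1
    exact integral_congr_ae (Filter.Eventually.of_forall fun x => real_inner_comm _ _)
  · rw [h.g_eq, real_inner_self_eq_norm_sq]
    exact le_add_of_nonneg_right (integral_nonneg fun x => real_inner_self_nonneg)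

/-- The sphere lemma. The number `dd` is an additive error in the Poincare inequality
(zero for true spheres). -/
theorem sphere_lemma (k : ℕ) {L Cp : ℝ} (hL : 1 ≤ L) (hCp : 1 ≤ Cp) : ∃ C δ : ℝ, 1 ≤ C ∧ 0 < δ ∧
    ∀ {X V W : Type} [MeasurableSpace X] [NormedAddCommGroup V] [InnerProductSpace ℝ V]
      [CompleteSpace V] [NormedAddCommGroup W] [InnerProductSpace ℝ W] (S : Sph X V W),
      S.k = k → S.Ok L → ∀ dd : ℝ, 0 ≤ dd → (∀ᵐ x ∂S.σ, ‖S.u x - S.y‖ ≤ δ) → S.e ≤ δ →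
      ∫ x, ‖S.u x - S.y‖ ^ 2 ∂S.σ ≤ Cp * (∫ x, ‖S.p x - S.io x S.a‖ ^ 2 ∂S.σ + dd) →
      0 ≤ S.XX ∧ |S.hh| ≤ (S.XX + ‖S.a‖ ^ k * dd) / 4 ∧
        S.NN ≤ C * (S.XX + ‖S.a‖ ^ k * dd) * ‖S.F‖ := by
  have h0 : 0 ≤ L := zero_le_one.trans hL
  have hC0 : 0 ≤ Cp := zero_le_one.trans hCp
  obtain ⟨K1, hK1⟩ : ∃ K1 : ℝ, K1 = 4 * L ^ 2 * (2 * Cp) + 2 + 2 ^ (k + 1) := ⟨_, rfl⟩
  obtain ⟨K, hK⟩ : ∃ K : ℝ, K = 2 * 2 ^ (k + 2) := ⟨_, rfl⟩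
  obtain ⟨C1, hC1⟩ : ∃ C1 : ℝ, C1 = 2 * L * ((k + 1) * 2 ^ k * (2 * L)) +
      L * ((k + 1) * 2 ^ (k + 1) * (2 * L) + (1 + 2 * K) + (k + 1) * 2 ^ k * (2 * L)) +
      3 * L * K + L := ⟨_, rfl⟩
  obtain ⟨C2, hC2⟩ : ∃ C2 : ℝ, C2 = 3 * L * (1 + 4 * L ^ 2) + 4 * L ^ 2 := ⟨_, rfl⟩
  obtain ⟨M, hM⟩ : ∃ M : ℝ, M = L * (4 * 2 ^ (k + 2) + 1) * (2 * Cp + K1) := ⟨_, rfl⟩
  have K10 : 0 ≤ K1 := by rw [hK1]; positivity
  have K0 : 0 ≤ K := by rw [hK]; positivity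
  have C10 : 0 ≤ C1 := by rw [hC1]; positivity
  have C20 : 0 ≤ C2 := by rw [hC2]; positivity
  have M0 : 0 ≤ M := by rw [hM]; positivity
  obtain ⟨η, hη⟩ : ∃ η : ℝ, η = 1 / (4 * (M + 1)) := ⟨_, rfl⟩
  have η0 : 0 < η := by rw [hη]; positivity
  have ηM : η * (4 * (M + 1)) = 1 := by rw [hη]; field_simp
  have η1 : η ≤ 1 := by nlinarith
  have p1 : (0 : ℝ) ≤ C1 * K1 := by positivity
  have p2 : (0 : ℝ) ≤ C2 * (K * 2 ^ (k + 1)) := by positivity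
  refine ⟨1 + C1 * K1 + C2 * (K * 2 ^ (k + 1)), η ^ (k + 2), by linarith, by positivity, ?_⟩
  intro X V W _ _ _ _ _ _ S hk h dd hdd hz he hP
  subst hk
  have hδ : η ^ (S.k + 2) ≤ η := pow_le_of_le_one η0.le η1 (by omega)
  have hz' : ∀ᵐ x ∂S.σ, ‖S.u x - S.y‖ ≤ η := hz.mono fun x hx => hx.trans hδ
  have ha : ‖S.a‖ ≤ η :=
    le_of_pow_le_pow_left₀ (by omega) η0.le (h.an_le.trans he)
  obtain ⟨q1, q2⟩ := h.Q_le hCp hdd hP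
  rw [← hK1] at q2
  have X0 := h.X0
  have d0 : 0 ≤ ‖S.a‖ ^ S.k * dd := by positivity
  set Y := S.XX + ‖S.a‖ ^ S.k * dd with hY
  have Y0 : 0 ≤ Y := add_nonneg X0 d0
  have F0 := norm_nonneg S.F
  refine ⟨X0, (h.hh_le η0.le η1 ha hz').trans ?_, ?_⟩
  · calc _ ≤ η * (L * (4 * 2 ^ (S.k + 2) + 1) * (2 * Cp * Y + K1 * Y)) := by gcongr
      _ = η * M * Y := by rw [hM]; ring
      _ ≤ 1 / 4 * Y := mul_le_mul_of_nonneg_right (by nlinarith) Y0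
      _ = _ := by ring
  · have YF : 0 ≤ Y * ‖S.F‖ := by positivity
    rcases le_or_gt S.e (K * 2 ^ (S.k + 1) * S.XX) with h1 | h1
    · have h2 := (le_abs_self _).trans h.NN_crude
      rw [← hC2] at h2
      have h3 : S.e ≤ K * 2 ^ (S.k + 1) * Y :=
        h1.trans (mul_le_mul_of_nonneg_left (le_add_of_nonneg_right d0) (by positivity))
      calc S.NN ≤ C2 * S.e * ‖S.F‖ := h2
        _ ≤ C2 * (K * 2 ^ (S.k + 1) * Y) * ‖S.F‖ := by gcongr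
        _ = C2 * (K * 2 ^ (S.k + 1)) * (Y * ‖S.F‖) := by ring
        _ ≤ (1 + C1 * K1 + C2 * (K * 2 ^ (S.k + 1))) * (Y * ‖S.F‖) :=
            mul_le_mul_of_nonneg_right (by linarith) YF
        _ = _ := by ring
    · have h2 := h.e_le
      have h3 : (2 : ℝ) ^ (S.k + 2) * ∫ x, S.Dv x ^ (S.k + 2) ∂S.σ ≤
          2 ^ (S.k + 2) * (2 ^ (S.k + 1) * S.XX) :=
        mul_le_mul_of_nonneg_left h.In_le (by positivity)
      have h4 : S.e ≤ K * ‖S.a‖ ^ (S.k + 2) := by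
        rw [hK] at h1 ⊢
        linarith
      have h5 : (2 : ℝ) ≤ K * 2 ^ (S.k + 1) := by
        have a1 : (1 : ℝ) ≤ 2 ^ (S.k + 2) := one_le_pow₀ one_le_two
        have a2 : (1 : ℝ) ≤ 2 ^ (S.k + 1) := one_le_pow₀ one_le_two
        rw [hK]; nlinarith
      have h6 : 2 * S.XX ≤ S.e := (mul_le_mul_of_nonneg_right h5 X0).trans h1.le
      have h7 : 0 < ‖S.a‖ := by
        rcases eq_or_lt_of_le (norm_nonneg S.a) with h8 | h8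
        · rw [← h8, zero_pow (by omega), mul_zero] at h4
          have : 0 ≤ K * 2 ^ (S.k + 1) * S.XX := by positivity
          linarith
        · exact h8
      have h9 := h.NN_main h7 (ha.trans η1) K0 h4 h6
      rw [← hC1] at h9
      calc S.NN ≤ _ := h9
        _ ≤ C1 * (K1 * Y) * ‖S.F‖ := by gcongr
        _ = C1 * K1 * (Y * ‖S.F‖) := by ring
        _ ≤ (1 + C1 * K1 + C2 * (K * 2 ^ (S.k + 1))) * (Y * ‖S.F‖) :=
            mul_le_mul_of_nonneg_right (by linarith) YF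
        _ = _ := by ring

end Pool.Agent.Lib.MP_a785f2_an.LY
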