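import Pool.Agent.Lib.MP_a785f2_an.LY.SphA

open MeasureTheory Filter
open scoped RealInnerProductSpace

namespace Pool.Agent.Lib.MP_a785f2_an.LY.Sph

variable {X V W : Type} [MeasurableSpace X] [NormedAddCommGroup V] [InnerProductSpace ℝ V]
  [NormedAddCommGroup W] [InnerProductSpace ℝ W] {S : Sph X V W} {L : ℝ}

/-- Deviation of the projection from its mean. -/
noncomputable def T (S : Sph X V W) (x : X) : V →L[ℝ] V := S.Pu x - S.Pb
/-- Deviation of the map from its mean. -/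
noncomputable def z (S : Sph X V W) (x : X) : ℝ := ‖S.u x - S.y‖
/-- Deviation of the gradient from the radial model. -/
noncomputable def Dv (S : Sph X V W) (x : X) : ℝ := ‖S.p x - S.io x S.a‖

theorem z_nonneg (x : X) : 0 ≤ S.z x := norm_nonneg _
theorem Dv_nonneg (x : X) : 0 ≤ S.Dv x := norm_nonneg _

namespace Ok

variable (h : S.Ok L)
include h

theorem L0 : 0 ≤ L := zero_le_one.trans h.L1

theorem norm_ra (x : X) (q : W) : ‖S.ra x q‖ ≤ ‖q‖ := by
  have h1 : ‖S.ra x q‖ ^ 2 ≤ ‖q‖ * ‖S.ra x q‖ := by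
    rw [← real_inner_self_eq_norm_sq, h.adj]
    exact (real_inner_le_norm _ _).trans (by rw [h.iso])
  rcases eq_or_lt_of_le (norm_nonneg (S.ra x q)) with h0 | h0
  · rw [← h0]; exact norm_nonneg _
  · rw [sq] at h1; exact le_of_mul_le_mul_right h1 h0

theorem ra_io (x : X) (c : V) : S.ra x (S.io x c) = c := by
  refine ext_inner_right ℝ fun v => ?_
  rw [h.adj]
  exact (LinearIsometry.mk (S.io x).toLinearMap (h.iso x)).inner_map_map c v

theorem Ap_io (x : X) (c : V) : Ap S.k (S.io x c) = S.io x (Ap S.k c) := by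
  simp only [Ap, h.iso, map_smul]

theorem ip {j : ℕ} (hj : j ≤ S.k + 2) : Integrable (fun x => ‖S.p x‖ ^ j) S.σ := by
  have := h.prob
  exact integrable_pow_le h.mp.norm (fun _ => norm_nonneg _) hj h.lp

theorem ip1 : Integrable (fun x => ‖S.p x‖) S.σ := by
  simpa using h.ip (j := 1) (by omega)

theorem iu : Integrable S.u S.σ := by
  have := h.prob
  exact (integrable_const L).mono' h.mu h.bu

theorem ira : Integrable (fun x => S.ra x (S.p x)) S.σ :=
  h.ip1.mono' h.mr (Eventually.of_forall fun x => h.norm_ra x _)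

theorem mF : AEStronglyMeasurable (fun x => S.ra x (Ap S.k (S.p x))) S.σ := by
  simp only [Ap, map_smul]
  exact (h.mp.norm.pow _).smul h.mr

theorem nF (x : X) : ‖S.ra x (Ap S.k (S.p x))‖ ≤ ‖S.p x‖ ^ (S.k + 1) :=
  (h.norm_ra x _).trans (norm_Ap _ _).le

theorem iF : Integrable (fun x => S.ra x (Ap S.k (S.p x))) S.σ :=
  (h.ip (j := S.k + 1) (by omega)).mono' h.mF (Eventually.of_forall h.nF)

theorem nal1 (x : X) : ‖S.al1 x‖ ≤ L * ‖S.p x‖ ^ (S.k + 2) := by
  refine (h.bbe x _ _).trans (le_of_eq ?_)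
  rw [norm_Ap]; ring

theorem ial1 : Integrable S.al1 S.σ :=
  (h.lp.const_mul L).mono' h.mal (Eventually.of_forall h.nal1)

theorem nh2 : ∀ᵐ x ∂S.σ, ‖S.h2 x‖ ≤ 2 * L * ‖S.p x‖ ^ (S.k + 2) := by
  obtain ⟨T, hT, h1, -⟩ := h.good
  filter_upwards [hT] with x hx
  have h2 := (h1 x hx).2.2 0
  rw [map_zero, sub_zero, norm_zero] at h2
  have h3 : (0 : ℝ) ^ S.k * ‖S.p x‖ ^ 2 ≤ ‖S.p x‖ ^ (S.k + 2) := by
    rw [pow_add]; gcongr; exact norm_nonneg _
  have := h.L0
  nlinarith

theorem ih2 : Integrable S.h2 S.σ := (h.lp.const_mul (2 * L)).mono' h.mh h.nh2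

theorem ial : Integrable S.al S.σ := h.ial1.add h.ih2

theorem nal : ∀ᵐ x ∂S.σ, ‖S.al x‖ ≤ 3 * L * ‖S.p x‖ ^ (S.k + 2) := by
  filter_upwards [h.nh2] with x hx
  have := h.nal1 x
  exact (norm_add_le _ _).trans (by linarith)

theorem iP : Integrable S.Pu S.σ := by
  have := h.prob
  exact (integrable_const L).mono' h.mP (Eventually.of_forall h.bP)

theorem nPb : ‖S.Pb‖ ≤ L := by
  have := h.prob
  have h1 := norm_integral_le_of_norm_le (μ := S.σ) (f := S.Pu) (integrable_const L)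
    (Eventually.of_forall h.bP)
  rw [integral_const, probReal_univ, one_smul] at h1
  exact h1

theorem mT : AEStronglyMeasurable S.T S.σ := h.mP.sub aestronglyMeasurable_const

theorem nT (x : X) : ‖S.T x‖ ≤ 2 * L := by
  have h1 := h.bP x
  have h2 := h.nPb
  exact (norm_sub_le _ _).trans (by linarith)

theorem iT : Integrable S.T S.σ := by
  have := h.prob
  exact h.iP.sub (integrable_const _)

theorem mPP : AEStronglyMeasurable (fun x => (S.Pu x).comp (S.Pu x)) S.σ :=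
  (continuous_id.clm_comp continuous_id).comp_aestronglyMeasurable h.mP

theorem iP2 : Integrable (fun x => (S.Pu x).comp (S.Pu x)) S.σ := by
  have := h.prob
  refine (integrable_const (L * L)).mono' h.mPP (Eventually.of_forall fun x => ?_)
  exact ((S.Pu x).opNorm_comp_le _).trans (mul_le_mul (h.bP x) (h.bP x) (norm_nonneg _) h.L0)

theorem nB (x : X) : ‖S.B x (S.ra x (S.p x))‖ ≤ L * ‖S.p x‖ :=
  (h.bB x _).trans (mul_le_mul_of_nonneg_left (h.norm_ra x _) h.L0)

theorem iB : Integrable (fun x => S.B x (S.ra x (S.p x))) S.σ :=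
  (h.ip1.const_mul L).mono' h.mB (Eventually.of_forall h.nB)

theorem nBP (x : X) : ‖(S.B x (S.ra x (S.p x))).comp (S.Pu x) +
    (S.Pu x).comp (S.B x (S.ra x (S.p x)))‖ ≤ 2 * L ^ 2 * ‖S.p x‖ := by
  have h1 := h.nB x
  have h2 := h.bP x
  have h0 := h.L0
  calc _ ≤ ‖S.B x (S.ra x (S.p x))‖ * ‖S.Pu x‖ + ‖S.Pu x‖ * ‖S.B x (S.ra x (S.p x))‖ :=
        (norm_add_le _ _).trans (add_le_add (ContinuousLinearMap.opNorm_comp_le _ _)
          (ContinuousLinearMap.opNorm_comp_le _ _))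
    _ ≤ L * ‖S.p x‖ * L + L * (L * ‖S.p x‖) := by gcongr
    _ = _ := by ring

theorem iBP : Integrable (fun x => (S.B x (S.ra x (S.p x))).comp (S.Pu x) +
    (S.Pu x).comp (S.B x (S.ra x (S.p x)))) S.σ := by
  have c : Continuous fun q : (V →L[ℝ] V) × (V →L[ℝ] V) => q.1.comp q.2 + q.2.comp q.1 :=
    (continuous_fst.clm_comp continuous_snd).add (continuous_snd.clm_comp continuous_fst)
  exact (h.ip1.const_mul (2 * L ^ 2)).mono' (c.comp_aestronglyMeasurable (h.mB.prodMk h.mP))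
    (Eventually.of_forall h.nBP)

theorem mz : AEStronglyMeasurable S.z S.σ := (h.mu.sub aestronglyMeasurable_const).norm

theorem mD : AEStronglyMeasurable S.Dv S.σ := (h.mp.sub (h.mio _)).norm

theorem ny : ‖S.y‖ ≤ L := by
  have := h.prob
  have h1 := norm_integral_le_of_norm_le (μ := S.σ) (f := S.u) (integrable_const L) h.bu
  rw [integral_const, probReal_univ, one_smul] at h1
  exact h1

theorem bz : ∀ᵐ x ∂S.σ, S.z x ≤ 2 * L := by
  filter_upwards [h.bu] with x hx
  have := h.ny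
  exact (norm_sub_le _ _).trans (by linarith)

theorem iz (j : ℕ) : Integrable (fun x => S.z x ^ j) S.σ := by
  have := h.prob
  refine (integrable_const ((2 * L) ^ j)).mono' (h.mz.pow j) ?_
  filter_upwards [h.bz] with x hx
  rw [Real.norm_of_nonneg (pow_nonneg (z_nonneg x) j)]
  exact pow_le_pow_left₀ (z_nonneg x) hx j

theorem iz1 : Integrable S.z S.σ := by simpa using h.iz 1

theorem D_le (x : X) : S.Dv x ≤ ‖S.p x‖ + ‖S.a‖ := by
  rw [← h.iso x S.a]; exact norm_sub_le _ _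

theorem p_le (x : X) : ‖S.p x‖ ≤ ‖S.a‖ + S.Dv x := by
  rw [← h.iso x S.a]
  calc ‖S.p x‖ = ‖S.io x S.a + (S.p x - S.io x S.a)‖ := by congr 1; abel
    _ ≤ _ := norm_add_le _ _

theorem iD {j : ℕ} (hj : j ≤ S.k + 2) : Integrable (fun x => S.Dv x ^ j) S.σ := by
  have := h.prob
  refine (((h.ip hj).add (integrable_const (‖S.a‖ ^ j))).const_mul (2 ^ j)).mono' (h.mD.pow j)
    (Eventually.of_forall fun x => ?_)
  rw [Real.norm_of_nonneg (pow_nonneg (Dv_nonneg x) j)]
  exact (pow_le_pow_left₀ (Dv_nonneg x) (h.D_le x) j).trans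
    (add_pow_le_two j (norm_nonneg _) (norm_nonneg _))

theorem iD1 : Integrable S.Dv S.σ := by simpa using h.iD (j := 1) (by omega)

theorem e0 : 0 ≤ S.e := integral_nonneg fun _ => by positivity
theorem m10 : 0 ≤ S.m1 := integral_nonneg fun _ => norm_nonneg _

theorem na : ‖S.a‖ ≤ S.m1 :=
  norm_integral_le_of_norm_le h.ip1 (Eventually.of_forall fun x => h.norm_ra x _)

theorem nFF : ‖S.F‖ ≤ S.mk1 :=
  norm_integral_le_of_norm_le (h.ip (by omega)) (Eventually.of_forall h.nF)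

theorem nFp : ‖S.Fp‖ ≤ 3 * L * S.e := by
  rw [Sph.e, ← integral_const_mul]
  exact norm_integral_le_of_norm_le (h.lp.const_mul _) h.nal

theorem m1_pow : S.m1 ^ (S.k + 2) ≤ S.e := by
  have := h.prob
  exact jensen_pow h.mp.norm (fun _ => norm_nonneg _) (S.k + 1) h.lp

theorem m1_mk1 : S.m1 * S.mk1 ≤ 2 * S.e := by
  have := h.prob
  have h1 : S.m1 * S.mk1 ≤ ∫ x, (S.m1 ^ (S.k + 2) + ‖S.p x‖ ^ (S.k + 2)) ∂S.σ := by
    rw [Sph.mk1, ← integral_const_mul]
    exact integral_mono ((h.ip (by omega)).const_mul _) ((integrable_const _).add h.lp)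
      fun x => young_one (S.k + 1) h.m10 (norm_nonneg _)
  rw [integral_add (integrable_const _) h.lp] at h1
  have h2 := h.m1_pow
  simp only [integral_const, probReal_univ, one_smul] at h1
  change _ ≤ _ + S.e at h1
  linarith

theorem nPbp : ‖S.Pbp‖ ≤ L * S.m1 := by
  rw [Sph.m1, ← integral_const_mul]
  exact norm_integral_le_of_norm_le (h.ip1.const_mul _) (Eventually.of_forall h.nB)

theorem ngp : ‖S.gp‖ ≤ 4 * L ^ 2 * S.m1 := by
  have h1 : ‖S.P2p‖ ≤ 2 * L ^ 2 * S.m1 := by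
    rw [Sph.m1, ← integral_const_mul]
    exact norm_integral_le_of_norm_le (h.ip1.const_mul _) (Eventually.of_forall h.nBP)
  have h2 := h.nPbp
  have h3 := h.nPb
  have h0 := h.L0
  have h4 := h.m10
  calc ‖S.gp‖ ≤ ‖S.P2p‖ + (‖S.Pbp‖ * ‖S.Pb‖ + ‖S.Pb‖ * ‖S.Pbp‖) :=
        (norm_sub_le _ _).trans (add_le_add le_rfl ((norm_add_le _ _).trans
          (add_le_add (ContinuousLinearMap.opNorm_comp_le _ _)
            (ContinuousLinearMap.opNorm_comp_le _ _))))
    _ ≤ 2 * L ^ 2 * S.m1 + (L * S.m1 * L + L * (L * S.m1)) := by gcongr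
    _ = _ := by ring

end Ok

end Pool.Agent.Lib.MP_a785f2_an.LY.Sph
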