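import Pool.Agent.Lib.MP_a785f2_an.LY.SphB

open MeasureTheory Filter
open scoped RealInnerProductSpace

namespace Pool.Agent.Lib.MP_a785f2_an.LY.Sph

variable {X V W : Type} [MeasurableSpace X] [NormedAddCommGroup V] [InnerProductSpace ℝ V]
  [CompleteSpace V] [NormedAddCommGroup W] [InnerProductSpace ℝ W] {S : Sph X V W} {L : ℝ}

theorem int_inner {σ : Measure X} {f : X → V} (hf : Integrable f σ) (c : V) :
    ∫ x, ⟪c, f x⟫ ∂σ = ⟪c, ∫ x, f x ∂σ⟫ := integral_inner hf c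

theorem int_app {σ : Measure X} {A : X → V →L[ℝ] V} (hA : Integrable A σ) (v w : V) :
    ∫ x, ⟪w, A x v⟫ ∂σ = ⟪w, (∫ x, A x ∂σ) v⟫ := by
  rw [ContinuousLinearMap.integral_apply hA v]
  exact integral_inner (hA.apply_continuousLinearMap v) w

omit [CompleteSpace V] in
theorem iapp {σ : Measure X} {A : X → V →L[ℝ] V} (hA : Integrable A σ) (v w : V) :
    Integrable (fun x => ⟪w, A x v⟫) σ := (hA.apply_continuousLinearMap v).const_inner w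

namespace Ok

variable (h : S.Ok L)
include h

theorem sPb (v w : V) : ⟪S.Pb v, w⟫ = ⟪v, S.Pb w⟫ := by
  rw [real_inner_comm, Sph.Pb, ← int_app h.iP, ← int_app h.iP]
  exact integral_congr_ae (Eventually.of_forall fun x => by
    simp only []; rw [real_inner_comm, h.sP])

theorem sPbp (v w : V) : ⟪S.Pbp v, w⟫ = ⟪v, S.Pbp w⟫ := by
  rw [real_inner_comm, Sph.Pbp, ← int_app h.iB, ← int_app h.iB]
  exact integral_congr_ae (Eventually.of_forall fun x => by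
    simp only []; rw [real_inner_comm, h.sB])

theorem intT : ∫ x, S.T x ∂S.σ = 0 := by
  have := h.prob
  simp only [Sph.T]
  rw [integral_sub h.iP (integrable_const _), integral_const, probReal_univ, one_smul]
  exact sub_self _

omit [CompleteSpace V] in
theorem iT2 : Integrable (fun x => ‖S.T x‖ ^ 2) S.σ := by
  have := h.prob
  refine (integrable_const ((2 * L) ^ 2)).mono' (h.mT.norm.pow 2) (Eventually.of_forall fun x => ?_)
  rw [Real.norm_of_nonneg (by positivity)]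
  exact pow_le_pow_left₀ (norm_nonneg _) (h.nT x) 2

omit [CompleteSpace V] in
theorem nTT (v w : V) (x : X) : ‖⟪S.T x v, S.T x w⟫‖ ≤ ‖S.T x‖ ^ 2 * (‖v‖ * ‖w‖) := by
  calc _ ≤ ‖S.T x v‖ * ‖S.T x w‖ := norm_inner_le_norm _ _
    _ ≤ ‖S.T x‖ * ‖v‖ * (‖S.T x‖ * ‖w‖) := by gcongr <;> exact (S.T x).le_opNorm _
    _ = _ := by ring

omit [CompleteSpace V] in
theorem iTT (v w : V) : Integrable (fun x => ⟪S.T x v, S.T x w⟫) S.σ :=
  (h.iT2.mul_const _).mono' ((h.mT.apply_continuousLinearMap v).inner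
    (h.mT.apply_continuousLinearMap w)) (Eventually.of_forall (h.nTT v w))

omit [CompleteSpace V] in
theorem abs_TT (v w : V) :
    |∫ x, ⟪S.T x v, S.T x w⟫ ∂S.σ| ≤ (∫ x, ‖S.T x‖ ^ 2 ∂S.σ) * (‖v‖ * ‖w‖) := by
  rw [← integral_mul_const, ← Real.norm_eq_abs]
  exact norm_integral_le_of_norm_le (h.iT2.mul_const _) (Eventually.of_forall (h.nTT v w))

theorem g_eq (v w : V) : ⟪S.g v, w⟫ = ⟪v, w⟫ + ∫ x, ⟪S.T x v, S.T x w⟫ ∂S.σ := by
  have := h.prob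
  have e1 : ∀ x, ⟪S.T x v, S.T x w⟫ = ⟪w, ((S.Pu x).comp (S.Pu x)) v⟫ - ⟪S.Pb w, S.Pu x v⟫ -
      ⟪S.Pb v, S.Pu x w⟫ + ⟪S.Pb v, S.Pb w⟫ := by
    intro x
    have e2 : ⟪w, ((S.Pu x).comp (S.Pu x)) v⟫ = ⟪S.Pu x v, S.Pu x w⟫ := by
      rw [ContinuousLinearMap.comp_apply, ← h.sP, real_inner_comm]
    rw [e2]
    simp only [Sph.T, _root_.sub_apply, inner_sub_left, inner_sub_right,
      real_inner_comm (S.Pb w) (S.Pu x v)]
    ring
  simp only [e1]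
  have i1 := iapp h.iP2 v w
  have i2 := iapp h.iP v (S.Pb w)
  have i3 := iapp h.iP w (S.Pb v)
  have i4 : Integrable (fun x => ⟪w, ((S.Pu x).comp (S.Pu x)) v⟫ - ⟪S.Pb w, S.Pu x v⟫) S.σ :=
    i1.sub i2
  have i5 : Integrable (fun x => ⟪w, ((S.Pu x).comp (S.Pu x)) v⟫ - ⟪S.Pb w, S.Pu x v⟫ -
      ⟪S.Pb v, S.Pu x w⟫) S.σ := i4.sub i3
  rw [integral_add i5 (integrable_const _), integral_sub i4 i3,
    integral_sub i1 i2, int_app h.iP2, int_app h.iP, int_app h.iP, integral_const, probReal_univ,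
    one_smul]
  change _ = _ + (⟪w, S.P2 v⟫ - ⟪S.Pb w, S.Pb v⟫ - ⟪S.Pb v, S.Pb w⟫ + _)
  simp only [Sph.g, _root_.sub_apply, _root_.add_apply,
    ContinuousLinearMap.id_apply, ContinuousLinearMap.comp_apply, inner_sub_left, inner_add_left]
  rw [h.sPb (S.Pb v) w, real_inner_comm (S.P2 v) w, real_inner_comm (S.Pb v) (S.Pb w)]
  ring

omit [CompleteSpace V] in
theorem iTB (v : V) : Integrable (fun x => ⟪S.T x v, S.B x (S.ra x (S.p x)) v⟫) S.σ := by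
  refine (h.ip1.const_mul (2 * L * ‖v‖ * (L * ‖v‖))).mono'
    ((h.mT.apply_continuousLinearMap v).inner (h.mB.apply_continuousLinearMap v))
    (Eventually.of_forall fun x => ?_)
  have h0 := h.L0
  have h1 := h.nT x
  have h2 := h.nB x
  calc _ ≤ ‖S.T x v‖ * ‖S.B x (S.ra x (S.p x)) v‖ := norm_inner_le_norm _ _
    _ ≤ ‖S.T x‖ * ‖v‖ * (‖S.B x (S.ra x (S.p x))‖ * ‖v‖) := by
        gcongr <;> exact ContinuousLinearMap.le_opNorm _ _
    _ ≤ 2 * L * ‖v‖ * (L * ‖S.p x‖ * ‖v‖) := by gcongr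
    _ = _ := by ring

theorem gp_eq (v : V) :
    ⟪S.gp v, v⟫ = 2 * ∫ x, ⟪S.T x v, S.B x (S.ra x (S.p x)) v⟫ ∂S.σ := by
  have e1 : ∀ x, 2 * ⟪S.T x v, S.B x (S.ra x (S.p x)) v⟫ =
      ⟪v, ((S.B x (S.ra x (S.p x))).comp (S.Pu x) + (S.Pu x).comp (S.B x (S.ra x (S.p x)))) v⟫ -
        2 * ⟪S.Pb v, S.B x (S.ra x (S.p x)) v⟫ := by
    intro x
    simp only [Sph.T, _root_.sub_apply, _root_.add_apply,
      ContinuousLinearMap.comp_apply, inner_sub_left, inner_add_right]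
    rw [← h.sB x _ v (S.Pu x v), ← h.sP x v, real_inner_comm (S.Pu x v)]
    ring
  rw [← integral_const_mul]
  simp only [e1]
  rw [integral_sub (iapp h.iBP v v) ((iapp h.iB v _).const_mul 2), integral_const_mul,
    int_app h.iBP, int_app h.iB]
  change _ = ⟪v, S.P2p v⟫ - 2 * ⟪S.Pb v, S.Pbp v⟫
  simp only [Sph.gp, _root_.sub_apply, _root_.add_apply,
    ContinuousLinearMap.comp_apply, inner_sub_left, inner_add_left]
  rw [h.sPbp (S.Pb v) v, h.sPb (S.Pbp v) v, real_inner_comm (S.P2p v) v,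
    real_inner_comm (S.Pb v) (S.Pbp v)]
  ring

omit [CompleteSpace V] in
theorem iTal (v : V) : Integrable (fun x => ⟪S.T x v, S.al1 x⟫) S.σ := by
  refine (h.lp.const_mul (2 * L * ‖v‖ * L)).mono'
    ((h.mT.apply_continuousLinearMap v).inner h.mal) (Eventually.of_forall fun x => ?_)
  have h0 := h.L0
  have h1 := h.nT x
  have h2 := h.nal1 x
  calc _ ≤ ‖S.T x v‖ * ‖S.al1 x‖ := norm_inner_le_norm _ _
    _ ≤ ‖S.T x‖ * ‖v‖ * ‖S.al1 x‖ := by gcongr; exact ContinuousLinearMap.le_opNorm _ _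
    _ ≤ 2 * L * ‖v‖ * (L * ‖S.p x‖ ^ (S.k + 2)) := by gcongr
    _ = _ := by ring

/-- The main identity. -/
theorem NN_eq : S.NN = ⟪S.F - S.Pb S.F, ∫ x, S.al1 x ∂S.σ⟫ -
    ∫ x, ⟪S.T x S.F, S.al1 x - S.B x (S.ra x (S.p x)) S.F⟫ ∂S.σ +
    ∫ x, ⟪S.T x S.F, S.T x S.Fp⟫ ∂S.σ + ⟪S.F, ∫ x, S.h2 x ∂S.σ⟫ := by
  have e1 : S.Fp = ∫ x, S.al1 x ∂S.σ + ∫ x, S.h2 x ∂S.σ := integral_add h.ial1 h.ih2
  have e2 : ∫ x, ⟪S.T x S.F, S.al1 x⟫ ∂S.σ = - ⟪S.Pb S.F, ∫ x, S.al1 x ∂S.σ⟫ := by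
    rw [← int_inner h.ial1, ← integral_neg]
    obtain ⟨T, hT, h1, -⟩ := h.good
    refine integral_congr_ae ?_
    filter_upwards [hT] with x hx
    simp only [Sph.T, _root_.sub_apply, inner_sub_left]
    rw [h.sP, (h1 x hx).2.1, inner_zero_right, zero_sub]
  have e3 : ⟪S.F, S.Fp⟫ = ⟪S.F, ∫ x, S.al1 x ∂S.σ⟫ + ⟪S.F, ∫ x, S.h2 x ∂S.σ⟫ := by
    rw [e1, inner_add_right]
  simp only [inner_sub_right]
  rw [integral_sub (h.iTal _) (h.iTB _), e2, Sph.NN, h.g_eq, h.gp_eq, e3, inner_sub_left]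
  ring

theorem int_uu (x : X) (c : V) : ∫ x', ⟪c, S.u x - S.u x'⟫ ∂S.σ = ⟪c, S.u x - S.y⟫ := by
  have := h.prob
  have i1 : Integrable (fun x' => S.u x - S.u x') S.σ := (integrable_const _).sub h.iu
  rw [int_inner i1, integral_sub (integrable_const _) h.iu, integral_const, probReal_univ,
    one_smul]
  rfl

omit [CompleteSpace V] h in
theorem uu_le (x x' : X) : ‖S.u x - S.u x'‖ ≤ S.z x + S.z x' := by
  calc ‖S.u x - S.u x'‖ = ‖(S.u x - S.y) - (S.u x' - S.y)‖ := by congr 1; abel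
    _ ≤ _ := norm_sub_le _ _

theorem T_le (x : X) : ‖S.T x‖ ≤ L * (S.z x + ∫ x', S.z x' ∂S.σ) := by
  have := h.prob
  have e1 : S.T x = ∫ x', (S.Pu x - S.Pu x') ∂S.σ := by
    rw [integral_sub (integrable_const _) h.iP, integral_const, probReal_univ, one_smul]
    rfl
  have i1 : Integrable (fun x' => S.z x + S.z x') S.σ := (integrable_const _).add h.iz1
  have e2 : L * (S.z x + ∫ x', S.z x' ∂S.σ) = ∫ x', L * (S.z x + S.z x') ∂S.σ := by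
    rw [integral_const_mul, integral_add (integrable_const _) h.iz1, integral_const,
      probReal_univ, one_smul]
  rw [e1, e2]
  exact norm_integral_le_of_norm_le (i1.const_mul L) (Eventually.of_forall fun x' =>
    (h.lP x x').trans (mul_le_mul_of_nonneg_left (uu_le x x') h.L0))

theorem T2_le : ∫ x, ‖S.T x‖ ^ 2 ∂S.σ ≤ 4 * L ^ 2 * ∫ x, S.z x ^ 2 ∂S.σ := by
  have := h.prob
  have hj := jensen_pow h.mz z_nonneg 1 (h.iz 2)
  set m := ∫ x, S.z x ∂S.σ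
  have i1 : Integrable (fun x => S.z x ^ 2 + m ^ 2) S.σ := (h.iz 2).add (integrable_const _)
  have h1 : ∫ x, ‖S.T x‖ ^ 2 ∂S.σ ≤ ∫ x, 2 * L ^ 2 * (S.z x ^ 2 + m ^ 2) ∂S.σ := by
    refine integral_mono h.iT2 (i1.const_mul _) fun x => ?_
    calc ‖S.T x‖ ^ 2 ≤ (L * (S.z x + m)) ^ 2 := pow_le_pow_left₀ (norm_nonneg _) (h.T_le x) 2
      _ ≤ 2 * L ^ 2 * (S.z x ^ 2 + m ^ 2) := by
          nlinarith [mul_nonneg (sq_nonneg L) (sq_nonneg (S.z x - m))]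
  rw [integral_const_mul, integral_add (h.iz 2) (integrable_const _), integral_const,
    probReal_univ, one_smul] at h1
  have h2 : m ^ 2 ≤ ∫ x, S.z x ^ 2 ∂S.σ := hj
  nlinarith [sq_nonneg L]

omit [CompleteSpace V] in
theorem mono_eq (x : X) : ⟪Ap S.k (S.p x) - Ap S.k (S.io x S.a), S.p x - S.io x S.a⟫ =
    ‖S.p x‖ ^ (S.k + 2) - ⟪S.a, S.ra x (Ap S.k (S.p x))⟫ - ⟪Ap S.k S.a, S.ra x (S.p x)⟫ +
      ‖S.a‖ ^ (S.k + 2) := by
  rw [inner_sub_left, inner_sub_right, inner_sub_right, inner_Ap, inner_Ap, h.iso, ← h.adj,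
    h.Ap_io, real_inner_comm (S.p x), ← h.adj, real_inner_comm S.a,
    real_inner_comm (Ap S.k S.a)]
  ring

omit [CompleteSpace V] in
theorem imono : Integrable
    (fun x => ⟪Ap S.k (S.p x) - Ap S.k (S.io x S.a), S.p x - S.io x S.a⟫) S.σ := by
  have := h.prob
  simp only [h.mono_eq]
  exact ((h.lp.sub (h.iF.const_inner _)).sub (h.ira.const_inner _)).add (integrable_const _)

theorem XX_eq : S.XX =
    ∫ x, ⟪Ap S.k (S.p x) - Ap S.k (S.io x S.a), S.p x - S.io x S.a⟫ ∂S.σ := by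
  have := h.prob
  simp only [h.mono_eq]
  have i1 : Integrable (fun x => ⟪S.a, S.ra x (Ap S.k (S.p x))⟫) S.σ := h.iF.const_inner _
  have i2 : Integrable (fun x => ⟪Ap S.k S.a, S.ra x (S.p x)⟫) S.σ := h.ira.const_inner _
  have i3 : Integrable (fun x => ‖S.p x‖ ^ (S.k + 2) - ⟪S.a, S.ra x (Ap S.k (S.p x))⟫) S.σ :=
    h.lp.sub i1
  have i4 : Integrable (fun x => ‖S.p x‖ ^ (S.k + 2) - ⟪S.a, S.ra x (Ap S.k (S.p x))⟫ -
      ⟪Ap S.k S.a, S.ra x (S.p x)⟫) S.σ := i3.sub i2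
  rw [integral_add i4 (integrable_const _), integral_sub i3 i2, integral_sub h.lp i1,
    int_inner h.iF, int_inner h.ira, integral_const, probReal_univ, one_smul]
  change S.e - ⟪S.F, S.a⟫ = S.e - ⟪S.a, S.F⟫ - ⟪Ap S.k S.a, S.a⟫ + _
  rw [inner_Ap, real_inner_comm S.F S.a]
  ring

theorem X0 : 0 ≤ S.XX := by
  rw [h.XX_eq]
  exact integral_nonneg fun x => Ap_mono_nonneg _ _ _

theorem I2_le : ‖S.a‖ ^ S.k * ∫ x, S.Dv x ^ 2 ∂S.σ ≤ 2 * S.XX := by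
  rw [h.XX_eq, ← integral_const_mul, ← integral_const_mul]
  refine integral_mono ((h.iD (by omega)).const_mul _) (h.imono.const_mul _) fun x => ?_
  have := Ap_mono2 S.k (S.p x) (S.io x S.a)
  rwa [h.iso] at this

theorem In_le : ∫ x, S.Dv x ^ (S.k + 2) ∂S.σ ≤ 2 ^ (S.k + 1) * S.XX := by
  rw [h.XX_eq, ← integral_const_mul]
  exact integral_mono (h.iD le_rfl) (h.imono.const_mul _) fun x => Ap_monon S.k _ _

omit [CompleteSpace V] in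
theorem pn_le (x : X) : ‖S.p x‖ ^ (S.k + 2) ≤
    2 ^ (S.k + 2) * (‖S.a‖ ^ (S.k + 2) + S.Dv x ^ (S.k + 2)) :=
  (pow_le_pow_left₀ (norm_nonneg _) (h.p_le x) _).trans
    (add_pow_le_two _ (norm_nonneg _) (Dv_nonneg x))

omit [CompleteSpace V] in
theorem e_le : S.e ≤ 2 ^ (S.k + 2) * (‖S.a‖ ^ (S.k + 2) + ∫ x, S.Dv x ^ (S.k + 2) ∂S.σ) := by
  have := h.prob
  have i1 : Integrable (fun x => ‖S.a‖ ^ (S.k + 2) + S.Dv x ^ (S.k + 2)) S.σ :=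
    (integrable_const _).add (h.iD le_rfl)
  have h1 := integral_mono h.lp (i1.const_mul _) h.pn_le
  rwa [integral_const_mul, integral_add (integrable_const _) (h.iD le_rfl), integral_const,
    probReal_univ, one_smul] at h1

omit [CompleteSpace V] in
theorem an_le : ‖S.a‖ ^ (S.k + 2) ≤ S.e :=
  (pow_le_pow_left₀ (norm_nonneg _) h.na _).trans h.m1_pow

omit [CompleteSpace V] in
theorem Z2_le {l : ℝ} (hz : ∀ᵐ x ∂S.σ, ‖S.u x - S.y‖ ≤ l) : ∫ x, S.z x ^ 2 ∂S.σ ≤ l ^ 2 := by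
  have := h.prob
  have h1 : ∫ x, S.z x ^ 2 ∂S.σ ≤ ∫ _, l ^ 2 ∂S.σ := by
    refine integral_mono_ae (h.iz 2) (integrable_const _) ?_
    filter_upwards [hz] with x hx
    exact pow_le_pow_left₀ (z_nonneg x) hx 2
  rwa [integral_const, probReal_univ, one_smul] at h1

theorem g_sub {l : ℝ} (hz : ∀ᵐ x ∂S.σ, ‖S.u x - S.y‖ ≤ l) :
    ‖S.g - ContinuousLinearMap.id ℝ V‖ ≤ 4 * L ^ 2 * l ^ 2 := by
  have h1 : ∫ x, ‖S.T x‖ ^ 2 ∂S.σ ≤ 4 * L ^ 2 * l ^ 2 :=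
    h.T2_le.trans (mul_le_mul_of_nonneg_left (h.Z2_le hz) (by positivity))
  refine ContinuousLinearMap.opNorm_le_bound _ (by positivity) fun v => ?_
  set w := (S.g - ContinuousLinearMap.id ℝ V) v with hw
  have h2 : ‖w‖ * ‖w‖ ≤ 4 * L ^ 2 * l ^ 2 * ‖v‖ * ‖w‖ := by
    have h3 : ⟪w, w⟫ = ∫ x, ⟪S.T x v, S.T x w⟫ ∂S.σ := by
      have h4 : ⟪w, w⟫ = ⟪S.g v - v, w⟫ := rfl
      rw [h4, inner_sub_left, h.g_eq]; ring
    rw [← real_inner_self_eq_norm_mul_norm, h3, mul_assoc _ ‖v‖]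
    exact (le_abs_self _).trans ((h.abs_TT v w).trans
      (mul_le_mul_of_nonneg_right h1 (by positivity)))
  rcases eq_or_lt_of_le (norm_nonneg w) with h0 | h0
  · rw [← h0]; positivity
  · exact le_of_mul_le_mul_right h2 h0

omit [CompleteSpace V] in
theorem hh_crude {l : ℝ} (hl : 0 ≤ l) (hz : ∀ᵐ x ∂S.σ, ‖S.u x - S.y‖ ≤ l) :
    |S.hh| ≤ 3 * L * l * S.e := by
  rw [Sph.e, ← integral_const_mul, ← Real.norm_eq_abs]
  refine norm_integral_le_of_norm_le (h.lp.const_mul _) ?_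
  filter_upwards [hz, h.nal] with x h1 h2
  have h0 := h.L0
  calc _ ≤ ‖S.al x‖ * ‖S.u x - S.y‖ := norm_inner_le_norm _ _
    _ ≤ 3 * L * ‖S.p x‖ ^ (S.k + 2) * l := by gcongr
    _ = _ := by ring

theorem NN_crude : |S.NN| ≤ (3 * L * (1 + 4 * L ^ 2) + 4 * L ^ 2) * S.e * ‖S.F‖ := by
  have := h.prob
  have h0 := h.L0
  have h1 : ∫ x, ‖S.T x‖ ^ 2 ∂S.σ ≤ 4 * L ^ 2 := by
    have h2 : ∫ x, ‖S.T x‖ ^ 2 ∂S.σ ≤ ∫ _, (2 * L) ^ 2 ∂S.σ :=
      integral_mono h.iT2 (integrable_const _) fun x =>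
        pow_le_pow_left₀ (norm_nonneg _) (h.nT x) 2
    rw [integral_const, probReal_univ, one_smul] at h2
    linarith
  have e0 := h.e0
  have h3 := h.nFp
  have h4 : |⟪S.g S.F, S.Fp⟫| ≤ (1 + 4 * L ^ 2) * (‖S.F‖ * (3 * L * S.e)) := by
    rw [h.g_eq]
    calc _ ≤ |⟪S.F, S.Fp⟫| + |∫ x, ⟪S.T x S.F, S.T x S.Fp⟫ ∂S.σ| := abs_add_le _ _
      _ ≤ ‖S.F‖ * ‖S.Fp‖ + (∫ x, ‖S.T x‖ ^ 2 ∂S.σ) * (‖S.F‖ * ‖S.Fp‖) :=
          add_le_add (abs_real_inner_le_norm _ _) (h.abs_TT _ _)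
      _ ≤ ‖S.F‖ * (3 * L * S.e) + 4 * L ^ 2 * (‖S.F‖ * (3 * L * S.e)) := by gcongr
      _ = _ := by ring
  have h5 : |⟪S.gp S.F, S.F⟫| ≤ 4 * L ^ 2 * (2 * S.e) * ‖S.F‖ := by
    have h6 := h.ngp
    have h7 := h.nFF
    have h8 := h.m10
    calc _ ≤ ‖S.gp S.F‖ * ‖S.F‖ := abs_real_inner_le_norm _ _
      _ ≤ ‖S.gp‖ * ‖S.F‖ * ‖S.F‖ := by gcongr; exact ContinuousLinearMap.le_opNorm _ _
      _ ≤ 4 * L ^ 2 * S.m1 * S.mk1 * ‖S.F‖ := by gcongr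
      _ = 4 * L ^ 2 * (S.m1 * S.mk1) * ‖S.F‖ := by ring
      _ ≤ _ := mul_le_mul_of_nonneg_right
          (mul_le_mul_of_nonneg_left h.m1_mk1 (by positivity)) (norm_nonneg _)
  calc |S.NN| ≤ |⟪S.g S.F, S.Fp⟫| + |⟪S.gp S.F, S.F⟫ / 2| := abs_add_le _ _
    _ = |⟪S.g S.F, S.Fp⟫| + |⟪S.gp S.F, S.F⟫| / 2 := by rw [abs_div, abs_two]
    _ ≤ (1 + 4 * L ^ 2) * (‖S.F‖ * (3 * L * S.e)) + 4 * L ^ 2 * (2 * S.e) * ‖S.F‖ / 2 := by gcongr
    _ = _ := by ring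

end Ok

end Pool.Agent.Lib.MP_a785f2_an.LY.Sph
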