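import Pool.Agent.Lib.MP_a785f2_an.LY.SphC

open MeasureTheory Filter
open scoped RealInnerProductSpace

namespace Pool.Agent.Lib.MP_a785f2_an.LY.Sph

variable {X V W : Type} [MeasurableSpace X] [NormedAddCommGroup V] [InnerProductSpace ℝ V]
  [CompleteSpace V] [NormedAddCommGroup W] [InnerProductSpace ℝ W] {S : Sph X V W} {L : ℝ}

/-- The pointwise majorant. -/
noncomputable def q (S : Sph X V W) (x : X) : ℝ :=
  ‖S.a‖ ^ S.k * ‖S.T x‖ ^ 2 + ‖S.a‖ ^ S.k * S.Dv x ^ 2 + S.Dv x ^ (S.k + 2)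

/-- Deviation of the flux from the radial model. -/
noncomputable def hv (S : Sph X V W) (x : X) : ℝ := ‖Ap S.k (S.p x) - S.io x (Ap S.k S.a)‖

theorem alg1 (k : ℕ) {a t D L : ℝ} (ha : 0 ≤ a) (ha1 : a ≤ 1) (ht : 0 ≤ t) (hD : 0 ≤ D)
    (hL : 1 ≤ L) (htL : t ≤ 2 * L) :
    t * (a ^ (k + 1) * D + D ^ (k + 2)) ≤ 2 * L * (a ^ k * t ^ 2 + a ^ k * D ^ 2 + D ^ (k + 2)) := by
  have h1 : t * D ≤ t ^ 2 + D ^ 2 := by nlinarith [sq_nonneg (t - D), mul_nonneg ht hD]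
  have h2 : a ^ (k + 1) ≤ a ^ k := pow_le_pow_of_le_one ha ha1 (Nat.le_succ k)
  have h3 : 0 ≤ a ^ k * (t ^ 2 + D ^ 2) := by positivity
  calc t * (a ^ (k + 1) * D + D ^ (k + 2)) = a ^ (k + 1) * (t * D) + t * D ^ (k + 2) := by ring
    _ ≤ a ^ k * (t ^ 2 + D ^ 2) + 2 * L * D ^ (k + 2) := by gcongr
    _ ≤ 2 * L * (a ^ k * (t ^ 2 + D ^ 2)) + 2 * L * D ^ (k + 2) := by nlinarith
    _ = _ := by ring

namespace Ok

variable (h : S.Ok L)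
include h

omit [CompleteSpace V] in
theorem iq : Integrable S.q S.σ :=
  ((h.iT2.const_mul _).add ((h.iD (by omega)).const_mul _)).add (h.iD le_rfl)

omit [CompleteSpace V] in
theorem int_q : ∫ x, S.q x ∂S.σ = ‖S.a‖ ^ S.k * ∫ x, ‖S.T x‖ ^ 2 ∂S.σ +
    ‖S.a‖ ^ S.k * ∫ x, S.Dv x ^ 2 ∂S.σ + ∫ x, S.Dv x ^ (S.k + 2) ∂S.σ := by
  have i1 : Integrable (fun x => ‖S.a‖ ^ S.k * ‖S.T x‖ ^ 2) S.σ := h.iT2.const_mul _
  have i2 : Integrable (fun x => ‖S.a‖ ^ S.k * S.Dv x ^ 2) S.σ := (h.iD (by omega)).const_mul _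
  have i3 : Integrable (fun x => ‖S.a‖ ^ S.k * ‖S.T x‖ ^ 2 + ‖S.a‖ ^ S.k * S.Dv x ^ 2) S.σ :=
    i1.add i2
  simp only [Sph.q]
  rw [integral_add i3 (h.iD le_rfl), integral_add i1 i2, integral_const_mul, integral_const_mul]

omit [CompleteSpace V] in
theorem hv_le (x : X) : S.hv x ≤ (S.k + 1) * ((‖S.a‖ + S.Dv x) ^ S.k * S.Dv x) := by
  have := Ap_lip S.k (S.p x) (S.io x S.a)
  rw [h.iso, h.Ap_io, mul_assoc] at this
  exact this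

omit [CompleteSpace V] in
theorem a_hv (x : X) : ‖S.a‖ * S.hv x ≤
    (S.k + 1) * 2 ^ S.k * (‖S.a‖ ^ (S.k + 1) * S.Dv x + S.Dv x ^ (S.k + 2)) := by
  calc ‖S.a‖ * S.hv x ≤ ‖S.a‖ * ((S.k + 1) * ((‖S.a‖ + S.Dv x) ^ S.k * S.Dv x)) :=
        mul_le_mul_of_nonneg_left (h.hv_le x) (norm_nonneg _)
    _ = (S.k + 1) * (‖S.a‖ * ((‖S.a‖ + S.Dv x) ^ S.k * S.Dv x)) := by ring
    _ ≤ (S.k + 1) * (2 ^ S.k * (‖S.a‖ ^ (S.k + 1) * S.Dv x + S.Dv x ^ (S.k + 2))) :=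
        mul_le_mul_of_nonneg_left (split_pow _ (norm_nonneg _) (Dv_nonneg x)) (by positivity)
    _ = _ := by ring

omit [CompleteSpace V] in
theorem p_hv (x : X) : ‖S.p x‖ * S.hv x ≤
    (S.k + 1) * 2 ^ (S.k + 1) * (‖S.a‖ ^ (S.k + 1) * S.Dv x + S.Dv x ^ (S.k + 2)) := by
  have hD := Dv_nonneg (S := S) x
  calc ‖S.p x‖ * S.hv x ≤ (‖S.a‖ + S.Dv x) * ((S.k + 1) * ((‖S.a‖ + S.Dv x) ^ S.k * S.Dv x)) :=
        mul_le_mul (h.p_le x) (h.hv_le x) (norm_nonneg _) (by positivity)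
    _ = (S.k + 1) * ((‖S.a‖ + S.Dv x) ^ (S.k + 1) * S.Dv x) := by ring
    _ ≤ (S.k + 1) * (2 ^ (S.k + 1) * (‖S.a‖ ^ (S.k + 1) * S.Dv x + S.Dv x ^ (S.k + 2))) :=
        mul_le_mul_of_nonneg_left (split_pow' _ (norm_nonneg _) hD) (by positivity)
    _ = _ := by ring

omit [CompleteSpace V] in
theorem ra_hv (x : X) : ‖S.ra x (Ap S.k (S.p x)) - Ap S.k S.a‖ ≤ S.hv x := by
  have := h.norm_ra x (Ap S.k (S.p x) - S.io x (Ap S.k S.a))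
  rwa [map_sub, h.ra_io] at this

/-- The term with the normal part of the flux. -/
theorem term3 (ha1 : ‖S.a‖ ≤ 1) : ‖S.a‖ * ‖S.F - S.Pb S.F‖ ≤
    (S.k + 1) * 2 ^ S.k * (2 * L) * ∫ x, S.q x ∂S.σ := by
  have := h.prob
  have i1 : Integrable (fun x => S.Pb (S.ra x (Ap S.k (S.p x)))) S.σ := S.Pb.integrable_comp h.iF
  have i2 : Integrable (fun x => S.ra x (Ap S.k (S.p x)) - S.Pb (S.ra x (Ap S.k (S.p x)))) S.σ :=
    h.iF.sub i1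
  have i3 : Integrable (fun x => S.T x (Ap S.k S.a)) S.σ := h.iT.apply_continuousLinearMap _
  have e1 : S.F - S.Pb S.F = ∫ x, S.T x (S.ra x (Ap S.k (S.p x)) - Ap S.k S.a) ∂S.σ := by
    have e2 : ∫ x, S.T x (S.ra x (Ap S.k (S.p x)) - Ap S.k S.a) ∂S.σ =
        ∫ x, ((S.ra x (Ap S.k (S.p x)) - S.Pb (S.ra x (Ap S.k (S.p x)))) -
          S.T x (Ap S.k S.a)) ∂S.σ := by
      obtain ⟨T, hT, h1, -⟩ := h.good
      refine integral_congr_ae ?_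
      filter_upwards [hT] with x hx
      have e3 : S.Pu x (S.ra x (Ap S.k (S.p x))) = S.ra x (Ap S.k (S.p x)) := by
        simp only [Ap, map_smul, (h1 x hx).1]
      rw [map_sub]
      congr 1
      rw [Sph.T, _root_.sub_apply, e3]
    rw [e2, integral_sub i2 i3, integral_sub h.iF i1, S.Pb.integral_comp_comm h.iF,
      ← ContinuousLinearMap.integral_apply h.iT, h.intT]
    simp [Sph.F]
  have e4 : ‖S.a‖ * ‖S.F - S.Pb S.F‖ =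
      ‖∫ x, ‖S.a‖ • S.T x (S.ra x (Ap S.k (S.p x)) - Ap S.k S.a) ∂S.σ‖ := by
    rw [integral_smul, ← e1, norm_smul, norm_norm]
  rw [e4, ← integral_const_mul]
  refine norm_integral_le_of_norm_le (h.iq.const_mul _) (Eventually.of_forall fun x => ?_)
  have h2 := h.ra_hv x
  rw [norm_smul, norm_norm]
  calc _ ≤ ‖S.a‖ * (‖S.T x‖ * S.hv x) := by
        gcongr; exact ((S.T x).le_opNorm _).trans (by gcongr)
    _ = ‖S.T x‖ * (‖S.a‖ * S.hv x) := by ring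
    _ ≤ ‖S.T x‖ * ((S.k + 1) * 2 ^ S.k * (‖S.a‖ ^ (S.k + 1) * S.Dv x + S.Dv x ^ (S.k + 2))) :=
        mul_le_mul_of_nonneg_left (h.a_hv x) (norm_nonneg _)
    _ = (S.k + 1) * 2 ^ S.k * (‖S.T x‖ * (‖S.a‖ ^ (S.k + 1) * S.Dv x + S.Dv x ^ (S.k + 2))) := by
        ring
    _ ≤ (S.k + 1) * 2 ^ S.k * (2 * L * S.q x) :=
        mul_le_mul_of_nonneg_left (alg1 _ (norm_nonneg _) ha1 (norm_nonneg _) (Dv_nonneg x) h.L1
          (h.nT x)) (by positivity)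
    _ = _ := by ring

/-- The mean flux against the model flux, first bound. -/
theorem phi1 : ‖S.a‖ * ‖Ap S.k S.a - S.F‖ ≤ (S.k + 1) * 2 ^ S.k *
    (‖S.a‖ ^ (S.k + 1) * ∫ x, S.Dv x ∂S.σ + ∫ x, S.Dv x ^ (S.k + 2) ∂S.σ) := by
  have := h.prob
  have e1 : S.F - Ap S.k S.a = ∫ x, (S.ra x (Ap S.k (S.p x)) - Ap S.k S.a) ∂S.σ := by
    rw [integral_sub h.iF (integrable_const _), integral_const, probReal_univ, one_smul]
    rfl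
  have e4 : ‖S.a‖ * ‖Ap S.k S.a - S.F‖ =
      ‖∫ x, ‖S.a‖ • (S.ra x (Ap S.k (S.p x)) - Ap S.k S.a) ∂S.σ‖ := by
    rw [integral_smul, ← e1, norm_smul, norm_norm, norm_sub_rev]
  have i1 : Integrable (fun x => ‖S.a‖ ^ (S.k + 1) * S.Dv x) S.σ := h.iD1.const_mul _
  have i2 : Integrable (fun x => ‖S.a‖ ^ (S.k + 1) * S.Dv x + S.Dv x ^ (S.k + 2)) S.σ :=
    i1.add (h.iD le_rfl)
  rw [e4, ← integral_const_mul, ← integral_add i1 (h.iD le_rfl), ← integral_const_mul]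
  refine norm_integral_le_of_norm_le (i2.const_mul _) (Eventually.of_forall fun x => ?_)
  rw [norm_smul, norm_norm]
  exact (mul_le_mul_of_nonneg_left (h.ra_hv x) (norm_nonneg _)).trans (h.a_hv x)

omit [CompleteSpace V] in
/-- The mean flux against the model flux, second bound. -/
theorem phi2 (ha0 : 0 < ‖S.a‖) (ha1 : ‖S.a‖ ≤ 1) {K : ℝ} (hK : 0 ≤ K)
    (he : S.e ≤ K * ‖S.a‖ ^ (S.k + 2)) : ‖Ap S.k S.a - S.F‖ ≤ (1 + 2 * K) * ‖S.a‖ ^ S.k := by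
  have h1 : ‖S.a‖ * ‖S.F‖ ≤ 2 * (K * ‖S.a‖ ^ (S.k + 2)) :=
    (mul_le_mul h.na h.nFF (norm_nonneg _) h.m10).trans (h.m1_mk1.trans (by linarith))
  have h2 : ‖S.F‖ ≤ 2 * K * ‖S.a‖ ^ (S.k + 1) := by
    refine le_of_mul_le_mul_left (h1.trans (le_of_eq ?_)) ha0
    ring
  have h3 : ‖S.a‖ ^ (S.k + 1) ≤ ‖S.a‖ ^ S.k :=
    pow_le_pow_of_le_one (norm_nonneg _) ha1 (Nat.le_succ _)
  calc _ ≤ ‖Ap S.k S.a‖ + ‖S.F‖ := norm_sub_le _ _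
    _ ≤ ‖S.a‖ ^ (S.k + 1) + 2 * K * ‖S.a‖ ^ (S.k + 1) := by rw [norm_Ap]; gcongr
    _ = (1 + 2 * K) * ‖S.a‖ ^ (S.k + 1) := by ring
    _ ≤ _ := by gcongr

end Ok

end Pool.Agent.Lib.MP_a785f2_an.LY.Sph
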