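import Mathlib

/-!
Data on one sphere (a probability space) for the trunk argument.
`V` is the target, `W` the space of gradients; `io x a` is the rank one gradient with radial
column `a`, `ra x q` the radial column of `q`.
-/

open MeasureTheory
open scoped RealInnerProductSpace

namespace Pool.Agent.Lib.MP_a785f2_an.LY

/-- The map `q ↦ |q|^k q`. -/
noncomputable def Ap {W : Type} [NormedAddCommGroup W] [NormedSpace ℝ W] (k : ℕ) (q : W) : W :=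
  ‖q‖ ^ k • q

/-- The functions on one sphere; the dimension is `k + 2`. -/
structure Sph (X V W : Type) [MeasurableSpace X] [NormedAddCommGroup V] [InnerProductSpace ℝ V]
    [NormedAddCommGroup W] [InnerProductSpace ℝ W] where
  σ : Measure X
  k : ℕ
  u : X → V
  p : X → W
  io : X → V →L[ℝ] W
  ra : X → W →L[ℝ] V
  be : X → W →L[ℝ] W →L[ℝ] V
  B : X → V →L[ℝ] V →L[ℝ] V
  Pu : X → V →L[ℝ] V
  h2 : X → V

namespace Sph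

variable {X V W : Type} [MeasurableSpace X] [NormedAddCommGroup V] [InnerProductSpace ℝ V]
  [NormedAddCommGroup W] [InnerProductSpace ℝ W] (S : Sph X V W)

noncomputable def e : ℝ := ∫ x, ‖S.p x‖ ^ (S.k + 2) ∂S.σ
noncomputable def m1 : ℝ := ∫ x, ‖S.p x‖ ∂S.σ
noncomputable def mk1 : ℝ := ∫ x, ‖S.p x‖ ^ (S.k + 1) ∂S.σ
noncomputable def y : V := ∫ x, S.u x ∂S.σ
noncomputable def a : V := ∫ x, S.ra x (S.p x) ∂S.σ
noncomputable def F : V := ∫ x, S.ra x (Ap S.k (S.p x)) ∂S.σ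
noncomputable def al1 (x : X) : V := S.be x (S.p x) (Ap S.k (S.p x))
noncomputable def al (x : X) : V := S.al1 x + S.h2 x
noncomputable def Fp : V := ∫ x, S.al x ∂S.σ
noncomputable def Pb : V →L[ℝ] V := ∫ x, S.Pu x ∂S.σ
noncomputable def P2 : V →L[ℝ] V := ∫ x, (S.Pu x).comp (S.Pu x) ∂S.σ
noncomputable def g : V →L[ℝ] V := ContinuousLinearMap.id ℝ V + S.P2 - S.Pb.comp S.Pb
noncomputable def Pbp : V →L[ℝ] V := ∫ x, S.B x (S.ra x (S.p x)) ∂S.σ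
noncomputable def P2p : V →L[ℝ] V :=
  ∫ x, ((S.B x (S.ra x (S.p x))).comp (S.Pu x) + (S.Pu x).comp (S.B x (S.ra x (S.p x)))) ∂S.σ
noncomputable def gp : V →L[ℝ] V := S.P2p - (S.Pbp.comp S.Pb + S.Pb.comp S.Pbp)
noncomputable def NN : ℝ := ⟪S.g S.F, S.Fp⟫ + ⟪S.gp S.F, S.F⟫ / 2
noncomputable def XX : ℝ := S.e - ⟪S.F, S.a⟫
noncomputable def hh : ℝ := ∫ x, ⟪S.al x, S.u x - S.y⟫ ∂S.σ

/-- The standing hypotheses. -/
structure Ok (L : ℝ) : Prop where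
  prob : IsProbabilityMeasure S.σ
  L1 : 1 ≤ L
  mu : AEStronglyMeasurable S.u S.σ
  mp : AEStronglyMeasurable S.p S.σ
  mio : ∀ c, AEStronglyMeasurable (fun x => S.io x c) S.σ
  mr : AEStronglyMeasurable (fun x => S.ra x (S.p x)) S.σ
  mal : AEStronglyMeasurable S.al1 S.σ
  mh : AEStronglyMeasurable S.h2 S.σ
  mB : AEStronglyMeasurable (fun x => S.B x (S.ra x (S.p x))) S.σ
  mP : AEStronglyMeasurable S.Pu S.σ
  lp : Integrable (fun x => ‖S.p x‖ ^ (S.k + 2)) S.σ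
  bu : ∀ᵐ x ∂S.σ, ‖S.u x‖ ≤ L
  adj : ∀ x q c, ⟪S.ra x q, c⟫ = ⟪q, S.io x c⟫
  iso : ∀ x c, ‖S.io x c‖ = ‖c‖
  bbe : ∀ x q q', ‖S.be x q q'‖ ≤ L * ‖q‖ * ‖q'‖
  beio : ∀ x q c, S.be x q (S.io x c) = S.B x (S.ra x q) c
  bB : ∀ x c, ‖S.B x c‖ ≤ L * ‖c‖
  sB : ∀ x c v w, ⟪S.B x c v, w⟫ = ⟪v, S.B x c w⟫
  bP : ∀ x, ‖S.Pu x‖ ≤ L
  sP : ∀ x v w, ⟪S.Pu x v, w⟫ = ⟪v, S.Pu x w⟫
  lP : ∀ x x', ‖S.Pu x - S.Pu x'‖ ≤ L * ‖S.u x - S.u x'‖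
  good : ∃ T : Set X, (∀ᵐ x ∂S.σ, x ∈ T) ∧
    (∀ x ∈ T, S.Pu x (S.ra x (S.p x)) = S.ra x (S.p x) ∧ S.Pu x (S.al1 x) = 0 ∧
      ∀ c, ‖S.h2 x‖ ≤ L * (‖c‖ ^ S.k * ‖S.p x - S.io x c‖ ^ 2 + ‖S.p x - S.io x c‖ ^ (S.k + 2))) ∧
    ∀ x ∈ T, ∀ x' ∈ T,
      |⟪S.al1 x, S.u x - S.u x'⟫| ≤ L * ‖S.p x‖ ^ (S.k + 2) * ‖S.u x - S.u x'‖ ^ 2

end Sph

end Pool.Agent.Lib.MP_a785f2_an.LY
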