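import Pool.Agent.Lib.MP_a785f2_an.LY.SphD

open MeasureTheory Filter
open scoped RealInnerProductSpace

namespace Pool.Agent.Lib.MP_a785f2_an.LY.Sph

variable {X V W : Type} [MeasurableSpace X] [NormedAddCommGroup V] [InnerProductSpace ℝ V]
  [CompleteSpace V] [NormedAddCommGroup W] [InnerProductSpace ℝ W] {S : Sph X V W} {L : ℝ}

namespace Ok

variable (h : S.Ok L)
include h

omit [CompleteSpace V] h in
theorem q0 (x : X) : 0 ≤ S.q x := by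
  have := Dv_nonneg (S := S) x
  unfold Sph.q; positivity

theorem tau_phi (ha1 : ‖S.a‖ ≤ 1) : ‖S.a‖ * ‖Ap S.k S.a - S.F‖ * ∫ x, ‖S.T x‖ ∂S.σ ≤
    (S.k + 1) * 2 ^ S.k * (2 * L) * ∫ x, S.q x ∂S.σ := by
  have := h.prob
  have j1 : (∫ x, ‖S.T x‖ ∂S.σ) ^ 2 ≤ ∫ x, ‖S.T x‖ ^ 2 ∂S.σ :=
    jensen_pow h.mT.norm (fun _ => norm_nonneg _) 1 h.iT2
  have j2 : (∫ x, S.Dv x ∂S.σ) ^ 2 ≤ ∫ x, S.Dv x ^ 2 ∂S.σ :=
    jensen_pow h.mD Dv_nonneg 1 (h.iD (by omega))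
  have t0 : 0 ≤ ∫ x, ‖S.T x‖ ∂S.σ := integral_nonneg fun _ => norm_nonneg _
  have t1 : ∫ x, ‖S.T x‖ ∂S.σ ≤ 2 * L := by
    have h2 : ∫ x, ‖S.T x‖ ∂S.σ ≤ ∫ _, 2 * L ∂S.σ :=
      integral_mono h.iT.norm (integrable_const _) h.nT
    rwa [integral_const, probReal_univ, one_smul] at h2
  have d0 : 0 ≤ ∫ x, S.Dv x ∂S.σ := integral_nonneg Dv_nonneg
  have n0 : 0 ≤ ∫ x, S.Dv x ^ (S.k + 2) ∂S.σ :=
    integral_nonneg fun x => pow_nonneg (Dv_nonneg x) _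
  have h2 : ‖S.a‖ ^ (S.k + 1) ≤ ‖S.a‖ ^ S.k :=
    pow_le_pow_of_le_one (norm_nonneg _) ha1 (Nat.le_succ _)
  have h3 := h.phi1
  have hL := h.L1
  rw [h.int_q]
  set t := ∫ x, ‖S.T x‖ ∂S.σ
  set d := ∫ x, S.Dv x ∂S.σ
  set n := ∫ x, S.Dv x ^ (S.k + 2) ∂S.σ
  set t2 := ∫ x, ‖S.T x‖ ^ 2 ∂S.σ
  set d2 := ∫ x, S.Dv x ^ 2 ∂S.σ
  have h4 : t * d ≤ t2 + d2 := by nlinarith [sq_nonneg (t - d), mul_nonneg t0 d0]
  have h5 : 0 ≤ ‖S.a‖ ^ S.k * (t2 + d2) :=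
    mul_nonneg (by positivity) ((mul_nonneg t0 d0).trans h4)
  calc _ ≤ (S.k + 1) * 2 ^ S.k * (‖S.a‖ ^ (S.k + 1) * d + n) * t := by gcongr
    _ = (S.k + 1) * 2 ^ S.k * (‖S.a‖ ^ (S.k + 1) * (t * d) + t * n) := by ring
    _ ≤ (S.k + 1) * 2 ^ S.k * (‖S.a‖ ^ S.k * (t2 + d2) + 2 * L * n) := by gcongr
    _ ≤ (S.k + 1) * 2 ^ S.k * (2 * L * (‖S.a‖ ^ S.k * (t2 + d2)) + 2 * L * n) :=
        mul_le_mul_of_nonneg_left (by nlinarith) (by positivity)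
    _ = _ := by ring

theorem term4 (ha1 : ‖S.a‖ ≤ 1) {M : ℝ} (hM : 0 ≤ M)
    (hφ : ‖Ap S.k S.a - S.F‖ ≤ M * ‖S.a‖ ^ S.k) :
    |∫ x, ⟪S.T x S.F, S.al1 x - S.B x (S.ra x (S.p x)) S.F⟫ ∂S.σ| ≤
      L * ((S.k + 1) * 2 ^ (S.k + 1) * (2 * L) + M + (S.k + 1) * 2 ^ S.k * (2 * L)) *
        (∫ x, S.q x ∂S.σ) * ‖S.F‖ := by
  have h0 := h.L0
  set φ := ‖Ap S.k S.a - S.F‖ with hφd
  set c : ℝ := (S.k + 1) * 2 ^ (S.k + 1) * (2 * L) + M with hc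
  have i1 : Integrable (fun x => c * S.q x) S.σ := h.iq.const_mul _
  have i2 : Integrable (fun x => ‖S.a‖ * φ * ‖S.T x‖) S.σ := h.iT.norm.const_mul _
  have i3 : Integrable (fun x => c * S.q x + ‖S.a‖ * φ * ‖S.T x‖) S.σ := i1.add i2
  have h1 : ‖∫ x, ⟪S.T x S.F, S.al1 x - S.B x (S.ra x (S.p x)) S.F⟫ ∂S.σ‖ ≤
      ∫ x, L * ‖S.F‖ * (c * S.q x + ‖S.a‖ * φ * ‖S.T x‖) ∂S.σ := by
    refine norm_integral_le_of_norm_le (i3.const_mul _) (Eventually.of_forall fun x => ?_)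
    have hD := Dv_nonneg (S := S) x
    have φ0 : 0 ≤ φ := norm_nonneg _
    have e1 : S.al1 x - S.B x (S.ra x (S.p x)) S.F =
        S.be x (S.p x) (Ap S.k (S.p x) - S.io x S.F) := by
      rw [map_sub, h.beio]; rfl
    have h2 : ‖Ap S.k (S.p x) - S.io x S.F‖ ≤ S.hv x + φ := by
      rw [hφd, ← h.iso x (Ap S.k S.a - S.F), map_sub]
      calc _ = ‖(Ap S.k (S.p x) - S.io x (Ap S.k S.a)) +
            (S.io x (Ap S.k S.a) - S.io x S.F)‖ := by congr 1; abel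
        _ ≤ _ := norm_add_le _ _
    have h3 : ‖S.T x‖ * (‖S.p x‖ * S.hv x) ≤ (S.k + 1) * 2 ^ (S.k + 1) * (2 * L) * S.q x := by
      calc _ ≤ ‖S.T x‖ * ((S.k + 1) * 2 ^ (S.k + 1) *
            (‖S.a‖ ^ (S.k + 1) * S.Dv x + S.Dv x ^ (S.k + 2))) :=
            mul_le_mul_of_nonneg_left (h.p_hv x) (norm_nonneg _)
        _ = (S.k + 1) * 2 ^ (S.k + 1) *
            (‖S.T x‖ * (‖S.a‖ ^ (S.k + 1) * S.Dv x + S.Dv x ^ (S.k + 2))) := by ring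
        _ ≤ (S.k + 1) * 2 ^ (S.k + 1) * (2 * L * S.q x) :=
            mul_le_mul_of_nonneg_left (alg1 _ (norm_nonneg _) ha1 (norm_nonneg _) hD h.L1
              (h.nT x)) (by positivity)
        _ = _ := by ring
    have h4 : φ * (‖S.T x‖ * S.Dv x) ≤ M * S.q x := by
      have h5 : ‖S.T x‖ * S.Dv x ≤ ‖S.T x‖ ^ 2 + S.Dv x ^ 2 := by
        nlinarith [sq_nonneg (‖S.T x‖ - S.Dv x), mul_nonneg (norm_nonneg (S.T x)) hD]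
      calc _ ≤ M * ‖S.a‖ ^ S.k * (‖S.T x‖ ^ 2 + S.Dv x ^ 2) := by gcongr
        _ = M * (‖S.a‖ ^ S.k * ‖S.T x‖ ^ 2 + ‖S.a‖ ^ S.k * S.Dv x ^ 2) := by ring
        _ ≤ M * S.q x := mul_le_mul_of_nonneg_left
            (le_add_of_nonneg_right (pow_nonneg hD _)) hM
    have h6 := h.p_le x
    have hv0 : 0 ≤ S.hv x := norm_nonneg _
    rw [e1]
    calc _ ≤ ‖S.T x S.F‖ * ‖S.be x (S.p x) (Ap S.k (S.p x) - S.io x S.F)‖ :=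
          norm_inner_le_norm _ _
      _ ≤ ‖S.T x‖ * ‖S.F‖ * (L * ‖S.p x‖ * (S.hv x + φ)) :=
          mul_le_mul ((S.T x).le_opNorm _) ((h.bbe _ _ _).trans (by gcongr)) (norm_nonneg _)
            (by positivity)
      _ = L * ‖S.F‖ * (‖S.T x‖ * (‖S.p x‖ * S.hv x) + φ * ‖S.T x‖ * ‖S.p x‖) := by ring
      _ ≤ L * ‖S.F‖ * (‖S.T x‖ * (‖S.p x‖ * S.hv x) + φ * ‖S.T x‖ * (‖S.a‖ + S.Dv x)) := by
          gcongr
      _ = L * ‖S.F‖ * (‖S.T x‖ * (‖S.p x‖ * S.hv x) + φ * (‖S.T x‖ * S.Dv x) +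
            ‖S.a‖ * φ * ‖S.T x‖) := by ring
      _ ≤ L * ‖S.F‖ * ((S.k + 1) * 2 ^ (S.k + 1) * (2 * L) * S.q x + M * S.q x +
            ‖S.a‖ * φ * ‖S.T x‖) := by gcongr
      _ = _ := by rw [hc]; ring
  rw [integral_const_mul, integral_add i1 i2, integral_const_mul, integral_const_mul,
    Real.norm_eq_abs] at h1
  have h7 := h.tau_phi ha1
  calc _ ≤ _ := h1
    _ ≤ L * ‖S.F‖ * (c * ∫ x, S.q x ∂S.σ +
          (S.k + 1) * 2 ^ S.k * (2 * L) * ∫ x, S.q x ∂S.σ) := by gcongr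
    _ = _ := by ring

omit [CompleteSpace V] in
theorem h2_le : ∀ᵐ x ∂S.σ, ‖S.h2 x‖ ≤ L * (‖S.a‖ ^ S.k * S.Dv x ^ 2 + S.Dv x ^ (S.k + 2)) := by
  obtain ⟨T, hT, h1, -⟩ := h.good
  filter_upwards [hT] with x hx
  exact (h1 x hx).2.2 S.a

omit [CompleteSpace V] in
theorem term1 : ‖∫ x, S.h2 x ∂S.σ‖ ≤ L * ∫ x, S.q x ∂S.σ := by
  rw [← integral_const_mul]
  refine norm_integral_le_of_norm_le (h.iq.const_mul _) ?_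
  filter_upwards [h.h2_le] with x hx
  refine hx.trans (mul_le_mul_of_nonneg_left ?_ h.L0)
  have : 0 ≤ ‖S.a‖ ^ S.k * ‖S.T x‖ ^ 2 := by positivity
  unfold Sph.q; linarith

/-- The bound in the main case. -/
theorem NN_main (ha0 : 0 < ‖S.a‖) (ha1 : ‖S.a‖ ≤ 1) {K : ℝ} (hK : 0 ≤ K)
    (he : S.e ≤ K * ‖S.a‖ ^ (S.k + 2)) (hX : 2 * S.XX ≤ S.e) :
    S.NN ≤ (2 * L * ((S.k + 1) * 2 ^ S.k * (2 * L)) +
      L * ((S.k + 1) * 2 ^ (S.k + 1) * (2 * L) + (1 + 2 * K) + (S.k + 1) * 2 ^ S.k * (2 * L)) +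
      3 * L * K + L) * (∫ x, S.q x ∂S.σ) * ‖S.F‖ := by
  have h0 := h.L0
  have e0 := h.e0
  have t4 := h.term4 ha1 (by positivity) (h.phi2 ha0 ha1 hK he)
  have t3 := h.term3 ha1
  have t1 := h.term1
  have hF : S.e ≤ 2 * (‖S.F‖ * ‖S.a‖) := by
    have h1 := real_inner_le_norm S.F S.a
    unfold Sph.XX at hX
    linarith
  have hA : ‖∫ x, S.al1 x ∂S.σ‖ ≤ L * S.e := by
    rw [Sph.e, ← integral_const_mul]
    exact norm_integral_le_of_norm_le (h.lp.const_mul _) (Eventually.of_forall h.nal1)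
  have hQ : ‖S.a‖ ^ S.k * ∫ x, ‖S.T x‖ ^ 2 ∂S.σ ≤ ∫ x, S.q x ∂S.σ := by
    rw [← integral_const_mul]
    refine integral_mono (h.iT2.const_mul _) h.iq fun x => ?_
    have hD := Dv_nonneg (S := S) x
    have h1 : 0 ≤ ‖S.a‖ ^ S.k * S.Dv x ^ 2 + S.Dv x ^ (S.k + 2) := by positivity
    unfold Sph.q; linarith
  have t20 : 0 ≤ ∫ x, ‖S.T x‖ ^ 2 ∂S.σ := integral_nonneg fun _ => by positivity
  have hak : ‖S.a‖ ^ (S.k + 2) ≤ ‖S.a‖ ^ S.k :=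
    pow_le_pow_of_le_one (norm_nonneg _) ha1 (Nat.le_add_right _ _)
  have hFp : ‖S.Fp‖ ≤ 3 * L * (K * ‖S.a‖ ^ S.k) :=
    h.nFp.trans (mul_le_mul_of_nonneg_left (he.trans (mul_le_mul_of_nonneg_left hak hK))
      (by positivity))
  set Q := ∫ x, S.q x ∂S.σ
  have b3 : ⟪S.F - S.Pb S.F, ∫ x, S.al1 x ∂S.σ⟫ ≤
      2 * L * ((S.k + 1) * 2 ^ S.k * (2 * L)) * Q * ‖S.F‖ := by
    calc _ ≤ ‖S.F - S.Pb S.F‖ * ‖∫ x, S.al1 x ∂S.σ‖ := real_inner_le_norm _ _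
      _ ≤ ‖S.F - S.Pb S.F‖ * (L * (2 * (‖S.F‖ * ‖S.a‖))) :=
          mul_le_mul_of_nonneg_left (hA.trans (mul_le_mul_of_nonneg_left hF h0)) (norm_nonneg _)
      _ = 2 * L * (‖S.a‖ * ‖S.F - S.Pb S.F‖) * ‖S.F‖ := by ring
      _ ≤ 2 * L * ((S.k + 1) * 2 ^ S.k * (2 * L) * Q) * ‖S.F‖ := by gcongr
      _ = _ := by ring
  have b2 : ∫ x, ⟪S.T x S.F, S.T x S.Fp⟫ ∂S.σ ≤ 3 * L * K * Q * ‖S.F‖ := by
    calc _ ≤ _ := (le_abs_self _).trans (h.abs_TT _ _)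
      _ ≤ (∫ x, ‖S.T x‖ ^ 2 ∂S.σ) * (‖S.F‖ * (3 * L * (K * ‖S.a‖ ^ S.k))) := by gcongr
      _ = 3 * L * K * (‖S.a‖ ^ S.k * ∫ x, ‖S.T x‖ ^ 2 ∂S.σ) * ‖S.F‖ := by ring
      _ ≤ _ := by gcongr
  have b1 : ⟪S.F, ∫ x, S.h2 x ∂S.σ⟫ ≤ L * Q * ‖S.F‖ := by
    rw [mul_comm]
    exact (real_inner_le_norm _ _).trans (mul_le_mul_of_nonneg_left t1 (norm_nonneg _))
  have b4 := (neg_le_abs _).trans t4
  rw [h.NN_eq]
  linarith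

theorem Q_le {Cp dd : ℝ} (hCp : 1 ≤ Cp) (hdd : 0 ≤ dd)
    (hP : ∫ x, ‖S.u x - S.y‖ ^ 2 ∂S.σ ≤ Cp * (∫ x, ‖S.p x - S.io x S.a‖ ^ 2 ∂S.σ + dd)) :
    ‖S.a‖ ^ S.k * ∫ x, S.z x ^ 2 ∂S.σ ≤ 2 * Cp * (S.XX + ‖S.a‖ ^ S.k * dd) ∧
    ∫ x, S.q x ∂S.σ ≤ (4 * L ^ 2 * (2 * Cp) + 2 + 2 ^ (S.k + 1)) * (S.XX + ‖S.a‖ ^ S.k * dd) := by
  have h1 := h.I2_le
  have h2 := h.In_le
  have h3 := h.X0
  have h4 : 0 ≤ ‖S.a‖ ^ S.k * dd := by positivity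
  have h5 : ‖S.a‖ ^ S.k * ∫ x, S.z x ^ 2 ∂S.σ ≤ 2 * Cp * (S.XX + ‖S.a‖ ^ S.k * dd) := by
    calc _ ≤ ‖S.a‖ ^ S.k * (Cp * (∫ x, S.Dv x ^ 2 ∂S.σ + dd)) :=
          mul_le_mul_of_nonneg_left hP (by positivity)
      _ = Cp * (‖S.a‖ ^ S.k * ∫ x, S.Dv x ^ 2 ∂S.σ + ‖S.a‖ ^ S.k * dd) := by ring
      _ ≤ Cp * (2 * (S.XX + ‖S.a‖ ^ S.k * dd)) :=
          mul_le_mul_of_nonneg_left (by linarith) (by linarith)
      _ = _ := by ring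
  refine ⟨h5, ?_⟩
  have h6 : ‖S.a‖ ^ S.k * ∫ x, ‖S.T x‖ ^ 2 ∂S.σ ≤
      4 * L ^ 2 * (2 * Cp * (S.XX + ‖S.a‖ ^ S.k * dd)) := by
    calc _ ≤ ‖S.a‖ ^ S.k * (4 * L ^ 2 * ∫ x, S.z x ^ 2 ∂S.σ) :=
          mul_le_mul_of_nonneg_left h.T2_le (by positivity)
      _ = 4 * L ^ 2 * (‖S.a‖ ^ S.k * ∫ x, S.z x ^ 2 ∂S.σ) := by ring
      _ ≤ _ := by gcongr
  have h7 : (0 : ℝ) ≤ 2 ^ (S.k + 1) * (‖S.a‖ ^ S.k * dd) := by positivity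
  rw [h.int_q]
  linarith

theorem al1_le : ∀ᵐ x ∂S.σ, ‖⟪S.al1 x, S.u x - S.y⟫‖ ≤
    2 * L * ‖S.p x‖ ^ (S.k + 2) * (S.z x ^ 2 + ∫ x', S.z x' ^ 2 ∂S.σ) := by
  have := h.prob
  obtain ⟨T, hT, -, h1⟩ := h.good
  filter_upwards [hT] with x hx
  have h0 := h.L0
  have i1 : Integrable (fun x' => S.z x ^ 2 + S.z x' ^ 2) S.σ := (integrable_const _).add (h.iz 2)
  have e2 : S.z x ^ 2 + ∫ x', S.z x' ^ 2 ∂S.σ = ∫ x', (S.z x ^ 2 + S.z x' ^ 2) ∂S.σ := by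
    rw [integral_add (integrable_const _) (h.iz 2), integral_const, probReal_univ, one_smul]
  rw [← h.int_uu, e2, ← integral_const_mul]
  refine norm_integral_le_of_norm_le (i1.const_mul _) ?_
  filter_upwards [hT] with x' hx'
  have h2 : ‖S.u x - S.u x'‖ ^ 2 ≤ 2 * (S.z x ^ 2 + S.z x' ^ 2) :=
    (pow_le_pow_left₀ (norm_nonneg _) (uu_le x x') 2).trans
      (by nlinarith [sq_nonneg (S.z x - S.z x')])
  calc _ ≤ L * ‖S.p x‖ ^ (S.k + 2) * ‖S.u x - S.u x'‖ ^ 2 := h1 x hx x' hx'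
    _ ≤ L * ‖S.p x‖ ^ (S.k + 2) * (2 * (S.z x ^ 2 + S.z x' ^ 2)) := by gcongr
    _ = _ := by ring

theorem hh_le {η : ℝ} (hη : 0 ≤ η) (hη1 : η ≤ 1) (ha : ‖S.a‖ ≤ η)
    (hz : ∀ᵐ x ∂S.σ, ‖S.u x - S.y‖ ≤ η) :
    |S.hh| ≤ η * (L * (4 * 2 ^ (S.k + 2) + 1) *
      (‖S.a‖ ^ S.k * ∫ x, S.z x ^ 2 ∂S.σ + ∫ x, S.q x ∂S.σ)) := by
  have := h.prob
  have h0 := h.L0
  have hZ := h.Z2_le hz
  set Z := ∫ x, S.z x ^ 2 ∂S.σ with hZd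
  have Z0 : 0 ≤ Z := integral_nonneg fun _ => sq_nonneg _
  set c : ℝ := 2 ^ (S.k + 2) with hc
  have c0 : 0 ≤ c := by positivity
  have i0 : Integrable (fun x => S.z x ^ 2 + Z) S.σ := (h.iz 2).add (integrable_const _)
  have i1 : Integrable (fun x => 2 * c * (‖S.a‖ ^ S.k * (S.z x ^ 2 + Z))) S.σ :=
    (i0.const_mul _).const_mul _
  have i2 : Integrable (fun x => (4 * c + 1) * S.q x) S.σ := h.iq.const_mul _
  have i3 : Integrable (fun x => 2 * c * (‖S.a‖ ^ S.k * (S.z x ^ 2 + Z)) + (4 * c + 1) * S.q x)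
      S.σ := i1.add i2
  have hη2 : η ^ 2 ≤ η := by nlinarith
  have h1 : ‖S.hh‖ ≤ ∫ x, η * L * (2 * c * (‖S.a‖ ^ S.k * (S.z x ^ 2 + Z)) +
      (4 * c + 1) * S.q x) ∂S.σ := by
    refine norm_integral_le_of_norm_le (i3.const_mul _) ?_
    filter_upwards [hz, h.al1_le, h.h2_le] with x h2 h3 h4
    have hD := Dv_nonneg (S := S) x
    have h5 : S.z x ^ 2 ≤ η ^ 2 := pow_le_pow_left₀ (z_nonneg x) h2 2
    have h6 : ‖S.a‖ ^ S.k * S.Dv x ^ 2 + S.Dv x ^ (S.k + 2) ≤ S.q x := by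
      have : 0 ≤ ‖S.a‖ ^ S.k * ‖S.T x‖ ^ 2 := by positivity
      unfold Sph.q; linarith
    have h7 : S.Dv x ^ (S.k + 2) ≤ S.q x :=
      (le_add_of_nonneg_left (by positivity)).trans h6
    have h8 : ‖⟪S.h2 x, S.u x - S.y⟫‖ ≤ L * S.q x * η :=
      (norm_inner_le_norm _ _).trans (mul_le_mul (h4.trans (mul_le_mul_of_nonneg_left h6 h0)) h2
        (norm_nonneg _) (mul_nonneg h0 (q0 x)))
    have h9 : ‖S.a‖ ^ (S.k + 2) ≤ η * ‖S.a‖ ^ S.k := by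
      rw [pow_add, mul_comm]
      exact mul_le_mul_of_nonneg_right ((pow_le_pow_left₀ (norm_nonneg _) ha 2).trans hη2)
        (by positivity)
    have w0 : 0 ≤ S.z x ^ 2 + Z := by positivity
    have w1 : S.z x ^ 2 + Z ≤ 2 * η := by linarith
    have h10 : ‖S.p x‖ ^ (S.k + 2) * (S.z x ^ 2 + Z) ≤
        c * (η * ‖S.a‖ ^ S.k * (S.z x ^ 2 + Z) + S.q x * (2 * η)) := by
      have q0' := q0 (S := S) x
      calc _ ≤ c * (‖S.a‖ ^ (S.k + 2) + S.Dv x ^ (S.k + 2)) * (S.z x ^ 2 + Z) :=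
            mul_le_mul_of_nonneg_right (h.pn_le x) w0
        _ = c * (‖S.a‖ ^ (S.k + 2) * (S.z x ^ 2 + Z) + S.Dv x ^ (S.k + 2) * (S.z x ^ 2 + Z)) := by
            ring
        _ ≤ _ := by gcongr
    rw [Sph.al, inner_add_left]
    calc _ ≤ ‖⟪S.al1 x, S.u x - S.y⟫‖ + ‖⟪S.h2 x, S.u x - S.y⟫‖ := norm_add_le _ _
      _ ≤ 2 * L * (‖S.p x‖ ^ (S.k + 2) * (S.z x ^ 2 + Z)) + L * S.q x * η :=
          add_le_add (h3.trans (le_of_eq (by ring))) h8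
      _ ≤ 2 * L * (c * (η * ‖S.a‖ ^ S.k * (S.z x ^ 2 + Z) + S.q x * (2 * η))) + L * S.q x * η := by
          gcongr
      _ = _ := by ring
  rw [integral_const_mul, integral_add i1 i2, integral_const_mul, integral_const_mul,
    integral_const_mul, integral_add (h.iz 2) (integrable_const _), integral_const, probReal_univ,
    one_smul, Real.norm_eq_abs, ← hZd] at h1
  have h11 : 0 ≤ η * L * (‖S.a‖ ^ S.k * Z) := by positivity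
  calc _ ≤ _ := h1
    _ ≤ η * L * (2 * c * (‖S.a‖ ^ S.k * (Z + Z)) + (4 * c + 1) * ∫ x, S.q x ∂S.σ) +
          η * L * (‖S.a‖ ^ S.k * Z) := le_add_of_nonneg_right h11
    _ = _ := by ring

end Ok

end Pool.Agent.Lib.MP_a785f2_an.LY.Sph
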