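import Pool.Agent.Lib.MP_a785f2_an.LY.Polar

/-!
The quadratic Poincare inequality on the unit sphere, dimension at least three.
-/

open MeasureTheory Metric Set Filter Module
open scoped ENNReal RealInnerProductSpace

namespace Pool.Agent.Lib.MP_a785f2_an.LY

section
variable {X : Type*} [NormedAddCommGroup X] [NormedSpace ℝ X] [FiniteDimensional ℝ X]
  [MeasurableSpace X] [BorelSpace X] (μ : Measure X) [μ.IsAddHaarMeasure]

theorem lint_scale {h : X → ℝ≥0∞} (hh : Measurable h) (b : X) {c : ℝ} (hc : 1 / 2 ≤ c) :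
    ∫⁻ y, h (b + c • y) ∂μ ≤ 2 ^ finrank ℝ X * ∫⁻ z, h z ∂μ := by
  have c0 : 0 < c := by linarith
  have h1 : Measurable fun z => h (b + z) := hh.comp (measurable_const_add b)
  have h2 := lintegral_map (μ := μ) h1 (measurable_const_smul c)
  rw [Measure.map_addHaar_smul μ c0.ne', lintegral_smul_measure, lintegral_add_left_eq_self,
    smul_eq_mul] at h2
  rw [← h2]
  refine mul_le_mul_left ?_ _
  have h3 : |(c ^ finrank ℝ X)⁻¹| ≤ 2 ^ finrank ℝ X := by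
    rw [abs_of_nonneg (by positivity), ← inv_pow]
    refine pow_le_pow_left₀ (by positivity) ?_ _
    rw [inv_le_comm₀ c0 two_pos]; linarith
  refine (ENNReal.ofReal_le_ofReal h3).trans ?_
  rw [ENNReal.ofReal_pow zero_le_two]; simp

theorem lint_half {K : Set X} (hK : MeasurableSet K) (cK : Convex ℝ K) {g : X → ℝ≥0∞}
    (hg : Measurable g) {t : ℝ} (t0 : 1 / 2 ≤ t) (t1 : t ≤ 1) :
    ∫⁻ x in K, ∫⁻ y in K, g (x + t • (y - x)) ∂μ ∂μ ≤
      2 ^ finrank ℝ X * (∫⁻ z in K, g z ∂μ) * μ K := by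
  rw [← setLIntegral_const]
  refine setLIntegral_mono' hK fun x hx => ?_
  rw [← lintegral_indicator hK g]
  refine le_trans ?_ (lint_scale μ (hg.indicator hK) ((1 - t) • x) t0)
  rw [← lintegral_indicator hK]
  refine lintegral_mono fun y => ?_
  by_cases hy : y ∈ K
  · have e : (1 - t) • x + t • y = x + t • (y - x) := by module
    have : (1 - t) • x + t • y ∈ K := cK hx hy (by linarith) (by linarith) (by ring)
    rw [indicator_of_mem hy, indicator_of_mem this, e]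
  · rw [indicator_of_notMem hy]; exact zero_le

/-- The mean of a function over the points at parameter `t` of the segments in a convex set. -/
theorem lint_convex {K : Set X} (hK : MeasurableSet K) (cK : Convex ℝ K) {g : X → ℝ≥0∞}
    (hg : Measurable g) {t : ℝ} (t0 : 0 ≤ t) (t1 : t ≤ 1) :
    ∫⁻ x in K, ∫⁻ y in K, g (x + t • (y - x)) ∂μ ∂μ ≤
      2 ^ finrank ℝ X * (∫⁻ z in K, g z ∂μ) * μ K := by
  rcases le_total (1 / 2) t with h | h
  · exact lint_half μ hK cK hg h t1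
  · have hm : Measurable fun p : X × X => g (p.1 + t • (p.2 - p.1)) := hg.comp (by fun_prop)
    rw [lintegral_lintegral_swap hm.aemeasurable]
    refine le_trans (le_of_eq ?_) (lint_half μ hK cK hg (t := 1 - t) (by linarith) (by linarith))
    refine lintegral_congr fun y => lintegral_congr fun x => ?_
    have e : x + t • (y - x) = y + (1 - t) • (x - y) := by module
    rw [e]

/-- Integral over the unit ball of a product of a radial and a homogeneous function. -/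
theorem lint_ball_hom [Nontrivial X] {φ : ℝ → ℝ≥0∞} (hφ : Measurable φ) {h : X → ℝ≥0∞}
    (hh : Measurable h) :
    ∫⁻ x in ball (0 : X) 1, φ ‖x‖ * h (‖x‖⁻¹ • x) ∂μ =
      (∫⁻ r in Ioo (0 : ℝ) 1, ENNReal.ofReal (r ^ (finrank ℝ X - 1)) * φ r) *
        ∫⁻ θ : sphere (0 : X) 1, h θ ∂μ.toSphere := by
  have hm : Measurable fun x : X => φ ‖x‖ * h (‖x‖⁻¹ • x) :=
    (hφ.comp measurable_norm).mul (hh.comp (measurable_norm.inv.smul measurable_id))
  have hw : Measurable fun r : ℝ => ENNReal.ofReal (r ^ (finrank ℝ X - 1)) * φ r :=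
    (meas_radw _).mul hφ
  have hh' : Measurable fun θ : sphere (0 : X) 1 => h θ := hh.comp measurable_subtype_coe
  rw [← lintegral_indicator measurableSet_ball,
    lintegral_polar μ 0 (hm.indicator measurableSet_ball),
    ← lintegral_mul_const _ hw, ← Ioi_inter_Iio, inter_comm,
    ← Measure.restrict_restrict measurableSet_Iio, ← lintegral_indicator measurableSet_Iio]
  refine setLIntegral_congr_fun measurableSet_Ioi fun r hr => ?_
  have r0 : 0 < r := hr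
  have hn : ∀ θ : sphere (0 : X) 1, ‖(0 : X) + r • (θ : X)‖ = r := fun θ => by
    rw [zero_add, norm_smul, norm_eq_of_mem_sphere, Real.norm_of_nonneg r0.le, mul_one]
  by_cases h1 : r < 1
  · have e : ∀ θ : sphere (0 : X) 1, (ball (0 : X) 1).indicator (fun x => φ ‖x‖ * h (‖x‖⁻¹ • x))
        (0 + r • (θ : X)) = φ r * h θ := fun θ => by
      rw [indicator_of_mem (mem_ball_zero_iff.2 (by rw [hn]; exact h1)), hn, zero_add, smul_smul,
        inv_mul_cancel₀ r0.ne', one_smul]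
    simp only [e]
    rw [indicator_of_mem (show r ∈ Iio 1 from h1),
      lintegral_const_mul _ hh', mul_assoc]
  · have e : ∀ θ : sphere (0 : X) 1, (ball (0 : X) 1).indicator (fun x => φ ‖x‖ * h (‖x‖⁻¹ • x))
        (0 + r • (θ : X)) = 0 := fun θ =>
      indicator_of_notMem (fun hx => h1 (by rw [← hn θ]; exact mem_ball_zero_iff.1 hx)) _
    simp only [e]
    rw [indicator_of_notMem (show r ∉ Iio 1 from h1)]; simp

end

theorem lint_sq_le {h : ℝ → ℝ≥0∞} (hh : Measurable h) :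
    (∫⁻ t in Icc (0 : ℝ) 1, h t) ^ 2 ≤ ∫⁻ t in Icc (0 : ℝ) 1, h t ^ 2 := by
  have h1 := ENNReal.lintegral_mul_le_Lp_mul_Lq (volume.restrict (Icc (0 : ℝ) 1))
    Real.HolderConjugate.two_two hh.aemeasurable (g := fun _ => 1) aemeasurable_const
  simp only [Pi.mul_apply, mul_one, ENNReal.one_rpow, lintegral_const, MeasurableSet.univ,
    Measure.restrict_apply, univ_inter, Real.volume_Icc, sub_zero, ENNReal.ofReal_one,
    ENNReal.rpow_two, one_pow] at h1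
  refine (pow_le_pow_left' h1 2).trans (le_of_eq ?_)
  rw [← ENNReal.rpow_two, ← ENNReal.rpow_mul]; simp

section
variable {X : Type*} [NormedAddCommGroup X] [InnerProductSpace ℝ X]
  {F : Type*} [NormedAddCommGroup F] [NormedSpace ℝ F]

theorem norm_tang_le {θ : X} (hθ : ‖θ‖ = 1) (v : X) : ‖v - ⟪θ, v⟫ • θ‖ ≤ ‖v‖ := by
  refine le_of_sq_le_sq ?_ (norm_nonneg _) |> fun h => h
  rw [norm_sub_sq_real, inner_smul_right, norm_smul, hθ, real_inner_comm, Real.norm_eq_abs,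
    mul_one, sq_abs]
  nlinarith [sq_nonneg ⟪θ, v⟫]

theorem hasDerivAt_dir {x v : X} {t : ℝ} (h0 : x + t • v ≠ 0) :
    HasDerivAt (fun s : ℝ => ‖x + s • v‖⁻¹ • (x + s • v))
      (‖x + t • v‖⁻¹ • (v - ⟪‖x + t • v‖⁻¹ • (x + t • v), v⟫ • ‖x + t • v‖⁻¹ • (x + t • v))) t := by
  have h1 : HasDerivAt (fun s : ℝ => x + s • v) v t := by
    simpa using ((hasDerivAt_id t).smul_const v).const_add x
  have n0 : 0 < ‖x + t • v‖ := norm_pos_iff.2 h0
  have h2 := (h1.norm_sq.sqrt (by positivity))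
  simp only [Real.sqrt_sq (norm_nonneg _)] at h2
  have h3 := (h2.inv n0.ne').smul h1
  refine HasDerivAt.congr_deriv h3 ?_
  rw [inner_smul_left]
  simp only [Pi.inv_apply, conj_trivial, smul_sub, smul_smul]
  rw [sub_eq_add_neg, ← neg_smul]
  have e : -(2 * ⟪x + t • v, v⟫ / (2 * ‖x + t • v‖)) / ‖x + t • v‖ ^ 2 =
      -(‖x + t • v‖⁻¹ * (‖x + t • v‖⁻¹ * ⟪x + t • v, v⟫ * ‖x + t • v‖⁻¹)) := by
    field_simp
  rw [e]

/-- The bound along one segment that avoids the origin. -/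
theorem seg_bound {w : X → F} (hw : ContDiff ℝ 1 w) {D : X → ℝ}
    (hD : ∀ θ v : X, ‖θ‖ = 1 → ⟪θ, v⟫ = 0 → ‖fderiv ℝ w θ v‖ ≤ D θ * ‖v‖)
    (D0 : ∀ θ, 0 ≤ D θ) {x v : X} (h0 : ∀ t ∈ Icc (0 : ℝ) 1, x + t • v ≠ 0) (hv : ‖v‖ ≤ 2) :
    ‖w (‖x + v‖⁻¹ • (x + v)) - w (‖x‖⁻¹ • x)‖ₑ ≤ ∫⁻ t in Icc (0 : ℝ) 1,
      2 * (ENNReal.ofReal ‖x + t • v‖⁻¹ * ENNReal.ofReal (D (‖x + t • v‖⁻¹ • (x + t • v)))) := by
  have hc : ContDiffOn ℝ 1 (fun s : ℝ => w (‖x + s • v‖⁻¹ • (x + s • v))) (Icc 0 1) := by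
    intro t ht
    have h1 : ContDiffAt ℝ 1 (fun s : ℝ => x + s • v) t := by fun_prop
    have h2 : ContDiffAt ℝ 1 (fun s : ℝ => ‖x + s • v‖) t := h1.norm ℝ (h0 t ht)
    exact (hw.contDiffAt.comp t
      ((h2.inv (norm_ne_zero_iff.2 (h0 t ht))).smul h1)).contDiffWithinAt
  have h := enorm_sub_le_lintegral_deriv_of_contDiffOn_Icc hc zero_le_one
  simp only [one_smul, zero_smul, add_zero] at h
  refine h.trans (setLIntegral_mono' measurableSet_Icc fun t ht => ?_)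
  have n0 : 0 < ‖x + t • v‖ := norm_pos_iff.2 (h0 t ht)
  have hd := ((hw.differentiable one_ne_zero _).hasFDerivAt.comp_hasDerivAt t
    (hasDerivAt_dir (h0 t ht))).deriv
  have hu : ‖‖x + t • v‖⁻¹ • (x + t • v)‖ = 1 := by
    rw [norm_smul, norm_inv, norm_norm, inv_mul_cancel₀ n0.ne']
  have e : deriv (fun s : ℝ => w (‖x + s • v‖⁻¹ • (x + s • v))) t = _ := hd
  rw [e]
  generalize ‖x + t • v‖⁻¹ • (x + t • v) = θ at hu ⊢
  have ho : ⟪θ, v - ⟪θ, v⟫ • θ⟫ = 0 := by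
    rw [inner_sub_right, inner_smul_right, real_inner_self_eq_norm_sq, hu]; ring
  have hb := (hD θ _ hu ho).trans
    (mul_le_mul_of_nonneg_left ((norm_tang_le hu v).trans hv) (D0 θ))
  rw [map_smul, ← ofReal_norm, ← ENNReal.ofReal_mul (by positivity), ← ENNReal.ofReal_ofNat 2,
    ← ENNReal.ofReal_mul (by positivity)]
  refine ENNReal.ofReal_le_ofReal ?_
  rw [norm_smul, norm_inv, norm_norm]
  nlinarith [mul_le_mul_of_nonneg_left hb (inv_nonneg.2 n0.le)]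

variable [FiniteDimensional ℝ X] [MeasurableSpace X] [BorelSpace X] (μ : Measure X)
  [μ.IsAddHaarMeasure]

theorem ae_seg (hn : 2 ≤ finrank ℝ X) {x : X} (hx : x ≠ 0) :
    ∀ᵐ y ∂μ, ∀ t ∈ Icc (0 : ℝ) 1, x + t • (y - x) ≠ 0 := by
  have h1 : (ℝ ∙ x) ≠ ⊤ := fun h => by
    have := finrank_span_singleton (K := ℝ) hx
    rw [h, finrank_top] at this; omega
  have h2 : ∀ᵐ y ∂μ, y ∉ ((ℝ ∙ x : Submodule ℝ X) : Set X) :=
    measure_eq_zero_iff_ae_notMem.1 (Measure.addHaar_submodule μ _ h1)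
  filter_upwards [h2] with y hy t _ h0
  have t0 : t ≠ 0 := fun h => hx (by simpa [h] using h0)
  refine hy (Submodule.mem_span_singleton.2 ⟨1 - t⁻¹, ?_⟩)
  have e : y = (1 - t⁻¹) • x + t⁻¹ • (x + t • (y - x)) := by
    rw [smul_add, smul_smul, inv_mul_cancel₀ t0]; module
  rw [h0, smul_zero, add_zero] at e
  exact e.symm

theorem ball_two (hn : 2 ≤ finrank ℝ X) {w : X → F} (hw : ContDiff ℝ 1 w) {D : X → ℝ}
    (mD : Measurable D)
    (hD : ∀ θ v : X, ‖θ‖ = 1 → ⟪θ, v⟫ = 0 → ‖fderiv ℝ w θ v‖ ≤ D θ * ‖v‖) (D0 : ∀ θ, 0 ≤ D θ) :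
    ∫⁻ x in ball (0 : X) 1, ∫⁻ y in ball (0 : X) 1,
      ‖w (‖y‖⁻¹ • y) - w (‖x‖⁻¹ • x)‖ₑ ^ 2 ∂μ ∂μ ≤ 2 ^ finrank ℝ X * (∫⁻ z in ball (0 : X) 1,
        (2 * (ENNReal.ofReal ‖z‖⁻¹ * ENNReal.ofReal (D (‖z‖⁻¹ • z)))) ^ 2 ∂μ) * μ (ball 0 1) := by
  have : Nontrivial X := Module.nontrivial_of_finrank_pos (R := ℝ) (by omega)
  obtain ⟨k, hk⟩ : ∃ k : X → ℝ≥0∞,
      k = fun z => 2 * (ENNReal.ofReal ‖z‖⁻¹ * ENNReal.ofReal (D (‖z‖⁻¹ • z))) := ⟨_, rfl⟩
  have mk : Measurable k := by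
    rw [hk]
    exact (measurable_norm.inv.ennreal_ofReal.mul
      (mD.comp (measurable_norm.inv.smul measurable_id)).ennreal_ofReal).const_mul _
  have mg : Measurable fun z => k z ^ 2 := mk.pow_const 2
  have m3 : Measurable fun p : (X × X) × ℝ => k (p.1.1 + p.2 • (p.1.2 - p.1.1)) ^ 2 :=
    mg.comp (by fun_prop)
  have e : ∀ z, 2 * (ENNReal.ofReal ‖z‖⁻¹ * ENNReal.ofReal (D (‖z‖⁻¹ • z))) = k z :=
    fun z => by rw [hk]
  simp only [e]
  calc _ ≤ ∫⁻ x in ball (0 : X) 1, ∫⁻ y in ball (0 : X) 1, ∫⁻ t in Icc (0 : ℝ) 1,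
        k (x + t • (y - x)) ^ 2 ∂volume ∂μ ∂μ := by
        refine lintegral_mono_ae ?_
        filter_upwards [ae_restrict_mem measurableSet_ball,
          ae_restrict_of_ae (Measure.ae_ne μ (0 : X))] with x hx x0
        refine lintegral_mono_ae ?_
        filter_upwards [ae_restrict_mem measurableSet_ball,
          ae_restrict_of_ae (ae_seg μ hn x0)] with y hy h0
        have hv : ‖y - x‖ ≤ 2 := by
          have := norm_sub_le y x
          linarith [mem_ball_zero_iff.1 hx, mem_ball_zero_iff.1 hy]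
        have h1 := seg_bound hw hD D0 h0 hv
        simp only [e, add_sub_cancel] at h1
        exact (pow_le_pow_left' h1 2).trans (lint_sq_le (mk.comp (by fun_prop)))
    _ = ∫⁻ x in ball (0 : X) 1, ∫⁻ t in Icc (0 : ℝ) 1, ∫⁻ y in ball (0 : X) 1,
        k (x + t • (y - x)) ^ 2 ∂μ ∂volume ∂μ := by
        refine lintegral_congr fun x => lintegral_lintegral_swap ?_
        have : Measurable fun p : X × ℝ => k (x + p.2 • (p.1 - x)) ^ 2 := mg.comp (by fun_prop)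
        exact this.aemeasurable
    _ = ∫⁻ t in Icc (0 : ℝ) 1, ∫⁻ x in ball (0 : X) 1, ∫⁻ y in ball (0 : X) 1,
        k (x + t • (y - x)) ^ 2 ∂μ ∂μ ∂volume := by
        refine lintegral_lintegral_swap ?_
        have : Measurable fun p : (X × ℝ) × X => k (p.1.1 + p.1.2 • (p.2 - p.1.1)) ^ 2 :=
          mg.comp (by fun_prop)
        exact this.lintegral_prod_right'.aemeasurable
    _ ≤ ∫⁻ _ in Icc (0 : ℝ) 1, 2 ^ finrank ℝ X * (∫⁻ z in ball (0 : X) 1, k z ^ 2 ∂μ) *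
        μ (ball 0 1) :=
        setLIntegral_mono' measurableSet_Icc fun t ht =>
          lint_convex μ measurableSet_ball (convex_ball _ _) mg ht.1 ht.2
    _ = _ := by simp

theorem rad_one_pos (n : ℕ) :
    (∫⁻ r in Ioo (0 : ℝ) 1, ENNReal.ofReal (r ^ (n - 1)) * 1) ≠ 0 := by
  intro h
  rw [lintegral_eq_zero_iff ((meas_radw n).mul_const 1), EventuallyEq,
    ae_restrict_iff' measurableSet_Ioo] at h
  have h2 : ∀ᵐ r : ℝ, r ∉ Ioo (0 : ℝ) 1 := by
    filter_upwards [h] with r hr hm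
    have := hr hm
    simp only [mul_one, Pi.zero_apply, ENNReal.ofReal_eq_zero] at this
    exact absurd (pow_pos hm.1 (n - 1)) (not_lt.2 this)
  have h3 : volume (Ioo (0 : ℝ) 1) = 0 := measure_eq_zero_iff_ae_notMem.2 h2
  simp at h3

theorem rad_two_le {n : ℕ} (hn : 3 ≤ n) :
    (∫⁻ r in Ioo (0 : ℝ) 1, ENNReal.ofReal (r ^ (n - 1)) * (2 * ENNReal.ofReal r⁻¹) ^ 2) ≤ 4 := by
  have h : ∀ r ∈ Ioo (0 : ℝ) 1,
      ENNReal.ofReal (r ^ (n - 1)) * (2 * ENNReal.ofReal r⁻¹) ^ 2 ≤ 4 := fun r hr => by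
    have r0 := hr.1
    rw [← ENNReal.ofReal_ofNat 2, ← ENNReal.ofReal_mul zero_le_two,
      ← ENNReal.ofReal_pow (by positivity), ← ENNReal.ofReal_mul (by positivity),
      ← ENNReal.ofReal_ofNat 4]
    refine ENNReal.ofReal_le_ofReal ?_
    have h1 : r ^ (n - 1) ≤ r ^ 2 := pow_le_pow_of_le_one r0.le hr.2.le (by omega)
    have h2 : r ^ 2 * (2 * r⁻¹) ^ 2 = 4 := by field_simp; norm_num
    nlinarith [mul_le_mul_of_nonneg_right h1 (sq_nonneg (2 * r⁻¹))]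
  refine (setLIntegral_mono' measurableSet_Ioo h).trans ?_
  simp

/-- Two point form of the Poincare inequality on the sphere; `D` bounds the tangential
derivative. -/
theorem sphere_two (hn : 3 ≤ finrank ℝ X) : ∃ C : ℝ≥0∞, C ≠ ∞ ∧ ∀ (w : X → F) (D : X → ℝ),
    ContDiff ℝ 1 w → Measurable D → (∀ θ, 0 ≤ D θ) →
    (∀ θ v : X, ‖θ‖ = 1 → ⟪θ, v⟫ = 0 → ‖fderiv ℝ w θ v‖ ≤ D θ * ‖v‖) →
    ∫⁻ θ : sphere (0 : X) 1, ∫⁻ θ' : sphere (0 : X) 1, ‖w θ' - w θ‖ₑ ^ 2 ∂μ.toSphere ∂μ.toSphere ≤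
      C * ∫⁻ θ : sphere (0 : X) 1, ENNReal.ofReal (D θ) ^ 2 ∂μ.toSphere := by
  have : Nontrivial X := Module.nontrivial_of_finrank_pos (R := ℝ) (by omega)
  obtain ⟨c, hc⟩ : ∃ c, c = ∫⁻ r in Ioo (0 : ℝ) 1, ENNReal.ofReal (r ^ (finrank ℝ X - 1)) * 1 :=
    ⟨_, rfl⟩
  have c0 : c ≠ 0 := hc ▸ rad_one_pos _
  have c1 : c ≠ ∞ := by
    have h : ∀ r ∈ Ioo (0 : ℝ) 1, ENNReal.ofReal (r ^ (finrank ℝ X - 1)) * 1 ≤ 1 := fun r hr => by
      rw [mul_one]; exact ENNReal.ofReal_le_one.2 (pow_le_one₀ hr.1.le hr.2.le)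
    refine ne_top_of_le_ne_top ?_ (hc ▸ setLIntegral_mono' measurableSet_Ioo h)
    simp
  have hb : μ (ball (0 : X) 1) ≠ ∞ := measure_ball_lt_top.ne
  refine ⟨c⁻¹ * c⁻¹ * (2 ^ finrank ℝ X * 4 * μ (ball 0 1)), ?_, fun w D hw mD D0 hD => ?_⟩
  · have := ENNReal.inv_ne_top.2 c0
    finiteness
  have h1 := ball_two μ (by omega) hw mD hD D0
  have cw := hw.continuous
  have m2 : Measurable fun p : X × X => ‖w p.2 - w p.1‖ₑ ^ 2 :=
    (Continuous.measurable (by fun_prop)).pow_const 2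
  have m3 : Measurable fun x : X => ∫⁻ θ' : sphere (0 : X) 1, ‖w θ' - w x‖ₑ ^ 2 ∂μ.toSphere := by
    have : Measurable fun p : X × sphere (0 : X) 1 => ‖w p.2 - w p.1‖ₑ ^ 2 :=
      (Continuous.measurable (by fun_prop)).pow_const 2
    exact this.lintegral_prod_right'
  have e1 : ∀ x : X, ∫⁻ y in ball (0 : X) 1, ‖w (‖y‖⁻¹ • y) - w x‖ₑ ^ 2 ∂μ =
      c * ∫⁻ θ' : sphere (0 : X) 1, ‖w θ' - w x‖ₑ ^ 2 ∂μ.toSphere := fun x => by
    have := lint_ball_hom μ (φ := fun _ => 1) measurable_const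
      (h := fun y => ‖w y - w x‖ₑ ^ 2) (m2.comp measurable_prodMk_left)
    simpa only [one_mul, hc] using this
  have e2 := lint_ball_hom μ (φ := fun _ => 1) measurable_const (m3.const_mul c)
  have m4 : Measurable fun θ : sphere (0 : X) 1 =>
      ∫⁻ θ' : sphere (0 : X) 1, ‖w θ' - w θ‖ₑ ^ 2 ∂μ.toSphere := m3.comp measurable_subtype_coe
  rw [← hc, lintegral_const_mul _ m4] at e2
  have e3 := lint_ball_hom μ (φ := fun r => (2 * ENNReal.ofReal r⁻¹) ^ 2)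
    ((measurable_inv.ennreal_ofReal.const_mul 2).pow_const 2)
    (h := fun θ => ENNReal.ofReal (D θ) ^ 2) (mD.ennreal_ofReal.pow_const 2)
  simp only [← mul_pow, mul_assoc] at e3
  simp only [e1, one_mul] at h1 e2
  rw [e2, e3] at h1
  have h2 := h1.trans (mul_le_mul_left (mul_le_mul_right (mul_le_mul_left (rad_two_le hn) _) _) _)
  calc _ = c⁻¹ * c⁻¹ * (c * (c * ∫⁻ θ : sphere (0 : X) 1, ∫⁻ θ' : sphere (0 : X) 1,
        ‖w θ' - w θ‖ₑ ^ 2 ∂μ.toSphere ∂μ.toSphere)) := by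
        rw [mul_assoc, ← mul_assoc c⁻¹ c, ENNReal.inv_mul_cancel c0 c1, one_mul, ← mul_assoc,
          ENNReal.inv_mul_cancel c0 c1, one_mul]
    _ ≤ _ := (mul_le_mul_right h2 _).trans (le_of_eq (by ring))

end

end Pool.Agent.Lib.MP_a785f2_an.LY
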