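import Pool.Agent.Lib.MP_a785f2_an.LY.SphD

/-!
Two estimates on one sphere for an antisymmetric term `b3 x (p x) (Ap k (p x))`.
-/

open MeasureTheory Filter
open scoped RealInnerProductSpace

namespace Pool.Agent.Lib.MP_a785f2_an.LY.Sph

theorem int_five {X : Type} [MeasurableSpace X] {σ : Measure X} {f1 f2 f3 f4 f5 : X → ℝ}
    (i1 : Integrable f1 σ) (i2 : Integrable f2 σ) (i3 : Integrable f3 σ) (i4 : Integrable f4 σ)
    (i5 : Integrable f5 σ) (c1 c2 c3 c4 c5 : ℝ) {φ : X → ℝ}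
    (h : ∀ᵐ x ∂σ, |φ x| ≤ c1 * f1 x + c2 * f2 x + c3 * f3 x + c4 * f4 x + c5 * f5 x) :
    |∫ x, φ x ∂σ| ≤ c1 * ∫ x, f1 x ∂σ + c2 * ∫ x, f2 x ∂σ + c3 * ∫ x, f3 x ∂σ +
      c4 * ∫ x, f4 x ∂σ + c5 * ∫ x, f5 x ∂σ := by
  have j1 : Integrable (fun x => c1 * f1 x) σ := i1.const_mul _
  have j2 : Integrable (fun x => c2 * f2 x) σ := i2.const_mul _
  have j3 : Integrable (fun x => c3 * f3 x) σ := i3.const_mul _
  have j4 : Integrable (fun x => c4 * f4 x) σ := i4.const_mul _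
  have j5 : Integrable (fun x => c5 * f5 x) σ := i5.const_mul _
  have k2 : Integrable (fun x => c1 * f1 x + c2 * f2 x) σ := j1.add j2
  have k3 : Integrable (fun x => c1 * f1 x + c2 * f2 x + c3 * f3 x) σ := k2.add j3
  have k4 : Integrable (fun x => c1 * f1 x + c2 * f2 x + c3 * f3 x + c4 * f4 x) σ := k3.add j4
  have k5 : Integrable (fun x => c1 * f1 x + c2 * f2 x + c3 * f3 x + c4 * f4 x + c5 * f5 x) σ :=
    k4.add j5
  have h1 := norm_integral_le_of_norm_le (f := φ) k5 h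
  rwa [integral_add k4 j5, integral_add k3 j4, integral_add k2 j3, integral_add j1 j2,
    integral_const_mul, integral_const_mul, integral_const_mul, integral_const_mul,
    integral_const_mul] at h1

variable {X V W : Type} [MeasurableSpace X] [NormedAddCommGroup V] [InnerProductSpace ℝ V]
  [NormedAddCommGroup W] [InnerProductSpace ℝ W]

/-- The hypotheses on the antisymmetric term. -/
structure Anti (S : Sph X V W) (L : ℝ) (b3 : X → W →L[ℝ] W →L[ℝ] V)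
    (b0 : W →L[ℝ] W →L[ℝ] V) (B0 : V →L[ℝ] V →L[ℝ] V) (β : X → ℝ) : Prop where
  ok : S.Ok L
  m3 : AEStronglyMeasurable (fun x => b3 x (S.p x) (Ap S.k (S.p x))) S.σ
  mβ : AEStronglyMeasurable β S.σ
  β0 : ∀ x, 0 ≤ β x
  β1 : ∀ x, β x ≤ L
  bb : ∀ x q q', ‖b3 x q q'‖ ≤ L * ‖q‖ * ‖q'‖
  b30 : ∀ x q q', ‖b3 x q q' - b0 q q'‖ ≤ β x * ‖q‖ * ‖q'‖
  anti : ∀ x q c, ⟪b3 x q (S.io x c), c⟫ = 0
  io0 : ∀ x c q, b0 (S.io x c) q = B0 c (S.ra x q)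

variable {S : Sph X V W} {L : ℝ} {b3 : X → W →L[ℝ] W →L[ℝ] V} {b0 : W →L[ℝ] W →L[ℝ] V}
  {B0 : V →L[ℝ] V →L[ℝ] V} {β : X → ℝ}

theorem Ok.hv_le2 (h : S.Ok L) (x : X) :
    S.hv x ≤ (S.k + 1) * 2 ^ S.k * (‖S.a‖ ^ S.k * S.Dv x + S.Dv x ^ (S.k + 1)) := by
  have hD := Dv_nonneg (S := S) x
  calc S.hv x ≤ (S.k + 1) * ((‖S.a‖ + S.Dv x) ^ S.k * S.Dv x) := h.hv_le x
    _ ≤ (S.k + 1) * (2 ^ S.k * (‖S.a‖ ^ S.k + S.Dv x ^ S.k) * S.Dv x) := by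
        gcongr; exact add_pow_le_two _ (norm_nonneg _) hD
    _ = _ := by ring

theorem Ok.D1n (h : S.Ok L) : (∫ x, S.Dv x ∂S.σ) * ∫ x, S.Dv x ^ (S.k + 1) ∂S.σ ≤
    2 * ∫ x, S.Dv x ^ (S.k + 2) ∂S.σ := by
  have := h.prob
  have d0 : 0 ≤ ∫ x, S.Dv x ∂S.σ := integral_nonneg Dv_nonneg
  have h2 := jensen_pow h.mD Dv_nonneg (S.k + 1) (h.iD le_rfl)
  have h1 : (∫ x, S.Dv x ∂S.σ) * ∫ x, S.Dv x ^ (S.k + 1) ∂S.σ ≤
      ∫ x, ((∫ x, S.Dv x ∂S.σ) ^ (S.k + 2) + S.Dv x ^ (S.k + 2)) ∂S.σ := by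
    rw [← integral_const_mul]
    exact integral_mono ((h.iD (by omega)).const_mul _) ((integrable_const _).add (h.iD le_rfl))
      fun x => young_one (S.k + 1) d0 (Dv_nonneg x)
  rw [integral_add (integrable_const _) (h.iD le_rfl), integral_const, probReal_univ,
    one_smul] at h1
  linarith

theorem Ok.phi0 [CompleteSpace V] (h : S.Ok L) : ‖Ap S.k S.a - S.F‖ ≤ (S.k + 1) * 2 ^ S.k *
    (‖S.a‖ ^ S.k * ∫ x, S.Dv x ∂S.σ + ∫ x, S.Dv x ^ (S.k + 1) ∂S.σ) := by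
  have := h.prob
  have e1 : S.F - Ap S.k S.a = ∫ x, (S.ra x (Ap S.k (S.p x)) - Ap S.k S.a) ∂S.σ := by
    rw [integral_sub h.iF (integrable_const _), integral_const, probReal_univ, one_smul]
    rfl
  have i1 : Integrable (fun x => ‖S.a‖ ^ S.k * S.Dv x) S.σ := h.iD1.const_mul _
  have i3 : Integrable (fun x => S.Dv x ^ (S.k + 1)) S.σ := h.iD (by omega)
  have i2 : Integrable (fun x => ‖S.a‖ ^ S.k * S.Dv x + S.Dv x ^ (S.k + 1)) S.σ := i1.add i3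
  rw [norm_sub_rev, e1, ← integral_const_mul, ← integral_add i1 i3, ← integral_const_mul]
  exact norm_integral_le_of_norm_le (i2.const_mul _)
    (Eventually.of_forall fun x => (h.ra_hv x).trans (h.hv_le2 x))

namespace Anti

variable (h : S.Anti L b3 b0 B0 β)
include h

theorem n3 (x : X) : ‖b3 x (S.p x) (Ap S.k (S.p x))‖ ≤ L * ‖S.p x‖ ^ (S.k + 2) := by
  refine (h.bb x _ _).trans (le_of_eq ?_)
  rw [norm_Ap]; ring

theorem i3 : Integrable (fun x => b3 x (S.p x) (Ap S.k (S.p x))) S.σ :=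
  (h.ok.lp.const_mul L).mono' h.m3 (Eventually.of_forall h.n3)

theorem int3 : ‖∫ x, b3 x (S.p x) (Ap S.k (S.p x)) ∂S.σ‖ ≤ L * S.e := by
  rw [Sph.e, ← integral_const_mul]
  exact norm_integral_le_of_norm_le (h.ok.lp.const_mul _) (Eventually.of_forall h.n3)

theorem iβ (j : ℕ) : Integrable (fun x => β x ^ j) S.σ := by
  have := h.ok.prob
  refine (integrable_const (L ^ j)).mono' (h.mβ.pow j) (Eventually.of_forall fun x => ?_)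
  rw [Real.norm_of_nonneg (pow_nonneg (h.β0 x) j)]
  exact pow_le_pow_left₀ (h.β0 x) (h.β1 x) j

theorem iβ1 : Integrable β S.σ := by simpa using h.iβ 1

theorem ptA (ha : ‖S.a‖ ≤ 1) (x : X) :
    |⟪S.F, b3 x (S.p x) (Ap S.k (S.p x))⟫ - ⟪S.F, B0 S.a (S.ra x (Ap S.k (S.p x)) - S.F)⟫| ≤
      ‖S.F‖ * (2 * L * ((S.k + 1) * 2 ^ S.k) * ‖S.a‖ ^ S.k) * β x ^ 2 +
      ‖S.F‖ * (3 * L * ((S.k + 1) * 2 ^ S.k) * ‖S.a‖ ^ S.k) * S.Dv x ^ 2 +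
      ‖S.F‖ * (3 * L * ((S.k + 1) * 2 ^ S.k)) * S.Dv x ^ (S.k + 2) +
      ‖S.F‖ * (L * ‖Ap S.k S.a - S.F‖) * S.Dv x +
      ‖S.F‖ * (‖S.a‖ * ‖Ap S.k S.a - S.F‖) * β x := by
  obtain ⟨R, hR⟩ : ∃ R, R = Ap S.k (S.p x) - S.io x S.F := ⟨_, rfl⟩
  have hD := Dv_nonneg (S := S) x
  have L0 := h.ok.L0
  have b0' := h.β0 x
  have e1 : S.ra x (Ap S.k (S.p x)) - S.F = S.ra x R := by rw [hR, map_sub, h.ok.ra_io]
  have e2 : ⟪S.F, b3 x (S.p x) (Ap S.k (S.p x))⟫ = ⟪S.F, b3 x (S.p x) R⟫ := by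
    rw [hR, map_sub, inner_sub_right, real_inner_comm (b3 x (S.p x) (S.io x S.F)), h.anti, sub_zero]
  have e3 : b3 x (S.p x) R - B0 S.a (S.ra x R) = b3 x (S.p x - S.io x S.a) R +
      (b3 x (S.io x S.a) R - b0 (S.io x S.a) R) := by
    rw [h.io0, map_sub, _root_.sub_apply]; abel
  have n1 : ‖R‖ ≤ S.hv x + ‖Ap S.k S.a - S.F‖ := by
    have e4 : R = (Ap S.k (S.p x) - S.io x (Ap S.k S.a)) + S.io x (Ap S.k S.a - S.F) := by
      rw [hR, map_sub]; abel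
    rw [e4]
    exact (norm_add_le _ _).trans (by rw [h.ok.iso]; rfl)
  have n2 : ‖b3 x (S.p x) R - B0 S.a (S.ra x R)‖ ≤
      (L * S.Dv x + β x * ‖S.a‖) * (S.hv x + ‖Ap S.k S.a - S.F‖) := by
    have h1 := h.bb x (S.p x - S.io x S.a) R
    have h2 := h.b30 x (S.io x S.a) R
    rw [h.ok.iso] at h2
    rw [e3]
    calc _ ≤ L * S.Dv x * ‖R‖ + β x * ‖S.a‖ * ‖R‖ := (norm_add_le _ _).trans (add_le_add h1 h2)
      _ = (L * S.Dv x + β x * ‖S.a‖) * ‖R‖ := by ring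
      _ ≤ _ := by gcongr
  have n3 : S.Dv x * S.hv x ≤
      (S.k + 1) * 2 ^ S.k * (‖S.a‖ ^ S.k * S.Dv x ^ 2 + S.Dv x ^ (S.k + 2)) :=
    (mul_le_mul_of_nonneg_left (h.ok.hv_le2 x) hD).trans (le_of_eq (by ring))
  have n4 : β x * (‖S.a‖ * S.hv x) ≤ (S.k + 1) * 2 ^ S.k *
      (2 * L * (‖S.a‖ ^ S.k * β x ^ 2 + ‖S.a‖ ^ S.k * S.Dv x ^ 2 + S.Dv x ^ (S.k + 2))) := by
    calc _ ≤ β x * ((S.k + 1) * 2 ^ S.k * (‖S.a‖ ^ (S.k + 1) * S.Dv x + S.Dv x ^ (S.k + 2))) :=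
          mul_le_mul_of_nonneg_left (h.ok.a_hv x) b0'
      _ = (S.k + 1) * 2 ^ S.k * (β x * (‖S.a‖ ^ (S.k + 1) * S.Dv x + S.Dv x ^ (S.k + 2))) := by
          ring
      _ ≤ _ := mul_le_mul_of_nonneg_left (alg1 _ (norm_nonneg _) ha b0' hD h.ok.L1
          (by linarith [h.β1 x])) (by positivity)
  rw [e1, e2, ← inner_sub_right]
  refine (abs_real_inner_le_norm _ _).trans ?_
  have n5 := mul_le_mul_of_nonneg_left n3 L0
  calc _ ≤ ‖S.F‖ * (L * (S.Dv x * S.hv x) + β x * (‖S.a‖ * S.hv x) +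
        L * ‖Ap S.k S.a - S.F‖ * S.Dv x + ‖S.a‖ * ‖Ap S.k S.a - S.F‖ * β x) :=
        mul_le_mul_of_nonneg_left (n2.trans (le_of_eq (by ring))) (norm_nonneg _)
    _ ≤ ‖S.F‖ * (L * ((S.k + 1) * 2 ^ S.k * (‖S.a‖ ^ S.k * S.Dv x ^ 2 + S.Dv x ^ (S.k + 2))) +
        (S.k + 1) * 2 ^ S.k *
        (2 * L * (‖S.a‖ ^ S.k * β x ^ 2 + ‖S.a‖ ^ S.k * S.Dv x ^ 2 + S.Dv x ^ (S.k + 2))) +
        L * ‖Ap S.k S.a - S.F‖ * S.Dv x + ‖S.a‖ * ‖Ap S.k S.a - S.F‖ * β x) :=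
        mul_le_mul_of_nonneg_left (by linarith) (norm_nonneg _)
    _ = _ := by ring

/-- The mean of the antisymmetric term against the mean flux. -/
theorem estA [CompleteSpace V] (ha : ‖S.a‖ ≤ 1) :
    |⟪S.F, ∫ x, b3 x (S.p x) (Ap S.k (S.p x)) ∂S.σ⟫| ≤ 6 * L * ((S.k + 1) * 2 ^ S.k) *
      (‖S.a‖ ^ S.k * ∫ x, β x ^ 2 ∂S.σ + ‖S.a‖ ^ S.k * ∫ x, S.Dv x ^ 2 ∂S.σ +
        ∫ x, S.Dv x ^ (S.k + 2) ∂S.σ) * ‖S.F‖ := by
  have := h.ok.prob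
  have i1 : Integrable (fun x => S.ra x (Ap S.k (S.p x)) - S.F) S.σ :=
    h.ok.iF.sub (integrable_const _)
  have i2 : Integrable (fun x => B0 S.a (S.ra x (Ap S.k (S.p x)) - S.F)) S.σ :=
    (B0 S.a).integrable_comp i1
  have e1 : ∫ x, B0 S.a (S.ra x (Ap S.k (S.p x)) - S.F) ∂S.σ = 0 := by
    rw [(B0 S.a).integral_comp_comm i1, integral_sub h.ok.iF (integrable_const _), integral_const,
      probReal_univ, one_smul]
    change B0 S.a (S.F - S.F) = 0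
    rw [sub_self, map_zero]
  have h1 := int_five (h.iβ 2) (h.ok.iD (j := 2) (by omega)) (h.ok.iD le_rfl) h.ok.iD1 h.iβ1
    _ _ _ _ _ (Eventually.of_forall (h.ptA ha))
  rw [integral_sub (h.i3.const_inner _) (i2.const_inner _), int_inner h.i3, int_inner i2, e1,
    inner_zero_right, sub_zero] at h1
  refine h1.trans ?_
  have j1 := jensen_pow h.ok.mD Dv_nonneg 1 (h.ok.iD (by omega))
  have j2 := jensen_pow h.mβ h.β0 1 (h.iβ 2)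
  have j3 := h.ok.D1n
  have j4 := h.ok.phi0
  have j5 := h.ok.phi1
  have d0 : 0 ≤ ∫ x, S.Dv x ∂S.σ := integral_nonneg Dv_nonneg
  have β0 : 0 ≤ ∫ x, β x ∂S.σ := integral_nonneg h.β0
  have β1 : ∫ x, β x ∂S.σ ≤ L := by
    have := integral_mono h.iβ1 (integrable_const L) h.β1
    rwa [integral_const, probReal_univ, one_smul] at this
  have n0 : 0 ≤ ∫ x, S.Dv x ^ (S.k + 2) ∂S.σ :=
    integral_nonneg fun x => pow_nonneg (Dv_nonneg x) _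
  have a1 : ‖S.a‖ ^ (S.k + 1) ≤ ‖S.a‖ ^ S.k :=
    pow_le_pow_of_le_one (norm_nonneg _) ha (Nat.le_succ _)
  have a0 : 0 ≤ ‖S.a‖ ^ S.k := by positivity
  have L1 := h.ok.L1
  have K0 : (0 : ℝ) ≤ (S.k + 1) * 2 ^ S.k := by positivity
  have F0 := norm_nonneg S.F
  simp only [Nat.reduceAdd] at j1 j2
  generalize ∫ x, S.Dv x ∂S.σ = d at *
  generalize ∫ x, β x ∂S.σ = b at *
  generalize ∫ x, β x ^ 2 ∂S.σ = B2 at *
  generalize ∫ x, S.Dv x ^ 2 ∂S.σ = I2 at *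
  generalize ∫ x, S.Dv x ^ (S.k + 2) ∂S.σ = In at *
  generalize ∫ x, S.Dv x ^ (S.k + 1) ∂S.σ = I1 at *
  generalize ((S.k : ℝ) + 1) * 2 ^ S.k = K at *
  generalize ‖Ap S.k S.a - S.F‖ = c at *
  generalize ‖S.a‖ ^ (S.k + 1) = a' at *
  generalize ‖S.a‖ ^ S.k = ak at *
  generalize ‖S.F‖ = f at *
  have t1 : c * d ≤ K * (ak * I2 + 2 * In) := by
    calc c * d ≤ K * (ak * d + I1) * d := mul_le_mul_of_nonneg_right j4 d0
      _ = K * (ak * d ^ 2 + d * I1) := by ring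
      _ ≤ _ := by gcongr
  have t2 : ‖S.a‖ * c * b ≤ K * (ak * (B2 + I2) + L * In) := by
    have t3 : d * b ≤ B2 + I2 := by nlinarith [sq_nonneg (d - b), mul_nonneg d0 β0]
    calc ‖S.a‖ * c * b ≤ K * (a' * d + In) * b := mul_le_mul_of_nonneg_right j5 β0
      _ = K * (a' * (d * b) + b * In) := by ring
      _ ≤ _ := by gcongr
  have B0' : 0 ≤ ak * B2 := mul_nonneg a0 ((sq_nonneg b).trans j2)
  have I0' : 0 ≤ ak * I2 := mul_nonneg a0 ((sq_nonneg d).trans j1)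
  have t4 : ak * (B2 + I2) ≤ L * (ak * B2 + ak * I2) := by nlinarith
  have t5 := mul_le_mul_of_nonneg_left t1 (zero_le_one.trans L1)
  have t6 : K * (ak * (B2 + I2) + L * In) ≤ K * (L * (ak * B2 + ak * I2) + L * In) := by gcongr
  have t7 : 0 ≤ L * K * (ak * B2) := by positivity
  have t8 : 0 ≤ L * K * (ak * I2) := by positivity
  calc _ = (2 * L * K * (ak * B2) + 3 * L * K * (ak * I2) + 3 * L * K * In + L * (c * d) +
        ‖S.a‖ * c * b) * f := by ring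
    _ ≤ _ := mul_le_mul_of_nonneg_right (by nlinarith) F0

theorem ptC {η : ℝ} (h1 : η ≤ 1) (ha : ‖S.a‖ ≤ η) (x : X) (hz : S.z x ≤ η) :
    |⟪b3 x (S.p x) (Ap S.k (S.p x)), S.u x - S.y⟫ - ⟪B0 S.a (Ap S.k S.a), S.u x - S.y⟫| ≤
      η * (L * ((S.k + 3) * 2 ^ S.k) + 1) * ‖S.a‖ ^ S.k * β x ^ 2 +
      η * (L * ((S.k + 3) * 2 ^ S.k) + 1) * ‖S.a‖ ^ S.k * S.Dv x ^ 2 +
      η * (L * ((S.k + 3) * 2 ^ S.k) + 1) * S.Dv x ^ (S.k + 2) +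
      η * (L * ((S.k + 3) * 2 ^ S.k) + 1) * ‖S.a‖ ^ S.k * S.z x ^ 2 + 0 * S.z x ^ 2 := by
  have hD := Dv_nonneg (S := S) x
  have z0 := z_nonneg (S := S) x
  have L0 := h.ok.L0
  have b0' := h.β0 x
  have a0 := norm_nonneg S.a
  have e1 : b3 x (S.p x) (Ap S.k (S.p x)) - B0 S.a (Ap S.k S.a) =
      b3 x (S.p x - S.io x S.a) (Ap S.k (S.p x)) +
      b3 x (S.io x S.a) (Ap S.k (S.p x) - S.io x (Ap S.k S.a)) +
      (b3 x (S.io x S.a) (S.io x (Ap S.k S.a)) - b0 (S.io x S.a) (S.io x (Ap S.k S.a))) := by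
    rw [h.io0, h.ok.ra_io, map_sub, map_sub, _root_.sub_apply]; abel
  have n1 := h.bb x (S.p x - S.io x S.a) (Ap S.k (S.p x))
  have n2 := h.bb x (S.io x S.a) (Ap S.k (S.p x) - S.io x (Ap S.k S.a))
  have n3 := h.b30 x (S.io x S.a) (S.io x (Ap S.k S.a))
  rw [norm_Ap] at n1
  rw [h.ok.iso] at n2
  rw [h.ok.iso, h.ok.iso, norm_Ap] at n3
  have n4 : S.Dv x * ‖S.p x‖ ^ (S.k + 1) ≤
      2 ^ (S.k + 1) * (‖S.a‖ ^ (S.k + 1) * S.Dv x + S.Dv x ^ (S.k + 2)) := by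
    refine le_trans ?_ (split_pow' S.k a0 hD)
    rw [mul_comm]
    exact mul_le_mul_of_nonneg_right (pow_le_pow_left₀ (norm_nonneg _) (h.ok.p_le x) _) hD
  have n5 := h.ok.a_hv x
  have n6 : ‖b3 x (S.p x) (Ap S.k (S.p x)) - B0 S.a (Ap S.k S.a)‖ ≤
      L * ((S.k + 3) * 2 ^ S.k) * (‖S.a‖ ^ (S.k + 1) * S.Dv x + S.Dv x ^ (S.k + 2)) +
        β x * ‖S.a‖ * ‖S.a‖ ^ (S.k + 1) := by
    rw [e1]
    refine (norm_add₃_le).trans (add_le_add ?_ n3)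
    calc _ ≤ L * (S.Dv x * ‖S.p x‖ ^ (S.k + 1)) + L * (‖S.a‖ * S.hv x) :=
          add_le_add (n1.trans (le_of_eq (mul_assoc _ _ _))) (n2.trans (le_of_eq (mul_assoc _ _ _)))
      _ ≤ L * (2 ^ (S.k + 1) * (‖S.a‖ ^ (S.k + 1) * S.Dv x + S.Dv x ^ (S.k + 2))) +
          L * ((S.k + 1) * 2 ^ S.k * (‖S.a‖ ^ (S.k + 1) * S.Dv x + S.Dv x ^ (S.k + 2))) := by
          gcongr
      _ = _ := by ring
  rw [← inner_sub_left]
  refine (abs_real_inner_le_norm _ _).trans ((mul_le_mul_of_nonneg_right n6 z0).trans ?_)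
  have K0 : 0 ≤ L * (((S.k : ℝ) + 3) * 2 ^ S.k) := by positivity
  have n0 : 0 ≤ S.Dv x ^ (S.k + 2) := by positivity
  have ak : 0 ≤ ‖S.a‖ ^ S.k := by positivity
  rw [pow_succ ‖S.a‖ S.k]
  generalize L * (((S.k : ℝ) + 3) * 2 ^ S.k) = K at *
  generalize S.Dv x ^ (S.k + 2) = Dn at *
  generalize ‖S.a‖ ^ S.k = A at *
  generalize S.Dv x = d at *
  generalize S.z x = z at *
  generalize β x = b at *
  generalize ‖S.a‖ = a at *
  have η0 : 0 ≤ η := a0.trans ha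
  have t1 : d * z ≤ d ^ 2 + z ^ 2 := by nlinarith [sq_nonneg (d - z), mul_nonneg hD z0]
  have t2 : b * z ≤ b ^ 2 + z ^ 2 := by nlinarith [sq_nonneg (b - z), mul_nonneg b0' z0]
  have t3 : a * a ≤ η := (mul_le_mul (ha.trans h1) ha a0 zero_le_one).trans (by linarith)
  have t4 : 0 ≤ η * K * A * b ^ 2 + η * A * d ^ 2 + η * Dn := by positivity
  calc _ = K * (a * A * (d * z) + z * Dn) + a * a * A * (b * z) := by ring
    _ ≤ K * (η * A * (d ^ 2 + z ^ 2) + η * Dn) + η * A * (b ^ 2 + z ^ 2) := by gcongr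
    _ ≤ _ := by nlinarith

/-- The antisymmetric term against the oscillation. -/
theorem estC [CompleteSpace V] {η : ℝ} (h1 : η ≤ 1) (ha : ‖S.a‖ ≤ η)
    (hz : ∀ᵐ x ∂S.σ, ‖S.u x - S.y‖ ≤ η) :
    |∫ x, ⟪b3 x (S.p x) (Ap S.k (S.p x)), S.u x - S.y⟫ ∂S.σ| ≤
      η * (L * ((S.k + 3) * 2 ^ S.k) + 1) * (‖S.a‖ ^ S.k * ∫ x, β x ^ 2 ∂S.σ +
        ‖S.a‖ ^ S.k * ∫ x, S.Dv x ^ 2 ∂S.σ + ∫ x, S.Dv x ^ (S.k + 2) ∂S.σ +
        ‖S.a‖ ^ S.k * ∫ x, S.z x ^ 2 ∂S.σ) := by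
  have := h.ok.prob
  have i1 : Integrable (fun x => S.u x - S.y) S.σ := h.ok.iu.sub (integrable_const _)
  have i2 : Integrable (fun x => ⟪b3 x (S.p x) (Ap S.k (S.p x)), S.u x - S.y⟫) S.σ := by
    refine (h.ok.lp.const_mul (L * η)).mono' (h.m3.inner i1.1) ?_
    filter_upwards [hz] with x hx
    have L0 := h.ok.L0
    calc _ ≤ ‖b3 x (S.p x) (Ap S.k (S.p x))‖ * ‖S.u x - S.y‖ := norm_inner_le_norm _ _
      _ ≤ L * ‖S.p x‖ ^ (S.k + 2) * η := mul_le_mul (h.n3 x) hx (norm_nonneg _) (by positivity)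
      _ = _ := by ring
  have e1 : ∫ x, (S.u x - S.y) ∂S.σ = 0 := by
    rw [integral_sub h.ok.iu (integrable_const _), integral_const, probReal_univ, one_smul]
    exact sub_self _
  have h2 := int_five (h.iβ 2) (h.ok.iD (j := 2) (by omega)) (h.ok.iD le_rfl) (h.ok.iz 2)
    (h.ok.iz 2) _ _ _ _ _ (hz.mono fun x hx => h.ptC h1 ha x hx)
  rw [integral_sub i2 (i1.const_inner _), int_inner i1, e1, inner_zero_right, sub_zero] at h2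
  exact h2.trans (le_of_eq (by ring))

end Anti

end Pool.Agent.Lib.MP_a785f2_an.LY.Sph
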