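import Pool.Agent.Lib.MP_a785f2_an.LY.Sph
import Pool.Agent.Lib.MP_a785f2_an.LY.SphU

/-!
The sphere lemma with one more term `b3 x (p x) (Ap k (p x))`, antisymmetric on rank one gradients.
-/

open MeasureTheory
open scoped RealInnerProductSpace

namespace Pool.Agent.Lib.MP_a785f2_an.LY

namespace Sph

variable {X V W : Type} [MeasurableSpace X] [NormedAddCommGroup V] [InnerProductSpace ℝ V]
  [NormedAddCommGroup W] [InnerProductSpace ℝ W]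

/-- The same data with another remainder. -/
def rem (S : Sph X V W) (h : X → V) : Sph X V W := { S with h2 := h }

/-- The remainder `h2` is the sum of a remainder `h` as in `Ok` and of an antisymmetric term;
`b0` is a constant comparison form and `β` bounds the distance to it. -/
structure Tor (S : Sph X V W) (L : ℝ) (h : X → V) (b3 : X → W →L[ℝ] W →L[ℝ] V)
    (b0 : W →L[ℝ] W →L[ℝ] V) (B0 : V →L[ℝ] V →L[ℝ] V) (β : X → ℝ) : Prop where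
  ok : (S.rem h).Ok L
  eq : ∀ x, S.h2 x = h x + b3 x (S.p x) (Ap S.k (S.p x))
  m3 : AEStronglyMeasurable (fun x => b3 x (S.p x) (Ap S.k (S.p x))) S.σ
  mβ : AEStronglyMeasurable β S.σ
  β0 : ∀ x, 0 ≤ β x
  β1 : ∀ x, β x ≤ L
  bb : ∀ x q q', ‖b3 x q q'‖ ≤ L * ‖q‖ * ‖q'‖
  b30 : ∀ x q q', ‖b3 x q q' - b0 q q'‖ ≤ β x * ‖q‖ * ‖q'‖
  anti : ∀ x q c, ⟪b3 x q (S.io x c), c⟫ = 0
  io0 : ∀ x c q, b0 (S.io x c) q = B0 c (S.ra x q)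

namespace Tor

variable {S : Sph X V W} {L : ℝ} {h : X → V} {b3 : X → W →L[ℝ] W →L[ℝ] V}
  {b0 : W →L[ℝ] W →L[ℝ] V} {B0 : V →L[ℝ] V →L[ℝ] V} {β : X → ℝ} (t : S.Tor L h b3 b0 B0 β)
include t

theorem an : (S.rem h).Anti L b3 b0 B0 β :=
  ⟨t.ok, t.m3, t.mβ, t.β0, t.β1, t.bb, t.b30, t.anti, t.io0⟩

theorem al_eq (x : X) : S.al x = (S.rem h).al x + b3 x (S.p x) (Ap S.k (S.p x)) := by
  rw [Sph.al, t.eq, ← add_assoc]; rfl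

theorem Fp_eq : S.Fp = (S.rem h).Fp + ∫ x, b3 x (S.p x) (Ap S.k (S.p x)) ∂S.σ := by
  simp only [Sph.Fp, t.al_eq]
  exact integral_add t.ok.ial t.an.i3

theorem NN_eq : S.NN = (S.rem h).NN + ⟪S.g S.F, ∫ x, b3 x (S.p x) (Ap S.k (S.p x)) ∂S.σ⟫ := by
  rw [Sph.NN, t.Fp_eq, inner_add_right, add_right_comm]; rfl

theorem hh_eq : S.hh =
    (S.rem h).hh + ∫ x, ⟪b3 x (S.p x) (Ap S.k (S.p x)), S.u x - S.y⟫ ∂S.σ := by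
  have := t.ok.prob
  have m : AEStronglyMeasurable (fun x => S.u x - S.y) S.σ :=
    t.ok.mu.sub aestronglyMeasurable_const
  have i : ∀ φ : X → V, Integrable φ S.σ → Integrable (fun x => ⟪φ x, S.u x - S.y⟫) S.σ := by
    intro φ hφ
    refine (hφ.norm.mul_const (2 * L)).mono' (hφ.1.inner m) ?_
    filter_upwards [t.ok.bz] with x hx
    exact (norm_inner_le_norm _ _).trans (mul_le_mul_of_nonneg_left hx (norm_nonneg _))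
  simp only [Sph.hh, t.al_eq, inner_add_left]
  exact integral_add (i _ t.ok.ial) (i _ t.an.i3)

theorem g_le [CompleteSpace V] (v w : V) : |⟪S.g v, w⟫| ≤
    |⟪v, w⟫| + 4 * L ^ 2 * (∫ x, ‖S.u x - S.y‖ ^ 2 ∂S.σ) * (‖v‖ * ‖w‖) := by
  have h1 := t.ok.g_eq v w
  have h2 := (t.ok.abs_TT v w).trans (mul_le_mul_of_nonneg_right t.ok.T2_le (by positivity))
  change ⟪S.g v, w⟫ = _ at h1
  rw [h1]
  exact (abs_add_le _ _).trans (add_le_add le_rfl h2)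

end Tor

end Sph

/-- Bounds valid on every sphere. -/
theorem crudeT (k : ℕ) {L : ℝ} (hL : 1 ≤ L) : ∃ C : ℝ, 1 ≤ C ∧
    ∀ {X V W : Type} [MeasurableSpace X] [NormedAddCommGroup V] [InnerProductSpace ℝ V]
      [CompleteSpace V] [NormedAddCommGroup W] [InnerProductSpace ℝ W] (S : Sph X V W)
      (h : X → V) (b3 : X → W →L[ℝ] W →L[ℝ] V) (b0 : W →L[ℝ] W →L[ℝ] V)
      (B0 : V →L[ℝ] V →L[ℝ] V) (β : X → ℝ), S.k = k → S.Tor L h b3 b0 B0 β →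
      |S.NN| ≤ C * S.e * ‖S.F‖ ∧ ‖S.a‖ ≤ S.m1 ∧ ‖S.gp‖ ≤ C * S.m1 ∧ ‖S.F‖ ≤ S.mk1 ∧
      ‖S.Fp‖ ≤ C * S.e ∧ S.m1 * S.mk1 ≤ 2 * S.e ∧ S.m1 ^ (k + 2) ≤ S.e ∧
      (∀ v w, ⟪S.g v, w⟫ = ⟪v, S.g w⟫) ∧ (∀ v, ‖v‖ ^ 2 ≤ ⟪S.g v, v⟫) ∧
      ∀ l : ℝ, 0 ≤ l → (∀ᵐ x ∂S.σ, ‖S.u x - S.y‖ ≤ l) →
        ‖S.g - ContinuousLinearMap.id ℝ V‖ ≤ C * l ^ 2 ∧ |S.hh| ≤ C * l * S.e := by
  obtain ⟨C, hC, H⟩ := crude k hL
  have L0 : 0 ≤ L := zero_le_one.trans hL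
  have p0 : 0 ≤ L * (1 + 16 * L ^ 4) := by positivity
  have p1 : L ≤ L * (1 + 16 * L ^ 4) := le_mul_of_one_le_right L0 (by linarith [pow_nonneg L0 4])
  refine ⟨C + L * (1 + 16 * L ^ 4), by linarith, fun S h b3 b0 B0 β hk t => ?_⟩
  obtain ⟨a1, a2, a3, a4, a5, a6, a7, a8, a9, a10⟩ := H (S.rem h) hk t.ok
  have e0 : 0 ≤ S.e := t.ok.e0
  have m0 : 0 ≤ S.m1 := t.ok.m10
  have n3 : ‖∫ x, b3 x (S.p x) (Ap S.k (S.p x)) ∂S.σ‖ ≤ L * S.e := t.an.int3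
  refine ⟨?_, a2, le_trans a3 (mul_le_mul_of_nonneg_right (by linarith) m0), a4, ?_, a6, a7, a8,
    a9, fun l hl hz => ⟨le_trans (a10 l hl hz).1 (by gcongr; linarith), ?_⟩⟩
  · have z2 : ∫ x, ‖S.u x - S.y‖ ^ 2 ∂S.σ ≤ (2 * L) ^ 2 := t.ok.Z2_le t.ok.bz
    have h1 := (t.g_le S.F (∫ x, b3 x (S.p x) (Ap S.k (S.p x)) ∂S.σ)).trans
      (add_le_add (abs_real_inner_le_norm _ _) le_rfl)
    have h2 : |(S.rem h).NN| ≤ C * S.e * ‖S.F‖ := a1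
    rw [t.NN_eq]
    calc _ ≤ C * S.e * ‖S.F‖ + (‖S.F‖ * (L * S.e) + 4 * L ^ 2 * (2 * L) ^ 2 *
          (‖S.F‖ * (L * S.e))) := (abs_add_le _ _).trans (add_le_add h2 (h1.trans (by gcongr)))
      _ = _ := by ring
  · have h2 : ‖(S.rem h).Fp‖ ≤ C * S.e := a5
    rw [t.Fp_eq]
    calc _ ≤ C * S.e + L * (1 + 16 * L ^ 4) * S.e :=
          (norm_add_le _ _).trans (add_le_add h2 (n3.trans (by gcongr)))
      _ = _ := by ring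
  · have h2 : |(S.rem h).hh| ≤ C * l * S.e := (a10 l hl hz).2
    have h3 : |∫ x, ⟪b3 x (S.p x) (Ap S.k (S.p x)), S.u x - S.y⟫ ∂S.σ| ≤ L * l * S.e := by
      rw [Sph.e, ← integral_const_mul, ← Real.norm_eq_abs]
      refine norm_integral_le_of_norm_le (t.ok.lp.const_mul _) ?_
      filter_upwards [hz] with x hx
      exact (norm_inner_le_norm _ _).trans ((mul_le_mul (t.an.n3 x) hx (norm_nonneg _)
        (by positivity)).trans (le_of_eq (mul_right_comm _ _ _)))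
    rw [t.hh_eq]
    calc _ ≤ C * l * S.e + L * (1 + 16 * L ^ 4) * l * S.e :=
          (abs_add_le _ _).trans (add_le_add h2 (h3.trans (by gcongr)))
      _ = _ := by ring

/-- The sphere lemma with the antisymmetric term. -/
theorem sphere_lemmaT (k : ℕ) {L Cp : ℝ} (hL : 1 ≤ L) (hCp : 1 ≤ Cp) : ∃ C δ : ℝ, 1 ≤ C ∧ 0 < δ ∧
    ∀ {X V W : Type} [MeasurableSpace X] [NormedAddCommGroup V] [InnerProductSpace ℝ V]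
      [CompleteSpace V] [NormedAddCommGroup W] [InnerProductSpace ℝ W] (S : Sph X V W)
      (h : X → V) (b3 : X → W →L[ℝ] W →L[ℝ] V) (b0 : W →L[ℝ] W →L[ℝ] V)
      (B0 : V →L[ℝ] V →L[ℝ] V) (β : X → ℝ), S.k = k → S.Tor L h b3 b0 B0 β →
      ∀ dd : ℝ, 0 ≤ dd → (∀ᵐ x ∂S.σ, ‖S.u x - S.y‖ ≤ δ) → S.e ≤ δ →
      ∫ x, ‖S.u x - S.y‖ ^ 2 ∂S.σ ≤ Cp * (∫ x, ‖S.p x - S.io x S.a‖ ^ 2 ∂S.σ + dd) →
      ∫ x, β x ^ 2 ∂S.σ ≤ Cp * (∫ x, ‖S.p x - S.io x S.a‖ ^ 2 ∂S.σ + dd) →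
      0 ≤ S.XX ∧ |S.hh| ≤ (S.XX + ‖S.a‖ ^ k * dd) / 2 ∧
        S.NN ≤ C * (S.XX + ‖S.a‖ ^ k * dd) * ‖S.F‖ := by
  obtain ⟨C, δ, hC, hδ, H⟩ := sphere_lemma k hL hCp
  have L0 : 0 ≤ L := zero_le_one.trans hL
  obtain ⟨K1, hK1⟩ : ∃ K1 : ℝ, K1 = L * ((k + 3) * 2 ^ k) + 1 := ⟨_, rfl⟩
  obtain ⟨K2, hK2⟩ : ∃ K2 : ℝ, K2 = 4 * Cp + 2 + 2 ^ (k + 1) := ⟨_, rfl⟩
  have K10 : 0 < K1 := by rw [hK1]; positivity
  have K20 : 0 < K2 := by rw [hK2]; positivity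
  obtain ⟨η, η0, η1, η2⟩ : ∃ η : ℝ, 0 < η ∧ η ≤ 1 ∧ η * K1 * K2 ≤ 1 / 4 := by
    refine ⟨min 1 (1 / (4 * (K1 * K2))), by positivity, min_le_left _ _, ?_⟩
    calc _ ≤ 1 / (4 * (K1 * K2)) * K1 * K2 := by gcongr; exact min_le_right _ _
      _ = _ := by field_simp
  have η3 : η ^ (k + 2) ≤ η := pow_le_of_le_one η0.le η1 (by omega)
  have p0 : 0 ≤ (6 * L * ((k + 1) * 2 ^ k) + 4 * L ^ 3 * 2 ^ (k + 2)) * K2 := by positivity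
  refine ⟨C + (6 * L * ((k + 1) * 2 ^ k) + 4 * L ^ 3 * 2 ^ (k + 2)) * K2, min δ (η ^ (k + 2)),
    by linarith, by positivity, fun S h b3 b0 B0 β hk t dd d0 hz he hp hβ => ?_⟩
  subst hk
  obtain ⟨a1, a2, a3⟩ := H (S.rem h) rfl t.ok dd d0 (hz.mono fun x hx => hx.trans (min_le_left _ _))
    (he.trans (min_le_left _ _)) hp
  have hz' : ∀ᵐ x ∂S.σ, ‖S.u x - S.y‖ ≤ η :=
    hz.mono fun x hx => (hx.trans (min_le_right _ _)).trans η3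
  have ha : ‖S.a‖ ≤ η := le_of_pow_le_pow_left₀ (by omega) η0.le
    (le_trans t.ok.an_le (he.trans (min_le_right _ _)))
  have b1 := t.an.estA (ha.trans η1)
  have b2 := t.an.estC η1 ha hz'
  have b3' := t.g_le S.F (∫ x, b3 x (S.p x) (Ap S.k (S.p x)) ∂S.σ)
  have b4 : ‖∫ x, b3 x (S.p x) (Ap S.k (S.p x)) ∂S.σ‖ ≤ L * S.e := t.an.int3
  have b5 := t.ok.I2_le
  have b6 := t.ok.In_le
  have b7 := t.ok.e_le
  have b8 := (t.ok.Z2_le hz').trans (pow_le_one₀ η0.le η1)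
  have b9 : ‖S.a‖ ^ (S.k + 2) ≤ ‖S.a‖ ^ S.k :=
    pow_le_pow_of_le_one (norm_nonneg _) (ha.trans η1) (by omega)
  have z0 : 0 ≤ ∫ x, ‖S.u x - S.y‖ ^ 2 ∂S.σ := integral_nonneg fun _ => sq_nonneg _
  have β0 : 0 ≤ ∫ x, β x ^ 2 ∂S.σ := integral_nonneg fun _ => sq_nonneg _
  have i0 : 0 ≤ ∫ x, ‖S.p x - S.io x S.a‖ ^ 2 ∂S.σ := integral_nonneg fun _ => sq_nonneg _
  have n0 : 0 ≤ ∫ x, ‖S.p x - S.io x S.a‖ ^ (S.k + 2) ∂S.σ :=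
    integral_nonneg fun _ => by positivity
  have k0 : 0 ≤ ‖S.a‖ ^ S.k := by positivity
  have f0 := norm_nonneg S.F
  rw [t.hh_eq, t.NN_eq]
  change 0 ≤ S.XX at a1
  change _ ≤ (S.XX + ‖S.a‖ ^ S.k * dd) / 4 at a2
  change _ ≤ C * (S.XX + ‖S.a‖ ^ S.k * dd) * ‖S.F‖ at a3
  change |⟪S.F, ∫ x, b3 x (S.p x) (Ap S.k (S.p x)) ∂S.σ⟫| ≤ 6 * L * ((S.k + 1) * 2 ^ S.k) *
    (‖S.a‖ ^ S.k * ∫ x, β x ^ 2 ∂S.σ + ‖S.a‖ ^ S.k * ∫ x, ‖S.p x - S.io x S.a‖ ^ 2 ∂S.σ +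
      ∫ x, ‖S.p x - S.io x S.a‖ ^ (S.k + 2) ∂S.σ) * ‖S.F‖ at b1
  change |∫ x, ⟪b3 x (S.p x) (Ap S.k (S.p x)), S.u x - S.y⟫ ∂S.σ| ≤
    η * (L * ((S.k + 3) * 2 ^ S.k) + 1) * (‖S.a‖ ^ S.k * ∫ x, β x ^ 2 ∂S.σ +
      ‖S.a‖ ^ S.k * ∫ x, ‖S.p x - S.io x S.a‖ ^ 2 ∂S.σ +
      ∫ x, ‖S.p x - S.io x S.a‖ ^ (S.k + 2) ∂S.σ +
      ‖S.a‖ ^ S.k * ∫ x, ‖S.u x - S.y‖ ^ 2 ∂S.σ) at b2
  change ‖S.a‖ ^ S.k * ∫ x, ‖S.p x - S.io x S.a‖ ^ 2 ∂S.σ ≤ 2 * S.XX at b5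
  change ∫ x, ‖S.p x - S.io x S.a‖ ^ (S.k + 2) ∂S.σ ≤ 2 ^ (S.k + 1) * S.XX at b6
  change S.e ≤ 2 ^ (S.k + 2) * (‖S.a‖ ^ (S.k + 2) +
    ∫ x, ‖S.p x - S.io x S.a‖ ^ (S.k + 2) ∂S.σ) at b7
  change ∫ x, ‖S.u x - S.y‖ ^ 2 ∂S.σ ≤ 1 at b8
  rw [← hK1] at b2
  generalize ∫ x, b3 x (S.p x) (Ap S.k (S.p x)) ∂S.σ = w at *
  generalize ∫ x, ‖S.p x - S.io x S.a‖ ^ 2 ∂S.σ = I2 at *
  generalize ∫ x, ‖S.p x - S.io x S.a‖ ^ (S.k + 2) ∂S.σ = In at *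
  generalize ∫ x, ‖S.u x - S.y‖ ^ 2 ∂S.σ = Z2 at *
  generalize ∫ x, β x ^ 2 ∂S.σ = B2 at *
  generalize ‖S.a‖ ^ (S.k + 2) = an at *
  generalize ‖S.a‖ ^ S.k = ak at *
  have y0 : 0 ≤ ak * dd := mul_nonneg k0 d0
  have c1 : ak * (Cp * (I2 + dd)) ≤ 2 * Cp * (S.XX + ak * dd) := by
    have : 0 ≤ Cp * (2 * S.XX + ak * dd - ak * I2) := mul_nonneg (by linarith) (by linarith)
    nlinarith
  have c2 : ak * Z2 ≤ 2 * Cp * (S.XX + ak * dd) := (mul_le_mul_of_nonneg_left hp k0).trans c1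
  have c3 : ak * B2 ≤ 2 * Cp * (S.XX + ak * dd) := (mul_le_mul_of_nonneg_left hβ k0).trans c1
  have c4 : In ≤ 2 ^ (S.k + 1) * (S.XX + ak * dd) := b6.trans (by gcongr; linarith)
  have c5 : ak * B2 + ak * I2 + In + ak * Z2 ≤ K2 * (S.XX + ak * dd) := by rw [hK2]; linarith
  have c6 : 0 ≤ ak * Z2 := mul_nonneg k0 z0
  have c7 : 0 ≤ ak * B2 + ak * I2 := by positivity
  have Y0 : 0 ≤ S.XX + ak * dd := by linarith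
  generalize S.XX + ak * dd = Y at *
  refine ⟨a1, (abs_add_le _ _).trans ?_, ?_⟩
  · have c8 : η * K1 * (ak * B2 + ak * I2 + In + ak * Z2) ≤ η * K1 * (K2 * Y) := by gcongr
    have c9 := mul_le_mul_of_nonneg_right η2 Y0
    linarith
  · have c8 : Z2 * S.e ≤ 2 ^ (S.k + 2) * (K2 * Y) := by
      calc Z2 * S.e ≤ Z2 * (2 ^ (S.k + 2) * (ak + In)) := by
            gcongr; exact b7.trans (by gcongr)
        _ = 2 ^ (S.k + 2) * (ak * Z2 + Z2 * In) := by ring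
        _ ≤ 2 ^ (S.k + 2) * (ak * Z2 + 1 * In) := by gcongr
        _ ≤ _ := by gcongr; linarith
    have c9 : 4 * L ^ 2 * Z2 * (‖S.F‖ * ‖w‖) ≤ 4 * L ^ 3 * (2 ^ (S.k + 2) * (K2 * Y)) * ‖S.F‖ := by
      calc _ ≤ 4 * L ^ 2 * Z2 * (‖S.F‖ * (L * S.e)) := by gcongr
        _ = 4 * L ^ 3 * (Z2 * S.e) * ‖S.F‖ := by ring
        _ ≤ _ := by gcongr
    have c10 : |⟪S.F, w⟫| ≤ 6 * L * ((S.k + 1) * 2 ^ S.k) * (K2 * Y) * ‖S.F‖ :=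
      b1.trans (by gcongr; linarith)
    have c11 := le_abs_self ⟪S.g S.F, w⟫
    linarith

end Pool.Agent.Lib.MP_a785f2_an.LY
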