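import Pool.Agent.Lib.MP_a785f2_an.NH.ManC

/-! The weak equation tested with a function of the solution. -/

open MeasureTheory Metric Set Filter Topology
open scoped ContDiff RealInnerProductSpace ENNReal

namespace Pool.Agent.Lib.MP_a785f2_an.LY

open HS NH

variable {n m : ℕ}

theorem pr_smul (A B : D n →L[ℝ] V m) (t : ℝ) : pr A (t • B) = t * pr A B := by
  simp only [pr, col, smul_apply, inner_smul_right, ← Finset.mul_sum]
  ring

theorem pr_self (hn : 2 ≤ n) (A : D n →L[ℝ] V m) : pr A A = fro A ^ n := by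
  simp only [pr, real_inner_self_eq_norm_sq]
  rw [← fro_sq, ← pow_add]
  congr 1
  omega

theorem test_comp (hn : 2 ≤ n) {Ω : Set (D n)} {u : D n → V m} {G : D n → D n →L[ℝ] V m}
    {F : D n → V m} (S : GSol Ω u G F) {Φ : V m → V m} (h1 : ContDiff ℝ 1 Φ) {B : ℝ}
    (b0 : ∀ y, ‖Φ y‖ ≤ B) (b1 : ∀ y, ‖fderiv ℝ Φ y‖ ≤ B) {x0 : D n} {R : ℝ}
    (hK : closedBall x0 R ⊆ Ω) {g : D n → ℝ} (g1 : ContDiff ℝ ∞ g) (g2 : HasCompactSupport g)
    (g3 : tsupport g ⊆ closedBall x0 R) :
    ∫ x, (pr (G x) ((fderiv ℝ g x).smulRight (Φ (u x))) +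
      g x * (pr (G x) ((fderiv ℝ Φ (u x)).comp (G x)) - ⟪F x, Φ (u x)⟫)) = 0 := by
  obtain ⟨w, hw⟩ := S.apx hn hK
  have B0 : 0 ≤ B := (norm_nonneg _).trans (b0 0)
  have cΦ : Continuous Φ := h1.continuous
  have cD : Continuous (fderiv ℝ Φ) := h1.continuous_fderiv one_ne_zero
  have cg : Continuous (fderiv ℝ g) := g1.continuous_fderiv (by simp)
  obtain ⟨L3, L30, hL3⟩ := tr_bdd g1.continuous g2
  obtain ⟨L4, L40, hL4⟩ := tr_bdd cg (g2.fderiv ℝ)
  have ifro := S.ifro hn
  have iG : Integrable fun x => ‖G x‖ ^ n := S.lG.integrable_norm_pow (by omega)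
  have f0 : ∀ x, 0 ≤ fro (G x) := fun x => fro_nonneg _
  have hout : ∀ x, x ∉ closedBall x0 R → g x = 0 ∧ fderiv ℝ g x = 0 := fun x hx =>
    ⟨image_eq_zero_of_notMem_tsupport fun h => hx (g3 h),
      image_eq_zero_of_notMem_tsupport fun h => hx (g3 (tsupport_fderiv_subset ℝ h))⟩
  have hc : ∀ x y (A : D n →L[ℝ] V m), |pr (G x) ((fderiv ℝ Φ y).comp A)| ≤
      n * B * (fro (G x) ^ (n - 1) * ‖A‖) := fun x y A => by
    refine (abs_pr_le hn _ _).trans ?_
    have h3 : ‖(fderiv ℝ Φ y).comp A‖ ≤ B * ‖A‖ :=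
      (ContinuousLinearMap.opNorm_comp_le _ _).trans
        (mul_le_mul_of_nonneg_right (b1 y) (norm_nonneg _))
    have h4 := pow_nonneg (f0 x) (n - 1)
    calc _ ≤ (n : ℝ) * (fro (G x) ^ (n - 1) * (B * ‖A‖)) := by gcongr
      _ = _ := by ring
  set T : D n → V m → ℝ := fun x y => pr (G x) ((fderiv ℝ g x).smulRight (Φ y)) +
    g x * (pr (G x) ((fderiv ℝ Φ y).comp (G x)) - ⟪F x, Φ y⟫) with hT
  set Z : ℕ → D n → ℝ := fun k x =>
    -(g x * pr (G x) ((fderiv ℝ Φ (w k x)).comp (fderiv ℝ (w k) x - G x))) with hZ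
  have mT : ∀ y : D n → V m, StronglyMeasurable y → StronglyMeasurable fun x => T x (y x) := by
    intro y hy
    have a1 : StronglyMeasurable fun x => Φ (y x) := cΦ.comp_stronglyMeasurable hy
    have a2 : StronglyMeasurable fun x => fderiv ℝ Φ (y x) := cD.comp_stronglyMeasurable hy
    exact (pr_meas S.mG (smr_meas cg.stronglyMeasurable a1)).add
      (g1.continuous.stronglyMeasurable.mul ((limT_meas S.mG a2 S.mG).sub (S.mF.inner a1)))
  set bd : D n → ℝ := fun x => n * B * (‖fderiv ℝ g x‖ + L4 * fro (G x) ^ n)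
    + L3 * (n * B * (fro (G x) ^ n + ‖G x‖ ^ n) + ‖F x‖ * B) with hbd
  have ibd : Integrable bd :=
    (((cg.integrable_of_hasCompactSupport (g2.fderiv ℝ)).norm.add
      (ifro.const_mul L4)).const_mul _).add
      ((((ifro.add iG).const_mul _).add (S.lF.norm.mul_const _)).const_mul _)
  have bT : ∀ x y, ‖T x y‖ ≤ bd x := fun x y => by
    have a1 : |pr (G x) ((fderiv ℝ g x).smulRight (Φ y))| ≤
        n * B * (‖fderiv ℝ g x‖ + L4 * fro (G x) ^ n) := by
      refine (abs_pr_le hn _ _).trans ?_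
      rw [ContinuousLinearMap.norm_smulRight_apply]
      have q1 : fro (G x) ^ (n - 1) * ‖fderiv ℝ g x‖ ≤ ‖fderiv ℝ g x‖ + L4 * fro (G x) ^ n := by
        have := mul_le_mul_of_nonneg_right (test_pow_le hn (f0 x)) (norm_nonneg (fderiv ℝ g x))
        have := mul_le_mul_of_nonneg_left (hL4 x) (pow_nonneg (f0 x) n)
        nlinarith
      calc (n : ℝ) * (fro (G x) ^ (n - 1) * (‖fderiv ℝ g x‖ * ‖Φ y‖))
          = n * ‖Φ y‖ * (fro (G x) ^ (n - 1) * ‖fderiv ℝ g x‖) := by ring
        _ ≤ _ := by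
          have := b0 y
          have := pow_nonneg (f0 x) (n - 1)
          gcongr
    have a2 : |pr (G x) ((fderiv ℝ Φ y).comp (G x))| ≤ n * B * (fro (G x) ^ n + ‖G x‖ ^ n) := by
      refine (hc x y _).trans (mul_le_mul_of_nonneg_left ?_ (by positivity))
      obtain ⟨k0, rfl⟩ : ∃ k, n = k + 1 := ⟨n - 1, by omega⟩
      simpa using limT_young k0 (f0 x) (norm_nonneg (G x)) one_pos
    have a3 : |⟪F x, Φ y⟫| ≤ ‖F x‖ * B :=
      (abs_real_inner_le_norm _ _).trans (mul_le_mul_of_nonneg_left (b0 y) (norm_nonneg _))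
    rw [Real.norm_eq_abs, hT, hbd]
    refine (abs_add_le _ _).trans (add_le_add a1 ?_)
    rw [abs_mul]
    exact mul_le_mul (hL3 x) ((abs_sub _ _).trans (add_le_add a2 a3)) (abs_nonneg _) L30
  have cT : ∀ x, Continuous (T x) := fun x => by
    have a2 : Continuous fun y => (fderiv ℝ g x).smulRight (Φ y) :=
      (ContinuousLinearMap.smulRightL ℝ (D n) (V m) (fderiv ℝ g x)).continuous.comp cΦ
    exact (pr_cont1 _ a2).add
      (continuous_const.mul ((limT_cont _ cD).sub (continuous_const.inner cΦ)))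
  have T0 : ∀ x y, x ∉ closedBall x0 R → T x y = 0 := fun x y hx => by
    simp [hT, (hout x hx).1, (hout x hx).2, pr, col]
  have lim1 : Tendsto (fun k => ∫ x, T x (w k x)) atTop (𝓝 (∫ x, T x (u x))) := by
    refine tendsto_integral_of_dominated_convergence bd
      (fun k => (mT _ (hw.sm k).continuous.stronglyMeasurable).aestronglyMeasurable) ibd
      (fun k => ae_of_all _ fun x => bT x _) ?_
    filter_upwards [(ae_restrict_iff' measurableSet_closedBall).1 hw.ae] with x hx
    by_cases h : x ∈ closedBall x0 R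
    · exact ((cT x).tendsto _).comp (hx h)
    · simp only [T0 x _ h]; exact tendsto_const_nhds
  have lim2 : Tendsto (fun k => ∫ x, Z k x) atTop (𝓝 0) := by
    obtain ⟨k0, rfl⟩ : ∃ k, n = k + 1 := ⟨n - 1, by omega⟩
    have h3 := limT_small (μ := volume.restrict (closedBall x0 R)) k0 f0 ifro.integrableOn hw.lG
    set c : ℝ := L3 * (((k0 + 1 : ℕ) : ℝ) * B) with hc2
    have c0 : 0 ≤ c := by positivity
    have h4 := ENNReal.Tendsto.const_mul (a := ENNReal.ofReal c) h3
      (Or.inr ENNReal.ofReal_ne_top)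
    rw [mul_zero] at h4
    rw [tendsto_zero_iff_enorm_tendsto_zero]
    refine tendsto_of_tendsto_of_tendsto_of_le_of_le tendsto_const_nhds h4 (fun _ => zero_le)
      fun k => (enorm_integral_le_lintegral_enorm _).trans ?_
    rw [← lintegral_const_mul' _ _ ENNReal.ofReal_ne_top,
      ← lintegral_indicator measurableSet_closedBall]
    refine lintegral_mono fun x => ?_
    by_cases h : x ∈ closedBall x0 R
    · rw [indicator_of_mem h, ← ENNReal.ofReal_mul c0, ← ofReal_norm]
      refine ENNReal.ofReal_le_ofReal ?_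
      rw [hZ, norm_neg, Real.norm_eq_abs, abs_mul, hc2, mul_assoc]
      exact mul_le_mul (hL3 x) (hc x _ _) (abs_nonneg _) L30
    · simp [hZ, (hout x h).1]
  have key : ∀ k, ∫ x, T x (w k x) = ∫ x, Z k x := fun k => by
    have s1 : ContDiff ℝ 1 (w k) := (hw.sm k).of_le (by simp)
    have s2 : ContDiff ℝ 1 fun x => Φ (w k x) := h1.comp s1
    have s3 : ContDiff ℝ 1 fun x => g x • Φ (w k x) := (g1.of_le (by simp)).smul s2
    have s4 : HasCompactSupport fun x => g x • Φ (w k x) := g2.smul_right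
    have s5 : tsupport (fun x => g x • Φ (w k x)) ⊆ Ω :=
      ((tsupport_smul_subset_left _ _).trans g3).trans hK
    have e := S.eq1 hn _ s3 s4 s5
    have d : ∀ x, fderiv ℝ (fun x => g x • Φ (w k x)) x =
        g x • (fderiv ℝ Φ (w k x)).comp (fderiv ℝ (w k) x) +
          (fderiv ℝ g x).smulRight (Φ (w k x)) := fun x => by
      have d1 := ((h1.differentiable one_ne_zero (w k x)).hasFDerivAt.comp x
        (s1.differentiable one_ne_zero x).hasFDerivAt)
      exact ((g1.differentiable (by simp) x).hasFDerivAt.smul d1).fderiv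
    have iT : Integrable fun x => T x (w k x) := ibd.mono'
      (mT _ (hw.sm k).continuous.stronglyMeasurable).aestronglyMeasurable
      (ae_of_all _ fun x => bT x _)
    have i1 := test_pr_int hn S.mG S.lG (s3.continuous_fderiv one_ne_zero) (s4.fderiv ℝ)
    have i2 := test_inner_int S.lF s3.continuous s4
    have e2 : ∀ x, Z k x = T x (w k x) -
        (pr (G x) (fderiv ℝ (fun x => g x • Φ (w k x)) x) - ⟪F x, g x • Φ (w k x)⟫) := fun x => by
      have e3 : (fderiv ℝ Φ (w k x)).comp (fderiv ℝ (w k) x) =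
          (fderiv ℝ Φ (w k x)).comp (fderiv ℝ (w k) x - G x) +
            (fderiv ℝ Φ (w k x)).comp (G x) := by
        rw [← ContinuousLinearMap.comp_add, sub_add_cancel]
      rw [d, hT, hZ, inner_smul_right, pr_add, pr_smul, e3, pr_add]
      ring
    simp only [e2]
    have i3 : Integrable fun x => pr (G x) (fderiv ℝ (fun x => g x • Φ (w k x)) x) -
        ⟪F x, g x • Φ (w k x)⟫ := i1.sub i2
    rw [integral_sub iT i3, integral_sub i1 i2, e, sub_self, sub_zero]
  simp only [key] at lim1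
  exact tendsto_nhds_unique lim1 lim2

/-- The weak equation tested with a cut-off times the bounded solution. -/
theorem test_u (hn : 2 ≤ n) {Ω : Set (D n)} {u : D n → V m} {G : D n → D n →L[ℝ] V m}
    {F : D n → V m} (S : GSol Ω u G F) {L : ℝ} (hL : 0 < L) (hb : ∀ᵐ x, x ∈ Ω → ‖u x‖ ≤ L)
    {x0 : D n} {R : ℝ} (hK : closedBall x0 R ⊆ Ω) {g : D n → ℝ} (g1 : ContDiff ℝ ∞ g)
    (g2 : HasCompactSupport g) (g3 : tsupport g ⊆ closedBall x0 R) :
    ∫ x, (pr (G x) ((fderiv ℝ g x).smulRight (u x)) +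
      g x * (fro (G x) ^ n - ⟪F x, u x⟫)) = 0 := by
  let χ : ContDiffBump (0 : V m) := ⟨2 * L, 3 * L, by positivity, by linarith⟩
  have h1 : ContDiff ℝ 1 fun y : V m => χ y • y := χ.contDiff.smul contDiff_id
  have h2 : HasCompactSupport fun y : V m => χ y • y := χ.hasCompactSupport.smul_right
  obtain ⟨B1, B10, hB1⟩ := tr_bdd h1.continuous h2
  obtain ⟨B2, B20, hB2⟩ := bdd_fderiv h1 h2
  rw [← test_comp hn S h1 (B := B1 + B2) (fun y => by linarith [hB1 y])
    (fun y => by linarith [hB2 y]) hK g1 g2 g3]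
  refine integral_congr_ae ?_
  filter_upwards [hb] with x hx
  by_cases h : x ∈ closedBall x0 R
  · have e1 : (fun y : V m => χ y • y) =ᶠ[𝓝 (u x)] id := by
      have : u x ∈ ball (0 : V m) (2 * L) := by
        rw [mem_ball_zero_iff]; linarith [hx (hK h)]
      filter_upwards [isOpen_ball.mem_nhds this] with y hy
      rw [χ.one_of_mem_closedBall (ball_subset_closedBall hy), one_smul, id]
    have e2 : χ (u x) • u x = u x := e1.eq_of_nhds
    rw [e1.fderiv_eq, fderiv_id, ContinuousLinearMap.id_comp, pr_self hn, e2]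
  · have z1 : g x = 0 := image_eq_zero_of_notMem_tsupport fun h4 => h (g3 h4)
    have z2 : fderiv ℝ g x = 0 :=
      image_eq_zero_of_notMem_tsupport fun h4 => h (g3 (tsupport_fderiv_subset ℝ h4))
    simp [z1, z2, pr, col]

end Pool.Agent.Lib.MP_a785f2_an.LY
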