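import Pool.Agent.Lib.MP_a785f2_an.LY.AC

/-!
The Lyapunov function on the trunk: pure one-variable calculus for absolutely continuous curves.
-/

open MeasureTheory Set Filter Topology
open scoped RealInnerProductSpace

namespace Pool.Agent.Lib.MP_a785f2_an.LY

variable {W : Type} [NormedAddCommGroup W] [InnerProductSpace ℝ W]

/-- Cauchy-Schwarz for a symmetric nonnegative form, with one extra coordinate. -/
theorem form_cs {g : W →L[ℝ] W} (hs : ∀ v w, ⟪g v, w⟫ = ⟪v, g w⟫) (hp : ∀ v, 0 ≤ ⟪g v, v⟫)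
    (x y : W) (ε : ℝ) :
    ⟪g x, y⟫ + ε ^ 2 ≤ √(⟪g x, x⟫ + ε ^ 2) * √(⟪g y, y⟫ + ε ^ 2) := by
  have h1 : ∀ τ : ℝ, 0 ≤ (⟪g y, y⟫ + ε ^ 2) * (τ * τ) + 2 * (⟪g x, y⟫ + ε ^ 2) * τ +
      (⟪g x, x⟫ + ε ^ 2) := fun τ => by
    have h2 := hp (x + τ • y)
    have h3 : ⟪g y, x⟫ = ⟪g x, y⟫ := by rw [hs, real_inner_comm]
    simp only [map_add, map_smul, inner_add_left, inner_add_right, real_inner_smul_left,
      real_inner_smul_right, h3] at h2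
    nlinarith [sq_nonneg (ε * (1 + τ))]
  have h4 := discrim_le_zero h1
  rw [discrim] at h4
  rw [← Real.sqrt_mul (add_nonneg (hp x) (sq_nonneg _))]
  exact Real.le_sqrt_of_sq_le (by nlinarith)

theorem form_sq_le {g : W →L[ℝ] W} (hs : ∀ v w, ⟪g v, w⟫ = ⟪v, g w⟫) (hp : ∀ v, 0 ≤ ⟪g v, v⟫)
    (x : W) : ‖g x‖ ^ 2 ≤ ‖g‖ * ⟪g x, x⟫ := by
  have h1 := form_cs hs hp x (g x) 0
  simp only [ne_eq, OfNat.ofNat_ne_zero, not_false_eq_true, zero_pow, add_zero] at h1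
  rw [real_inner_self_eq_norm_sq, ← Real.sqrt_mul (hp x)] at h1
  have h2 : ⟪g (g x), g x⟫ ≤ ‖g‖ * ‖g x‖ ^ 2 := by
    refine (real_inner_le_norm _ _).trans ?_
    rw [sq, ← mul_assoc]
    exact mul_le_mul_of_nonneg_right (g.le_opNorm _) (norm_nonneg _)
  have h3 : (‖g x‖ ^ 2) ^ 2 ≤ ⟪g x, x⟫ * ⟪g (g x), g x⟫ :=
    (Real.le_sqrt (sq_nonneg _) (mul_nonneg (hp _) (hp _))).1 h1
  rcases (sq_nonneg ‖g x‖).eq_or_lt with h | h
  · rw [← h]; exact mul_nonneg (norm_nonneg g) (hp x)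
  · refine le_of_mul_le_mul_right ?_ h
    nlinarith [mul_le_mul_of_nonneg_left h2 (hp x)]

/-- The minimising direction. -/
theorem dir_le {g : W →L[ℝ] W} (hs : ∀ v w, ⟪g v, w⟫ = ⟪v, g w⟫) (hp : ∀ v, 0 ≤ ⟪g v, v⟫)
    (x : W) {ε t tm : ℝ} (hε : 0 < ε) (h0 : 0 ≤ t) (h1 : t ≤ tm) :
    ‖(-(t / √(⟪g x, x⟫ + ε ^ 2))) • g x‖ ^ 2 ≤ tm ^ 2 * ‖g‖ := by
  have h2 : 0 < ⟪g x, x⟫ + ε ^ 2 := add_pos_of_nonneg_of_pos (hp x) (by positivity)
  have h3 : ‖g x‖ ^ 2 ≤ ‖g‖ * (⟪g x, x⟫ + ε ^ 2) :=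
    (form_sq_le hs hp x).trans
      (mul_le_mul_of_nonneg_left (le_add_of_nonneg_right (sq_nonneg _)) (norm_nonneg g))
  rw [norm_smul, mul_pow, Real.norm_eq_abs, sq_abs, neg_sq, div_pow, Real.sq_sqrt h2.le,
    div_mul_eq_mul_div, div_le_iff₀ h2, mul_assoc]
  exact mul_le_mul (pow_le_pow_left₀ h0 h1 2) h3 (sq_nonneg _) (sq_nonneg _)

/-- The dual norm step across a bad interval. -/
theorem dual_step {g2 g3 : W →L[ℝ] W} (hs : ∀ v w, ⟪g3 v, w⟫ = ⟪v, g3 w⟫)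
    (hp : ∀ v, 0 ≤ ⟪g3 v, v⟫) (h2 : ∀ v, ‖v‖ ^ 2 ≤ ⟪g2 v, v⟫) (F2 F3 y2 y3 : W)
    {ε k t2 t3 tm d : ℝ} (hε : 0 < ε) (hk : 0 ≤ k) (h0 : 0 ≤ t3) (h1 : t3 ≤ tm)
    (hg : ‖g3 - g2‖ ≤ d) (hy : ‖y3 - y2‖ ≤ d) (ht : t2 = t3 + (k + tm) * d) :
    -(k * ⟪F2, y2⟫) - t2 * √(⟪g2 F2, F2⟫ + ε ^ 2) ≤
      ⟪F2, (-(t3 / √(⟪g3 F3, F3⟫ + ε ^ 2))) • g3 F3 - k • y3⟫ -
        t3 / √(⟪g3 F3, F3⟫ + ε ^ 2) * ε ^ 2 := by
  have d0 : 0 ≤ d := (norm_nonneg _).trans hy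
  have p3 : 0 < ⟪g3 F3, F3⟫ + ε ^ 2 := add_pos_of_nonneg_of_pos (hp _) (by positivity)
  have p2 : ‖F2‖ ^ 2 ≤ ⟪g2 F2, F2⟫ + ε ^ 2 := (h2 F2).trans (le_add_of_nonneg_right (sq_nonneg _))
  set N3 := √(⟪g3 F3, F3⟫ + ε ^ 2) with hN3
  set N2 := √(⟪g2 F2, F2⟫ + ε ^ 2) with hN2
  have n3 : 0 < N3 := Real.sqrt_pos.2 p3
  have n2 : ‖F2‖ ≤ N2 := Real.le_sqrt_of_sq_le p2
  have n2' : N2 ^ 2 = ⟪g2 F2, F2⟫ + ε ^ 2 := Real.sq_sqrt ((sq_nonneg _).trans p2)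
  have n0 : 0 ≤ N2 := Real.sqrt_nonneg _
  have a1 : ⟪g3 F2, F2⟫ ≤ ⟪g2 F2, F2⟫ + d * ‖F2‖ ^ 2 := by
    have e : g3 F2 = g2 F2 + (g3 - g2) F2 := by simp
    have b1 := real_inner_le_norm ((g3 - g2) F2) F2
    have b2 := mul_le_mul_of_nonneg_right ((g3 - g2).le_of_opNorm_le hg F2) (norm_nonneg F2)
    rw [e, inner_add_left]
    nlinarith
  have a2 : √(⟪g3 F2, F2⟫ + ε ^ 2) ≤ N2 * (1 + d) := by
    refine Real.sqrt_le_iff.2 ⟨by positivity, ?_⟩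
    have b1 := mul_le_mul_of_nonneg_left p2 d0
    have b2 : 0 ≤ N2 ^ 2 * (d + d ^ 2) := by positivity
    nlinarith
  have a3 : ⟪g3 F3, F2⟫ + ε ^ 2 ≤ N3 * (N2 * (1 + d)) :=
    (form_cs hs hp F3 F2 ε).trans (mul_le_mul_of_nonneg_left a2 n3.le)
  have a4 : t3 / N3 * (⟪g3 F3, F2⟫ + ε ^ 2) ≤ t3 * (N2 * (1 + d)) := by
    refine (mul_le_mul_of_nonneg_left a3 (div_nonneg h0 n3.le)).trans (le_of_eq ?_)
    field_simp
  have a5 : ⟪F2, y3⟫ - ⟪F2, y2⟫ ≤ N2 * d := by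
    rw [← inner_sub_right]
    exact (real_inner_le_norm _ _).trans (mul_le_mul n2 hy (norm_nonneg _) n0)
  have a6 := mul_le_mul_of_nonneg_left a5 hk
  have a7 : t3 * (N2 * d) ≤ tm * (N2 * d) := mul_le_mul_of_nonneg_right h1 (by positivity)
  rw [inner_sub_right, real_inner_smul_right, real_inner_smul_right, real_inner_comm (g3 F3) F2,
    ht]
  nlinarith

/-- The trunk inequality. `M s + ⟪F s, Z⟫` is the flux functional of the ball of parameter `s`. -/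
theorem trunk {s0 s1 k t1 tm lam : ℝ} (h01 : s0 ≤ s1) (hk : 0 ≤ k) (ht : 0 ≤ t1) (hm : 0 ≤ tm)
    (htm : t1 + (k + tm) * lam ≤ tm)
    {M M' b r : ℝ → ℝ} {F F' y y' : ℝ → W} {g g' : ℝ → W →L[ℝ] W}
    (aM : AbsolutelyContinuousOnInterval M s0 s1) (aF : AbsolutelyContinuousOnInterval F s0 s1)
    (ay : AbsolutelyContinuousOnInterval y s0 s1) (ag : AbsolutelyContinuousOnInterval g s0 s1)
    (hd : ∀ᵐ s, s ∈ Ioo s0 s1 → HasDerivAt M (M' s) s ∧ HasDerivAt F (F' s) s ∧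
      HasDerivAt y (y' s) s ∧ HasDerivAt g (g' s) s ∧ ‖y' s‖ ≤ b s ∧ ‖g' s‖ ≤ b s)
    (hb : IntervalIntegrable b volume s0 s1) (hr : IntervalIntegrable r volume s0 s1)
    (hg : ∀ s ∈ Icc s0 s1, (∀ v w, ⟪g s v, w⟫ = ⟪v, g s w⟫) ∧ ∀ v, ‖v‖ ^ 2 ≤ ⟪g s v, v⟫)
    {ι : Type} [Countable ι] {α β : ι → ℝ} (hα : ∀ i, s0 ≤ α i) (hαβ : ∀ i, α i ≤ β i)
    (hβ : ∀ i, β i ≤ s1) (hdis : Pairwise fun i j => Disjoint (Ioo (α i) (β i)) (Ioo (α j) (β j)))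
    {W0 : Set ℝ} (hW0 : MeasurableSet W0)
    (hW : ∫ s in Ioo s0 s1 ∩ ((⋃ i, Ioo (α i) (β i)) ∪ W0), b s ≤ lam)
    (hJ : ∀ i T, ‖T‖ ^ 2 ≤ tm ^ 2 * ‖g (β i)‖ → ∫ s in α i..β i, r s ≤
      M (β i) + ⟪F (β i), T - k • y (β i)⟫ - (M (α i) + ⟪F (α i), T - k • y (β i)⟫))
    (hgood : ∀ᵐ s, s ∈ Ioo s0 s1 → s ∉ ⋃ i, Ioo (α i) (β i) → ∃ ν : ℝ, 0 ≤ ν ∧
      ⟪g s (F s), F' s⟫ + ⟪g' s (F s), F s⟫ / 2 ≤ ν * ‖F s‖ ∧
      (s ∈ W0 → r s ≤ M' s - k * ⟪F' s, y s⟫ - tm * ν) ∧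
      (s ∉ W0 → r s ≤ M' s - k * ⟪F' s, y s⟫ - tm * ν - k * ⟪F s, y' s⟫))
    {Z : W} (hZ : ‖Z + k • y s1‖ ≤ t1) {q0 : ℝ}
    (hq : ∀ T, ‖T‖ ^ 2 ≤ tm ^ 2 * ‖g s0‖ → q0 ≤ M s0 + ⟪F s0, T - k • y s0⟫) :
    q0 + ∫ s in s0..s1, r s ≤ M s1 + ⟪F s1, Z⟫ := by
  set O : Set ℝ := ⋃ i, Ioo (α i) (β i) with hO
  have mO : MeasurableSet O := MeasurableSet.iUnion fun _ => measurableSet_Ioo
  have m0 : s0 ∈ Icc s0 s1 := left_mem_Icc.2 h01
  have m1 : s1 ∈ Icc s0 s1 := right_mem_Icc.2 h01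
  have uI : uIcc s0 s1 = Icc s0 s1 := uIcc_of_le h01
  have sub : ∀ {u v : ℝ}, u ∈ Icc s0 s1 → v ∈ Icc s0 s1 → uIcc u v ⊆ uIcc s0 s1 := fun hu hv =>
    uIcc_subset_uIcc (uI ▸ hu) (uI ▸ hv)
  have mα : ∀ i, α i ∈ Icc s0 s1 := fun i => ⟨hα i, (hαβ i).trans (hβ i)⟩
  have mβ : ∀ i, β i ∈ Icc s0 s1 := fun i => ⟨(hα i).trans (hαβ i), hβ i⟩
  have hp : ∀ s ∈ Icc s0 s1, ∀ v, 0 ≤ ⟪g s v, v⟫ := fun s hs v => (sq_nonneg _).trans ((hg s hs).2 v)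
  set c : ℝ → ℝ := (O ∪ W0).indicator b with hc
  have ic : IntervalIntegrable c volume s0 s1 := ⟨hb.1.indicator (mO.union hW0), hb.2.indicator (mO.union hW0)⟩
  have ic' : ∀ {u v : ℝ}, u ∈ Icc s0 s1 → v ∈ Icc s0 s1 → IntervalIntegrable c volume u v :=
    fun hu hv => ic.mono_set (sub hu hv)
  have c0 : ∀ u ∈ Icc s0 s1, ∀ v ∈ Icc s0 s1, u ≤ v → 0 ≤ ∫ s in u..v, c s := by
    intro u hu v hv huv
    rw [intervalIntegral.integral_of_le huv, integral_Ioc_eq_integral_Ioo]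
    refine setIntegral_nonneg_ae measurableSet_Ioo ?_
    filter_upwards [hd] with s hs hm
    have h1 := (hs (Ioo_subset_Ioo hu.1 hv.2 hm)).2.2.2.2.1
    exact indicator_apply_nonneg fun _ => (norm_nonneg _).trans h1
  have c1 : ∫ s in s0..s1, c s ≤ lam := by
    rw [intervalIntegral.integral_of_le h01, integral_Ioc_eq_integral_Ioo, hc,
      setIntegral_indicator (mO.union hW0)]
    exact hW
  set t : ℝ → ℝ := fun s => t1 - (k + tm) * ∫ v in s1..s, c v with htd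
  have km : 0 ≤ k + tm := add_nonneg hk hm
  have tb : ∀ s ∈ Icc s0 s1, 0 ≤ t s ∧ t s ≤ tm := by
    intro s hs
    have h1 := c0 s hs s1 m1 hs.2
    have h2 := c0 s0 m0 s hs hs.1
    have h3 := intervalIntegral.integral_add_adjacent_intervals (ic' m0 hs) (ic' hs m1)
    have h4 : t s = t1 + (k + tm) * ∫ v in s..s1, c v := by
      simp only [htd]; rw [intervalIntegral.integral_symm s s1]; ring
    have h5 : (k + tm) * ∫ v in s..s1, c v ≤ (k + tm) * lam :=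
      mul_le_mul_of_nonneg_left (by linarith) km
    have h6 := mul_nonneg km h1
    constructor <;> linarith
  have at' : AbsolutelyContinuousOnInterval t s0 s1 :=
    (ac_const t1 s0 s1).sub ((ac_prim ic (uI ▸ m1)).const_mul (k + tm))
  refine le_of_forall_pos_le_add fun η hη => ?_
  obtain ⟨ε, hε, hεη⟩ : ∃ ε : ℝ, 0 < ε ∧ tm * ε ≤ η :=
    ⟨η / (tm + 1), by positivity, by
      rw [← mul_div_assoc, div_le_iff₀ (by positivity)]; nlinarith⟩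
  set N : ℝ → ℝ := fun s => √(⟪g s (F s), F s⟫ + ε ^ 2) with hN
  have Nε : ∀ s ∈ Icc s0 s1, ε ≤ N s := fun s hs =>
    Real.le_sqrt_of_sq_le (le_add_of_nonneg_left (hp s hs _))
  have NF : ∀ s ∈ Icc s0 s1, ‖F s‖ ≤ N s := fun s hs =>
    Real.le_sqrt_of_sq_le (((hg s hs).2 _).trans (le_add_of_nonneg_right (sq_nonneg _)))
  have aN : AbsolutelyContinuousOnInterval N s0 s1 :=
    ac_sqrt hε ((ac_inner (ac_apply ag aF) aF).add (ac_const (ε ^ 2) s0 s1)) fun s hs =>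
      le_add_of_nonneg_left (hp s (uI ▸ hs) _)
  set q : ℝ → ℝ := fun s => M s - k * ⟪F s, y s⟫ - t s * N s with hqd
  have aq : AbsolutelyContinuousOnInterval q s0 s1 :=
    (aM.sub ((ac_inner aF ay).const_mul k)).sub (at'.mul aN)
  have ex : ∀ s ∈ Icc s0 s1, q s = M s + ⟪F s, (-(t s / N s)) • g s (F s) - k • y s⟫ -
      t s / N s * ε ^ 2 := by
    intro s hs
    have h1 : 0 < N s := hε.trans_le (Nε s hs)
    have h2 : N s ^ 2 = ⟪g s (F s), F s⟫ + ε ^ 2 := Real.sq_sqrt (add_nonneg (hp s hs _) (sq_nonneg _))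
    have h3 : t s * N s = t s / N s * (⟪g s (F s), F s⟫ + ε ^ 2) := by
      rw [← h2]; field_simp
    simp only [hqd]
    rw [inner_sub_right, real_inner_smul_right, real_inner_smul_right,
      real_inner_comm (g s (F s)) (F s), h3]
    ring
  have e0 : q0 - tm * ε ≤ q s0 := by
    have h1 := hq _ (dir_le (hg s0 m0).1 (hp s0 m0) (F s0) hε (tb s0 m0).1 (tb s0 m0).2)
    have h2 : 0 < N s0 := hε.trans_le (Nε s0 m0)
    have h3 : t s0 / N s0 * ε ^ 2 ≤ tm * ε := by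
      rw [div_mul_eq_mul_div, div_le_iff₀ h2, sq, ← mul_assoc]
      exact mul_le_mul (mul_le_mul_of_nonneg_right (tb s0 m0).2 hε.le) (Nε s0 m0) hε.le
        (mul_nonneg hm hε.le)
    rw [ex s0 m0]
    linarith
  have e1 : q s1 ≤ M s1 + ⟪F s1, Z⟫ := by
    have h1 : t s1 = t1 := by simp [htd]
    have h2 := abs_real_inner_le_norm (F s1) (Z + k • y s1)
    have h3 : ‖F s1‖ * ‖Z + k • y s1‖ ≤ N s1 * t1 :=
      mul_le_mul (NF s1 m1) hZ (norm_nonneg _) (Real.sqrt_nonneg _)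
    have h4 := neg_abs_le ⟪F s1, Z + k • y s1⟫
    rw [inner_add_right, real_inner_smul_right] at h2 h4
    simp only [hqd, h1]
    linarith
  have eJ : ∀ i, ∫ s in α i..β i, r s ≤ q (β i) - q (α i) := by
    intro i
    have h1 := hJ i _ (dir_le (hg _ (mβ i)).1 (hp _ (mβ i)) (F (β i)) hε (tb _ (mβ i)).1
      (tb _ (mβ i)).2)
    have hbi := hb.mono_set (sub (mα i) (mβ i))
    have sI : Ioo (α i) (β i) ⊆ Ioo s0 s1 := Ioo_subset_Ioo (hα i) (hβ i)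
    have h2 : ‖g (β i) - g (α i)‖ ≤ ∫ s in α i..β i, b s :=
      ac_norm_sub_le (f' := g') (hαβ i) (ag.mono (sub (mα i) (mβ i))) hbi (by
        filter_upwards [hd] with s hs hm
        exact ⟨(hs (sI hm)).2.2.2.1, (hs (sI hm)).2.2.2.2.2⟩)
    have h3 : ‖y (β i) - y (α i)‖ ≤ ∫ s in α i..β i, b s :=
      ac_norm_sub_le (f' := y') (hαβ i) (ay.mono (sub (mα i) (mβ i))) hbi (by
        filter_upwards [hd] with s hs hm
        exact ⟨(hs (sI hm)).2.2.1, (hs (sI hm)).2.2.2.2.1⟩)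
    have h4 : ∫ s in α i..β i, c s = ∫ s in α i..β i, b s := by
      rw [intervalIntegral.integral_of_le (hαβ i), intervalIntegral.integral_of_le (hαβ i),
        integral_Ioc_eq_integral_Ioo, integral_Ioc_eq_integral_Ioo]
      exact setIntegral_congr_fun measurableSet_Ioo fun s hs =>
        indicator_of_mem (mem_union_left W0 (mem_iUnion.2 ⟨i, hs⟩)) b
    have h5 : t (α i) = t (β i) + (k + tm) * ∫ s in α i..β i, b s := by
      have h6 := intervalIntegral.integral_add_adjacent_intervals (ic' m1 (mα i))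
        (ic' (mα i) (mβ i))
      simp only [htd]
      rw [← h6, h4]; ring
    have h7 := dual_step (hg _ (mβ i)).1 (hp _ (mβ i)) (hg _ (mα i)).2 (F (α i)) (F (β i))
      (y (α i)) (y (β i)) hε hk (tb _ (mβ i)).1 (tb _ (mβ i)).2 h2 h3 h5
    rw [ex _ (mβ i)]
    simp only [hqd, hN] at h1 h7 ⊢
    linarith
  have eG : ∀ᵐ s, s ∈ Ioo s0 s1 \ O → 0 ≤ deriv q s - r s := by
    filter_upwards [hd, hgood, ic.ae_hasDerivAt_integral] with s h1 h2 h3 hs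
    have ms : s ∈ Icc s0 s1 := Ioo_subset_Icc_self hs.1
    obtain ⟨dM, dF, dy, dg, by', -⟩ := h1 hs.1
    obtain ⟨ν, ν0, hν, k1, k2⟩ := h2 hs.1 hs.2
    have dt : HasDerivAt t (-((k + tm) * c s)) s :=
      ((h3 (uI ▸ ms) s1 (uI ▸ m1)).const_mul (k + tm)).const_sub t1
    have Np : 0 < N s := hε.trans_le (Nε s ms)
    have dS := ((dg.clm_apply dF).inner ℝ dF).add_const (ε ^ 2)
    have dN := dS.sqrt (add_pos_of_nonneg_of_pos (hp s ms _) (by positivity)).ne'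
    have dq := (dM.sub ((dF.inner ℝ dy).const_mul k)).sub (dt.mul dN)
    have e : deriv q s = _ := dq.deriv
    have l1 : (⟪g s (F s), F' s⟫ + ⟪g' s (F s) + g s (F' s), F s⟫) / (2 * N s) ≤ ν := by
      rw [div_le_iff₀ (by positivity), inner_add_left, (hg s ms).1 (F' s),
        real_inner_comm (g s (F s)) (F' s)]
      nlinarith [mul_le_mul_of_nonneg_left (NF s ms) ν0]
    have l2 := mul_le_mul_of_nonneg_left l1 (tb s ms).1
    have l3 := mul_le_mul_of_nonneg_right (tb s ms).2 ν0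
    rw [e]
    simp only [hN] at l2 Np
    by_cases hw : s ∈ W0
    · have l4 : c s = b s := indicator_of_mem (mem_union_right O hw) b
      have l5 : ⟪F s, y' s⟫ ≤ N s * b s :=
        (real_inner_le_norm _ _).trans (mul_le_mul (NF s ms) by' (norm_nonneg _) Np.le)
      have l6 := mul_le_mul_of_nonneg_left l5 hk
      have l7 : 0 ≤ tm * (N s * b s) :=
        mul_nonneg hm (mul_nonneg Np.le ((norm_nonneg _).trans by'))
      have l8 := k1 hw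
      simp only [hN] at l6 l7
      rw [l4]
      nlinarith
    · have l4 : c s = 0 := indicator_of_notMem (fun h => h.elim hs.2 hw) b
      have l8 := k2 hw
      rw [l4]
      nlinarith
  have iφ : IntegrableOn (fun s => deriv q s - r s) (Ioo s0 s1) :=
    (intervalIntegrable_iff_integrableOn_Ioo_of_le h01).1 (aq.intervalIntegrable_deriv.sub hr)
  have sO : O ⊆ Ioo s0 s1 := iUnion_subset fun i => Ioo_subset_Ioo (hα i) (hβ i)
  have f1 : 0 ≤ ∫ s in O, (deriv q s - r s) := by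
    rw [hO, integral_iUnion (fun _ => measurableSet_Ioo) hdis (iφ.mono_set sO)]
    refine tsum_nonneg fun i => ?_
    have a1 := aq.mono (sub (mα i) (mβ i))
    rw [← integral_Ioc_eq_integral_Ioo, ← intervalIntegral.integral_of_le (hαβ i),
      intervalIntegral.integral_sub a1.intervalIntegrable_deriv
        (hr.mono_set (sub (mα i) (mβ i))), a1.integral_deriv_eq_sub]
    linarith [eJ i]
  have f2 : 0 ≤ ∫ s in Ioo s0 s1 \ O, (deriv q s - r s) :=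
    setIntegral_nonneg_ae (measurableSet_Ioo.diff mO) eG
  have f3 := integral_inter_add_sdiff mO iφ
  rw [inter_eq_right.2 sO, ← integral_Ioc_eq_integral_Ioo (x := s0),
    ← intervalIntegral.integral_of_le h01,
    intervalIntegral.integral_sub aq.intervalIntegrable_deriv hr, aq.integral_deriv_eq_sub] at f3
  linarith

end Pool.Agent.Lib.MP_a785f2_an.LY
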